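import Mathlib

/-!
# Polynomial space and polynomial time reductions

The class PSPACE and polynomial time many-one reductions, with respect to the deterministic
multi-stack Turing machines of Mathlib (`Turing.FinTM2`), all stack alphabets being finite.
Words are over the alphabet `Option Bool`: the two bits and a separator.
-/

namespace Pool.Agent.Helper69.Mix

/-- Words over the alphabet of the two bits and a separator. -/
abbrev Word : Type := List (Option Bool)

/-- The total number of symbols on the stacks in the configuration `x`. -/
def space (tm : Turing.FinTM2) (x : tm.Cfg) : ℕ :=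
  letI := tm.kFin
  ∑ k, (x.stk k).length

/-- The language `L` is decided in polynomial space: there is a deterministic multi-stack Turing
machine with finite stack alphabets which started on any word `w` halts with output `some true` if
`w` is in `L` and with output `some false` otherwise, such that in every configuration reached
from the initial one the stacks together contain at most `C * (|w| + 1) ^ c` symbols. -/
def InPSPACE (L : Set Word) : Prop :=
  ∃ (tm : Turing.FinTM2) (ein : tm.Γ tm.k₀ ≃ Option Bool) (eout : tm.Γ tm.k₁ ≃ Option Bool)
    (C c : ℕ), (∀ k, Finite (tm.Γ k)) ∧ ∀ w : Word,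
      (w ∈ L → Nonempty (Turing.TM2Outputs tm (w.map ein.symm) (some [eout.symm (some true)]))) ∧
      (w ∉ L → Nonempty (Turing.TM2Outputs tm (w.map ein.symm) (some [eout.symm (some false)]))) ∧
      ∀ x : tm.Cfg, StateTransition.Reaches tm.step (Turing.initList tm (w.map ein.symm)) x →
        space tm x ≤ C * (w.length + 1) ^ c

/-- The function `f` on words is computed in polynomial time. -/
def InFP (f : Word → Word) : Prop :=
  ∃ (tm : Turing.FinTM2) (ein : tm.Γ tm.k₀ ≃ Option Bool) (eout : tm.Γ tm.k₁ ≃ Option Bool)
    (C c : ℕ), (∀ k, Finite (tm.Γ k)) ∧ ∀ w : Word,
      Nonempty (Turing.TM2OutputsInTime tm (w.map ein.symm) (some ((f w).map eout.symm))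
        (C * (w.length + 1) ^ c))

/-- Polynomial time many-one reducibility. -/
def PolyReduces (L L' : Set Word) : Prop := ∃ f : Word → Word, InFP f ∧ ∀ w, w ∈ L ↔ f w ∈ L'

/-- PSPACE-hardness under polynomial time many-one reductions. -/
def PSPACEHard (L : Set Word) : Prop := ∀ L' : Set Word, InPSPACE L' → PolyReduces L' L

/-- PSPACE-completeness under polynomial time many-one reductions. -/
def PSPACEComplete (L : Set Word) : Prop := InPSPACE L ∧ PSPACEHard L

end Pool.Agent.Helper69.Mix
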