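import Mathlib

/-!
# Recolouring: proper colourings as functions, steps, reachability, and a degeneracy lemma
-/

namespace Pool.Agent.Helper69.Mix

open Function

section general

variable {V C : Type}

/-- Proper colourings. -/
def Pr (G : SimpleGraph V) (α : V → C) : Prop := ∀ u v, G.Adj u v → α u ≠ α v

/-- Two proper colourings which differ in at most one vertex. -/
def St (G : SimpleGraph V) (α β : V → C) : Prop :=
  Pr G α ∧ Pr G β ∧ ∃ v, ∀ w, w ≠ v → α w = β w

/-- Reachability by recolouring single vertices. -/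
def Rch (G : SimpleGraph V) : (V → C) → (V → C) → Prop := Relation.ReflTransGen (St G)

/-- All proper colourings with colours `C` are connected. -/
def Mixing (C : Type) (G : SimpleGraph V) : Prop :=
  ∀ α β : V → C, Pr G α → Pr G β → Rch G α β

theorem St.symm {G : SimpleGraph V} {α β : V → C} (h : St G α β) : St G β α := by
  obtain ⟨h1, h2, v, h3⟩ := h
  exact ⟨h2, h1, v, fun w hw => (h3 w hw).symm⟩

theorem Rch.refl {G : SimpleGraph V} (α : V → C) : Rch G α α := Relation.ReflTransGen.refl

theorem Rch.trans {G : SimpleGraph V} {α β γ : V → C} (h : Rch G α β) (h' : Rch G β γ) :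
    Rch G α γ := Relation.ReflTransGen.trans h h'

theorem Rch.symm {G : SimpleGraph V} {α β : V → C} (h : Rch G α β) : Rch G β α := by
  induction h with
  | refl => exact Rch.refl _
  | tail _ h1 ih => exact Relation.ReflTransGen.head h1.symm ih

theorem Rch.single {G : SimpleGraph V} {α β : V → C} (h : St G α β) : Rch G α β :=
  Relation.ReflTransGen.single h

theorem Rch.pr {G : SimpleGraph V} {α β : V → C} (h : Rch G α β) (hα : Pr G α) : Pr G β := by
  induction h with
  | refl => exact hα
  | tail _ h1 _ => exact h1.2.1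

/-- Recolouring one vertex. -/
theorem Rch.upd [DecidableEq V] {G : SimpleGraph V} {α : V → C} (hα : Pr G α) (v : V) (c : C)
    (h : ∀ w, G.Adj v w → α w ≠ c) : Rch G α (update α v c) := by
  refine Rch.single ⟨hα, ?_, v, ?_⟩
  · intro u w huw
    by_cases hu : u = v
    · subst hu
      have hw : w ≠ u := huw.ne'
      rw [update_self, update_of_ne hw]
      exact (h w huw).symm
    · by_cases hw : w = v
      · subst hw
        rw [update_self, update_of_ne hu]
        exact h u huw.symm
      · rw [update_of_ne hu, update_of_ne hw]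
        exact hα u w huw
  · intro w hw
    rw [update_of_ne hw]

theorem Pr.upd [DecidableEq V] {G : SimpleGraph V} {α : V → C} (hα : Pr G α) (v : V) (c : C)
    (h : ∀ w, G.Adj v w → α w ≠ c) : Pr G (update α v c) := (Rch.upd hα v c h).pr hα

/-- Renaming the colours. -/
theorem Pr.comp {C' : Type} {G : SimpleGraph V} {α : V → C} (hα : Pr G α) {σ : C → C'}
    (hσ : Function.Injective σ) : Pr G (σ ∘ α) :=
  fun u v h he => hα u v h (hσ he)

theorem Rch.comp {C' : Type} {G : SimpleGraph V} {α β : V → C} (h : Rch G α β) {σ : C → C'}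
    (hσ : Function.Injective σ) : Rch G (σ ∘ α) (σ ∘ β) := by
  induction h with
  | refl => exact Rch.refl _
  | tail _ h1 ih =>
    refine ih.trans (Rch.single ⟨h1.1.comp hσ, h1.2.1.comp hσ, ?_⟩)
    obtain ⟨v, hv⟩ := h1.2.2
    exact ⟨v, fun w hw => by simp only [Function.comp_apply, hv w hw]⟩

/-- Mixing is invariant under isomorphism. -/
theorem Mixing.iso {W : Type} {G : SimpleGraph V} {H : SimpleGraph W} (e : G ≃g H)
    (h : Mixing C G) : Mixing C H := by
  have key : ∀ α β : V → C, Rch G α β → Rch H (α ∘ e.symm) (β ∘ e.symm) := by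
    intro α β hab
    induction hab with
    | refl => exact Rch.refl _
    | tail _ h1 ih =>
      refine ih.trans (Rch.single ⟨?_, ?_, ?_⟩)
      · intro u v huv
        exact h1.1 _ _ (e.symm.map_rel_iff.mpr huv)
      · intro u v huv
        exact h1.2.1 _ _ (e.symm.map_rel_iff.mpr huv)
      · obtain ⟨v, hv⟩ := h1.2.2
        refine ⟨e v, fun w hw => hv _ ?_⟩
        rintro rfl
        exact hw (by simp)
  intro α β hα hβ
  have h1 := key (α ∘ e) (β ∘ e) (h _ _ (fun u v huv => hα _ _ (e.map_rel_iff.mpr huv))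
    (fun u v huv => hβ _ _ (e.map_rel_iff.mpr huv)))
  have e1 : (α ∘ e) ∘ e.symm = α := by
    funext w
    simp
  have e2 : (β ∘ e) ∘ e.symm = β := by
    funext w
    simp
  rwa [e1, e2] at h1

end general

/-! ### A degeneracy lemma for four colours -/

section degen

variable {V : Type}

/-- The vertices of the list `l` are processed from left to right; in a proper colouring that
agrees with `κ` on `F`, the neighbours of a vertex which come earlier (or are not in the list)
use at most two colours. -/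
def Ok (G : SimpleGraph V) (F : Set V) (κ : V → Fin 4) : List V → Prop
  | [] => True
  | w :: l => (∀ γ : V → Fin 4, Pr G γ → (∀ x ∈ F, γ x = κ x) →
      ∃ c₁ c₂ : Fin 4, ∀ x, G.Adj w x → x ∉ w :: l → γ x = c₁ ∨ γ x = c₂) ∧ Ok G F κ l

theorem exists_col (c₁ c₂ b : Fin 4) : ∃ c : Fin 4, c ≠ c₁ ∧ c ≠ c₂ ∧ c ≠ b := by
  revert c₁ c₂ b
  decide

open Classical in
theorem lift_move {G : SimpleGraph V} {F : Set V} {κ : V → Fin 4} (l : List V) (hnd : l.Nodup)
    (hF : ∀ x ∈ l, x ∉ F) (hok : Ok G F κ l) (γ : V → Fin 4) (hγ : Pr G γ)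
    (hκ : ∀ x ∈ F, γ x = κ x) (v : V) (hv : v ∉ l) (hvF : v ∉ F) (b : Fin 4)
    (hb : ∀ x, G.Adj v x → x ∉ l → γ x ≠ b) :
    ∃ γ', Rch G γ γ' ∧ γ' v = b ∧ ∀ x, x ∉ l → x ≠ v → γ' x = γ x := by
  induction l generalizing γ v b with
  | nil =>
    refine ⟨update γ v b, Rch.upd hγ v b (fun w hw => hb w hw (by simp)), by simp, ?_⟩
    intro x _ hx
    rw [update_of_ne hx]
  | cons w l ih =>
    rw [List.nodup_cons] at hnd
    have hwF : w ∉ F := hF w (by simp)
    have hF' : ∀ x ∈ l, x ∉ F := fun x hx => hF x (by simp [hx])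
    have hvw : v ≠ w := by
      rintro rfl
      simp at hv
    have hvl : v ∉ l := fun h => hv (by simp [h])
    by_cases h : G.Adj v w ∧ γ w = b
    · obtain ⟨c₁, c₂, hc⟩ := hok.1 γ hγ hκ
      obtain ⟨c, h1, h2, h3⟩ := exists_col c₁ c₂ b
      obtain ⟨γ₁, hr₁, hw₁, ha₁⟩ := ih hnd.2 hF' hok.2 γ hγ hκ w hnd.1 hwF c (by
        intro x hx hxl hxc
        have hxw : x ∉ w :: l := by
          intro hm
          rcases List.mem_cons.mp hm with rfl | hm
          · exact G.loopless.irrefl _ hx
          · exact hxl hm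
        rcases hc x hx hxw with h4 | h4
        · exact h1 (hxc.symm.trans h4)
        · exact h2 (hxc.symm.trans h4))
      have hκ₁ : ∀ x ∈ F, γ₁ x = κ x := by
        intro x hx
        rw [ha₁ x (fun hm => hF' x hm hx) (fun he => hwF (he ▸ hx))]
        exact hκ x hx
      obtain ⟨γ₂, hr₂, hw₂, ha₂⟩ := ih hnd.2 hF' hok.2 γ₁ (hr₁.pr hγ) hκ₁ v hvl hvF b (by
        intro x hx hxl
        by_cases hxw : x = w
        · rw [hxw, hw₁]
          exact h3
        · rw [ha₁ x hxl hxw]
          refine hb x hx ?_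
          intro hm
          rcases List.mem_cons.mp hm with h4 | hm
          · exact hxw h4
          · exact hxl hm)
      refine ⟨γ₂, hr₁.trans hr₂, hw₂, ?_⟩
      intro x hx hxv
      rw [ha₂ x (fun hm => hx (by simp [hm])) hxv,
        ha₁ x (fun hm => hx (by simp [hm])) (fun he => hx (by simp [he]))]
    · obtain ⟨γ₁, hr₁, hw₁, ha₁⟩ := ih hnd.2 hF' hok.2 γ hγ hκ v hvl hvF b (by
        intro x hx hxl hxb
        by_cases hxw : x = w
        · subst hxw
          exact h ⟨hx, hxb⟩
        · refine hb x hx ?_ hxb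
          intro hm
          rcases List.mem_cons.mp hm with h4 | hm
          · exact hxw h4
          · exact hxl hm)
      exact ⟨γ₁, hr₁, hw₁, fun x hx hxv => ha₁ x (fun hm => hx (by simp [hm])) hxv⟩

open Classical in
theorem connect {G : SimpleGraph V} {F : Set V} {κ : V → Fin 4} (l : List V) (hnd : l.Nodup)
    (hF : ∀ x ∈ l, x ∉ F) (hok : Ok G F κ l) (γ δ : V → Fin 4) (hγ : Pr G γ) (hδ : Pr G δ)
    (hκ : ∀ x ∈ F, γ x = κ x) (hag : ∀ x, x ∉ l → γ x = δ x) : Rch G γ δ := by
  induction l generalizing γ with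
  | nil =>
    have : γ = δ := funext fun x => hag x (by simp)
    rw [this]
    exact Rch.refl _
  | cons w l ih =>
    rw [List.nodup_cons] at hnd
    have hwF : w ∉ F := hF w (by simp)
    have hF' : ∀ x ∈ l, x ∉ F := fun x hx => hF x (by simp [hx])
    obtain ⟨γ', hr, hw, ha⟩ := lift_move l hnd.2 hF' hok.2 γ hγ hκ w hnd.1 hwF (δ w) (by
      intro x hx hxl
      have hxw : x ≠ w := hx.ne'
      rw [hag x (by simp [hxw, hxl])]
      exact hδ x w hx.symm)
    refine hr.trans (ih hnd.2 hF' hok.2 γ' (hr.pr hγ) ?_ ?_)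
    · intro x hx
      rw [ha x (fun hm => hF' x hm hx) (fun he => hwF (he ▸ hx))]
      exact hκ x hx
    · intro x hx
      by_cases hxw : x = w
      · rw [hxw, hw]
      · rw [ha x hx hxw]
        exact hag x (by simp [hxw, hx])

/-- A graph which is degenerate relative to the colours on `F`: any two proper colourings that
agree with `κ` on `F` are connected. -/
theorem degen [Finite V] {G : SimpleGraph V} (F : Set V) (κ : V → Fin 4) (rk : V → ℕ)
    (H : ∀ w, w ∉ F → ∀ γ : V → Fin 4, Pr G γ → (∀ x ∈ F, γ x = κ x) →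
      ∃ c₁ c₂ : Fin 4, ∀ x, G.Adj w x → (x ∈ F ∨ rk x ≤ rk w) → γ x = c₁ ∨ γ x = c₂)
    (γ δ : V → Fin 4) (hγ : Pr G γ) (hδ : Pr G δ) (hκ : ∀ x ∈ F, γ x = κ x)
    (hκ' : ∀ x ∈ F, δ x = κ x) : Rch G γ δ := by
  classical
  have := Fintype.ofFinite V
  set L := (Finset.univ.filter (fun x => x ∉ F)).toList.insertionSort (fun a b => rk a ≤ rk b)
    with hL
  have hperm : L.Perm (Finset.univ.filter (fun x => x ∉ F)).toList := List.perm_insertionSort _ _
  have hmem : ∀ x, x ∈ L ↔ x ∉ F := by
    intro x
    rw [hperm.mem_iff]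
    simp
  have : Std.Total (fun a b : V => rk a ≤ rk b) := ⟨fun a b => le_total _ _⟩
  have : IsTrans V (fun a b : V => rk a ≤ rk b) := ⟨fun a b c h h' => le_trans h h'⟩
  have hsort : L.Pairwise (fun a b => rk a ≤ rk b) := List.pairwise_insertionSort _ _
  have hnd : L.Nodup := hperm.nodup_iff.mpr (Finset.nodup_toList _)
  have hok : ∀ l₁ l₂, L = l₁ ++ l₂ → Ok G F κ l₂ := by
    intro l₁ l₂
    induction l₂ generalizing l₁ with
    | nil => intro _; exact trivial
    | cons w l₂ ih =>
      intro h
      refine ⟨?_, ih (l₁ ++ [w]) (by simp [h])⟩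
      intro γ hγ hκ
      have hwF : w ∉ F := (hmem w).mp (by rw [h]; simp)
      obtain ⟨c₁, c₂, hc⟩ := H w hwF γ hγ hκ
      refine ⟨c₁, c₂, fun x hx hxl => hc x hx ?_⟩
      by_cases hxF : x ∈ F
      · exact Or.inl hxF
      · right
        have h1 : x ∈ l₁ := by
          have := (hmem x).mpr hxF
          rw [h, List.mem_append] at this
          rcases this with h2 | h2
          · exact h2
          · exact absurd h2 hxl
        rw [h, List.pairwise_append] at hsort
        exact hsort.2.2 x h1 w (by simp)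
  exact connect L hnd (fun x hx => (hmem x).mp hx) (hok [] L rfl) γ δ hγ hδ hκ (by
    intro x hx
    have : x ∈ F := by
      by_contra hxF
      exact hx ((hmem x).mpr hxF)
    rw [hκ x this, hκ' x this])

end degen

end Pool.Agent.Helper69.Mix
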