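import Mathlib
import Pool.Agent.Helper69.Mix.Recol

/-!
# Binary constraint systems and their graphs
-/

namespace Pool.Agent.Helper69.Mix

open Function

/-- A binary constraint system with variables over `Fin 3`; some variables are Boolean (values
`0` and `1`); `forb u a v b` forbids `u = a` and `v = b` simultaneously; `t` is a Boolean
variable. -/
structure Csp where
  V : Type
  bool : V → Prop
  forb : V → Fin 3 → V → Fin 3 → Prop
  t : V
  hne : ∀ u a v b, forb u a v b → u ≠ v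
  ht : bool t

namespace Csp

variable (I : Csp)

/-- Solutions. -/
def Sol (x : I.V → Fin 3) : Prop :=
  (∀ v, I.bool v → x v ≠ 2) ∧ ∀ u a v b, I.forb u a v b → ¬ (x u = a ∧ x v = b)

/-- Changing one variable. -/
def Flip (x y : I.V → Fin 3) : Prop := I.Sol x ∧ I.Sol y ∧ ∃ v, ∀ w, w ≠ v → x w = y w

/-- Every solution can be transformed into a solution with `t = 0`. -/
def ReachAll : Prop :=
  ∀ x, I.Sol x → ∃ y, Relation.ReflTransGen I.Flip x y ∧ y I.t = 0

end Csp

/-- The two intermediate colours of a forbidding path. -/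
def e1 (a b : Fin 3) : Fin 3 := if a = b then a + 1 else b

/-- The two intermediate colours of a forbidding path. -/
def f1 (a b : Fin 3) : Fin 3 := if a = b then a + 2 else a

theorem e1_ne (a b : Fin 3) : e1 a b ≠ a := by
  revert a b
  decide

theorem f1_ne (a b : Fin 3) : f1 a b ≠ b := by
  revert a b
  decide

theorem e1_ne_f1 (a b : Fin 3) : e1 a b ≠ f1 a b := by
  revert a b
  decide

/-- Colours of a forbidding path to the left of its wall. -/
def Lc (a b : Fin 3) : Fin 5 → Fin 4 :=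
  ![a.castSucc, 3, (e1 a b).castSucc, (f1 a b).castSucc, 3]

/-- Colours of a forbidding path to the right of its wall. -/
def Rc (a b : Fin 3) : Fin 5 → Fin 4 :=
  ![3, (e1 a b).castSucc, (f1 a b).castSucc, 3, b.castSucc]

/-- Vertices of the graph of a constraint system. -/
inductive Vx (V : Type) : Type
  | h (j : Fin 4) : Vx V
  | be (c : Fin 3) : Vx V
  | la0 : Vx V
  | la1 : Vx V
  | la2 : Vx V
  | la3 : Vx V
  | va (u : V) : Vx V
  | pa (u : V) (a : Fin 3) (v : V) (b : Fin 3) (i : Fin 5) : Vx V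
  | bl (u : V) (a : Fin 3) (v : V) (b : Fin 3) (i : Fin 5) (c : Fin 3) : Vx V

/-- Edges of the graph of a constraint system. -/
inductive E (I : Csp) : Vx I.V → Vx I.V → Prop
  | hb (j : Fin 4) (c : Fin 3) : j ≠ c.castSucc → E I (.be c) (.h j)
  | l0h (j : Fin 4) : j = 1 → E I .la0 (.h j)
  | l02 : E I .la0 .la2
  | l03 : E I .la0 .la3
  | l1h (j : Fin 4) : j = 0 ∨ j = 1 → E I .la1 (.h j)
  | l13 : E I .la1 .la3
  | l2h (j : Fin 4) : j = 1 ∨ j = 2 → E I .la2 (.h j)
  | l3t (u : I.V) : u = I.t → E I .la3 (.va u)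
  | vh (u : I.V) (j : Fin 4) : j = 3 ∨ (j = 2 ∧ I.bool u) → E I (.va u) (.h j)
  | pu (u : I.V) (a : Fin 3) (v : I.V) (b : Fin 3) (i : Fin 5) (w : I.V) : I.forb u a v b →
      (i = 0 ∧ w = u) ∨ (i = 4 ∧ w = v) → E I (.pa u a v b i) (.va w)
  | pp (u : I.V) (a : Fin 3) (v : I.V) (b : Fin 3) (i j : Fin 5) : I.forb u a v b →
      j.val = i.val + 1 → E I (.pa u a v b i) (.pa u a v b j)
  | ph (u : I.V) (a : Fin 3) (v : I.V) (b : Fin 3) (i : Fin 5) (j : Fin 4) : I.forb u a v b →
      i = 2 → j ≠ Lc a b i → j ≠ Rc a b i → E I (.pa u a v b i) (.h j)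
  | bh (u : I.V) (a : Fin 3) (v : I.V) (b : Fin 3) (i : Fin 5) (c : Fin 3) (j : Fin 4) :
      j ≠ c.castSucc → E I (.bl u a v b i c) (.h j)
  | bp (u : I.V) (a : Fin 3) (v : I.V) (b : Fin 3) (i : Fin 5) (c : Fin 3) : I.forb u a v b →
      i ≠ 2 → c.castSucc ≠ Lc a b i → c.castSucc ≠ Rc a b i →
      E I (.bl u a v b i c) (.pa u a v b i)

/-- The graph of a constraint system. -/
def gr (I : Csp) : SimpleGraph (Vx I.V) := SimpleGraph.fromRel (E I)

theorem E.ne {I : Csp} {x y : Vx I.V} (h : E I x y) : x ≠ y := by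
  cases h <;> simp
  case pp i j h1 h2 =>
    intro h
    rw [h] at h2
    omega

theorem adj_iff {I : Csp} {x y : Vx I.V} : (gr I).Adj x y ↔ E I x y ∨ E I y x := by
  rw [gr, SimpleGraph.fromRel_adj]
  constructor
  · exact fun h => h.2
  · intro h
    refine ⟨?_, h⟩
    rcases h with h | h
    · exact h.ne
    · exact h.ne.symm

theorem pr_iff {I : Csp} {C : Type} {α : Vx I.V → C} :
    Pr (gr I) α ↔ ∀ x y, E I x y → α x ≠ α y := by
  constructor
  · intro h x y hxy
    exact h x y (adj_iff.mpr (Or.inl hxy))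
  · intro h x y hxy
    rcases adj_iff.mp hxy with h1 | h1
    · exact h x y h1
    · exact (h y x h1).symm

instance {V : Type} [Finite V] : Finite (Vx V) := by
  classical
  let T := Fin 4 ⊕ Fin 3 ⊕ Fin 4 ⊕ V ⊕ (V × Fin 3 × V × Fin 3 × Fin 5) ⊕
    (V × Fin 3 × V × Fin 3 × Fin 5 × Fin 3)
  let f : T → Vx V := fun t => match t with
    | .inl j => .h j
    | .inr (.inl c) => .be c
    | .inr (.inr (.inl i)) => if i = 0 then .la0 else if i = 1 then .la1 else
        if i = 2 then .la2 else .la3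
    | .inr (.inr (.inr (.inl u))) => .va u
    | .inr (.inr (.inr (.inr (.inl (u, a, v, b, i))))) => .pa u a v b i
    | .inr (.inr (.inr (.inr (.inr (u, a, v, b, i, c))))) => .bl u a v b i c
  refine Finite.of_surjective f ?_
  intro x
  cases x with
  | h j => exact ⟨.inl j, rfl⟩
  | be c => exact ⟨.inr (.inl c), rfl⟩
  | la0 => exact ⟨.inr (.inr (.inl 0)), rfl⟩
  | la1 => exact ⟨.inr (.inr (.inl 1)), rfl⟩
  | la2 => exact ⟨.inr (.inr (.inl 2)), rfl⟩
  | la3 => exact ⟨.inr (.inr (.inl 3)), rfl⟩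
  | va u => exact ⟨.inr (.inr (.inr (.inl u))), rfl⟩
  | pa u a v b i => exact ⟨.inr (.inr (.inr (.inr (.inl (u, a, v, b, i))))), rfl⟩
  | bl u a v b i c => exact ⟨.inr (.inr (.inr (.inr (.inr (u, a, v, b, i, c))))), rfl⟩

end Pool.Agent.Helper69.Mix
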