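import Mathlib
import Pool.Agent.Helper69.Mix.Csp

/-!
# Constraint systems with binary and ternary constraints
-/

namespace Pool.Agent.Helper69.Mix

open Function

/-- A constraint system with binary constraints `forb` and, for every `k` with `act k`, the
ternary constraint that `lv k i = lc k i` does not hold for all `i`. -/
structure Csp3 where
  V : Type
  bool : V → Prop
  forb : V → Fin 3 → V → Fin 3 → Prop
  t : V
  K : Type
  act : K → Prop
  lv : K → Fin 3 → V
  lc : K → Fin 3 → Fin 3
  hne : ∀ u a v b, forb u a v b → u ≠ v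
  ht : bool t
  hinj : ∀ k, act k → Function.Injective (lv k)

namespace Csp3

variable (C : Csp3)

/-- Solutions. -/
def Sol (x : C.V → Fin 3) : Prop :=
  (∀ v, C.bool v → x v ≠ 2) ∧ (∀ u a v b, C.forb u a v b → ¬ (x u = a ∧ x v = b)) ∧
    ∀ k, C.act k → ¬ ∀ i, x (C.lv k i) = C.lc k i

/-- Changing one variable. -/
def Flip (x y : C.V → Fin 3) : Prop := C.Sol x ∧ C.Sol y ∧ ∃ v, ∀ w, w ≠ v → x w = y w

/-- Reachability. -/
def Rc (x y : C.V → Fin 3) : Prop := Relation.ReflTransGen C.Flip x y

/-- Every solution can be transformed into a solution with `t = 0`. -/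
def ReachAll : Prop := ∀ x, C.Sol x → ∃ y, C.Rc x y ∧ y C.t = 0

/-- Constraints of the binary system. -/
inductive Fb : C.V ⊕ C.K → Fin 3 → C.V ⊕ C.K → Fin 3 → Prop
  | two (u : C.V) (a : Fin 3) (v : C.V) (b : Fin 3) : C.forb u a v b → Fb (.inl u) a (.inl v) b
  | sel (k : C.K) (i : Fin 3) : C.act k → Fb (.inr k) i (.inl (C.lv k i)) (C.lc k i)

/-- The binary system. -/
def toCsp : Csp where
  V := C.V ⊕ C.K
  bool := fun v => match v with
    | .inl v => C.bool v
    | .inr _ => False
  forb := C.Fb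
  t := .inl C.t
  hne := by
    intro u a v b h
    cases h with
    | two u a v b h =>
      intro he
      exact C.hne u a v b h (by simpa using he)
    | sel k i h => simp
  ht := C.ht

variable {C}

theorem sol_inl {X : C.V ⊕ C.K → Fin 3} (h : C.toCsp.Sol X) : C.Sol (fun v => X (.inl v)) := by
  refine ⟨fun v hv => h.1 (.inl v) hv, fun u a v b hf => h.2 _ _ _ _ (Fb.two u a v b hf), ?_⟩
  intro k hk hall
  exact h.2 _ _ _ _ (Fb.sel k (X (.inr k)) hk) ⟨rfl, hall _⟩

theorem sol_of {X : C.V ⊕ C.K → Fin 3} (h : C.Sol (fun v => X (.inl v)))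
    (hs : ∀ k, C.act k → X (.inl (C.lv k (X (.inr k)))) ≠ C.lc k (X (.inr k))) :
    C.toCsp.Sol X := by
  constructor
  · intro v hv
    cases v with
    | inl v => exact h.1 v hv
    | inr k => exact hv.elim
  · intro u a v b hf
    cases hf with
    | two u a v b hf => exact h.2.1 u a v b hf
    | sel k i hk =>
      rintro ⟨h1, h2⟩
      subst h1
      exact hs k hk h2

open Classical in
/-- Mixture of two assignments. -/
noncomputable def mixf (X Y : C.toCsp.V → Fin 3) (S : Finset C.K) : C.toCsp.V → Fin 3 :=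
  fun v => match v with
    | .inl v => X (.inl v)
    | .inr k => if k ∈ S then Y (.inr k) else X (.inr k)

/-- Two solutions with the same main part are connected. -/
theorem sel_move [Finite C.V] [Finite C.K] {X Y : C.toCsp.V → Fin 3} (hX : C.toCsp.Sol X)
    (hY : C.toCsp.Sol Y) (h : ∀ v, X (.inl v) = Y (.inl v)) :
    Relation.ReflTransGen C.toCsp.Flip X Y := by
  classical
  have := Fintype.ofFinite C.K
  have hsol : ∀ S : Finset C.K, C.toCsp.Sol (mixf X Y S) := by
    intro S
    refine sol_of (X := mixf X Y S) (show C.Sol (fun v => X (.inl v)) from sol_inl hX) ?_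
    intro k hk
    by_cases hkS : k ∈ S
    · simp only [mixf, hkS, if_true]
      rw [h]
      intro he
      exact hY.2 _ _ _ _ (Fb.sel k _ hk) ⟨rfl, he⟩
    · simp only [mixf, hkS, if_false]
      intro he
      exact hX.2 _ _ _ _ (Fb.sel k _ hk) ⟨rfl, he⟩
  have key : ∀ S : Finset C.K, Relation.ReflTransGen C.toCsp.Flip X (mixf X Y S) := by
    intro S
    induction S using Finset.induction_on with
    | empty =>
      have : mixf X Y ∅ = X := by
        funext v
        cases v <;> simp [mixf]
      rw [this]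
    | insert k S hk ih =>
      refine ih.tail ⟨hsol S, hsol (insert k S), .inr k, ?_⟩
      intro w hw
      cases w with
      | inl v => rfl
      | inr k' =>
        have : k' ≠ k := fun he => hw (by rw [he])
        simp [mixf, this]
  have h1 := key Finset.univ
  have h2 : mixf X Y Finset.univ = Y := by
    funext v
    cases v with
    | inl v => exact h v
    | inr k => simp [mixf]
  rwa [h2] at h1

/-- A choice of the selection variables. -/
theorem exists_sel {x y : C.V → Fin 3} (hx : C.Sol x) (hy : C.Sol y) {v : C.V}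
    (hv : ∀ w, w ≠ v → x w = y w) (k : C.K) :
    ∃ i : Fin 3, C.act k → x (C.lv k i) ≠ C.lc k i ∧ y (C.lv k i) ≠ C.lc k i := by
  by_cases hk : C.act k
  · obtain ⟨i, hi⟩ := not_forall.mp (hx.2.2 k hk)
    obtain ⟨j, hj⟩ := not_forall.mp (hy.2.2 k hk)
    by_cases h1 : C.lv k i = v
    · by_cases h2 : j = i
      · subst h2
        exact ⟨j, fun _ => ⟨hi, hj⟩⟩
      · have h3 : C.lv k j ≠ v := by
          intro h
          exact h2 (C.hinj k hk (h.trans h1.symm))
        exact ⟨j, fun _ => ⟨by rw [hv _ h3]; exact hj, hj⟩⟩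
    · exact ⟨i, fun _ => ⟨hi, by rw [← hv _ h1]; exact hi⟩⟩
  · exact ⟨0, fun h => absurd h hk⟩

theorem flip_lift [Finite C.V] [Finite C.K] {x y : C.V → Fin 3} (h : C.Flip x y)
    {X : C.V ⊕ C.K → Fin 3} (hX : C.toCsp.Sol X) (hXx : ∀ v, X (.inl v) = x v) :
    ∃ Y, Relation.ReflTransGen C.toCsp.Flip X Y ∧ C.toCsp.Sol Y ∧ ∀ v, Y (.inl v) = y v := by
  obtain ⟨hx, hy, v, hv⟩ := h
  choose f hf using fun k => exists_sel hx hy hv k
  set X' : C.V ⊕ C.K → Fin 3 := fun w => match w with
    | .inl w => x w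
    | .inr k => f k with hX'
  set Y' : C.V ⊕ C.K → Fin 3 := fun w => match w with
    | .inl w => y w
    | .inr k => f k with hY'
  have h1 : C.toCsp.Sol X' := sol_of hx (fun k hk => (hf k hk).1)
  have h2 : C.toCsp.Sol Y' := sol_of hy (fun k hk => (hf k hk).2)
  refine ⟨Y', (sel_move hX h1 hXx).tail ⟨h1, h2, .inl v, ?_⟩, h2, fun _ => rfl⟩
  intro w hw
  cases w with
  | inl w => exact hv w (fun he => hw (by rw [he]))
  | inr k => rfl

theorem reachAll_iff [Finite C.V] [Finite C.K] : C.toCsp.ReachAll ↔ C.ReachAll := by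
  classical
  constructor
  · intro h x hx
    have hs : ∀ k, ∃ i : Fin 3, C.act k → x (C.lv k i) ≠ C.lc k i := by
      intro k
      by_cases hk : C.act k
      · obtain ⟨i, hi⟩ := not_forall.mp (hx.2.2 k hk)
        exact ⟨i, fun _ => hi⟩
      · exact ⟨0, fun h => absurd h hk⟩
    choose f hf using hs
    obtain ⟨Y, hY, hYt⟩ := h (fun w => match w with
      | .inl w => x w
      | .inr k => f k) (sol_of hx hf)
    refine ⟨fun v => Y (.inl v), ?_, hYt⟩
    have key : ∀ A B : C.toCsp.V → Fin 3, Relation.ReflTransGen C.toCsp.Flip A B →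
        C.Rc (fun v => A (.inl v)) (fun v => B (.inl v)) := by
      intro A B hAB
      induction hAB with
      | refl => exact Relation.ReflTransGen.refl
      | tail _ hf ih =>
        refine ih.tail ?_
        obtain ⟨hA, hB, v, hv⟩ := hf
        refine ⟨sol_inl hA, sol_inl hB, ?_⟩
        cases v with
        | inl v => exact ⟨v, fun w hw => hv _ (fun he => hw (Sum.inl_injective he))⟩
        | inr k => exact ⟨C.t, fun w _ => hv _ (fun he => by cases he)⟩
    exact key _ _ hY
  · intro h X hX
    obtain ⟨y, hy, hyt⟩ := h _ (sol_inl hX)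
    have key : ∀ y, C.Rc (fun v => X (.inl v)) y → ∃ Y, Relation.ReflTransGen C.toCsp.Flip X Y ∧
        C.toCsp.Sol Y ∧ ∀ v, Y (.inl v) = y v := by
      intro y hy
      induction hy with
      | refl => exact ⟨X, Relation.ReflTransGen.refl, hX, fun _ => rfl⟩
      | tail _ hf ih =>
        obtain ⟨Y, h1, h2, h3⟩ := ih
        obtain ⟨Z, h4, h5, h6⟩ := flip_lift hf h2 h3
        exact ⟨Z, h1.trans h4, h5, h6⟩
    obtain ⟨Y, h1, _, h3⟩ := key y hy
    exact ⟨Y, h1, (h3 C.t).trans hyt⟩

end Csp3

end Pool.Agent.Helper69.Mix
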