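import Mathlib
import Pool.Agent.Helper69.Mix.Csp3

/-!
# Cyclic programs and their constraint systems
-/

namespace Pool.Agent.Helper69.Mix

open Function

/-- Instruction: if the register `b` has the value `β` then the register `d` gets the value
`γ`. -/
structure Ins (R : Type) where
  b : R
  β : Bool
  d : R
  γ : Bool

/-- A cyclic program: a list of `L` optional instructions which is executed over and over. The
register `A` is never reset to `false`. -/
structure Prg where
  R : Type
  L : ℕ
  ins : ℕ → Option (Ins R)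
  A : R
  hL : 2 ≤ L
  hne : ∀ j i, ins j = some i → i.b ≠ i.d
  hA : ∀ j i, ins j = some i → i.d = A → i.γ = true

/-- Boolean values as elements of `Fin 3`. -/
def bv (b : Bool) : Fin 3 := if b then 0 else 1

/-- The other of the values `0` and `1`. -/
def ot : Fin 3 → Fin 3 := ![1, 0, 2]

theorem bv_ne2 (b : Bool) : bv b ≠ 2 := by cases b <;> decide
theorem bv_inj {b c : Bool} (h : bv b = bv c) : b = c := by
  revert b c
  decide
theorem bv_not (b : Bool) : bv (!b) ≠ bv b := by cases b <;> decide
theorem ot_bv (b : Bool) : ot (bv b) ≠ bv b := by cases b <;> decide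
theorem ot_ne (c : Fin 3) (h : c ≠ 2) : ot c ≠ c := by
  revert c
  decide
theorem ot_ne2 (c : Fin 3) (h : c ≠ 2) : ot c ≠ 2 := by
  revert c
  decide
theorem eq_of_ne {x c : Fin 3} (h : x ≠ 2) (hc : c ≠ 2) (h' : x ≠ ot c) : x = c := by
  revert x c
  decide
theorem eq_bv {x : Fin 3} (h : x ≠ 2) {b : Bool} (h' : x ≠ bv (!b)) : x = bv b := by
  revert x b
  decide

namespace Prg

variable (P : Prg)

/-- Execution of one instruction. -/
noncomputable def exec (j : ℕ) (Z : P.R → Bool) : P.R → Bool :=
  open Classical in
  match P.ins j with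
  | some i => if Z i.b = i.β then update Z i.d i.γ else Z
  | none => Z

/-- The next position. -/
def nj (j : ℕ) : ℕ := if j + 1 = P.L then 0 else j + 1

/-- One step of the computation. -/
noncomputable def stp (s : ℕ × (P.R → Bool)) : ℕ × (P.R → Bool) := (P.nj s.1, P.exec s.1 s.2)

/-- The register `A` is eventually set. -/
def Halts (j : ℕ) (Z : P.R → Bool) : Prop := ∃ n, (P.stp^[n] (j, Z)).2 P.A = true

/-- Variables: the pointer ring, the registers and their locks. -/
inductive PV
  | x (p : Fin (2 * P.L)) : PV
  | z (r : P.R) : PV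
  | lk (r : P.R) : PV

/-- Consecutive positions of the ring. -/
def Nx (p q : Fin (2 * P.L)) : Prop := q.val = p.val + 1 ∨ (p.val + 1 = 2 * P.L ∧ q.val = 0)

/-- Even positions. -/
def pe (j : Fin P.L) : Fin (2 * P.L) := ⟨2 * j.val, by have := j.2; omega⟩
/-- Odd positions. -/
def po (j : Fin P.L) : Fin (2 * P.L) := ⟨2 * j.val + 1, by have := j.2; omega⟩

/-- The register `r` may be changed when the pointer is at `p`. -/
def Win (r : P.R) (p : Fin (2 * P.L)) : Prop :=
  ∃ (j : Fin P.L) (i : Ins P.R), p = P.pe j ∧ P.ins j = some i ∧ i.d = r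

/-- Binary constraints. -/
inductive Fb : P.PV → Fin 3 → P.PV → Fin 3 → Prop
  | adj (p q : Fin (2 * P.L)) (c : Fin 3) : q.val = p.val + 1 → c ≠ 2 →
      Fb (.x p) c (.x q) (ot c)
  | seam (p q : Fin (2 * P.L)) (c : Fin 3) : p.val + 1 = 2 * P.L → q.val = 0 → c ≠ 2 →
      Fb (.x p) c (.x q) c
  | far (p q : Fin (2 * P.L)) : p ≠ q → ¬ P.Nx p q → ¬ P.Nx q p → Fb (.x p) 2 (.x q) 2
  | lock (r : P.R) (c : Fin 3) : c ≠ 2 → Fb (.lk r) c (.z r) (ot c)
  | win (r : P.R) (p : Fin (2 * P.L)) : ¬ P.Win r p → Fb (.lk r) 2 (.x p) 2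

/-- The constraint system of a program. -/
def csp : Csp3 where
  V := P.PV
  bool := fun v => match v with
    | .z _ => True
    | _ => False
  forb := P.Fb
  t := .z P.A
  K := Fin P.L × Bool
  act := fun k => (P.ins k.1).isSome
  lv := fun k => match P.ins k.1 with
    | none => fun _ => .z P.A
    | some i => if k.2 then ![.x (P.po k.1), .z i.b, .z i.d] else
        ![.lk i.d, .x (P.pe k.1), .z i.b]
  lc := fun k => match P.ins k.1 with
    | none => fun _ => 0
    | some i => if k.2 then ![2, bv i.β, bv (!i.γ)] else ![2, 2, bv (!i.β)]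
  hne := by
    intro u a v b h
    cases h with
    | adj p q c h1 h2 =>
      intro h
      simp only [PV.x.injEq] at h
      rw [h] at h1
      omega
    | seam p q c h1 h2 h3 =>
      intro h
      simp only [PV.x.injEq] at h
      rw [h] at h1
      have := P.hL
      omega
    | far p q h1 h2 h3 =>
      intro h
      simp only [PV.x.injEq] at h
      exact h1 h
    | lock r c h => simp
    | win r p h => simp
  ht := trivial
  hinj := by
    rintro ⟨j, e⟩ hk
    obtain ⟨i, hi⟩ := Option.isSome_iff_exists.mp hk
    have hne := P.hne _ _ hi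
    simp only [hi]
    cases e
    · intro a b hab
      fin_cases a <;> fin_cases b <;> simp_all
    · intro a b hab
      fin_cases a <;> fin_cases b <;> simp_all

end Prg

end Pool.Agent.Helper69.Mix
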