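import Mathlib
import Pool.Agent.Helper69.Mix.Prg

/-!
# Straight line code for arbitrary functions on finitely many bits
-/

namespace Pool.Agent.Helper69.Mix

open Function

open Classical in
/-- Execution of an instruction. -/
noncomputable def Ins.run {R : Type} (i : Ins R) (Z : R → Bool) : R → Bool :=
  if Z i.b = i.β then update Z i.d i.γ else Z

/-- Execution of a list of instructions. -/
noncomputable def runL {R : Type} (l : List (Ins R)) (Z : R → Bool) : R → Bool :=
  l.foldl (fun Z i => i.run Z) Z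

@[simp] theorem runL_nil {R : Type} (Z : R → Bool) : runL [] Z = Z := rfl

theorem runL_append {R : Type} (l l' : List (Ins R)) (Z : R → Bool) :
    runL (l ++ l') Z = runL l' (runL l Z) := by
  simp [runL]

theorem runL_snoc {R : Type} (l : List (Ins R)) (i : Ins R) (Z : R → Bool) :
    runL (l ++ [i]) Z = i.run (runL l Z) := by
  simp [runL]

/-- If no instruction changes a register read by another one and the values written are
consistent, the instructions act in parallel. -/
theorem runL_par {R : Type} (l : List (Ins R)) (Z : R → Bool)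
    (hbd : ∀ i ∈ l, ∀ j ∈ l, i.b ≠ j.d)
    (hc : ∀ i ∈ l, ∀ j ∈ l, i.d = j.d → Z i.b = i.β → Z j.b = j.β → i.γ = j.γ) :
    (∀ i ∈ l, Z i.b = i.β → runL l Z i.d = i.γ) ∧
    ∀ r, (∀ i ∈ l, i.d = r → Z i.b ≠ i.β) → runL l Z r = Z r := by
  classical
  induction l using List.reverseRecOn with
  | nil => simp
  | append_singleton l i ih =>
    obtain ⟨h1, h2⟩ := ih (fun a ha b hb => hbd a (by simp [ha]) b (by simp [hb]))
      (fun a ha b hb => hc a (by simp [ha]) b (by simp [hb]))
    have hb : ∀ j ∈ l ++ [i], runL l Z j.b = Z j.b := by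
      intro j hj
      apply h2
      intro k hk hkd
      exact absurd hkd.symm (hbd j hj k (by simp [hk]))
    rw [runL_snoc]
    constructor
    · intro j hj hjb
      unfold Ins.run
      by_cases hi : Z i.b = i.β
      · rw [if_pos (by rw [hb i (by simp)]; exact hi)]
        by_cases hd : j.d = i.d
        · rw [hd, update_self]
          exact hc i (by simp) j hj hd.symm hi hjb
        · rw [update_of_ne hd]
          rcases List.mem_append.mp hj with hj | hj
          · exact h1 j hj hjb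
          · rw [List.mem_singleton] at hj
            exact absurd (by rw [hj]) hd
      · rw [if_neg (by rw [hb i (by simp)]; exact hi)]
        rcases List.mem_append.mp hj with hj | hj
        · exact h1 j hj hjb
        · rw [List.mem_singleton] at hj
          subst hj
          exact absurd hjb hi
    · intro r hr
      unfold Ins.run
      have h3 := h2 r (fun k hk => hr k (by simp [hk]))
      by_cases hi : Z i.b = i.β
      · rw [if_pos (by rw [hb i (by simp)]; exact hi), update_of_ne, h3]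
        intro he
        exact hr i (by simp) he.symm hi
      · rw [if_neg (by rw [hb i (by simp)]; exact hi), h3]

/-- Registers of a template: the variables, a scratch register for every valuation, and the
acceptance register. -/
inductive Wr (W : Type) : Type
  | r (x : W) : Wr W
  | s (v : W → Bool) : Wr W
  | a : Wr W

section

variable {W : Type} [Finite W]

/-- All valuations. -/
noncomputable def allV (W : Type) [Finite W] : List (W → Bool) :=
  (Set.toFinite (Set.univ : Set (W → Bool))).toFinset.toList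

/-- All variables. -/
noncomputable def allX (W : Type) [Finite W] : List W :=
  (Set.toFinite (Set.univ : Set W)).toFinset.toList

theorem mem_allV (v : W → Bool) : v ∈ allV W := by simp [allV]
theorem mem_allX (x : W) : x ∈ allX W := by simp [allX]

/-- Set the scratch registers. -/
noncomputable def ph1 (x₀ : W) : List (Ins (Wr W)) :=
  (allV W).flatMap fun v => [⟨.r x₀, false, .s v, true⟩, ⟨.r x₀, true, .s v, true⟩]

/-- Clear the scratch registers of the wrong valuations. -/
noncomputable def ph2 (W : Type) [Finite W] : List (Ins (Wr W)) :=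
  (allV W).flatMap fun v => (allX W).map fun x => ⟨.r x, !(v x), .s v, false⟩

/-- Set the acceptance register. -/
noncomputable def ph3 (g : (W → Bool) → Bool) : List (Ins (Wr W)) :=
  ((allV W).filter g).map fun v => ⟨.s v, true, .a, true⟩

/-- Write the new values. -/
noncomputable def ph4 (f : (W → Bool) → W → Bool) : List (Ins (Wr W)) :=
  (allV W).flatMap fun v => (allX W).map fun x => ⟨.s v, true, .r x, f v x⟩

/-- The code for the function `f` and the acceptance condition `g`. -/
noncomputable def tmpl (x₀ : W) (f : (W → Bool) → W → Bool) (g : (W → Bool) → Bool) :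
    List (Ins (Wr W)) :=
  ph1 x₀ ++ ph2 W ++ ph3 g ++ ph4 f

theorem mem_ph1 {x₀ : W} {i : Ins (Wr W)} :
    i ∈ ph1 x₀ ↔ ∃ v β, i = ⟨.r x₀, β, .s v, true⟩ := by
  simp only [ph1, List.mem_flatMap, List.mem_cons, List.not_mem_nil, or_false]
  constructor
  · rintro ⟨v, _, h | h⟩
    · exact ⟨v, _, h⟩
    · exact ⟨v, _, h⟩
  · rintro ⟨v, β, h⟩
    refine ⟨v, mem_allV v, ?_⟩
    cases β
    · exact Or.inl h
    · exact Or.inr h

theorem mem_ph2 {i : Ins (Wr W)} : i ∈ ph2 W ↔ ∃ v x, i = ⟨.r x, !(v x), .s v, false⟩ := by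
  simp only [ph2, List.mem_flatMap, List.mem_map]
  constructor
  · rintro ⟨v, _, x, _, h⟩
    exact ⟨v, x, h.symm⟩
  · rintro ⟨v, x, h⟩
    exact ⟨v, mem_allV v, x, mem_allX x, h.symm⟩

theorem mem_ph3 {g : (W → Bool) → Bool} {i : Ins (Wr W)} :
    i ∈ ph3 g ↔ ∃ v, g v = true ∧ i = ⟨.s v, true, .a, true⟩ := by
  simp only [ph3, List.mem_map, List.mem_filter]
  constructor
  · rintro ⟨v, ⟨_, hg⟩, h⟩
    exact ⟨v, hg, h.symm⟩
  · rintro ⟨v, hg, h⟩
    exact ⟨v, ⟨mem_allV v, hg⟩, h.symm⟩

theorem mem_ph4 {f : (W → Bool) → W → Bool} {i : Ins (Wr W)} :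
    i ∈ ph4 f ↔ ∃ v x, i = ⟨.s v, true, .r x, f v x⟩ := by
  simp only [ph4, List.mem_flatMap, List.mem_map]
  constructor
  · rintro ⟨v, _, x, _, h⟩
    exact ⟨v, x, h.symm⟩
  · rintro ⟨v, x, h⟩
    exact ⟨v, mem_allV v, x, mem_allX x, h.symm⟩

theorem tmpl_ne {x₀ : W} {f : (W → Bool) → W → Bool} {g : (W → Bool) → Bool} {i : Ins (Wr W)}
    (h : i ∈ tmpl x₀ f g) : i.b ≠ i.d ∧ (i.d = .a → i.γ = true) := by
  simp only [tmpl, List.mem_append, mem_ph1, mem_ph2, mem_ph3, mem_ph4] at h
  rcases h with ((⟨v, β, rfl⟩ | ⟨v, x, rfl⟩) | ⟨v, _, rfl⟩) | ⟨v, x, rfl⟩ <;> simp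

theorem tmpl_run (x₀ : W) (f : (W → Bool) → W → Bool) (g : (W → Bool) → Bool)
    (Z : Wr W → Bool) :
    (∀ x, runL (tmpl x₀ f g) Z (.r x) = f (fun x => Z (.r x)) x) ∧
      runL (tmpl x₀ f g) Z .a = (Z .a || g (fun x => Z (.r x))) := by
  set V : W → Bool := fun x => Z (.r x) with hV
  -- phase 1
  have p1 := runL_par (ph1 x₀) Z
    (by
      intro i hi j hj
      obtain ⟨v, β, rfl⟩ := mem_ph1.mp hi
      obtain ⟨v', β', rfl⟩ := mem_ph1.mp hj
      simp)
    (by
      intro i hi j hj
      obtain ⟨v, β, rfl⟩ := mem_ph1.mp hi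
      obtain ⟨v', β', rfl⟩ := mem_ph1.mp hj
      simp)
  set Z₁ := runL (ph1 x₀) Z with hZ₁
  have a1 : ∀ v, Z₁ (.s v) = true := fun v =>
    p1.1 ⟨.r x₀, Z (.r x₀), .s v, true⟩ (mem_ph1.mpr ⟨v, _, rfl⟩) rfl
  have b1 : ∀ x, Z₁ (.r x) = V x := by
    intro x
    refine p1.2 _ ?_
    intro i hi hd
    obtain ⟨v, β, rfl⟩ := mem_ph1.mp hi
    simp at hd
  have c1 : Z₁ .a = Z .a := by
    refine p1.2 _ ?_
    intro i hi hd
    obtain ⟨v, β, rfl⟩ := mem_ph1.mp hi
    simp at hd
  -- phase 2
  have p2 := runL_par (ph2 W) Z₁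
    (by
      intro i hi j hj
      obtain ⟨v, x, rfl⟩ := mem_ph2.mp hi
      obtain ⟨v', x', rfl⟩ := mem_ph2.mp hj
      simp)
    (by
      intro i hi j hj
      obtain ⟨v, x, rfl⟩ := mem_ph2.mp hi
      obtain ⟨v', x', rfl⟩ := mem_ph2.mp hj
      simp)
  set Z₂ := runL (ph2 W) Z₁ with hZ₂
  have a2 : ∀ v, Z₂ (.s v) = true ↔ v = V := by
    intro v
    constructor
    · intro h
      funext x
      by_contra hne
      have := p2.1 ⟨.r x, !(v x), .s v, false⟩ (mem_ph2.mpr ⟨v, x, rfl⟩) (by
        simp only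
        rw [b1]
        cases hv : v x <;> cases hV' : V x <;> simp_all)
      simp only at this
      rw [h] at this
      exact absurd this (by decide)
    · rintro rfl
      rw [p2.2 (.s V), a1]
      intro i hi hd
      obtain ⟨v, x, rfl⟩ := mem_ph2.mp hi
      simp only [Wr.s.injEq] at hd
      subst hd
      simp only
      rw [b1]
      simp
  have b2 : ∀ x, Z₂ (.r x) = V x := by
    intro x
    rw [p2.2 _ ?_, b1]
    intro i hi hd
    obtain ⟨v, x, rfl⟩ := mem_ph2.mp hi
    simp at hd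
  have c2 : Z₂ .a = Z .a := by
    rw [p2.2 _ ?_, c1]
    intro i hi hd
    obtain ⟨v, x, rfl⟩ := mem_ph2.mp hi
    simp at hd
  -- phase 3
  have p3 := runL_par (ph3 g) Z₂
    (by
      intro i hi j hj
      obtain ⟨v, _, rfl⟩ := mem_ph3.mp hi
      obtain ⟨v', _, rfl⟩ := mem_ph3.mp hj
      simp)
    (by
      intro i hi j hj
      obtain ⟨v, _, rfl⟩ := mem_ph3.mp hi
      obtain ⟨v', _, rfl⟩ := mem_ph3.mp hj
      simp)
  set Z₃ := runL (ph3 g) Z₂ with hZ₃
  have a3 : ∀ v, Z₃ (.s v) = true ↔ v = V := by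
    intro v
    rw [p3.2 _ ?_, a2]
    intro i hi hd
    obtain ⟨v, _, rfl⟩ := mem_ph3.mp hi
    simp at hd
  have c3 : Z₃ .a = (Z .a || g V) := by
    by_cases hg : g V = true
    · have := p3.1 ⟨.s V, true, .a, true⟩ (mem_ph3.mpr ⟨V, hg, rfl⟩) ((a2 V).mpr rfl)
      rw [this, hg]
      simp
    · rw [p3.2 _ ?_, c2]
      · simp [hg]
      · intro i hi hd
        obtain ⟨v, hv, rfl⟩ := mem_ph3.mp hi
        intro h
        rw [(a2 v).mp h] at hv
        exact hg hv
  -- phase 4
  have p4 := runL_par (ph4 f) Z₃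
    (by
      intro i hi j hj
      obtain ⟨v, x, rfl⟩ := mem_ph4.mp hi
      obtain ⟨v', x', rfl⟩ := mem_ph4.mp hj
      simp)
    (by
      intro i hi j hj hd h1 h2
      obtain ⟨v, x, rfl⟩ := mem_ph4.mp hi
      obtain ⟨v', x', rfl⟩ := mem_ph4.mp hj
      simp only [Wr.r.injEq] at hd
      simp only at h1 h2
      rw [(a3 v).mp h1, (a3 v').mp h2, hd])
  have hrun : runL (tmpl x₀ f g) Z = runL (ph4 f) Z₃ := by
    rw [tmpl, runL_append, runL_append, runL_append]
  constructor
  · intro x
    rw [hrun]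
    exact p4.1 ⟨.s V, true, .r x, f V x⟩ (mem_ph4.mpr ⟨V, x, rfl⟩) ((a3 V).mpr rfl)
  · rw [hrun, p4.2 _ ?_, c3]
    intro i hi hd
    obtain ⟨v, x, rfl⟩ := mem_ph4.mp hi
    simp at hd

end

end Pool.Agent.Helper69.Mix
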