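import Mathlib

/-!
# Sweep systems

A sweep system has a finite state and a finite array of cells; in one round it passes once over
the array from the left to the right, reading the cell under the head and its right neighbour and
rewriting the cell under the head.
-/

namespace Pool.Agent.Helper69.Mix

/-- Sweep systems: states `A`, cell contents `B`; `F first last s a b b'` is the new state and the
new content of the cell under the head, where `first`, `last` tell whether this is the first, the
last cell, `s` is the letter of the input at this position (if any), `a` is the old state, `b` the
content of the cell under the head and `b'` the content of the next cell. -/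
structure Sweep where
  A : Type
  B : Type
  finA : Finite A
  finB : Finite B
  F : Bool → Bool → Option (Option Bool) → A → B → B → A × B
  acc : A → Bool

namespace Sweep

variable (X : Sweep) (S : ℕ) (w : List (Option Bool))

/-- The result of `F` for the head at cell `i`. -/
def app (i : ℕ) (z : X.A × (ℕ → X.B)) : X.A × X.B :=
  X.F (decide (i = 0)) (decide (i + 1 = S)) w[i]? z.1 (z.2 i) (z.2 (i + 1))

/-- One step, with the head at cell `i`; `S` is the number of cells. -/
def one (i : ℕ) (z : X.A × (ℕ → X.B)) : X.A × (ℕ → X.B) :=
  ((X.app S w i z).1, Function.update z.2 i (X.app S w i z).2)

/-- The first `i` steps of a round. -/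
def upto : ℕ → X.A × (ℕ → X.B) → X.A × (ℕ → X.B)
  | 0, z => z
  | i + 1, z => X.one S w i (upto i z)

/-- A complete round. -/
def round (z : X.A × (ℕ → X.B)) : X.A × (ℕ → X.B) := X.upto S w S z

/-- An accepting state is reached at the end of some round. -/
def Acc (z : X.A × (ℕ → X.B)) : Prop := ∃ n, X.acc ((X.round S w)^[n] z).1 = true

end Sweep

end Pool.Agent.Helper69.Mix
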