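import Mathlib
import Pool.Agent.Helper69.Mix.Comp
import Pool.Agent.Helper69.Mix.Sweep

/-!
# The cyclic program of a sweep system
-/

namespace Pool.Agent.Helper69.Mix

open Function

section onehot

variable {A : Type}

open Classical in
/-- One-hot encoding. -/
noncomputable def oh (a : A) : A → Bool := fun x => decide (x = a)

open Classical in
/-- Decoding of one-hot encodings. -/
noncomputable def dh [Nonempty A] (v : A → Bool) : A :=
  if h : ∃ a, v = oh a then h.choose else Classical.arbitrary A

theorem oh_inj {a b : A} (h : oh a = oh b) : a = b := by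
  have := congrFun h a
  simpa [oh] using this

theorem dh_oh [Nonempty A] (a : A) : dh (oh a) = a := by
  have h : ∃ b, oh a = oh b := ⟨a, rfl⟩
  rw [dh, dif_pos h]
  exact (oh_inj h.choose_spec).symm

end onehot

namespace Sweep

variable (X : Sweep) [Nonempty X.A] [Nonempty X.B]

/-- The bits seen by the head: state, current cell, next cell. -/
abbrev W : Type := X.A ⊕ (X.B ⊕ X.B)

instance : Finite X.A := X.finA
instance : Finite X.B := X.finB

/-- Static information at a position: first, last, letter. -/
abbrev Ty : Type := Bool × Bool × Option (Option Bool)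

/-- The state encoded by bits. -/
noncomputable def dA (v : X.W → Bool) : X.A := dh fun a => v (.inl a)
/-- The current cell encoded by bits. -/
noncomputable def dB (v : X.W → Bool) : X.B := dh fun b => v (.inr (.inl b))
/-- The next cell encoded by bits. -/
noncomputable def dB' (v : X.W → Bool) : X.B := dh fun b => v (.inr (.inr b))

/-- The new bits. -/
noncomputable def ff (t : Ty) (v : X.W → Bool) : X.W → Bool
  | .inl a => oh (X.F t.1 t.2.1 t.2.2 (X.dA v) (X.dB v) (X.dB' v)).1 a
  | .inr (.inl b) => oh (X.F t.1 t.2.1 t.2.2 (X.dA v) (X.dB v) (X.dB' v)).2 b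
  | .inr (.inr b) => v (.inr (.inr b))

/-- The acceptance condition. -/
noncomputable def gg (t : Ty) (v : X.W → Bool) : Bool := t.1 && X.acc (X.dA v)

/-- The code executed at one position. -/
noncomputable def tp (t : Ty) : List (Ins (Wr X.W)) :=
  tmpl (.inl (Classical.arbitrary X.A)) (X.ff t) (X.gg t)

/-- Length of the longest code, plus two. -/
noncomputable def cc : ℕ := (Finset.univ.sup fun t : Ty => (X.tp t).length) + 2

theorem tp_len (t : Ty) : (X.tp t).length ≤ X.cc := by
  have := Finset.le_sup (f := fun t : Ty => (X.tp t).length) (Finset.mem_univ t)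
  unfold cc
  omega

/-- Registers. -/
inductive Rg (S : ℕ) : Type
  | g (a : X.A) : Rg S
  | s (v : X.W → Bool) : Rg S
  | a : Rg S
  | c (i : Fin (S + 1)) (b : X.B) : Rg S

variable {X}

omit [Nonempty X.A] [Nonempty X.B] in
/-- Registers form a finite type. -/
theorem rg_fin (S : ℕ) : Finite (Rg X S) := by
  have h : Function.Injective (fun r : Rg X S => match r with
    | .g a => (Sum.inl a : X.A ⊕ (X.W → Bool) ⊕ Unit ⊕ (Fin (S + 1) × X.B))
    | .s v => Sum.inr (Sum.inl v)
    | .a => Sum.inr (Sum.inr (Sum.inl ()))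
    | .c i b => Sum.inr (Sum.inr (Sum.inr (i, b)))) := by
    intro x y hxy
    cases x <;> cases y <;> simp_all
  exact Finite.of_injective _ h

variable (X)

/-- Number of a cell, as an element of `Fin`. -/
def cl (S i : ℕ) : Fin (S + 1) := ⟨min i S, by omega⟩

/-- The registers seen at position `i`. -/
def pl (S i : ℕ) : Wr X.W → Rg X S
  | .r (.inl a) => .g a
  | .r (.inr (.inl b)) => .c (cl S i) b
  | .r (.inr (.inr b)) => .c (cl S (i + 1)) b
  | .s v => .s v
  | .a => .a

theorem cl_inj {S i j : ℕ} (hi : i ≤ S) (hj : j ≤ S) (h : cl S i = cl S j) : i = j := by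
  have := congrArg Fin.val h
  simp only [cl] at this
  omega

omit [Nonempty X.A] [Nonempty X.B] in
theorem pl_inj {S i : ℕ} (hi : i < S) : Function.Injective (X.pl S i) := by
  intro x y h
  have h1 : cl S i ≠ cl S (i + 1) := fun h => by
    have := cl_inj (by omega) (by omega) h
    omega
  rcases x with (x | x | x) | x | _ <;> rcases y with (y | y | y) | y | _ <;>
    simp only [pl, Rg.g.injEq, Rg.s.injEq, Rg.c.injEq, reduceCtorEq] at h ⊢
  · rw [h]
  · rw [h.2]
  · exact absurd h.1 h1
  · exact absurd h.1.symm h1
  · rw [h.2]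
  · rw [h]

/-- Renaming the registers of an instruction. -/
def _root_.Pool.Agent.Helper69.Mix.Ins.mp {R R' : Type} (f : R → R') (i : Ins R) : Ins R' :=
  ⟨f i.b, i.β, f i.d, i.γ⟩

/-- The static information at position `i`. -/
def ty (S : ℕ) (w : List (Option Bool)) (i : ℕ) : Ty :=
  (decide (i = 0), decide (i + 1 = S), w[i]?)

/-- The instructions. -/
noncomputable def pins (S : ℕ) (w : List (Option Bool)) (j : ℕ) : Option (Ins (Rg X S)) :=
  if j < S * X.cc then
    ((X.tp (ty S w (j / X.cc)))[j % X.cc]?).map (Ins.mp (X.pl S (j / X.cc)))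
  else none

theorem cc_pos : 0 < X.cc := by unfold cc; omega

/-- The cyclic program of a sweep system with `S` cells on the input `w`. -/
noncomputable def prg (S : ℕ) (hS : 1 ≤ S) (w : List (Option Bool)) : Prg where
  R := Rg X S
  L := S * X.cc
  ins := X.pins S w
  A := .a
  hL := by
    have : 2 ≤ X.cc := by unfold cc; omega
    nlinarith
  hne := by
    intro j i h
    unfold pins at h
    split_ifs at h with hj
    · rw [Option.map_eq_some_iff] at h
      obtain ⟨i', hi', rfl⟩ := h
      have h1 := tmpl_ne (List.mem_of_getElem? hi')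
      intro h2
      refine h1.1 (X.pl_inj ?_ h2)
      exact Nat.div_lt_of_lt_mul (by rwa [Nat.mul_comm])
  hA := by
    intro j i h
    unfold pins at h
    split_ifs at h with hj
    · rw [Option.map_eq_some_iff] at h
      obtain ⟨i', hi', rfl⟩ := h
      have h1 := tmpl_ne (List.mem_of_getElem? hi')
      intro h2
      refine h1.2 ?_
      rcases hb : i'.d with (x | x | x) | x | _ <;> simp [Ins.mp, hb, pl] at h2
      rfl

end Sweep

namespace Prg

variable (P : Prg)

/-- Execution of `k` instructions starting at `j`. -/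
noncomputable def exs (j : ℕ) : ℕ → (P.R → Bool) → P.R → Bool
  | 0, Z => Z
  | k + 1, Z => P.exec (j + k) (exs j k Z)

theorem stp_exs (j k : ℕ) (Z : P.R → Bool) (h : j + k ≤ P.L) (hj : j < P.L) :
    P.stp^[k] (j, Z) = (if j + k = P.L then 0 else j + k, P.exs j k Z) := by
  induction k with
  | zero =>
    rw [if_neg (by omega)]
    rfl
  | succ k ih =>
    rw [Function.iterate_succ_apply', ih (by omega), if_neg (by omega)]
    simp only [stp, nj, exs]
    congr 1

theorem exs_add (j k l : ℕ) (Z : P.R → Bool) : P.exs j (k + l) Z = P.exs (j + k) l (P.exs j k Z) := by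
  induction l with
  | zero => rfl
  | succ l ih => rw [← Nat.add_assoc, exs, ih, exs, Nat.add_assoc]

theorem exec_mono {j : ℕ} {Z : P.R → Bool} (h : Z P.A = true) : P.exec j Z P.A = true := by
  classical
  unfold exec
  cases hi : P.ins j with
  | none => exact h
  | some i =>
    simp only
    split_ifs with hb
    · by_cases hd : P.A = i.d
      · rw [hd, update_self]
        exact P.hA _ _ hi hd.symm
      · rw [update_of_ne hd]
        exact h
    · exact h

theorem stp_mono {s : ℕ × (P.R → Bool)} (h : s.2 P.A = true) (n : ℕ) :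
    (P.stp^[n] s).2 P.A = true := by
  induction n with
  | zero => exact h
  | succ n ih =>
    rw [Function.iterate_succ_apply']
    exact P.exec_mono ih

end Prg

namespace Sweep

variable (X : Sweep) [Nonempty X.A] [Nonempty X.B] {S : ℕ} (hS : 1 ≤ S) (w : List (Option Bool))

theorem pins_eq {i c : ℕ} (hi : i < S) (hc : c < X.cc) :
    X.pins S w (i * X.cc + c) = ((X.tp (ty S w i))[c]?).map (Ins.mp (X.pl S i)) := by
  have h1 : (i * X.cc + c) / X.cc = i := by
    rw [Nat.mul_comm, Nat.mul_add_div (by omega), Nat.div_eq_of_lt hc, Nat.add_zero]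
  have h2 : (i * X.cc + c) % X.cc = c := by
    rw [Nat.mul_comm, Nat.mul_add_mod, Nat.mod_eq_of_lt hc]
  have h3 : i * X.cc + c < S * X.cc := by nlinarith
  rw [pins, if_pos h3, h1, h2]

/-- Executing the code at position `i`. -/
theorem exs_window {i : ℕ} (hi : i < S) (Z : Rg X S → Bool) (c : ℕ) (hc : c ≤ X.cc) :
    (fun x => (X.prg S hS w).exs (i * X.cc) c Z (X.pl S i x)) =
      runL ((X.tp (ty S w i)).take c) (fun x => Z (X.pl S i x)) ∧
    ∀ r, (∀ x, r ≠ X.pl S i x) → (X.prg S hS w).exs (i * X.cc) c Z r = Z r := by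
  classical
  induction c with
  | zero => exact ⟨rfl, fun _ _ => rfl⟩
  | succ c ih =>
    obtain ⟨h1, h2⟩ := ih (by omega)
    have hins := X.pins_eq (S := S) w hi (show c < X.cc by omega)
    have hex : (X.prg S hS w).exs (i * X.cc) (c + 1) Z =
        (X.prg S hS w).exec (i * X.cc + c) ((X.prg S hS w).exs (i * X.cc) c Z) := rfl
    rw [hex]
    cases ht : (X.tp (ty S w i))[c]? with
    | none =>
      have hlen : (X.tp (ty S w i)).length ≤ c := by
        rw [List.getElem?_eq_none_iff] at ht
        exact ht
      have hnone : (X.prg S hS w).ins (i * X.cc + c) = none := by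
        change X.pins S w (i * X.cc + c) = none
        rw [hins, ht]
        rfl
      have e1 : (X.prg S hS w).exec (i * X.cc + c) ((X.prg S hS w).exs (i * X.cc) c Z) =
          (X.prg S hS w).exs (i * X.cc) c Z := by
        unfold Prg.exec
        rw [hnone]
      rw [e1]
      refine ⟨?_, h2⟩
      rw [h1, List.take_of_length_le hlen, List.take_of_length_le (by omega)]
    | some t =>
      have hsome : (X.prg S hS w).ins (i * X.cc + c) = some (Ins.mp (X.pl S i) t) := by
        change X.pins S w (i * X.cc + c) = _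
        rw [hins, ht]
        rfl
      have hlt : c < (X.tp (ty S w i)).length := (List.getElem?_eq_some_iff.mp ht).1
      have e1 : (X.prg S hS w).exec (i * X.cc + c) ((X.prg S hS w).exs (i * X.cc) c Z) =
          (Ins.mp (X.pl S i) t).run ((X.prg S hS w).exs (i * X.cc) c Z) := by
        unfold Prg.exec
        rw [hsome]
        rfl
      rw [e1]
      have e2 : (X.tp (ty S w i)).take (c + 1) = (X.tp (ty S w i)).take c ++ [t] := by
        rw [List.take_add_one, ht]
        rfl
      rw [e2, runL_snoc, ← h1]
      constructor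
      · unfold Ins.run
        simp only [Ins.mp]
        by_cases hb : (X.prg S hS w).exs (i * X.cc) c Z (X.pl S i t.b) = t.β
        · rw [if_pos hb, if_pos hb]
          funext x
          by_cases hx : x = t.d
          · rw [hx, update_self, update_self]
          · rw [update_of_ne hx, update_of_ne (fun h => hx (X.pl_inj hi h))]
        · rw [if_neg hb, if_neg hb]
      · intro r hr
        unfold Ins.run
        simp only [Ins.mp]
        split_ifs
        · rw [update_of_ne (hr _)]
          exact h2 r hr
        · exact h2 r hr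

/-- The state of the sweep system represented by the registers. -/
noncomputable def dec (Z : Rg X S → Bool) : X.A × (ℕ → X.B) :=
  (dh fun a => Z (.g a), fun i => if i ≤ S then dh fun b => Z (.c (cl S i) b) else
    Classical.arbitrary X.B)

/-- The effect of the code at one position. -/
theorem dec_window {i : ℕ} (hi : i < S) (Z : Rg X S → Bool) :
    X.dec ((X.prg S hS w).exs (i * X.cc) X.cc Z) = X.one S w i (X.dec Z) ∧
      (X.prg S hS w).exs (i * X.cc) X.cc Z .a =
        (Z .a || (decide (i = 0) && X.acc (X.dec Z).1)) := by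
  obtain ⟨h1, h2⟩ := X.exs_window hS w hi Z X.cc le_rfl
  rw [List.take_of_length_le (X.tp_len _)] at h1
  have h3 := tmpl_run (.inl (Classical.arbitrary X.A)) (X.ff (ty S w i)) (X.gg (ty S w i))
    (fun x => Z (X.pl S i x))
  set Z' := (X.prg S hS w).exs (i * X.cc) X.cc Z with hZ'
  have h4 : ∀ x, Z' (X.pl S i (.r x)) =
      X.ff (ty S w i) (fun x => Z (X.pl S i (.r x))) x := by
    intro x
    exact (congrFun h1 (.r x)).trans (h3.1 x)
  have h5 : Z' .a = (Z .a || X.gg (ty S w i) (fun x => Z (X.pl S i (.r x)))) := by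
    exact (congrFun h1 .a).trans h3.2
  set V : X.W → Bool := fun x => Z (X.pl S i (.r x)) with hV
  have dA : X.dA V = (X.dec Z).1 := rfl
  have dB : X.dB V = (X.dec Z).2 i := by
    simp only [dec, if_pos hi.le]
    rfl
  have dB' : X.dB' V = (X.dec Z).2 (i + 1) := by
    simp only [dec, if_pos (show i + 1 ≤ S by omega)]
    rfl
  have happ : X.F (ty S w i).1 (ty S w i).2.1 (ty S w i).2.2 (X.dA V) (X.dB V) (X.dB' V) =
      X.app S w i (X.dec Z) := by
    rw [dA, dB, dB']
    rfl
  constructor
  · refine Prod.ext ?_ ?_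
    · have e1 : (fun a => Z' (.g a)) = oh (X.app S w i (X.dec Z)).1 := by
        funext a
        have := h4 (.inl a)
        rw [← happ]
        exact this
      change dh (fun a => Z' (.g a)) = _
      rw [e1, dh_oh]
      rfl
    · funext j
      change (if j ≤ S then dh (fun b => Z' (.c (cl S j) b)) else Classical.arbitrary X.B) = _
      simp only [one]
      by_cases hj : j = i
      · subst hj
        rw [if_pos hi.le, update_self]
        have e1 : (fun b => Z' (.c (cl S j) b)) = oh (X.app S w j (X.dec Z)).2 := by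
          funext b
          have := h4 (.inr (.inl b))
          rw [← happ]
          exact this
        rw [e1, dh_oh]
      · rw [update_of_ne hj]
        change _ = (if j ≤ S then dh (fun b => Z (.c (cl S j) b)) else Classical.arbitrary X.B)
        by_cases hjS : j ≤ S
        · rw [if_pos hjS, if_pos hjS]
          congr 1
          funext b
          by_cases hj1 : j = i + 1
          · subst hj1
            exact h4 (.inr (.inr b))
          · apply h2
            intro x hx
            rcases x with (x | x | x) | x | _ <;> simp only [pl, Rg.c.injEq, reduceCtorEq] at hx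
            · exact hj (cl_inj hjS hi.le hx.1)
            · exact hj1 (cl_inj hjS (by omega) hx.1)
        · rw [if_neg hjS, if_neg hjS]
  · rw [h5]
    rfl

/-- The effect of the first positions of a round. -/
theorem dec_upto (Z : Rg X S → Bool) (i : ℕ) (hi : i ≤ S) :
    X.dec ((X.prg S hS w).exs 0 (i * X.cc) Z) = X.upto S w i (X.dec Z) ∧
      (X.prg S hS w).exs 0 (i * X.cc) Z .a =
        (Z .a || (decide (i ≠ 0) && X.acc (X.dec Z).1)) := by
  induction i with
  | zero => 
    rw [Nat.zero_mul]
    refine ⟨rfl, ?_⟩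
    simp [Prg.exs]
  | succ i ih =>
    obtain ⟨h1, h2⟩ := ih (by omega)
    have e : (X.prg S hS w).exs 0 ((i + 1) * X.cc) Z =
        (X.prg S hS w).exs (i * X.cc) X.cc ((X.prg S hS w).exs 0 (i * X.cc) Z) := by
      rw [Nat.add_mul, Nat.one_mul, Prg.exs_add, Nat.zero_add]
    obtain ⟨h3, h4⟩ := X.dec_window hS w (show i < S by omega)
      ((X.prg S hS w).exs 0 (i * X.cc) Z)
    rw [e, h3, h4, h1, h2]
    refine ⟨rfl, ?_⟩
    rcases Nat.eq_zero_or_pos i with h0 | h0
    · subst h0
      simp [upto]
    · have : i ≠ 0 := by omega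
      simp [this]

/-- The registers after `n` rounds. -/
theorem stp_round (Z : Rg X S → Bool) (n : ℕ) :
    ∃ Z' : Rg X S → Bool, (X.prg S hS w).stp^[S * X.cc * n] (0, Z) = (0, Z') ∧
      X.dec Z' = (X.round S w)^[n] (X.dec Z) ∧
      (Z' .a = true ↔ (Z .a = true ∨ ∃ m < n, X.acc ((X.round S w)^[m] (X.dec Z)).1 = true)) := by
  induction n with
  | zero => exact ⟨Z, rfl, rfl, by simp⟩
  | succ n ih =>
    obtain ⟨Z', h1, h2, h3⟩ := ih
    obtain ⟨h4, h5⟩ := X.dec_upto hS w Z' S le_rfl
    refine ⟨(X.prg S hS w).exs 0 (S * X.cc) Z', ?_, ?_, ?_⟩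
    · have e : S * X.cc * (n + 1) = S * X.cc + S * X.cc * n := by ring
      rw [e, Function.iterate_add_apply, h1]
      have hL : (X.prg S hS w).L = S * X.cc := rfl
      have := (X.prg S hS w).stp_exs 0 (S * X.cc) Z' (by rw [hL]; omega)
        (by have := (X.prg S hS w).hL; omega)
      refine this.trans ?_
      rw [if_pos (by rw [hL]; omega)]
      rfl
    · rw [h4, Function.iterate_succ_apply', h2]
      rfl
    · rw [h5]
      have hS0 : S ≠ 0 := by omega
      simp only [hS0, ne_eq, not_false_eq_true, decide_true, Bool.true_and, Bool.or_eq_true, h3,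
        h2]
      constructor
      · rintro ((h | ⟨m, hm, h⟩) | h)
        · exact Or.inl h
        · exact Or.inr ⟨m, by omega, h⟩
        · exact Or.inr ⟨n, by omega, h⟩
      · rintro (h | ⟨m, hm, h⟩)
        · exact Or.inl (Or.inl h)
        · rcases Nat.lt_succ_iff_lt_or_eq.mp hm with hm | rfl
          · exact Or.inl (Or.inr ⟨m, hm, h⟩)
          · exact Or.inr h

theorem halts_iff (Z : Rg X S → Bool) :
    (X.prg S hS w).Halts 0 Z ↔ (Z .a = true ∨ X.Acc S w (X.dec Z)) := by
  constructor
  · rintro ⟨n, hn⟩
    obtain ⟨Z', h1, h2, h3⟩ := X.stp_round hS w Z n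
    have hL : 1 ≤ S * X.cc := by
      have := (X.prg S hS w).hL
      change 2 ≤ S * X.cc at this
      omega
    have hle : n ≤ S * X.cc * n := by nlinarith
    have h4 := (X.prg S hS w).stp_mono hn (S * X.cc * n - n)
    rw [← Function.iterate_add_apply, Nat.sub_add_cancel hle, h1] at h4
    rcases h3.mp h4 with h5 | ⟨m, _, h5⟩
    · exact Or.inl h5
    · exact Or.inr ⟨m, h5⟩
  · rintro (h | ⟨n, hn⟩)
    · exact ⟨0, h⟩
    · obtain ⟨Z', h1, h2, h3⟩ := X.stp_round hS w Z (n + 1)
      refine ⟨S * X.cc * (n + 1), ?_⟩
      refine (congrArg (fun s : ℕ × (Rg X S → Bool) => s.2 .a) h1).trans ?_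
      exact h3.mpr (Or.inr ⟨n, by omega, hn⟩)

omit [Nonempty X.A] [Nonempty X.B] in
/-- Cells beyond the last one are irrelevant. -/
theorem upto_congr {z z' : X.A × (ℕ → X.B)} (h1 : z.1 = z'.1) (h2 : ∀ i ≤ S, z.2 i = z'.2 i)
    (i : ℕ) (hi : i ≤ S) : (X.upto S w i z).1 = (X.upto S w i z').1 ∧
      ∀ j ≤ S, (X.upto S w i z).2 j = (X.upto S w i z').2 j := by
  induction i with
  | zero => exact ⟨h1, h2⟩
  | succ i ih =>
    obtain ⟨h3, h4⟩ := ih (by omega)
    have e : X.app S w i (X.upto S w i z) = X.app S w i (X.upto S w i z') := by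
      unfold app
      rw [h3, h4 i (by omega), h4 (i + 1) (by omega)]
    simp only [upto, one]
    rw [e]
    refine ⟨rfl, ?_⟩
    intro j hj
    by_cases hji : j = i
    · rw [hji, update_self, update_self]
    · rw [update_of_ne hji, update_of_ne hji]
      exact h4 j hj

omit [Nonempty X.A] [Nonempty X.B] in
theorem acc_congr {z z' : X.A × (ℕ → X.B)} (h1 : z.1 = z'.1) (h2 : ∀ i ≤ S, z.2 i = z'.2 i) :
    X.Acc S w z ↔ X.Acc S w z' := by
  have key : ∀ n, ((X.round S w)^[n] z).1 = ((X.round S w)^[n] z').1 ∧
      ∀ j ≤ S, ((X.round S w)^[n] z).2 j = ((X.round S w)^[n] z').2 j := by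
    intro n
    induction n with
    | zero => exact ⟨h1, h2⟩
    | succ n ih =>
      rw [Function.iterate_succ_apply', Function.iterate_succ_apply']
      exact X.upto_congr w ih.1 ih.2 S le_rfl
  unfold Acc
  simp only [fun n => (key n).1]

theorem forall_halts_iff :
    (∀ Z, (X.prg S hS w).Halts 0 Z) ↔ ∀ z, X.Acc S w z := by
  constructor
  · intro h z
    set Z : Rg X S → Bool := fun r => match r with
      | .g a => oh z.1 a
      | .s _ => false
      | .a => false
      | .c i b => oh (z.2 i.1) b with hZ
    have h1 := (X.halts_iff hS w Z).mp (h Z)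
    rcases h1 with h1 | h1
    · exact absurd h1 (by simp [hZ])
    · refine (X.acc_congr w ?_ ?_).mp h1
      · change dh (fun a => oh z.1 a) = z.1
        exact dh_oh _
      · intro i hi
        change (if i ≤ S then dh (fun b => oh (z.2 (cl S i).1) b) else _) = _
        rw [if_pos hi]
        have : (cl S i).1 = i := by simp [cl, hi]
        rw [this]
        exact dh_oh _
  · intro h Z
    exact (X.halts_iff hS w Z).mpr (Or.inr (h _))

end Sweep

end Pool.Agent.Helper69.Mix
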