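import Mathlib
import Pool.Agent.Helper69.Mix.SwPrg

/-!
# Numbering registers and instructions
-/

namespace Pool.Agent.Helper69.Mix

open Function

namespace Sweep

variable (X : Sweep)

/-- Number of a state. -/
noncomputable def nA (a : X.A) : ℕ := (Finite.equivFin X.A a).1
/-- Number of a cell content. -/
noncomputable def nB (b : X.B) : ℕ := (Finite.equivFin X.B b).1
/-- Number of a valuation. -/
noncomputable def nV (v : X.W → Bool) : ℕ := (Finite.equivFin (X.W → Bool) v).1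
/-- Number of states. -/
noncomputable def cA : ℕ := Nat.card X.A
/-- Number of cell contents. -/
noncomputable def cB : ℕ := Nat.card X.B
/-- Number of valuations. -/
noncomputable def cV : ℕ := Nat.card (X.W → Bool)

variable {X}

theorem nA_inj {a b : X.A} (h : X.nA a = X.nA b) : a = b :=
  (Finite.equivFin X.A).injective (Fin.ext h)
theorem nB_inj {a b : X.B} (h : X.nB a = X.nB b) : a = b :=
  (Finite.equivFin X.B).injective (Fin.ext h)
theorem nV_inj {a b : X.W → Bool} (h : X.nV a = X.nV b) : a = b :=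
  (Finite.equivFin (X.W → Bool)).injective (Fin.ext h)
theorem nA_lt (a : X.A) : X.nA a < X.cA := (Finite.equivFin X.A a).2
theorem nB_lt (a : X.B) : X.nB a < X.cB := (Finite.equivFin X.B a).2
theorem nV_lt (a : X.W → Bool) : X.nV a < X.cV := (Finite.equivFin (X.W → Bool) a).2
theorem ex_nA {i : ℕ} (h : i < X.cA) : ∃ a, X.nA a = i :=
  ⟨(Finite.equivFin X.A).symm ⟨i, h⟩, by simp [nA]⟩
theorem ex_nB {i : ℕ} (h : i < X.cB) : ∃ a, X.nB a = i :=
  ⟨(Finite.equivFin X.B).symm ⟨i, h⟩, by simp [nB]⟩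
theorem ex_nV {i : ℕ} (h : i < X.cV) : ∃ a, X.nV a = i :=
  ⟨(Finite.equivFin (X.W → Bool)).symm ⟨i, h⟩, by simp [nV]⟩

/-- Number of a register. -/
noncomputable def cR {S : ℕ} : Rg X S → ℕ
  | .g a => 4 * X.nA a
  | .s v => 4 * X.nV v + 1
  | .a => 2
  | .c i b => 4 * (i.1 * X.cB + X.nB b) + 3

theorem mul_add_inj {h i j a b : ℕ} (ha : a < h) (hb : b < h) (e : i * h + a = j * h + b) :
    i = j ∧ a = b := by
  have h1 : i = j := by
    have e1 : (i * h + a) / h = i := by
      rw [Nat.mul_comm, Nat.mul_add_div (by omega), Nat.div_eq_of_lt ha, Nat.add_zero]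
    have e2 : (j * h + b) / h = j := by
      rw [Nat.mul_comm, Nat.mul_add_div (by omega), Nat.div_eq_of_lt hb, Nat.add_zero]
    rw [← e1, ← e2, e]
  subst h1
  exact ⟨rfl, by omega⟩

theorem cR_inj {S : ℕ} : Injective (cR : Rg X S → ℕ) := by
  intro x y h
  cases x <;> cases y <;> simp only [cR] at h
  case g.g a b => exact congrArg _ (nA_inj (by omega))
  case s.s a b => exact congrArg _ (nV_inj (by omega))
  case a.a => rfl
  case c.c =>
    obtain ⟨h1, h2⟩ := mul_add_inj (nB_lt _) (nB_lt _) (Nat.eq_of_mul_eq_mul_left (by omega)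
      (Nat.add_right_cancel h) )
    rw [nB_inj h2, Fin.ext h1]
  all_goals omega

/-- The valid register numbers. -/
def vR (X : Sweep) (S r : ℕ) : Prop :=
  (∃ y < X.cA, r = 4 * y) ∨ (∃ y < X.cV, r = 4 * y + 1) ∨ r = 2 ∨
    ∃ y < (S + 1) * X.cB, r = 4 * y + 3

theorem vR_iff {S r : ℕ} : vR X S r ↔ ∃ x : Rg X S, cR x = r := by
  constructor
  · rintro (⟨y, hy, rfl⟩ | ⟨y, hy, rfl⟩ | rfl | ⟨y, hy, rfl⟩)
    · obtain ⟨a, rfl⟩ := ex_nA hy
      exact ⟨.g a, rfl⟩
    · obtain ⟨a, rfl⟩ := ex_nV hy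
      exact ⟨.s a, rfl⟩
    · exact ⟨.a, rfl⟩
    · have hB : 0 < X.cB := by
        rcases Nat.eq_zero_or_pos X.cB with h | h
        · rw [h] at hy
          omega
        · exact h
      obtain ⟨b, hb⟩ := ex_nB (Nat.mod_lt y hB)
      have hi : y / X.cB < S + 1 := Nat.div_lt_of_lt_mul (by rwa [Nat.mul_comm])
      refine ⟨.c ⟨y / X.cB, hi⟩ b, ?_⟩
      simp only [cR, hb, Nat.div_add_mod']
  · rintro ⟨x, rfl⟩
    cases x with
    | g a => exact Or.inl ⟨_, nA_lt a, rfl⟩
    | s v => exact Or.inr (Or.inl ⟨_, nV_lt v, rfl⟩)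
    | a => exact Or.inr (Or.inr (Or.inl rfl))
    | c i b =>
      refine Or.inr (Or.inr (Or.inr ⟨_, ?_, rfl⟩))
      have h1 := i.2
      have h2 := nB_lt b
      nlinarith

/-- An upper bound for the register numbers. -/
noncomputable def rB (X : Sweep) (S : ℕ) : ℕ := 4 * (X.cA + X.cV + (S + 1) * X.cB + 1)

theorem cR_lt {S : ℕ} (x : Rg X S) : cR x < rB X S := by
  unfold rB
  cases x with
  | g a =>
    have := nA_lt a
    simp only [cR]
    omega
  | s v =>
    have := nV_lt v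
    simp only [cR]
    omega
  | a =>
    simp only [cR]
    omega
  | c i b =>
    have h1 := i.2
    have h2 := nB_lt b
    simp only [cR]
    have : i.1 * X.cB + X.nB b < (S + 1) * X.cB := by nlinarith
    omega

/-- Slope of the number of a window register. -/
noncomputable def wp (X : Sweep) : Wr X.W → ℕ
  | .r (.inl _) => 0
  | .r (.inr _) => 4 * X.cB
  | .s _ => 0
  | .a => 0

/-- Offset of the number of a window register. -/
noncomputable def wq (X : Sweep) : Wr X.W → ℕ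
  | .r (.inl a) => 4 * X.nA a
  | .r (.inr (.inl b)) => 4 * X.nB b + 3
  | .r (.inr (.inr b)) => 4 * X.cB + (4 * X.nB b + 3)
  | .s v => 4 * X.nV v + 1
  | .a => 2

theorem cR_pl {S i : ℕ} (hi : i < S) (x : Wr X.W) :
    cR (X.pl S i x) = wp X x * i + wq X x := by
  have h1 : (cl S i).1 = i := by simp [cl, hi.le]
  have h2 : (cl S (i + 1)).1 = i + 1 := by
    simp only [cl]
    omega
  rcases x with (x | x | x) | x | _ <;> simp only [pl, cR, wp, wq, h1, h2] <;> ring

/-- Entries of the instruction table. -/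
structure Ent where
  f : Bool
  l : Bool
  s : Option (Option Bool)
  c : ℕ
  pb : ℕ
  qb : ℕ
  β : Bool
  pd : ℕ
  qd : ℕ
  γ : Bool

/-- The entry of an instruction. -/
noncomputable def ent (X : Sweep) (t : Ty) (c : ℕ) (I : Ins (Wr X.W)) : Ent :=
  ⟨t.1, t.2.1, t.2.2, c, wp X I.b, wq X I.b, I.β, wp X I.d, wq X I.d, I.γ⟩

variable (X)
variable [Nonempty X.A] [Nonempty X.B]

/-- The instruction table. -/
noncomputable def tab : List Ent :=
  (Finset.univ : Finset Ty).toList.flatMap fun t =>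
    (X.tp t).zipIdx.map fun p => ent X t p.2 p.1

theorem mem_tab {e : Ent} : e ∈ X.tab ↔ ∃ t c I, (X.tp t)[c]? = some I ∧ e = ent X t c I := by
  simp only [tab, List.mem_flatMap, Finset.mem_toList, Finset.mem_univ, true_and, List.mem_map]
  refine exists_congr fun t => ?_
  constructor
  · rintro ⟨⟨I, c⟩, h, rfl⟩
    rw [List.mem_zipIdx_iff_getElem?] at h
    exact ⟨c, I, h, rfl⟩
  · rintro ⟨c, I, h, rfl⟩
    exact ⟨(I, c), List.mem_zipIdx_iff_getElem?.mpr h, rfl⟩

/-- The entry `e` applies at position `i`. -/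
def cond (S : ℕ) (w : List (Option Bool)) (e : Ent) (i : ℕ) : Prop :=
  (e.f = true ↔ i = 0) ∧ (e.l = true ↔ i + 1 = S) ∧ w[i]? = e.s

omit [Nonempty X.A] [Nonempty X.B] in
theorem cond_iff {S : ℕ} {w : List (Option Bool)} {t : Ty} {c : ℕ} {I : Ins (Wr X.W)} {i : ℕ} :
    cond S w (ent X t c I) i ↔ ty S w i = t := by
  obtain ⟨f, l, s⟩ := t
  simp only [cond, ent, ty, Prod.mk.injEq]
  constructor
  · rintro ⟨h1, h2, h3⟩
    refine ⟨?_, ?_, h3⟩
    · cases f <;> simp_all
    · cases l <;> simp_all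
  · rintro ⟨rfl, rfl, rfl⟩
    simp

/-- The entries describe the instructions. -/
theorem pins_iff {S : ℕ} (w : List (Option Bool)) (j : ℕ) (J : Ins (Rg X S)) :
    X.pins S w j = some J ↔ ∃ e ∈ X.tab, ∃ i < S, cond S w e i ∧ j = i * X.cc + e.c ∧
      cR J.b = e.pb * i + e.qb ∧ J.β = e.β ∧ cR J.d = e.pd * i + e.qd ∧ J.γ = e.γ := by
  constructor
  · intro h
    have hj : j < S * X.cc := by
      by_contra hj
      unfold pins at h
      rw [if_neg hj] at h
      simp at h
    have hi : j / X.cc < S := Nat.div_lt_of_lt_mul (by rwa [Nat.mul_comm])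
    unfold pins at h
    rw [if_pos hj, Option.map_eq_some_iff] at h
    obtain ⟨I, hI, rfl⟩ := h
    refine ⟨_, X.mem_tab.mpr ⟨_, _, _, hI, rfl⟩, j / X.cc, hi, X.cond_iff.mpr rfl, ?_, ?_, rfl, ?_,
      rfl⟩
    · exact (Nat.div_add_mod' j X.cc).symm
    · exact cR_pl hi _
    · exact cR_pl hi _
  · rintro ⟨e, he, i, hi, hc, rfl, h1, h2, h3, h4⟩
    obtain ⟨t, c, I, hI, rfl⟩ := X.mem_tab.mp he
    rw [X.cond_iff] at hc
    subst hc
    have hc : c < X.cc := lt_of_lt_of_le (List.getElem?_eq_some_iff.mp hI).1 (X.tp_len _)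
    change X.pins S w (i * X.cc + c) = _
    rw [X.pins_eq w hi hc, hI]
    obtain ⟨b, β, d, γ⟩ := J
    simp only [Option.map_some, Option.some.injEq, Ins.mp, Ins.mk.injEq]
    refine ⟨?_, h2.symm, ?_, h4.symm⟩
    · apply cR_inj
      rw [cR_pl hi]
      exact h1.symm
    · apply cR_inj
      rw [cR_pl hi]
      exact h3.symm

/-- Entries of the table come from instructions. -/
theorem ex_pins {S : ℕ} {w : List (Option Bool)} {e : Ent} (he : e ∈ X.tab) {i : ℕ} (hi : i < S)
    (hc : cond S w e i) : ∃ J : Ins (Rg X S), X.pins S w (i * X.cc + e.c) = some J ∧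
      cR J.b = e.pb * i + e.qb ∧ J.β = e.β ∧ cR J.d = e.pd * i + e.qd ∧ J.γ = e.γ := by
  obtain ⟨t, c, I, hI, rfl⟩ := X.mem_tab.mp he
  refine ⟨Ins.mp (X.pl S i) I, ?_, cR_pl hi _, rfl, cR_pl hi _, rfl⟩
  rw [X.cond_iff] at hc
  subst hc
  have hc : c < X.cc := lt_of_lt_of_le (List.getElem?_eq_some_iff.mp hI).1 (X.tp_len _)
  change X.pins S w (i * X.cc + c) = _
  rw [X.pins_eq w hi hc, hI]
  rfl

end Sweep

end Pool.Agent.Helper69.Mix
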