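import Mathlib
import Pool.Agent.Helper69.Mix.Csp

/-!
# Colourings in which all hubs have the same colour
-/

namespace Pool.Agent.Helper69.Mix

open Function

variable {I : Csp}

/-- All hubs have the same colour. -/
def HubEq (γ : Vx I.V → Fin 4) : Prop := ∀ j, γ (.h j) = γ (.h 3)

/-- Processing order. -/
def rk {V : Type} : Vx V → ℕ
  | .h _ => 0
  | .be _ => 0
  | .la0 => 2
  | .la1 => 3
  | .la2 => 3
  | .la3 => 1
  | .va _ => 0
  | .pa _ _ _ _ i => if i = 0 then 1 else if i = 1 then 2 else if i = 2 then 0 else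
      if i = 3 then 2 else 1
  | .bl _ _ _ _ _ _ => 3

theorem adj_pa {u : I.V} {a : Fin 3} {v : I.V} {b : Fin 3} {i : Fin 5} {x : Vx I.V}
    (h : (gr I).Adj (.pa u a v b i) x) :
    (i = 0 ∧ x = .va u) ∨ (i = 4 ∧ x = .va v) ∨
    (∃ j : Fin 5, j.val = i.val + 1 ∧ x = .pa u a v b j) ∨
    (∃ j : Fin 5, i.val = j.val + 1 ∧ x = .pa u a v b j) ∨
    (i = 2 ∧ ∃ j, x = .h j ∧ j ≠ Lc a b 2 ∧ j ≠ Rc a b 2) ∨
    (∃ c, x = .bl u a v b i c ∧ i ≠ 2 ∧ c.castSucc ≠ Lc a b i ∧ c.castSucc ≠ Rc a b i) := by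
  rcases adj_iff.mp h with h | h
  · cases h with
    | pu _ _ _ _ _ w h1 h2 =>
      rcases h2 with h2 | h2
      · exact Or.inl ⟨h2.1, by rw [h2.2]⟩
      · exact Or.inr (Or.inl ⟨h2.1, by rw [h2.2]⟩)
    | pp _ _ _ _ i j h1 h2 => exact Or.inr (Or.inr (Or.inl ⟨_, h2, rfl⟩))
    | ph _ _ _ _ i j h1 h2 h3 h4 =>
      subst h2
      exact Or.inr (Or.inr (Or.inr (Or.inr (Or.inl ⟨rfl, _, rfl, h3, h4⟩))))
  · cases h with
    | pp _ _ _ _ i j h1 h2 => exact Or.inr (Or.inr (Or.inr (Or.inl ⟨_, h2, rfl⟩)))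
    | bp _ _ _ _ i c h1 h2 h3 h4 =>
      exact Or.inr (Or.inr (Or.inr (Or.inr (Or.inr ⟨_, rfl, h2, h3, h4⟩))))

theorem hub_conn [Finite I.V] {γ δ : Vx I.V → Fin 4} (hγ : Pr (gr I) γ) (hδ : Pr (gr I) δ)
    (h1 : HubEq γ) (h2 : HubEq δ) (h : γ (.h 3) = δ (.h 3)) : Rch (gr I) γ δ := by
  refine degen (G := gr I) {x | ∃ j, x = .h j} (fun _ => γ (.h 3)) rk ?_ γ δ hγ hδ ?_ ?_
  · intro w hw ε hε hκ
    have hκ' : ∀ j, ε (.h j) = γ (.h 3) := fun j => hκ _ ⟨j, rfl⟩
    cases w with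
    | h j => exact absurd ⟨j, rfl⟩ hw
    | be c =>
      refine ⟨γ (.h 3), γ (.h 3), ?_⟩
      intro x hx hr
      rcases adj_iff.mp hx with hx | hx <;> cases hx
      exact Or.inl (hκ' _)
    | la0 =>
      refine ⟨γ (.h 3), ε .la3, ?_⟩
      intro x hx hr
      rcases adj_iff.mp hx with hx | hx <;> cases hx
      · exact Or.inl (hκ' _)
      · simp [rk] at hr
      · exact Or.inr rfl
    | la1 =>
      refine ⟨γ (.h 3), ε .la3, ?_⟩
      intro x hx hr
      rcases adj_iff.mp hx with hx | hx <;> cases hx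
      · exact Or.inl (hκ' _)
      · exact Or.inr rfl
    | la2 =>
      refine ⟨γ (.h 3), ε .la0, ?_⟩
      intro x hx hr
      rcases adj_iff.mp hx with hx | hx <;> cases hx
      · exact Or.inl (hκ' _)
      · exact Or.inr rfl
    | la3 =>
      refine ⟨ε (.va I.t), ε (.va I.t), ?_⟩
      intro x hx hr
      rcases adj_iff.mp hx with hx | hx <;> cases hx
      · rename_i u hu
        exact Or.inl (by rw [hu])
      · simp [rk] at hr
      · simp [rk] at hr
    | va u =>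
      refine ⟨γ (.h 3), γ (.h 3), ?_⟩
      intro x hx hr
      rcases adj_iff.mp hx with hx | hx <;> cases hx
      · exact Or.inl (hκ' _)
      · simp [rk] at hr
      · rename_i i h3 h4
        rcases h4 with h4 | h4
        · simp [rk, h4.1] at hr
        · simp [rk, h4.1] at hr
    | pa u a v b i =>
      have key : ∀ i : Fin 5, i = 0 ∨ i = 1 ∨ i = 2 ∨ i = 3 ∨ i = 4 := by decide
      rcases key i with rfl | rfl | rfl | rfl | rfl
      · refine ⟨ε (.va u), ε (.va u), ?_⟩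
        intro x hx hr
        rcases adj_pa hx with ⟨_, rfl⟩ | ⟨h3, _⟩ | ⟨j, hj, rfl⟩ | ⟨j, hj, rfl⟩ | ⟨h3, _⟩ | ⟨c, rfl, _⟩
        · exact Or.inl rfl
        · simp at h3
        · obtain rfl : j = 1 := Fin.ext hj
          simp [rk] at hr
        · simp at hj
        · simp at h3
        · simp [rk] at hr
      · refine ⟨ε (.pa u a v b 0), ε (.pa u a v b 2), ?_⟩
        intro x hx hr
        rcases adj_pa hx with ⟨h3, _⟩ | ⟨h3, _⟩ | ⟨j, hj, rfl⟩ | ⟨j, hj, rfl⟩ | ⟨h3, _⟩ | ⟨c, rfl, _⟩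
        · simp at h3
        · simp at h3
        · obtain rfl : j = 2 := Fin.ext hj
          exact Or.inr rfl
        · obtain rfl : j = 0 := Fin.ext (by simp at hj; simp [← hj])
          exact Or.inl rfl
        · simp at h3
        · simp [rk] at hr
      · refine ⟨γ (.h 3), γ (.h 3), ?_⟩
        intro x hx hr
        rcases adj_pa hx with ⟨h3, _⟩ | ⟨h3, _⟩ | ⟨j, hj, rfl⟩ | ⟨j, hj, rfl⟩ | ⟨_, j, rfl, _⟩ |
          ⟨c, rfl, _⟩
        · simp at h3
        · simp at h3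
        · obtain rfl : j = 3 := Fin.ext hj
          simp [rk] at hr
        · obtain rfl : j = 1 := Fin.ext (by simp at hj; omega)
          simp [rk] at hr
        · exact Or.inl (hκ' _)
        · simp [rk] at hr
      · refine ⟨ε (.pa u a v b 2), ε (.pa u a v b 4), ?_⟩
        intro x hx hr
        rcases adj_pa hx with ⟨h3, _⟩ | ⟨h3, _⟩ | ⟨j, hj, rfl⟩ | ⟨j, hj, rfl⟩ | ⟨h3, _⟩ | ⟨c, rfl, _⟩
        · simp at h3
        · simp at h3
        · obtain rfl : j = 4 := Fin.ext hj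
          exact Or.inr rfl
        · obtain rfl : j = 2 := Fin.ext (by simp at hj; omega)
          exact Or.inl rfl
        · simp at h3
        · simp [rk] at hr
      · refine ⟨ε (.va v), ε (.va v), ?_⟩
        intro x hx hr
        rcases adj_pa hx with ⟨h3, _⟩ | ⟨_, rfl⟩ | ⟨j, hj, rfl⟩ | ⟨j, hj, rfl⟩ | ⟨h3, _⟩ | ⟨c, rfl, _⟩
        · simp at h3
        · exact Or.inl rfl
        · simp at hj
          omega
        · obtain rfl : j = 3 := Fin.ext (by simp at hj; omega)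
          simp [rk] at hr
        · simp at h3
        · simp [rk] at hr
    | bl u a v b i c =>
      refine ⟨γ (.h 3), ε (.pa u a v b i), ?_⟩
      intro x hx hr
      rcases adj_iff.mp hx with hx | hx <;> cases hx
      · exact Or.inl (hκ' _)
      · exact Or.inr rfl
  · rintro x ⟨j, rfl⟩
    exact h1 j
  · rintro x ⟨j, rfl⟩
    rw [h2 j, h]

end Pool.Agent.Helper69.Mix
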