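import Mathlib
import Pool.Agent.Helper69.Mix.HubEq
import Pool.Agent.Helper69.Mix.Lock

/-!
# Unlocking the hubs
-/

namespace Pool.Agent.Helper69.Mix

open Function

variable {I : Csp}

/-- The locked situation, for hubs with colours `0, 1, 2, 3` in some order. -/
def Locked (γ : Vx I.V → Fin 4) : Prop :=
  (∀ i j, i ≠ j → γ (.h i) ≠ γ (.h j)) ∧ γ (.va I.t) = γ (.h 1) ∧ γ .la0 = γ (.h 0) ∧
    γ .la1 = γ (.h 3) ∧ γ .la2 = γ (.h 3) ∧ γ .la3 = γ (.h 2)

theorem castSucc_ne3 (c : Fin 3) : (3 : Fin 4) ≠ c.castSucc := by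
  revert c
  decide

theorem L2_ne3 (a b : Fin 3) : (3 : Fin 4) ≠ Lc a b 2 ∧ (3 : Fin 4) ≠ Rc a b 2 := by
  revert a b
  decide

/-- A neighbour of a hub is a neighbour of the hub `3`, unless it is a lock vertex. -/
theorem adj_hub {j : Fin 4} {x : Vx I.V} (h : (gr I).Adj (.h j) x) :
    (gr I).Adj (.h 3) x ∨ (x = .la0 ∧ j = 1) ∨ (x = .la1 ∧ (j = 0 ∨ j = 1)) ∨
      (x = .la2 ∧ (j = 1 ∨ j = 2)) := by
  rcases adj_iff.mp h with h | h
  · cases h
  · cases h with
    | hb _ c h1 => exact Or.inl (adj_iff.mpr (Or.inr (E.hb _ _ (castSucc_ne3 c))))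
    | l0h _ h1 => exact Or.inr (Or.inl ⟨rfl, h1⟩)
    | l1h _ h1 => exact Or.inr (Or.inr (Or.inl ⟨rfl, h1⟩))
    | l2h _ h1 => exact Or.inr (Or.inr (Or.inr ⟨rfl, h1⟩))
    | vh u _ h1 => exact Or.inl (adj_iff.mpr (Or.inr (E.vh _ _ (Or.inl rfl))))
    | ph u a v b i _ h1 h2 h3 h4 =>
      subst h2
      exact Or.inl (adj_iff.mpr (Or.inr (E.ph _ _ _ _ _ _ h1 rfl (L2_ne3 a b).1 (L2_ne3 a b).2)))
    | bh u a v b i c _ h1 =>
      exact Or.inl (adj_iff.mpr (Or.inr (E.bh _ _ _ _ _ _ _ (castSucc_ne3 c))))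

theorem adj_la0 {x : Vx I.V} (h : (gr I).Adj .la0 x) : x = .h 1 ∨ x = .la2 ∨ x = .la3 := by
  rcases adj_iff.mp h with h | h <;> cases h <;> simp_all

theorem adj_la1 {x : Vx I.V} (h : (gr I).Adj .la1 x) : x = .h 0 ∨ x = .h 1 ∨ x = .la3 := by
  rcases adj_iff.mp h with h | h <;> cases h <;> simp_all

theorem adj_la2 {x : Vx I.V} (h : (gr I).Adj .la2 x) : x = .h 1 ∨ x = .h 2 ∨ x = .la0 := by
  rcases adj_iff.mp h with h | h <;> cases h <;> simp_all

theorem adj_la3 {x : Vx I.V} (h : (gr I).Adj .la3 x) : x = .va I.t ∨ x = .la0 ∨ x = .la1 := by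
  rcases adj_iff.mp h with h | h <;> cases h <;> simp_all

/-- The local check applied to a colouring. -/
def good (n : ℕ) (γ : Vx I.V → Fin 4) : Bool :=
  goodN n (γ (.h 0)).val (γ (.h 1)).val (γ (.h 2)).val (γ (.va I.t)).val (γ .la0).val (γ .la1).val
    (γ .la2).val (γ .la3).val

theorem val_ne {x : Fin 4} (h : ¬ x.val = 3) : x ≠ 3 := fun he => h (by rw [he]; rfl)

theorem unlock_aux (n : ℕ) (γ : Vx I.V → Fin 4) (hγ : Pr (gr I) γ) (h3 : γ (.h 3) = 3)
    (hg : good n γ = true) : ∃ γ', Rch (gr I) γ γ' ∧ HubEq γ' := by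
  classical
  induction n generalizing γ with
  | zero => simp [good, goodN] at hg
  | succ n ih =>
    unfold good at hg
    rw [goodN] at hg
    by_cases c0 : (γ (.h 0)).val = 3 ∧ (γ (.h 1)).val = 3 ∧ (γ (.h 2)).val = 3
    · refine ⟨γ, Rch.refl _, ?_⟩
      intro j
      have key : ∀ j : Fin 4, j = 0 ∨ j = 1 ∨ j = 2 ∨ j = 3 := by decide
      rcases key j with rfl | rfl | rfl | rfl
      · rw [h3]
        exact Fin.ext c0.1
      · rw [h3]
        exact Fin.ext c0.2.1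
      · rw [h3]
        exact Fin.ext c0.2.2
      · rfl
    rw [if_neg c0] at hg
    generalize tab / 2 ^ _ % 32 = m at hg
    dsimp only at hg
    have hm : m % 4 < 4 := Nat.mod_lt _ (by norm_num)
    split_ifs at hg with c1 c2 c3 c4 c5 c6 c7
    · rw [Bool.and_eq_true, decide_eq_true_eq] at hg
      have hu : ∀ w, (gr I).Adj (.h 0) w → γ w ≠ 3 := by
        intro w hw
        rcases adj_hub hw with h4 | ⟨_, h4⟩ | ⟨rfl, _⟩ | ⟨_, h4⟩
        · rw [← h3]
          exact (hγ _ _ h4).symm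
        · simp at h4
        · exact val_ne hg.1
        · simp at h4
      obtain ⟨γ', h4, h5⟩ := ih _ (hγ.upd (.h 0) 3 hu) (by simp [h3]) (by
        unfold good
        simpa using hg.2)
      exact ⟨γ', (Rch.upd hγ _ _ hu).trans h4, h5⟩
    · simp only [Bool.and_eq_true, decide_eq_true_eq] at hg
      have hu : ∀ w, (gr I).Adj (.h 1) w → γ w ≠ 3 := by
        intro w hw
        rcases adj_hub hw with h4 | ⟨rfl, h4⟩ | ⟨rfl, _⟩ | ⟨rfl, h4⟩
        · rw [← h3]
          exact (hγ _ _ h4).symm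
        · exact val_ne hg.1.1.1
        · exact val_ne hg.1.1.2
        · exact val_ne hg.1.2
      obtain ⟨γ', h4, h5⟩ := ih _ (hγ.upd (.h 1) 3 hu) (by simp [h3]) (by
        unfold good
        simpa using hg.2)
      exact ⟨γ', (Rch.upd hγ _ _ hu).trans h4, h5⟩
    · simp only [Bool.and_eq_true, decide_eq_true_eq] at hg
      have hu : ∀ w, (gr I).Adj (.h 2) w → γ w ≠ 3 := by
        intro w hw
        rcases adj_hub hw with h4 | ⟨_, h4⟩ | ⟨rfl, h4⟩ | ⟨rfl, _⟩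
        · rw [← h3]
          exact (hγ _ _ h4).symm
        · simp at h4
        · simp at h4
        · exact val_ne hg.1
      obtain ⟨γ', h4, h5⟩ := ih _ (hγ.upd (.h 2) 3 hu) (by simp [h3]) (by
        unfold good
        simpa using hg.2)
      exact ⟨γ', (Rch.upd hγ _ _ hu).trans h4, h5⟩
    · simp only [Bool.and_eq_true, decide_eq_true_eq] at hg
      have hu : ∀ w, (gr I).Adj .la0 w → γ w ≠ ⟨m % 4, hm⟩ := by
        intro w hw he
        have he' := congrArg Fin.val he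
        rcases adj_la0 hw with rfl | rfl | rfl
        · exact hg.1.1.1 he'.symm
        · exact hg.1.1.2 he'.symm
        · exact hg.1.2 he'.symm
      obtain ⟨γ', h4, h5⟩ := ih _ (hγ.upd .la0 ⟨m % 4, hm⟩ hu) (by simp [h3]) (by
        unfold good
        simpa using hg.2)
      exact ⟨γ', (Rch.upd hγ _ _ hu).trans h4, h5⟩
    · simp only [Bool.and_eq_true, decide_eq_true_eq] at hg
      have hu : ∀ w, (gr I).Adj .la1 w → γ w ≠ ⟨m % 4, hm⟩ := by
        intro w hw he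
        have he' := congrArg Fin.val he
        rcases adj_la1 hw with rfl | rfl | rfl
        · exact hg.1.1.1 he'.symm
        · exact hg.1.1.2 he'.symm
        · exact hg.1.2 he'.symm
      obtain ⟨γ', h4, h5⟩ := ih _ (hγ.upd .la1 ⟨m % 4, hm⟩ hu) (by simp [h3]) (by
        unfold good
        simpa using hg.2)
      exact ⟨γ', (Rch.upd hγ _ _ hu).trans h4, h5⟩
    · simp only [Bool.and_eq_true, decide_eq_true_eq] at hg
      have hu : ∀ w, (gr I).Adj .la2 w → γ w ≠ ⟨m % 4, hm⟩ := by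
        intro w hw he
        have he' := congrArg Fin.val he
        rcases adj_la2 hw with rfl | rfl | rfl
        · exact hg.1.1.1 he'.symm
        · exact hg.1.1.2 he'.symm
        · exact hg.1.2 he'.symm
      obtain ⟨γ', h4, h5⟩ := ih _ (hγ.upd .la2 ⟨m % 4, hm⟩ hu) (by simp [h3]) (by
        unfold good
        simpa using hg.2)
      exact ⟨γ', (Rch.upd hγ _ _ hu).trans h4, h5⟩
    · simp only [Bool.and_eq_true, decide_eq_true_eq] at hg
      have hu : ∀ w, (gr I).Adj .la3 w → γ w ≠ ⟨m % 4, hm⟩ := by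
        intro w hw he
        have he' := congrArg Fin.val he
        rcases adj_la3 hw with rfl | rfl | rfl
        · exact hg.1.1.1 he'.symm
        · exact hg.1.1.2 he'.symm
        · exact hg.1.2 he'.symm
      obtain ⟨γ', h4, h5⟩ := ih _ (hγ.upd .la3 ⟨m % 4, hm⟩ hu) (by simp [h3]) (by
        unfold good
        simpa using hg.2)
      exact ⟨γ', (Rch.upd hγ _ _ hu).trans h4, h5⟩

theorem unlock3 (γ : Vx I.V → Fin 4) (hγ : Pr (gr I) γ) (h3 : γ (.h 3) = 3)
    (hl : ¬ Locked γ) : ∃ γ', Rch (gr I) γ γ' ∧ HubEq γ' := by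
  refine unlock_aux 10 γ hγ h3 ?_
  have ne : ∀ {x y : Vx I.V}, E I x y → (γ x).val ≠ (γ y).val :=
    fun h he => (pr_iff.mp hγ) _ _ h (Fin.ext he)
  have h3' : (γ (.h 3)).val = 3 := by rw [h3]; rfl
  refine good_or_locked (γ _).2 (γ _).2 (γ _).2 (γ _).2 (γ _).2 (γ _).2 (γ _).2 (γ _).2 ?_ ?_
  · simp only [okN, Bool.and_eq_true, decide_eq_true_eq]
    refine ⟨⟨⟨⟨⟨⟨⟨⟨⟨⟨?_, ?_⟩, ?_⟩, ?_⟩, ?_⟩, ?_⟩, ?_⟩, ?_⟩, ?_⟩, ?_⟩, ?_⟩
    · rw [← h3']
      exact ne (E.vh _ _ (Or.inl rfl))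
    · exact ne (E.vh _ _ (Or.inr ⟨rfl, I.ht⟩))
    · exact ne (E.l0h _ rfl)
    · exact ne (E.l1h _ (Or.inl rfl))
    · exact ne (E.l1h _ (Or.inr rfl))
    · exact ne (E.l2h _ (Or.inl rfl))
    · exact ne (E.l2h _ (Or.inr rfl))
    · exact (ne E.l02).symm
    · exact ne (E.l3t _ rfl)
    · exact (ne E.l03).symm
    · exact (ne E.l13).symm
  · rw [Bool.eq_false_iff]
    intro hL
    apply hl
    simp only [lockedN, Bool.and_eq_true, decide_eq_true_eq] at hL
    obtain ⟨⟨⟨⟨⟨⟨⟨⟨⟨⟨a1, a2⟩, a3⟩, a4⟩, a5⟩, a6⟩, a7⟩, a8⟩, a9⟩, a10⟩, a11⟩ := hL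
    refine ⟨?_, Fin.ext a7, Fin.ext a8, ?_, ?_, Fin.ext a11⟩
    · have b1 : γ (.h 0) ≠ γ (.h 1) := fun h => a1 (congrArg Fin.val h)
      have b2 : γ (.h 0) ≠ γ (.h 2) := fun h => a2 (congrArg Fin.val h)
      have b3 : γ (.h 1) ≠ γ (.h 2) := fun h => a3 (congrArg Fin.val h)
      have b4 : γ (.h 0) ≠ γ (.h 3) := fun h => a4 (by rw [h, h3'])
      have b5 : γ (.h 1) ≠ γ (.h 3) := fun h => a5 (by rw [h, h3'])
      have b6 : γ (.h 2) ≠ γ (.h 3) := fun h => a6 (by rw [h, h3'])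
      intro i j hij
      have key : ∀ j : Fin 4, j = 0 ∨ j = 1 ∨ j = 2 ∨ j = 3 := by decide
      rcases key i with rfl | rfl | rfl | rfl <;> rcases key j with rfl | rfl | rfl | rfl <;>
        first
          | exact absurd rfl hij
          | assumption
          | (apply Ne.symm; assumption)
    · rw [h3]
      exact Fin.ext a9
    · rw [h3]
      exact Fin.ext a10

theorem Locked.comp {γ : Vx I.V → Fin 4} {σ : Fin 4 → Fin 4} (hσ : Function.Injective σ)
    (h : Locked (σ ∘ γ)) : Locked γ := by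
  obtain ⟨h1, h2, h3, h4, h5, h6⟩ := h
  exact ⟨fun i j hij he => h1 i j hij (by simp [he]), hσ h2, hσ h3, hσ h4, hσ h5, hσ h6⟩

/-- A colouring which is not locked can be transformed so that all hubs have the same colour. -/
theorem unlock (γ : Vx I.V → Fin 4) (hγ : Pr (gr I) γ) (hl : ¬ Locked γ) :
    ∃ γ', Rch (gr I) γ γ' ∧ HubEq γ' := by
  set σ : Equiv.Perm (Fin 4) := Equiv.swap (γ (.h 3)) 3 with hσ
  obtain ⟨γ', h1, h2⟩ := unlock3 (σ ∘ γ) (hγ.comp σ.injective) (by simp [hσ])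
    (fun h => hl (h.comp σ.injective))
  refine ⟨σ.symm ∘ γ', ?_, ?_⟩
  · have h3 := h1.comp σ.symm.injective
    rwa [← Function.comp_assoc, Equiv.symm_comp_self, Function.id_comp] at h3
  · intro j
    simp only [Function.comp_apply]
    rw [h2 j]

end Pool.Agent.Helper69.Mix
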