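import Mathlib
import Pool.Agent.Helper69.Mix.Unlock

/-!
# The graph is 3-colourable, and all colourings with monochromatic hubs are connected
-/

namespace Pool.Agent.Helper69.Mix

open Function

variable {I : Csp}

/-- A 3-colouring. -/
def col3 {V : Type} : Vx V → Fin 3
  | .h _ => 0
  | .be _ => 1
  | .la0 => 1
  | .la1 => 1
  | .la2 => 2
  | .la3 => 0
  | .va _ => 1
  | .pa _ _ _ _ i => ![0, 2, 1, 2, 0] i
  | .bl _ _ _ _ _ _ => 1

theorem pat_succ : ∀ i j : Fin 5, j.val = i.val + 1 →
    (![0, 2, 1, 2, 0] : Fin 5 → Fin 3) i ≠ (![0, 2, 1, 2, 0] : Fin 5 → Fin 3) j := by decide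

theorem pat_ne : ∀ i : Fin 5, i ≠ 2 → (1 : Fin 3) ≠ (![0, 2, 1, 2, 0] : Fin 5 → Fin 3) i := by
  decide

theorem col3_pr : Pr (gr I) (col3 : Vx I.V → Fin 3) := by
  rw [pr_iff]
  intro x y h
  cases h with
  | hb j c h => simp [col3]
  | l0h j h => simp [col3]
  | l02 => simp [col3]
  | l03 => simp [col3]
  | l1h j h => simp [col3]
  | l13 => simp [col3]
  | l2h j h => simp [col3]
  | l3t u h => simp [col3]
  | vh u j h => simp [col3]
  | pu u a v b i w h1 h2 =>
    rcases h2 with ⟨rfl, _⟩ | ⟨rfl, _⟩ <;> simp [col3]
  | pp u a v b i j h1 h2 => exact pat_succ i j h2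
  | ph u a v b i j h1 h2 h3 h4 =>
    subst h2
    simp [col3]
  | bh u a v b i c j h => simp [col3]
  | bp u a v b i c h1 h2 h3 h4 => exact pat_ne i h2

/-- Recolouring a whole colour class with an unused colour. -/
theorem class_move {V C : Type} [Finite V] {G : SimpleGraph V} {α : V → C} (hα : Pr G α)
    (c c' : C) (hc : ∀ v, α v ≠ c') [DecidableEq C] :
    Rch G α (fun v => if α v = c then c' else α v) := by
  classical
  have := Fintype.ofFinite V
  have key : ∀ S : Finset V, Rch G α (fun v => if v ∈ S ∧ α v = c then c' else α v) := by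
    intro S
    induction S using Finset.induction_on with
    | empty => simpa using Rch.refl α
    | insert v S hv ih =>
      by_cases h : α v = c
      · have hpr := ih.pr hα
        have h1 : ∀ w, G.Adj v w → (fun v => if v ∈ S ∧ α v = c then c' else α v) w ≠ c' := by
          intro w hw
          have h2 : α w ≠ c := fun he => hα v w hw (h.trans he.symm)
          simp only [h2, and_false, if_false]
          exact hc w
        have h3 := Rch.upd hpr v c' h1
        have h4 : update (fun v => if v ∈ S ∧ α v = c then c' else α v) v c' =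
            fun u => if u ∈ insert v S ∧ α u = c then c' else α u := by
          funext u
          by_cases hu : u = v
          · subst hu
            simp [h]
          · rw [update_of_ne hu]
            simp [hu]
        rw [h4] at h3
        exact ih.trans h3
      · have h4 : (fun v => if v ∈ S ∧ α v = c then c' else α v) =
            fun u => if u ∈ insert v S ∧ α u = c then c' else α u := by
          funext u
          by_cases hu : u = v
          · subst hu
            simp [h]
          · simp [hu]
        rw [← h4]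
        exact ih
  simpa using key Finset.univ

theorem exists_inj (c c' : Fin 4) (h : c ≠ c') :
    ∃ σ : Fin 3 → Fin 4, Function.Injective σ ∧ σ 0 = c ∧ ∀ i, σ i ≠ c' := by
  revert c c'
  decide

/-- All colourings with monochromatic hubs are connected. -/
theorem hubEq_conn [Finite I.V] {γ δ : Vx I.V → Fin 4} (hγ : Pr (gr I) γ) (hδ : Pr (gr I) δ)
    (h1 : HubEq γ) (h2 : HubEq δ) : Rch (gr I) γ δ := by
  by_cases h : γ (.h 3) = δ (.h 3)
  · exact hub_conn hγ hδ h1 h2 h
  · obtain ⟨σ, hσ, h3, h4⟩ := exists_inj _ _ h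
    have hp : Pr (gr I) (σ ∘ (col3 : Vx I.V → Fin 3)) := col3_pr.comp hσ
    have h5 : Rch (gr I) γ (σ ∘ col3) :=
      hub_conn hγ hp h1 (fun j => rfl) h3.symm
    have h6 := class_move hp (γ (.h 3)) (δ (.h 3)) (fun v => h4 _)
    refine h5.trans (h6.trans (hub_conn (h6.pr hp) hδ (fun j => rfl) h2 ?_))
    have : (σ ∘ (col3 : Vx I.V → Fin 3)) (.h 3) = γ (.h 3) := h3
    rw [if_pos this]

end Pool.Agent.Helper69.Mix
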