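import Mathlib
import Pool.Agent.Helper69.Terms

/-!
# Terms for finite disjunctions and static conditions
-/

namespace Pool.Agent.Helper69

variable {w : List Sym} {n : ℕ} {e : ℕ → ℕ}

/-- Disjunction over a list. -/
def exL {α : Type} (l : List α) (f : α → Tm) : Tm := l.foldr (fun a t => orT (f a) t) (.cst 0)

@[simp] theorem tr_exL {α : Type} {l : List α} {f : α → Tm} :
    tr w n e (exL l f) ↔ ∃ a ∈ l, tr w n e (f a) := by
  induction l with
  | nil => simp [exL, tr, Tm.eval]
  | cons a l ih =>
    have h : exL (a :: l) f = orT (f a) (exL l f) := rfl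
    rw [h, tr_or, ih]
    simp

/-- Disjunction over a finite type. -/
noncomputable def exF {α : Type} [Fintype α] (f : α → Tm) : Tm := exL Finset.univ.toList f

@[simp] theorem tr_exF {α : Type} [Fintype α] {f : α → Tm} :
    tr w n e (exF f) ↔ ∃ a, tr w n e (f a) := by
  simp [exF]

open Classical in
/-- Static condition. -/
noncomputable def gT (p : Prop) (t : Tm) : Tm := if p then t else .cst 0

@[simp] theorem tr_gT {p : Prop} {t : Tm} : tr w n e (gT p t) ↔ p ∧ tr w n e t := by
  unfold gT
  split_ifs with h
  · simp [h]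
  · simp [h, tr, Tm.eval]

/-- Power with constant exponent. -/
def pwT (t : Tm) : ℕ → Tm
  | 0 => .cst 1
  | k + 1 => .mul (pwT t k) t

@[simp] theorem eval_pwT {t : Tm} (k : ℕ) : (pwT t k).eval w n e = (t.eval w n e) ^ k := by
  induction k with
  | zero => simp [pwT, Tm.eval]
  | succ k ih => rw [pwT, Tm.eval, ih, pow_succ]

end Pool.Agent.Helper69
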