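import Mathlib
import Pool.Agent.Helper69.Mix.Fin
import Pool.Agent.Helper73.Mix.Savitch

/-!
# Arithmetical descriptions for the evaluation of the mixing formula
-/

namespace Pool.Agent.Helper69.Mix

open Function Helper69 Pool.Agent.Helper73.Mix

/-- Only the first bits matter. -/
theorem leaf_congr {n k : ℕ} {G : SimpleGraph (Fin n)} {b b' : ℕ → Bool}
    (h : ∀ i < (n * k + 1) * (n * k + 2), b i = b' i) : Leaf n k G b ↔ Leaf n k G b' := by
  have hcol : ∀ i < n * k + 2, ∀ v < n, ∀ c < k, colBit n k b i v c = colBit n k b' i v c := by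
    intro i hi v hv c hc
    apply h
    have h1 : v * k + c < n * k := by nlinarith
    nlinarith
  have hsel : ∀ i < n * k + 2, selBit n k b i = selBit n k b' i := by
    intro i hi
    apply h
    nlinarith
  have hPB : ∀ i < n * k + 2, PB n k G b i ↔ PB n k G b' i := by
    intro i hi
    unfold PB
    refine and_congr ?_ ?_
    · refine forall_congr' fun v => forall_congr' fun hv => exists_congr fun c =>
        and_congr_right fun hc => and_congr (by rw [hcol i hi v hv c hc]) ?_
      refine forall_congr' fun c' => forall_congr' fun hc' => ?_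
      rw [hcol i hi v hv c' hc']
    · refine forall_congr' fun v => forall_congr' fun hv => forall_congr' fun w =>
        forall_congr' fun hw => forall_congr' fun _ => forall_congr' fun c =>
        forall_congr' fun hc => ?_
      rw [hcol i hi v hv c hc, hcol i hi w hw c hc]
  have hDB : ∀ x < n * k + 2, ∀ y < n * k + 2, DB n k b x y ↔ DB n k b' x y := by
    intro x hx y hy
    unfold DB
    refine exists_congr fun v => and_congr_right fun _ => forall_congr' fun w =>
      forall_congr' fun hw => forall_congr' fun _ => forall_congr' fun c =>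
      forall_congr' fun hc => ?_
    rw [hcol x hx w hw c hc, hcol y hy w hw c hc]
  have hX : ∀ x < n * k + 2, IsX n k b x ↔ IsX n k b' x := by
    intro x hx
    unfold IsX
    refine or_congr (and_congr_right fun _ => ?_) (and_congr_right fun _ =>
      and_congr (by rw [hsel x hx]) ?_)
    · refine forall_congr' fun i => forall_congr' fun hi => ?_
      rw [hsel i hi]
    · refine forall_congr' fun i => forall_congr' fun hi => ?_
      rw [hsel i hi]
  have hY : ∀ x < n * k + 2, IsY n k b x ↔ IsY n k b' x := by
    intro x hx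
    unfold IsY
    refine or_congr (and_congr_right fun _ => ?_) (and_congr_right fun _ =>
      and_congr (by rw [hsel x hx]) ?_)
    · refine forall_congr' fun i => forall_congr' fun hi => ?_
      rw [hsel i hi]
    · refine forall_congr' fun i => forall_congr' fun hi => ?_
      rw [hsel i hi]
  unfold Leaf
  rw [hPB 0 (by omega), hPB 1 (by omega)]
  refine forall_congr' fun _ => forall_congr' fun _ => exists_congr fun x =>
    and_congr_right fun hx => exists_congr fun y => and_congr_right fun hy => ?_
  rw [hX x hx, hY y hy, hPB x hx, hPB y hy, hDB x hx y hy]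

/-- The value stored in the slots, described by quantifiers. -/
theorem val_iff {M : ℕ} {Q : ℕ → Bool} {leaf : (ℕ → Bool) → Bool} {b sl : ℕ → Bool} {j : ℕ} :
    val M Q leaf b sl j = true ↔
      (∃ i < M, ¬ i < j ∧ sl i = true ∧ ¬ Q i = true ∧
        ¬ ∃ i' < M, ¬ i' < j ∧ i' < i ∧ ¬ (sl i' = true ↔ Q i' = true)) ∨
      ((¬ ∃ i' < M, ¬ i' < j ∧ i' < M ∧ ¬ (sl i' = true ↔ Q i' = true)) ∧ leaf b = true) := by
  have hb : ∀ x y : Bool, (x = true ↔ y = true) ↔ x = y := by decide
  simp only [hb]
  by_cases hall : ∀ i, j ≤ i → i < M → sl i = Q i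
  · rw [val_eq_leaf hall]
    constructor
    · intro h
      right
      refine ⟨?_, h⟩
      rintro ⟨i, hi, hji, _, hne⟩
      exact hne (hall i (by omega) hi)
    · rintro (⟨i, hi, hji, h1, h2, _⟩ | ⟨_, h⟩)
      · rw [← hall i (by omega) hi] at h2
        exact absurd h1 h2
      · exact h
  · push Not at hall
    have hex : ∃ i, j ≤ i ∧ i < M ∧ sl i ≠ Q i := by
      obtain ⟨i, h1, h2, h3⟩ := hall
      exact ⟨i, h1, h2, h3⟩
    classical
    obtain ⟨h1, h2, h3⟩ := Nat.find_spec hex
    have h4 : ∀ i, j ≤ i → i < Nat.find hex → sl i = Q i := by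
      intro i hi hlt
      by_contra hne
      exact Nat.find_min hex hlt ⟨hi, by omega, hne⟩
    rw [val_eq_slot h1 h2 h3 h4]
    constructor
    · intro h
      left
      refine ⟨Nat.find hex, h2, by omega, h, ?_, ?_⟩
      · intro hq
        exact h3 (by rw [h, hq])
      · rintro ⟨i', _, h5, h6, h7⟩
        exact h7 (h4 i' (by omega) h6)
    · rintro (⟨i, hi, hji, h5, h6, h7⟩ | ⟨h5, _⟩)
      · have h8 : Nat.find hex = i := by
          rcases lt_trichotomy (Nat.find hex) i with h | h | h
          · exfalso
            exact h7 ⟨Nat.find hex, h2, by omega, h, h3⟩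
          · exact h
          · exfalso
            have := h4 i (by omega) h
            rw [h5] at this
            exact h6 this.symm
        rw [h8]
        exact h5
      · exact absurd ⟨Nat.find hex, h2, by omega, h2, h3⟩ h5

/-- All higher bits are true. -/
def Abv (M : ℕ) (b : ℕ → Bool) (i : ℕ) : Prop := ¬ ∃ j < M, i < j ∧ ¬ b j = true

/-- The step in terms of quantifiers. -/
theorem stp_iff {M : ℕ} {Q : ℕ → Bool} {leaf : (ℕ → Bool) → Bool} {b sl : ℕ → Bool}
    (hne : ∃ i < M, b i = false) (i : ℕ) (hi : i < M) :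
    ((stp M Q leaf (b, sl)).1 i = true ↔
      ((¬ b i = true ∧ Abv M b i) ∨ (b i = true ∧ ¬ Abv M b i))) ∧
    ((stp M Q leaf (b, sl)).2 i = true ↔
      ((¬ b i = true ∧ Abv M b i) ∧ val M Q leaf b sl (i + 1) = true) ∨
      (¬ (¬ b i = true ∧ Abv M b i) ∧ sl i = true)) := by
  classical
  -- the greatest false position
  obtain ⟨s, hs, h0, h1⟩ : ∃ s < M, b s = false ∧ ∀ i, s < i → i < M → b i = true := by
    obtain ⟨i₀, hi₀, hb₀⟩ := hne
    have hsp := Nat.findGreatest_spec (P := fun i => i < M ∧ b i = false) hi₀.le ⟨hi₀, hb₀⟩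
    refine ⟨_, hsp.1, hsp.2, ?_⟩
    intro i hi hiM
    by_contra hb
    have := Nat.le_findGreatest (P := fun i => i < M ∧ b i = false) hiM.le
      ⟨hiM, by simpa using hb⟩
    omega
  rw [stp_eq hs h0 h1]
  have habv : Abv M b i ↔ s ≤ i := by
    unfold Abv
    constructor
    · intro h
      by_contra hlt
      exact h ⟨s, hs, by omega, by rw [h0]; decide⟩
    · rintro h ⟨j, hj, hij, hb⟩
      exact hb (h1 j (by omega) hj)
  have hkey : (¬ b i = true ∧ Abv M b i) ↔ i = s := by
    rw [habv]
    constructor
    · rintro ⟨h2, h3⟩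
      by_contra hne
      exact h2 (h1 i (by omega) hi)
    · rintro rfl
      exact ⟨by rw [h0]; decide, le_rfl⟩
  constructor
  · rw [hkey]
    simp only [incr]
    by_cases h2 : i < s
    · rw [if_pos h2, habv]
      constructor
      · intro h
        exact Or.inr ⟨h, by omega⟩
      · rintro (h | ⟨h, _⟩)
        · omega
        · exact h
    · rw [if_neg h2]
      by_cases h3 : i = s
      · rw [if_pos h3]
        exact ⟨fun _ => Or.inl h3, fun _ => rfl⟩
      · rw [if_neg h3, if_pos hi, habv]
        constructor
        · intro h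
          exact absurd h (by decide)
        · rintro (h | ⟨_, h⟩)
          · exact absurd h h3
          · omega
  · rw [hkey]
    by_cases h3 : i = s
    · subst h3
      simp only
      rw [update_self]
      simp
    · simp only
      rw [update_of_ne h3]
      simp [h3]

/-- `QM` in terms of quantifiers. -/
theorem QM_iff {n k j : ℕ} : QM n k j = true ↔
    (j < 2 * (n * k + 1) ∨ ∃ q < j + 1, j = q * (n * k + 1) + n * k) := by
  unfold QM
  rw [decide_eq_true_iff]
  refine or_congr_right ?_
  constructor
  · intro h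
    refine ⟨j / (n * k + 1), ?_, ?_⟩
    · exact Nat.lt_succ_of_le (Nat.div_le_self _ _)
    · have h1 := Nat.div_add_mod' j (n * k + 1)
      rw [h] at h1
      exact h1.symm
  · rintro ⟨q, _, h⟩
    rw [h, Nat.mul_comm, Nat.mul_add_mod, Nat.mod_eq_of_lt (by omega)]

end Pool.Agent.Helper69.Mix
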