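import Mathlib
import Pool.Agent.Helper69.Mix.PSpace

/-!
# The decision problem k-COLOUR-MIXING
-/

namespace Pool.Agent.Helper69.Mix

/-- The `k`-colouring graph of `G`: its vertices are the proper colourings of `G` with `k`
colours, two of them being adjacent if they differ at exactly one vertex of `G`. -/
def colouringGraph {V : Type} (k : ℕ) (G : SimpleGraph V) : SimpleGraph (G.Coloring (Fin k)) where
  Adj α β := ∃! v : V, α v ≠ β v
  symm := by
    constructor
    rintro α β ⟨v, hv, h⟩
    exact ⟨v, hv.symm, fun w hw => h w hw.symm⟩
  loopless := by
    constructor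
    rintro α ⟨v, hv, _⟩
    exact hv rfl

/-- `G` is `k`-mixing: any two proper colourings of `G` with `k` colours are joined by a path in the
`k`-colouring graph of `G`. -/
def KMixing {V : Type} (k : ℕ) (G : SimpleGraph V) : Prop := (colouringGraph k G).Preconnected

open Classical in
/-- Encoding of a graph by its adjacency matrix, row by row. -/
noncomputable def encG {n : ℕ} (G : SimpleGraph (Fin n)) : Word :=
  (List.finRange n).flatMap fun u => (List.finRange n).map fun v => some (decide (G.Adj u v))

/-- The language k-COLOUR-MIXING: the encodings of the `k`-mixing graphs. -/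
def ColourMixing (k : ℕ) : Set Word :=
  {w | ∃ (n : ℕ) (G : SimpleGraph (Fin n)), w = encG G ∧ KMixing k G}

end Pool.Agent.Helper69.Mix
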