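import Mathlib
import Pool.Agent.Helper69.Mix.Csp

/-!
# The graph of a constraint system in terms of numbers
-/

namespace Pool.Agent.Helper69.Mix

open Function

/-- Number of the place `i` on the path for the values `a`, `b`. -/
def k5 (a b : Fin 3) (i : Fin 5) : ℕ := (a.1 * 3 + b.1) * 5 + i.1

theorem k5_inj {a b a' b' : Fin 3} {i i' : Fin 5} (h : k5 a b i = k5 a' b' i') :
    a = a' ∧ b = b' ∧ i = i' := by
  unfold k5 at h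
  refine ⟨Fin.ext ?_, Fin.ext ?_, Fin.ext ?_⟩ <;> omega

/-- Number of a path vertex. -/
def pN (u v m : ℕ) : ℕ := 6 * Nat.pair u (Nat.pair v m) + 2
/-- Number of a blocking vertex. -/
def bN (u v m : ℕ) : ℕ := 6 * Nat.pair u (Nat.pair v m) + 3

/-- Number of a vertex. -/
def cX {V : Type} (cV : V → ℕ) : Vx V → ℕ
  | .h j => 6 * j.1
  | .be c => 6 * (4 + c.1)
  | .la0 => 42
  | .la1 => 48
  | .la2 => 54
  | .la3 => 60
  | .va u => 6 * cV u + 1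
  | .pa u a v b i => pN (cV u) (cV v) (k5 a b i)
  | .bl u a v b i c => bN (cV u) (cV v) (k5 a b i * 3 + c.1)

theorem pN_inj {u v m u' v' m' : ℕ} (h : pN u v m = pN u' v' m') : u = u' ∧ v = v' ∧ m = m' := by
  unfold pN at h
  have h1 : Nat.pair u (Nat.pair v m) = Nat.pair u' (Nat.pair v' m') := by omega
  simpa [Nat.pair_eq_pair] using h1

theorem bN_inj {u v m u' v' m' : ℕ} (h : bN u v m = bN u' v' m') : u = u' ∧ v = v' ∧ m = m' := by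
  unfold bN at h
  have h1 : Nat.pair u (Nat.pair v m) = Nat.pair u' (Nat.pair v' m') := by omega
  simpa [Nat.pair_eq_pair] using h1

theorem cX_inj {V : Type} {cV : V → ℕ} (h : Injective cV) : Injective (cX cV) := by
  intro x y hxy
  cases x <;> cases y
  case pa.pa =>
    obtain ⟨h1, h2, h3⟩ := pN_inj hxy
    obtain ⟨h4, h5, h6⟩ := k5_inj h3
    rw [h h1, h h2, h4, h5, h6]
  case bl.bl u a v b i c u' a' v' b' i' c' =>
    obtain ⟨h1, h2, h3⟩ := bN_inj hxy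
    have hc := c.2
    have hc' := c'.2
    obtain ⟨h4, h5, h6⟩ := k5_inj (show k5 a b i = k5 a' b' i' by omega)
    have h7 : c = c' := Fin.ext (by omega)
    rw [h h1, h h2, h4, h5, h6, h7]
  case h.h a b =>
    simp only [cX] at hxy
    exact congrArg _ (Fin.ext (by omega))
  case be.be a b =>
    simp only [cX] at hxy
    exact congrArg _ (Fin.ext (by omega))
  case va.va a b =>
    simp only [cX] at hxy
    exact congrArg _ (h (by omega))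
  all_goals
    simp only [cX, pN, bN] at hxy
    first
      | rfl
      | omega

/-- The edges in terms of numbers. -/
def edN (B : ℕ) (vV vb : ℕ → Prop) (fb : Fin 3 → Fin 3 → ℕ → ℕ → Prop) (tc x y : ℕ) : Prop :=
  (∃ j : Fin 4, ∃ c : Fin 3, j ≠ c.castSucc ∧ x = 6 * (4 + c.1) ∧ y = 6 * j.1) ∨
  (∃ j : Fin 4, j = 1 ∧ x = 42 ∧ y = 6 * j.1) ∨
  (x = 42 ∧ y = 54) ∨
  (x = 42 ∧ y = 60) ∨
  (∃ j : Fin 4, (j = 0 ∨ j = 1) ∧ x = 48 ∧ y = 6 * j.1) ∨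
  (x = 48 ∧ y = 60) ∨
  (∃ j : Fin 4, (j = 1 ∨ j = 2) ∧ x = 54 ∧ y = 6 * j.1) ∨
  (x = 60 ∧ y = 6 * tc + 1) ∨
  (∃ u < B, ((vV u ∧ y = 18) ∨ (vb u ∧ y = 12)) ∧ x = 6 * u + 1) ∨
  (∃ u < B, ∃ v < B, ∃ a b : Fin 3, fb a b u v ∧
    ((x = pN u v (k5 a b 0) ∧ y = 6 * u + 1) ∨
    (x = pN u v (k5 a b 4) ∧ y = 6 * v + 1) ∨
    (∃ i j : Fin 5, j.1 = i.1 + 1 ∧ x = pN u v (k5 a b i) ∧ y = pN u v (k5 a b j)) ∨
    (∃ j : Fin 4, (j ≠ Lc a b 2 ∧ j ≠ Rc a b 2) ∧ x = pN u v (k5 a b 2) ∧ y = 6 * j.1) ∨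
    (∃ (i : Fin 5) (c : Fin 3), (i ≠ 2 ∧ c.castSucc ≠ Lc a b i ∧ c.castSucc ≠ Rc a b i) ∧
      x = bN u v (k5 a b i * 3 + c.1) ∧ y = pN u v (k5 a b i)))) ∨
  ∃ u < B, ∃ v < B, (vV u ∧ vV v) ∧ ∃ (a b : Fin 3) (i : Fin 5) (c : Fin 3) (j : Fin 4),
    j ≠ c.castSucc ∧ x = bN u v (k5 a b i * 3 + c.1) ∧ y = 6 * j.1

/-- Data describing a constraint system by numbers. -/
structure CNum (I : Csp) (cV : I.V → ℕ) (B : ℕ) (vV vb : ℕ → Prop)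
    (fb : Fin 3 → Fin 3 → ℕ → ℕ → Prop) : Prop where
  inj : Injective cV
  lt : ∀ x, cV x < B
  vV : ∀ u, vV u ↔ ∃ x, cV x = u
  vb : ∀ u, vb u ↔ ∃ x, I.bool x ∧ cV x = u
  fb : ∀ a b u v, fb a b u v ↔ ∃ x y, I.forb x a y b ∧ cV x = u ∧ cV y = v

theorem edN_iff {I : Csp} {cV : I.V → ℕ} {B : ℕ} {vV vb : ℕ → Prop}
    {fb : Fin 3 → Fin 3 → ℕ → ℕ → Prop} (H : CNum I cV B vV vb fb) (x y : ℕ) :
    edN B vV vb fb (cV I.t) x y ↔ ∃ α β, E I α β ∧ cX cV α = x ∧ cX cV β = y := by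
  constructor
  · rintro (⟨j, c, h, rfl, rfl⟩ | ⟨j, h, rfl, rfl⟩ | ⟨rfl, rfl⟩ | ⟨rfl, rfl⟩ | ⟨j, h, rfl, rfl⟩ |
      ⟨rfl, rfl⟩ | ⟨j, h, rfl, rfl⟩ | ⟨rfl, rfl⟩ | ⟨u, _, h, rfl⟩ | ⟨u, _, v, _, a, b, hf, h⟩ |
      ⟨u, _, v, _, ⟨hu, hv⟩, a, b, i, c, j, h, rfl, rfl⟩)
    · exact ⟨_, _, E.hb j c h, rfl, rfl⟩
    · exact ⟨_, _, E.l0h j h, rfl, rfl⟩
    · exact ⟨_, _, E.l02, rfl, rfl⟩
    · exact ⟨_, _, E.l03, rfl, rfl⟩
    · exact ⟨_, _, E.l1h j h, rfl, rfl⟩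
    · exact ⟨_, _, E.l13, rfl, rfl⟩
    · exact ⟨_, _, E.l2h j h, rfl, rfl⟩
    · exact ⟨_, _, E.l3t I.t rfl, rfl, rfl⟩
    · rcases h with ⟨h, rfl⟩ | ⟨h, rfl⟩
      · obtain ⟨u, rfl⟩ := (H.vV _).mp h
        exact ⟨_, _, E.vh u 3 (Or.inl rfl), rfl, rfl⟩
      · obtain ⟨u, hu, rfl⟩ := (H.vb _).mp h
        exact ⟨_, _, E.vh u 2 (Or.inr ⟨rfl, hu⟩), rfl, rfl⟩
    · obtain ⟨u, v, hf', rfl, rfl⟩ := (H.fb _ _ _ _).mp hf
      clear hf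
      rename' hf' => hf
      rcases h with ⟨rfl, rfl⟩ | ⟨rfl, rfl⟩ | ⟨i, j, h, rfl, rfl⟩ | ⟨j, h, rfl, rfl⟩ |
        ⟨i, c, h, rfl, rfl⟩
      · exact ⟨_, _, E.pu u a v b 0 u hf (Or.inl ⟨rfl, rfl⟩), rfl, rfl⟩
      · exact ⟨_, _, E.pu u a v b 4 v hf (Or.inr ⟨rfl, rfl⟩), rfl, rfl⟩
      · exact ⟨_, _, E.pp u a v b i j hf h, rfl, rfl⟩
      · exact ⟨_, _, E.ph u a v b 2 j hf rfl h.1 h.2, rfl, rfl⟩
      · exact ⟨_, _, E.bp u a v b i c hf h.1 h.2.1 h.2.2, rfl, rfl⟩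
    · obtain ⟨u, rfl⟩ := (H.vV _).mp hu
      obtain ⟨v, rfl⟩ := (H.vV _).mp hv
      exact ⟨_, _, E.bh u a v b i c j h, rfl, rfl⟩
  · rintro ⟨α, β, h, rfl, rfl⟩
    cases h with
    | hb j c h => exact Or.inl ⟨j, c, h, rfl, rfl⟩
    | l0h j h => exact Or.inr (Or.inl ⟨j, h, rfl, rfl⟩)
    | l02 => exact Or.inr (Or.inr (Or.inl ⟨rfl, rfl⟩))
    | l03 => exact Or.inr (Or.inr (Or.inr (Or.inl ⟨rfl, rfl⟩)))
    | l1h j h => exact Or.inr (Or.inr (Or.inr (Or.inr (Or.inl ⟨j, h, rfl, rfl⟩))))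
    | l13 => exact Or.inr (Or.inr (Or.inr (Or.inr (Or.inr (Or.inl ⟨rfl, rfl⟩)))))
    | l2h j h =>
      exact Or.inr (Or.inr (Or.inr (Or.inr (Or.inr (Or.inr (Or.inl ⟨j, h, rfl, rfl⟩))))))
    | l3t u h =>
      subst h
      exact Or.inr (Or.inr (Or.inr (Or.inr (Or.inr (Or.inr (Or.inr (Or.inl ⟨rfl, rfl⟩)))))))
    | vh u j h =>
      refine Or.inr (Or.inr (Or.inr (Or.inr (Or.inr (Or.inr (Or.inr (Or.inr (Or.inl
        ⟨cV u, H.lt u, ?_, rfl⟩))))))))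
      rcases h with rfl | ⟨rfl, h⟩
      · exact Or.inl ⟨(H.vV _).mpr ⟨u, rfl⟩, rfl⟩
      · exact Or.inr ⟨(H.vb _).mpr ⟨u, h, rfl⟩, rfl⟩
    | pu u a v b i z hf h =>
      refine Or.inr (Or.inr (Or.inr (Or.inr (Or.inr (Or.inr (Or.inr (Or.inr (Or.inr (Or.inl
        ⟨cV u, H.lt u, cV v, H.lt v, a, b, (H.fb _ _ _ _).mpr ⟨u, v, hf, rfl, rfl⟩, ?_⟩)))))))))
      rcases h with ⟨rfl, rfl⟩ | ⟨rfl, rfl⟩
      · exact Or.inl ⟨rfl, rfl⟩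
      · exact Or.inr (Or.inl ⟨rfl, rfl⟩)
    | pp u a v b i j hf h =>
      refine Or.inr (Or.inr (Or.inr (Or.inr (Or.inr (Or.inr (Or.inr (Or.inr (Or.inr (Or.inl
        ⟨cV u, H.lt u, cV v, H.lt v, a, b, (H.fb _ _ _ _).mpr ⟨u, v, hf, rfl, rfl⟩, ?_⟩)))))))))
      exact Or.inr (Or.inr (Or.inl ⟨i, j, h, rfl, rfl⟩))
    | ph u a v b i j hf hi h1 h2 =>
      subst hi
      refine Or.inr (Or.inr (Or.inr (Or.inr (Or.inr (Or.inr (Or.inr (Or.inr (Or.inr (Or.inl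
        ⟨cV u, H.lt u, cV v, H.lt v, a, b, (H.fb _ _ _ _).mpr ⟨u, v, hf, rfl, rfl⟩, ?_⟩)))))))))
      exact Or.inr (Or.inr (Or.inr (Or.inl ⟨j, ⟨h1, h2⟩, rfl, rfl⟩)))
    | bh u a v b i c j h =>
      exact Or.inr (Or.inr (Or.inr (Or.inr (Or.inr (Or.inr (Or.inr (Or.inr (Or.inr (Or.inr
        ⟨cV u, H.lt u, cV v, H.lt v, ⟨(H.vV _).mpr ⟨u, rfl⟩, (H.vV _).mpr ⟨v, rfl⟩⟩,
          a, b, i, c, j, h, rfl, rfl⟩)))))))))
    | bp u a v b i c hf h1 h2 h3 =>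
      refine Or.inr (Or.inr (Or.inr (Or.inr (Or.inr (Or.inr (Or.inr (Or.inr (Or.inr (Or.inl
        ⟨cV u, H.lt u, cV v, H.lt v, a, b, (H.fb _ _ _ _).mpr ⟨u, v, hf, rfl, rfl⟩, ?_⟩)))))))))
      exact Or.inr (Or.inr (Or.inr (Or.inr ⟨i, c, ⟨h1, h2, h3⟩, rfl, rfl⟩)))

theorem k5_lt (a b : Fin 3) (i : Fin 5) : k5 a b i < 45 := by
  unfold k5
  omega

theorem pair_lt' {a b z : ℕ} (ha : a < z) (hb : b < z) : Nat.pair a b < z ^ 2 :=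
  (Nat.pair_lt_max_add_one_sq a b).trans_le (Nat.pow_le_pow_left (by omega) 2)

/-- The number of numbers used. -/
def NX (B : ℕ) : ℕ := 6 * (B + 200) ^ 4

theorem cX_lt {V : Type} {cV : V → ℕ} {B : ℕ} (h : ∀ x, cV x < B) (x : Vx V) :
    cX cV x < NX B := by
  have key : ∀ u v m, u < B → v < B → m < 200 →
      Nat.pair u (Nat.pair v m) < (B + 200) ^ 4 := by
    intro u v m hu hv hm
    have h1 : Nat.pair v m < (B + 200) ^ 2 := pair_lt' (by omega) (by omega)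
    have h2 : B + 200 ≤ (B + 200) ^ 2 := by nlinarith
    have h3 : Nat.pair u (Nat.pair v m) < ((B + 200) ^ 2) ^ 2 := pair_lt' (by omega) h1
    rw [← pow_mul] at h3
    exact h3
  have h0 : B + 200 ≤ (B + 200) ^ 4 := by
    calc B + 200 = (B + 200) ^ 1 := (pow_one _).symm
      _ ≤ _ := Nat.pow_le_pow_right (by omega) (by omega)
  unfold NX
  cases x with
  | h j => simp only [cX]; omega
  | be j => simp only [cX]; omega
  | la0 => simp only [cX]; omega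
  | la1 => simp only [cX]; omega
  | la2 => simp only [cX]; omega
  | la3 => simp only [cX]; omega
  | va u =>
    have := h u
    simp only [cX]
    omega
  | pa u a v b i =>
    have := key _ _ (k5 a b i) (h u) (h v) (by have := k5_lt a b i; omega)
    simp only [cX, pN]
    omega
  | bl u a v b i c =>
    have := key _ _ (k5 a b i * 3 + c.1) (h u) (h v) (by
      have := k5_lt a b i
      have := c.2
      omega)
    simp only [cX, bN]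
    omega

end Pool.Agent.Helper69.Mix
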