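import Mathlib
import Pool.Agent.Helper69.Mix.Prg

/-!
# Solutions of the constraint system of a program
-/

namespace Pool.Agent.Helper69.Mix

open Function

namespace Prg

variable {P : Prg}

/-- The conditions on solutions, written out. -/
structure MS (P : Prg) (m : P.PV → Fin 3) : Prop where
  z2 : ∀ r, m (.z r) ≠ 2
  adj : ∀ p q c, q.val = p.val + 1 → c ≠ 2 → m (.x p) = c → m (.x q) ≠ ot c
  seam : ∀ p q c, p.val + 1 = 2 * P.L → q.val = 0 → c ≠ 2 → m (.x p) = c → m (.x q) ≠ c
  far : ∀ p q, p ≠ q → m (.x p) = 2 → m (.x q) = 2 → P.Nx p q ∨ P.Nx q p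
  lock : ∀ r c, c ≠ 2 → m (.lk r) = c → m (.z r) ≠ ot c
  win : ∀ r p, m (.lk r) = 2 → m (.x p) = 2 → P.Win r p
  cond : ∀ (j : Fin P.L) i, P.ins j = some i → m (.lk i.d) = 2 → m (.x (P.pe j)) = 2 →
    m (.z i.b) ≠ bv (!i.β)
  enf : ∀ (j : Fin P.L) i, P.ins j = some i → m (.x (P.po j)) = 2 → m (.z i.b) = bv i.β →
    m (.z i.d) ≠ bv (!i.γ)

theorem sol_iff {m : P.PV → Fin 3} : P.csp.Sol m ↔ MS P m := by
  constructor
  · intro h
    refine ⟨fun r => h.1 (.z r) trivial, ?_, ?_, ?_, ?_, ?_, ?_, ?_⟩
    · intro p q c h1 h2 h3 h4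
      exact h.2.1 _ _ _ _ (Fb.adj p q c h1 h2) ⟨h3, h4⟩
    · intro p q c h1 h2 h3 h4 h5
      exact h.2.1 _ _ _ _ (Fb.seam p q c h1 h2 h3) ⟨h4, h5⟩
    · intro p q h1 h2 h3
      by_contra h4
      push Not at h4
      exact h.2.1 _ _ _ _ (Fb.far p q h1 h4.1 h4.2) ⟨h2, h3⟩
    · intro r c h1 h2 h3
      exact h.2.1 _ _ _ _ (Fb.lock r c h1) ⟨h2, h3⟩
    · intro r p h1 h2
      by_contra h3
      exact h.2.1 _ _ _ _ (Fb.win r p h3) ⟨h1, h2⟩
    · intro j i hi h1 h2 h3
      refine h.2.2 (j, false) (by simp [csp, hi]) ?_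
      intro a
      simp only [csp, hi]
      fin_cases a
      · exact h1
      · exact h2
      · exact h3
    · intro j i hi h1 h2 h3
      refine h.2.2 (j, true) (by simp [csp, hi]) ?_
      intro a
      simp only [csp, hi]
      fin_cases a
      · exact h1
      · exact h2
      · exact h3
  · intro h
    refine ⟨?_, ?_, ?_⟩
    · intro v hv
      cases v with
      | x p => exact hv.elim
      | z r => exact h.z2 r
      | lk r => exact hv.elim
    · rintro u a v b hf ⟨h1, h2⟩
      cases hf with
      | adj p q c h3 h4 => exact h.adj p q a h3 h4 h1 h2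
      | seam p q c h3 h4 h5 => exact h.seam p q a h3 h4 h5 h1 h2
      | far p q h3 h4 h5 =>
        rcases h.far p q h3 h1 h2 with h6 | h6
        · exact h4 h6
        · exact h5 h6
      | lock r c h3 => exact h.lock r a h3 h1 h2
      | win r p h3 => exact h3 (h.win r p h1 h2)
    · rintro ⟨j, e⟩ hk hall
      obtain ⟨i, hi⟩ := Option.isSome_iff_exists.mp hk
      have h0 := hall 0
      have h1 := hall 1
      have h2 := hall 2
      cases e
      · simp only [csp, hi] at h0 h1 h2
        exact h.cond j i hi h0 h1 h2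
      · simp only [csp, hi] at h0 h1 h2
        exact h.enf j i hi h0 h1 h2

theorem MS.ptr {m : P.PV → Fin 3} (h : MS P m) : ∃ p, m (.x p) = 2 := by
  by_contra hno
  push Not at hno
  have hL := P.hL
  have key : ∀ i (hi : i < 2 * P.L), m (.x ⟨i, hi⟩) = m (.x ⟨0, by omega⟩) := by
    intro i
    induction i with
    | zero => intro _; rfl
    | succ i ih =>
      intro hi
      have h1 := ih (by omega)
      rw [← h1]
      exact eq_of_ne (hno _) (hno _) (h.adj ⟨i, by omega⟩ ⟨i + 1, hi⟩ _ rfl (hno _) rfl)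
  have h1 := key (2 * P.L - 1) (by omega)
  exact h.seam ⟨2 * P.L - 1, by omega⟩ ⟨0, by omega⟩ _ (by simp; omega) rfl (hno _) rfl h1.symm

theorem MS.lk_eq {m : P.PV → Fin 3} (h : MS P m) {r : P.R} (hr : m (.lk r) ≠ 2) :
    m (.z r) = m (.lk r) :=
  eq_of_ne (h.z2 r) hr (h.lock r _ hr rfl)

theorem Win.even {r : P.R} {p : Fin (2 * P.L)} (h : P.Win r p) : p.val % 2 = 0 := by
  obtain ⟨j, i, rfl, _, _⟩ := h
  simp [pe]

theorem MS.not_both {m : P.PV → Fin 3} (h : MS P m) {p q : Fin (2 * P.L)} (hp : m (.x p) = 2)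
    (hq : m (.x q) = 2) (hnx : P.Nx p q) (r : P.R) : m (.lk r) ≠ 2 := by
  intro hr
  have h1 := (h.win r p hr hp).even
  have h2 := (h.win r q hr hq).even
  rcases hnx with h3 | ⟨h3, h4⟩ <;> omega

theorem MS.cond' {m : P.PV → Fin 3} (h : MS P m) {j : Fin P.L} {i : Ins P.R}
    (hi : P.ins j = some i) (h1 : m (.lk i.d) = 2) (h2 : m (.x (P.pe j)) = 2) :
    m (.z i.b) = bv i.β := eq_bv (h.z2 _) (h.cond j i hi h1 h2)

theorem MS.enf' {m : P.PV → Fin 3} (h : MS P m) {j : Fin P.L} {i : Ins P.R}
    (hi : P.ins j = some i) (h1 : m (.x (P.po j)) = 2) (h2 : m (.z i.b) = bv i.β) :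
    m (.z i.d) = bv i.γ := eq_bv (h.z2 _) (h.enf j i hi h1 h2)

theorem exists_nx (p : Fin (2 * P.L)) : ∃ q, P.Nx p q := by
  by_cases h : p.val + 1 = 2 * P.L
  · exact ⟨⟨0, by omega⟩, Or.inr ⟨h, rfl⟩⟩
  · exact ⟨⟨p.val + 1, by have := p.2; omega⟩, Or.inl rfl⟩

theorem exists_pv (p : Fin (2 * P.L)) : ∃ q, P.Nx q p := by
  by_cases h : p.val = 0
  · exact ⟨⟨2 * P.L - 1, by have := p.2; omega⟩, Or.inr ⟨by simp; have := P.hL; omega, h⟩⟩
  · exact ⟨⟨p.val - 1, by have := p.2; omega⟩, Or.inl (by simp; omega)⟩

theorem nx_ne {p q : Fin (2 * P.L)} (h : P.Nx p q) : p ≠ q := by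
  rintro rfl
  have := P.hL
  rcases h with h | h <;> omega

theorem nx_right {p q q' : Fin (2 * P.L)} (h : P.Nx p q) (h' : P.Nx p q') : q = q' := by
  have h1 := q.2
  have h2 := q'.2
  apply Fin.ext
  rcases h with h | h <;> rcases h' with h' | h' <;> omega

theorem nx_left {p p' q : Fin (2 * P.L)} (h : P.Nx p q) (h' : P.Nx p' q) : p = p' := by
  have h1 := p.2
  have h2 := p'.2
  apply Fin.ext
  rcases h with h | h <;> rcases h' with h' | h' <;> omega

/-- Two steps around the ring never lead to a neighbour or back. -/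
theorem nx_two {p q s : Fin (2 * P.L)} (h : P.Nx p q) (h' : P.Nx q s) :
    s ≠ p ∧ ¬ P.Nx p s ∧ ¬ P.Nx s p := by
  have hL := P.hL
  have h1 := p.2
  have h2 := q.2
  have h3 := s.2
  refine ⟨?_, ?_, ?_⟩
  · rintro rfl
    rcases h with h | h <;> rcases h' with h' | h' <;> omega
  · intro h4
    rcases h with h | h <;> rcases h' with h' | h' <;> rcases h4 with h4 | h4 <;> omega
  · intro h4
    rcases h with h | h <;> rcases h' with h' | h' <;> rcases h4 with h4 | h4 <;> omega

/-- Rest states. -/
structure Rest (P : Prg) (p : Fin (2 * P.L)) (Z : P.R → Bool) (m : P.PV → Fin 3) : Prop where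
  ms : MS P m
  ptr : m (.x p) = 2
  oth : ∀ q, q ≠ p → m (.x q) ≠ 2
  z : ∀ r, m (.z r) = bv (Z r)
  lk : ∀ r, m (.lk r) = bv (Z r)

/-- Reachability. -/
def Rm (P : Prg) (m m' : P.PV → Fin 3) : Prop := P.csp.Rc m m'

theorem Rm.refl (m : P.PV → Fin 3) : Rm P m m := Relation.ReflTransGen.refl

theorem Rm.trans {m m' m'' : P.PV → Fin 3} (h : Rm P m m') (h' : Rm P m' m'') : Rm P m m'' :=
  Relation.ReflTransGen.trans h h'

theorem step_of {m m' : P.PV → Fin 3} (h : MS P m) (h' : MS P m') (v : P.PV)
    (hv : ∀ w, w ≠ v → m w = m' w) : Rm P m m' :=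
  Relation.ReflTransGen.single ⟨sol_iff.mpr h, sol_iff.mpr h', v, hv⟩

/-- The new background value behind the pointer. -/
def bg (m : P.PV → Fin 3) (p p0 : Fin (2 * P.L)) : Fin 3 :=
  if p.val = 0 then ot (m (.x p0)) else m (.x p0)

open Classical in
/-- Releasing the pointer at `p`, when the pointer is also at the next position `q`. -/
theorem release {m : P.PV → Fin 3} (h : MS P m) {p q : Fin (2 * P.L)} (hpq : P.Nx p q)
    (hp : m (.x p) = 2) (hq : m (.x q) = 2) : ∃ m' : P.PV → Fin 3, Rm P m m' ∧ MS P m' ∧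
      m' (.x q) = 2 ∧ (∀ s, s ≠ q → m' (.x s) ≠ 2) ∧ (∀ r, m' (.z r) = m (.z r)) ∧
      ∀ r, m' (.lk r) = m (.lk r) := by
  obtain ⟨p0, hp0⟩ := exists_pv p
  obtain ⟨h1, h2, h3⟩ := nx_two hp0 hpq
  have hp0' : m (.x p0) ≠ 2 := by
    intro h4
    rcases h.far p0 q h1.symm h4 hq with h5 | h5
    · exact h2 h5
    · exact h3 h5
  have hbg : bg m p p0 ≠ 2 := by
    unfold bg
    split_ifs
    · exact ot_ne2 _ hp0'
    · exact hp0'
  have hoth : ∀ s, s ≠ p → s ≠ q → m (.x s) ≠ 2 := by
    intro s hsp hsq h4
    rcases h.far s p hsp h4 hp with h5 | h5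
    · have := nx_left h5 hp0
      rw [this] at h4
      exact hp0' h4
    · exact hsq (nx_right h5 hpq)
  have hx : ∀ s, update m (.x p) (bg m p p0) (.x s) = if s = p then bg m p p0 else m (.x s) := by
    intro s
    by_cases hs : s = p
    · subst hs; simp
    · rw [update_of_ne (by simpa using hs), if_neg hs]
  have hms : MS P (update m (.x p) (bg m p p0)) := by
    refine ⟨?_, ?_, ?_, ?_, ?_, ?_, ?_, ?_⟩
    · intro r
      rw [update_of_ne (by simp)]
      exact h.z2 r
    · intro s s' c hs hc h4
      rw [hx] at h4 ⊢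
      by_cases h5 : s = p
      · subst h5
        have h6 : s' = q := nx_right (Or.inl hs) hpq
        have h7 : q ≠ s := (nx_ne hpq).symm
        rw [h6, if_neg h7, hq]
        exact (ot_ne2 c hc).symm
      · rw [if_neg h5] at h4
        by_cases h6 : s' = p
        · subst h6
          rw [if_pos rfl]
          have h7 : s = p0 := nx_left (Or.inl hs) hp0
          subst h7
          have h8 : ¬ s'.val = 0 := by omega
          rw [bg, if_neg h8, h4]
          exact (ot_ne c hc).symm
        · rw [if_neg h6]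
          exact h.adj s s' c hs hc h4
    · intro s s' c hs hs' hc h4
      rw [hx] at h4 ⊢
      by_cases h5 : s = p
      · subst h5
        have h6 : s' = q := nx_right (Or.inr ⟨hs, hs'⟩) hpq
        have h7 : q ≠ s := (nx_ne hpq).symm
        rw [h6, if_neg h7, hq]
        exact hc.symm
      · rw [if_neg h5] at h4
        by_cases h6 : s' = p
        · subst h6
          rw [if_pos rfl]
          have h7 : s = p0 := nx_left (Or.inr ⟨hs, hs'⟩) hp0
          subst h7
          rw [bg, if_pos hs', h4]
          exact ot_ne c hc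
        · rw [if_neg h6]
          exact h.seam s s' c hs hs' hc h4
    · intro s s' hss h4 h5
      rw [hx] at h4 h5
      by_cases h6 : s = p
      · rw [if_pos h6] at h4
        exact absurd h4 hbg
      · by_cases h7 : s' = p
        · rw [if_pos h7] at h5
          exact absurd h5 hbg
        · rw [if_neg h6] at h4
          rw [if_neg h7] at h5
          exact h.far s s' hss h4 h5
    · intro r c hc h4
      rw [update_of_ne (by simp)] at h4 ⊢
      exact h.lock r c hc h4
    · intro r s h4 h5
      rw [update_of_ne (by simp)] at h4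
      exact absurd h4 (h.not_both hp hq hpq r)
    · intro j i hi h4
      rw [update_of_ne (by simp)] at h4
      exact absurd h4 (h.not_both hp hq hpq _)
    · intro j i hi h4 h5
      rw [hx] at h4
      rw [update_of_ne (by simp)] at h5 ⊢
      by_cases h6 : P.po j = p
      · rw [if_pos h6] at h4
        exact absurd h4 hbg
      · rw [if_neg h6] at h4
        exact h.enf j i hi h4 h5
  refine ⟨update m (.x p) (bg m p p0), step_of h hms (.x p) ?_, hms, ?_, ?_, ?_, ?_⟩
  · intro w hw
    rw [update_of_ne hw]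
  · rw [hx, if_neg (nx_ne hpq).symm, hq]
  · intro s hs
    rw [hx]
    by_cases h4 : s = p
    · rw [if_pos h4]
      exact hbg
    · rw [if_neg h4]
      exact hoth s h4 hs
  · intro r
    rw [update_of_ne (by simp)]
  · intro r
    rw [update_of_ne (by simp)]

open Classical in
/-- Moving the pointer. -/
theorem move {p q : Fin (2 * P.L)} {Z : P.R → Bool} {m : P.PV → Fin 3} (h : Rest P p Z m)
    (hpq : P.Nx p q)
    (he : ∀ (j : Fin P.L) i, P.po j = q → P.ins j = some i → Z i.b = i.β → Z i.d = i.γ) :
    ∃ m' : P.PV → Fin 3, Rm P m m' ∧ Rest P q Z m' := by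
  have hx : ∀ s, update m (.x q) 2 (.x s) = if s = q then 2 else m (.x s) := by
    intro s
    by_cases hs : s = q
    · subst hs; simp
    · rw [update_of_ne (by simpa using hs), if_neg hs]
  have hlk : ∀ r, m (.lk r) ≠ 2 := fun r => by rw [h.lk]; exact bv_ne2 _
  have hms : MS P (update m (.x q) 2) := by
    refine ⟨?_, ?_, ?_, ?_, ?_, ?_, ?_, ?_⟩
    · intro r
      rw [update_of_ne (by simp)]
      exact h.ms.z2 r
    · intro s s' c hs hc h4
      rw [hx] at h4 ⊢
      by_cases h5 : s = q
      · rw [if_pos h5] at h4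
        exact absurd h4.symm hc
      · rw [if_neg h5] at h4
        by_cases h6 : s' = q
        · rw [if_pos h6]
          exact (ot_ne2 c hc).symm
        · rw [if_neg h6]
          exact h.ms.adj s s' c hs hc h4
    · intro s s' c hs hs' hc h4
      rw [hx] at h4 ⊢
      by_cases h5 : s = q
      · rw [if_pos h5] at h4
        exact absurd h4.symm hc
      · rw [if_neg h5] at h4
        by_cases h6 : s' = q
        · rw [if_pos h6]
          exact hc.symm
        · rw [if_neg h6]
          exact h.ms.seam s s' c hs hs' hc h4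
    · intro s s' hss h4 h5
      rw [hx] at h4 h5
      have key : ∀ s, (if s = q then (2 : Fin 3) else m (.x s)) = 2 → s = q ∨ s = p := by
        intro s hs
        by_cases h6 : s = q
        · exact Or.inl h6
        · rw [if_neg h6] at hs
          by_contra h7
          push Not at h7
          exact h.oth s h7.2 hs
      rcases key s h4 with rfl | rfl <;> rcases key s' h5 with rfl | rfl
      · exact absurd rfl hss
      · exact Or.inr hpq
      · exact Or.inl hpq
      · exact absurd rfl hss
    · intro r c hc h4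
      rw [update_of_ne (by simp)] at h4 ⊢
      exact h.ms.lock r c hc h4
    · intro r s h4 h5
      rw [update_of_ne (by simp)] at h4
      exact absurd h4 (hlk r)
    · intro j i hi h4
      rw [update_of_ne (by simp)] at h4
      exact absurd h4 (hlk _)
    · intro j i hi h4 h5
      rw [hx] at h4
      rw [update_of_ne (by simp)] at h5 ⊢
      by_cases h6 : P.po j = q
      · rw [h.z, he j i h6 hi (bv_inj (by rw [← h.z]; exact h5))]
        exact (bv_not _).symm
      · rw [if_neg h6] at h4
        exact h.ms.enf j i hi h4 h5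
  have hr : Rm P m (update m (.x q) 2) := step_of h.ms hms (.x q) (by
    intro w hw
    rw [update_of_ne hw])
  obtain ⟨m', h1, h2, h3, h4, h5, h6⟩ := release hms hpq (by
    rw [hx, if_neg (nx_ne hpq)]
    exact h.ptr) (by rw [hx, if_pos rfl])
  refine ⟨m', hr.trans h1, h2, h3, h4, ?_, ?_⟩
  · intro r
    rw [h5, update_of_ne (by simp)]
    exact h.z r
  · intro r
    rw [h6, update_of_ne (by simp)]
    exact h.lk r

open Classical in
/-- Changing a register in its window. -/
theorem write {j : Fin P.L} {i : Ins P.R} (hi : P.ins j = some i) {Z : P.R → Bool}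
    {m : P.PV → Fin 3} (h : Rest P (P.pe j) Z m) (hb : Z i.b = i.β) :
    ∃ m' : P.PV → Fin 3, Rm P m m' ∧ Rest P (P.pe j) (update Z i.d i.γ) m' := by
  have hbd := P.hne _ _ hi
  -- general facts about the lock being open
  have gen : ∀ m' : P.PV → Fin 3, (∀ p, m' (.x p) = m (.x p)) → (∀ r, m' (.z r) ≠ 2) →
      (∀ r, r ≠ i.d → m' (.z r) = m (.z r) ∧ m' (.lk r) = m (.lk r)) →
      (m' (.lk i.d) ≠ 2 → m' (.z i.d) = m' (.lk i.d)) → MS P m' := by
    intro m' hx hz hr hd
    have hxj : ∀ p, m' (.x p) = 2 → p = P.pe j := by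
      intro p hp
      by_contra h1
      rw [hx] at hp
      exact h.oth p h1 hp
    have hlk : ∀ r, m' (.lk r) = 2 → r = i.d := by
      intro r hr2
      by_contra h1
      rw [(hr r h1).2, h.lk] at hr2
      exact bv_ne2 _ hr2
    refine ⟨hz, ?_, ?_, ?_, ?_, ?_, ?_, ?_⟩
    · intro s s' c
      rw [hx, hx]
      exact h.ms.adj s s' c
    · intro s s' c
      rw [hx, hx]
      exact h.ms.seam s s' c
    · intro s s'
      rw [hx, hx]
      exact h.ms.far s s'
    · intro r c hc h4
      by_cases hrd : r = i.d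
      · subst hrd
        rw [hd (by rw [h4]; exact hc), h4]
        exact (ot_ne c hc).symm
      · rw [(hr r hrd).2] at h4
        rw [(hr r hrd).1]
        exact h.ms.lock r c hc h4
    · intro r p h4 h5
      exact ⟨j, i, hxj p h5, hi, (hlk r h4).symm⟩
    · intro j' i' hi' h4 h5
      have h6 := hxj _ h5
      have h7 : j' = j := by
        have := congrArg Fin.val h6
        simp only [pe] at this
        exact Fin.ext (by omega)
      subst h7
      rw [hi] at hi'
      obtain rfl := Option.some_inj.mp hi'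
      rw [(hr _ hbd).1, h.z, hb]
      exact (bv_not _).symm
    · intro j' i' hi' h4 h5
      have h6 := congrArg Fin.val (hxj _ h4)
      simp only [pe, po] at h6
      omega
  have e1 : MS P (update m (.lk i.d) 2) := by
    refine gen _ (fun p => ?_) (fun r => ?_) (fun r hr => ⟨?_, ?_⟩) (fun h => ?_)
    · rw [update_of_ne (by simp)]
    · rw [update_of_ne (by simp)]
      exact h.ms.z2 r
    · rw [update_of_ne (by simp)]
    · rw [update_of_ne (by simpa using hr)]
    · simp at h
  have e2 : MS P (update (update m (.lk i.d) 2) (.z i.d) (bv i.γ)) := by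
    refine gen _ (fun p => ?_) (fun r => ?_) (fun r hr => ⟨?_, ?_⟩) (fun h => ?_)
    · rw [update_of_ne (by simp), update_of_ne (by simp)]
    · by_cases hr : r = i.d
      · subst hr
        rw [update_self]
        exact bv_ne2 _
      · rw [update_of_ne (by simpa using hr), update_of_ne (by simp)]
        exact h.ms.z2 r
    · rw [update_of_ne (by simpa using hr), update_of_ne (by simp)]
    · rw [update_of_ne (by simp), update_of_ne (by simpa using hr)]
    · simp at h
  set m3 := update (update (update m (.lk i.d) 2) (.z i.d) (bv i.γ)) (.lk i.d) (bv i.γ) with hm3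
  have e3 : MS P m3 := by
    refine gen _ (fun p => ?_) (fun r => ?_) (fun r hr => ⟨?_, ?_⟩) (fun h => ?_)
    · rw [hm3, update_of_ne (by simp), update_of_ne (by simp), update_of_ne (by simp)]
    · by_cases hr : r = i.d
      · subst hr
        rw [hm3, update_of_ne (by simp), update_self]
        exact bv_ne2 _
      · rw [hm3, update_of_ne (by simp), update_of_ne (by simpa using hr), update_of_ne (by simp)]
        exact h.ms.z2 r
    · rw [hm3, update_of_ne (by simp), update_of_ne (by simpa using hr), update_of_ne (by simp)]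
    · rw [hm3, update_of_ne (by simpa using hr), update_of_ne (by simp),
        update_of_ne (by simpa using hr)]
    · rw [hm3, update_of_ne (by simp), update_self, update_self]
  refine ⟨m3, ((step_of h.ms e1 (.lk i.d) ?_).trans (step_of e1 e2 (.z i.d) ?_)).trans
    (step_of e2 e3 (.lk i.d) ?_), e3, ?_, ?_, ?_, ?_⟩
  · intro w hw
    rw [update_of_ne hw]
  · intro w hw
    rw [update_of_ne hw]
  · intro w hw
    rw [hm3, update_of_ne hw]
  · rw [hm3, update_of_ne (by simp), update_of_ne (by simp), update_of_ne (by simp)]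
    exact h.ptr
  · intro q hq
    rw [hm3, update_of_ne (by simp), update_of_ne (by simp), update_of_ne (by simp)]
    exact h.oth q hq
  · intro r
    by_cases hr : r = i.d
    · subst hr
      rw [hm3, update_of_ne (by simp), update_self, update_self]
    · rw [hm3, update_of_ne (by simp), update_of_ne (by simpa using hr), update_of_ne (by simp),
        update_of_ne hr]
      exact h.z r
  · intro r
    by_cases hr : r = i.d
    · subst hr
      rw [hm3, update_self, update_self]
    · rw [hm3, update_of_ne (by simpa using hr), update_of_ne (by simp),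
        update_of_ne (by simpa using hr), update_of_ne hr]
      exact h.lk r

end Prg

end Pool.Agent.Helper69.Mix
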