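import Mathlib
import Pool.Agent.Helper69.Mix.PrgSol

/-!
# The constraint system of a program describes its computations
-/

namespace Pool.Agent.Helper69.Mix

open Function

namespace Prg

variable {P : Prg}

/-- Every solution reaches a rest state. -/
theorem to_rest {m : P.PV → Fin 3} (h : MS P m) :
    ∃ m' : P.PV → Fin 3, Rm P m m' ∧ ∃ p Z, Rest P p Z m' := by
  classical
  -- it suffices to reach a state with a single pointer and closed locks
  have fin : ∀ m' : P.PV → Fin 3, MS P m' → (∃ p, m' (.x p) = 2 ∧ ∀ q, q ≠ p → m' (.x q) ≠ 2) →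
      (∀ r, m' (.lk r) ≠ 2) → ∃ p Z, Rest P p Z m' := by
    rintro m' hm ⟨p, hp, hq⟩ hlk
    have hz : ∀ r, m' (.z r) = bv (decide (m' (.z r) = 0)) := by
      intro r
      have := hm.z2 r
      have key : ∀ x : Fin 3, x ≠ 2 → x = bv (decide (x = 0)) := by decide
      exact key _ this
    exact ⟨p, fun r => decide (m' (.z r) = 0), hm, hp, hq, hz, fun r => by
      rw [← hm.lk_eq (hlk r)]
      exact hz r⟩
  obtain ⟨p, hp⟩ := h.ptr
  by_cases hsg : ∀ q, q ≠ p → m (.x q) ≠ 2
  · by_cases hlk : ∀ r, m (.lk r) ≠ 2
    · exact ⟨m, Rm.refl _, fin m h ⟨p, hp, hsg⟩ hlk⟩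
    · push Not at hlk
      obtain ⟨r, hr⟩ := hlk
      obtain ⟨j, i, hpj, hi, hir⟩ := h.win r p hr hp
      have huniq : ∀ r', r' ≠ r → m (.lk r') ≠ 2 := by
        intro r' hr' h4
        obtain ⟨j', i', hpj', hi', hir'⟩ := h.win r' p h4 hp
        have : j' = j := by
          have := congrArg Fin.val (hpj.symm.trans hpj')
          simp only [pe] at this
          exact Fin.ext (by omega)
        subst this
        rw [hi] at hi'
        obtain rfl := Option.some_inj.mp hi'
        exact hr' (hir'.symm.trans hir)
      have hms : MS P (update m (.lk r) (m (.z r))) := by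
        refine ⟨?_, ?_, ?_, ?_, ?_, ?_, ?_, ?_⟩
        · intro r'
          rw [update_of_ne (by simp)]
          exact h.z2 r'
        · intro s s' c
          rw [update_of_ne (by simp), update_of_ne (by simp)]
          exact h.adj s s' c
        · intro s s' c
          rw [update_of_ne (by simp), update_of_ne (by simp)]
          exact h.seam s s' c
        · intro s s'
          rw [update_of_ne (by simp), update_of_ne (by simp)]
          exact h.far s s'
        · intro r' c hc h4
          rw [update_of_ne (by simp)]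
          by_cases hrr : r' = r
          · subst hrr
            rw [update_self] at h4
            rw [h4]
            exact (ot_ne c hc).symm
          · rw [update_of_ne (by simpa using hrr)] at h4
            exact h.lock r' c hc h4
        · intro r' s h4 h5
          by_cases hrr : r' = r
          · subst hrr
            rw [update_self] at h4
            exact absurd h4 (h.z2 _)
          · rw [update_of_ne (by simpa using hrr)] at h4
            exact absurd h4 (huniq r' hrr)
        · intro j' i' hi' h4 h5
          by_cases hrr : i'.d = r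
          · rw [hrr, update_self] at h4
            exact absurd h4 (h.z2 _)
          · rw [update_of_ne (by simpa using hrr)] at h4
            exact absurd h4 (huniq _ hrr)
        · intro j' i' hi' h4 h5
          rw [update_of_ne (by simp)] at h4 h5 ⊢
          exact h.enf j' i' hi' h4 h5
      refine ⟨_, step_of h hms (.lk r) (fun w hw => by rw [update_of_ne hw]),
        fin _ hms ⟨p, ?_, ?_⟩ ?_⟩
      · rw [update_of_ne (by simp)]
        exact hp
      · intro q hq
        rw [update_of_ne (by simp)]
        exact hsg q hq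
      · intro r'
        by_cases hrr : r' = r
        · subst hrr
          rw [update_self]
          exact h.z2 _
        · rw [update_of_ne (by simpa using hrr)]
          exact huniq r' hrr
  · push Not at hsg
    obtain ⟨q, hqp, hq⟩ := hsg
    have main : ∀ p q : Fin (2 * P.L), P.Nx p q → m (.x p) = 2 → m (.x q) = 2 →
        ∃ m' : P.PV → Fin 3, Rm P m m' ∧ ∃ p Z, Rest P p Z m' := by
      intro p q hpq hp hq
      obtain ⟨m', h1, h2, h3, h4, h5, h6⟩ := release h hpq hp hq
      exact ⟨m', h1, fin m' h2 ⟨q, h3, h4⟩ (fun r => by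
        rw [h6]
        exact h.not_both hp hq hpq r)⟩
    rcases h.far q p hqp hq hp with h1 | h1
    · exact main q p h1 hq hp
    · exact main p q h1 hp hq

theorem nj_lt (j : Fin P.L) : P.nj j < P.L := by
  have := P.hL
  have := j.2
  unfold nj
  split_ifs <;> omega

/-- The next index. -/
def njF (j : Fin P.L) : Fin P.L := ⟨P.nj j, nj_lt j⟩

theorem nx_po (j : Fin P.L) : P.Nx (P.po j) (P.pe (njF j)) := by
  have := j.2
  unfold Nx po pe njF nj
  split_ifs <;> simp <;> omega

theorem nx_pe (j : Fin P.L) : P.Nx (P.pe j) (P.po j) := Or.inl rfl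

theorem po_inj {j j' : Fin P.L} (h : P.po j = P.po j') : j = j' := by
  have := congrArg Fin.val h
  simp only [po] at this
  exact Fin.ext (by omega)

theorem pe_inj {j j' : Fin P.L} (h : P.pe j = P.pe j') : j = j' := by
  have := congrArg Fin.val h
  simp only [pe] at this
  exact Fin.ext (by omega)

theorem po_ne_pe {j j' : Fin P.L} : P.po j ≠ P.pe j' := by
  intro h
  have := congrArg Fin.val h
  simp only [pe, po] at this
  omega

/-- One instruction. -/
theorem run_one {j : Fin P.L} {Z : P.R → Bool} {m : P.PV → Fin 3} (h : Rest P (P.pe j) Z m) :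
    ∃ m' : P.PV → Fin 3, Rm P m m' ∧ Rest P (P.pe (njF j)) (P.exec j Z) m' := by
  classical
  have h1 : ∃ m₁ : P.PV → Fin 3, Rm P m m₁ ∧ Rest P (P.pe j) (P.exec j Z) m₁ := by
    unfold exec
    cases hi : P.ins j with
    | none => exact ⟨m, Rm.refl _, h⟩
    | some i =>
      simp only
      split_ifs with hb
      · obtain ⟨m', h1, h2⟩ := write hi h hb
        refine ⟨m', h1, ?_⟩
        have : (fun a b => Classical.propDecidable (a = b) : DecidableEq P.R) =
            fun a b => Classical.propDecidable (a = b) := rfl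
        exact h2
      · exact ⟨m, Rm.refl _, h⟩
  obtain ⟨m₁, hm₁, hr₁⟩ := h1
  obtain ⟨m₂, hm₂, hr₂⟩ := move hr₁ (nx_pe j) (by
    intro j' i hj' hi
    have := po_inj hj'
    subst this
    intro hb
    have hbd := P.hne _ _ hi
    unfold exec at hb ⊢
    rw [hi] at hb ⊢
    simp only at hb ⊢
    split_ifs at hb ⊢ with h3
    · rw [update_self]
    · exact absurd hb h3)
  obtain ⟨m₃, hm₃, hr₃⟩ := move hr₂ (nx_po j) (by
    intro j' i hj'
    exact absurd hj' po_ne_pe)
  exact ⟨m₃, (hm₁.trans hm₂).trans hm₃, hr₃⟩

theorem run_many (n : ℕ) {j : Fin P.L} {Z : P.R → Bool} {m : P.PV → Fin 3}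
    (h : Rest P (P.pe j) Z m) : ∃ m' : P.PV → Fin 3, Rm P m m' ∧
      ∃ j' : Fin P.L, j'.val = (P.stp^[n] (j, Z)).1 ∧
        Rest P (P.pe j') (P.stp^[n] (j, Z)).2 m' := by
  induction n with
  | zero => exact ⟨m, Rm.refl _, j, rfl, h⟩
  | succ n ih =>
    obtain ⟨m₁, h1, j₁, h2, h3⟩ := ih
    obtain ⟨m₂, h4, h5⟩ := run_one h3
    refine ⟨m₂, h1.trans h4, njF j₁, ?_, ?_⟩
    · rw [Function.iterate_succ_apply', stp, ← h2]
      rfl
    · rw [Function.iterate_succ_apply', stp, ← h2]
      exact h5

theorem halts_all (h : ∀ Z, P.Halts 0 Z) (k : ℕ) : ∀ j, j < P.L → P.L ≤ j + k →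
    ∀ Z, P.Halts j Z := by
  induction k with
  | zero => intro j h1 h2; omega
  | succ k ih =>
    intro j h1 h2 Z
    have h3 : P.Halts (P.nj j) (P.exec j Z) := by
      unfold nj
      split_ifs with h4
      · exact h _
      · exact ih (j + 1) (by omega) (by omega) _
    obtain ⟨n, hn⟩ := h3
    exact ⟨n + 1, by rw [Function.iterate_succ_apply]; exact hn⟩

theorem reachAll_of_halts (h : ∀ Z, P.Halts 0 Z) : P.csp.ReachAll := by
  intro x hx
  obtain ⟨m₁, h1, p, Z, h2⟩ := to_rest (sol_iff.mp hx)
  -- move to an even position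
  have h3 : ∃ m₂ : P.PV → Fin 3, Rm P m₁ m₂ ∧ ∃ j : Fin P.L, Rest P (P.pe j) Z m₂ := by
    have hp := p.2
    by_cases hpar : p.val % 2 = 0
    · have : p = P.pe ⟨p.val / 2, by omega⟩ := Fin.ext (by simp only [pe]; omega)
      rw [this] at h2
      exact ⟨m₁, Rm.refl _, _, h2⟩
    · have : p = P.po ⟨p.val / 2, by omega⟩ := Fin.ext (by simp only [po]; omega)
      rw [this] at h2
      obtain ⟨m₂, h4, h5⟩ := move h2 (nx_po _) (by
        intro j' i hj'
        exact absurd hj' po_ne_pe)
      exact ⟨m₂, h4, _, h5⟩
  obtain ⟨m₂, h4, j, h5⟩ := h3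
  obtain ⟨n, hn⟩ := halts_all h P.L j j.2 (by omega) Z
  obtain ⟨m₃, h6, j', _, h7⟩ := run_many n h5
  refine ⟨m₃, (h1.trans h4).trans h6, ?_⟩
  have := h7.z P.A
  rw [hn] at this
  exact this

/-- The computation never sets the register `A`. -/
def Never (P : Prg) (j : ℕ) (Z : P.R → Bool) : Prop := ∀ n, (P.stp^[n] (j, Z)).2 P.A = false

theorem Never.zero {j : ℕ} {Z : P.R → Bool} (h : Never P j Z) : Z P.A = false := h 0

theorem Never.next {j : ℕ} {Z : P.R → Bool} (h : Never P j Z) : Never P (P.nj j) (P.exec j Z) := by
  intro n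
  have := h (n + 1)
  rwa [Function.iterate_succ_apply] at this

theorem Never.of_next {j : ℕ} {Z : P.R → Bool} (h0 : Z P.A = false)
    (h : Never P (P.nj j) (P.exec j Z)) : Never P j Z := by
  intro n
  cases n with
  | zero => exact h0
  | succ n =>
    rw [Function.iterate_succ_apply]
    exact h n

/-- The register `r` is free during the window of instruction `j`. -/
def Free (P : Prg) (j : Fin P.L) (Z : P.R → Bool) (r : P.R) : Prop :=
  ∃ i, P.ins j = some i ∧ i.d = r ∧ Z i.b = i.β

/-- States in the window of an instruction. -/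
structure S1 (P : Prg) (j : Fin P.L) (Z : P.R → Bool) (m : P.PV → Fin 3) : Prop where
  ptr : m (.x (P.pe j)) = 2
  oth : ∀ q, q ≠ P.pe j → m (.x q) ≠ 2
  val : ∀ r, ¬ Free P j Z r → m (.z r) = bv (Z r) ∧ m (.lk r) = bv (Z r)

/-- States after the window of an instruction. -/
structure S2 (P : Prg) (j : Fin P.L) (Z : P.R → Bool) (m : P.PV → Fin 3) : Prop where
  ptr : m (.x (P.po j)) = 2
  val : ∀ r, m (.z r) = bv (P.exec j Z r) ∧ m (.lk r) = bv (P.exec j Z r)

theorem exec_of_not_free {j : Fin P.L} {Z : P.R → Bool} {r : P.R} (h : ¬ Free P j Z r) :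
    P.exec j Z r = Z r := by
  classical
  unfold exec
  cases hi : P.ins j with
  | none => rfl
  | some i =>
    simp only
    split_ifs with hb
    · rw [update_of_ne]
      intro he
      exact h ⟨i, hi, he.symm, hb⟩
    · rfl

theorem exec_of_free {j : Fin P.L} {Z : P.R → Bool} {i : Ins P.R} (hi : P.ins j = some i)
    (hb : Z i.b = i.β) : P.exec j Z i.d = i.γ := by
  classical
  unfold exec
  rw [hi]
  simp only
  rw [if_pos hb, update_self]

theorem not_free_A {j : Fin P.L} {Z : P.R → Bool} (h : Never P j Z) : ¬ Free P j Z P.A := by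
  rintro ⟨i, hi, hd, hb⟩
  have h1 := h.next.zero
  rw [← hd, exec_of_free hi hb, P.hA _ _ hi hd] at h1
  exact absurd h1 (by decide)

/-- Invariant of the bad component. -/
def Bad (P : Prg) (m : P.PV → Fin 3) : Prop :=
  ∃ j Z, Never P j.val Z ∧ (S1 P j Z m ∨ S2 P j Z m)

theorem Bad.t_ne {m : P.PV → Fin 3} (h : Bad P m) : m (.z P.A) ≠ 0 := by
  obtain ⟨j, Z, hn, h1 | h1⟩ := h
  · rw [(h1.val P.A (not_free_A hn)).1, hn.zero]
    decide
  · rw [(h1.val P.A).1, hn.next.zero]
    decide

/-- If both `z r` and `lk r` have the value `c` and only one variable changes, both still have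
the value `c`. -/
theorem keep {m m' : P.PV → Fin 3} (h' : MS P m') {v : P.PV} (hv : ∀ w, w ≠ v → m w = m' w)
    {r : P.R} {c : Fin 3} (h1 : m (.z r) = c) (h2 : m (.lk r) = c) (h3 : m' (.lk r) ≠ 2) :
    m' (.z r) = c ∧ m' (.lk r) = c := by
  have h4 := h'.lk_eq h3
  by_cases h5 : PV.z r = v
  · have h6 : (PV.lk r : P.PV) ≠ v := by
      rw [← h5]
      simp
    rw [← hv _ h6, h2] at h4
    exact ⟨h4, by rw [← hv _ h6, h2]⟩
  · rw [← hv _ h5, h1] at h4
    exact ⟨by rw [← hv _ h5, h1], h4.symm⟩

theorem exec_idem {j : Fin P.L} {Z : P.R → Bool}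
    (h : ∀ i, P.ins j = some i → Z i.b = i.β → Z i.d = i.γ) : P.exec j Z = Z := by
  classical
  unfold exec
  cases hi : P.ins j with
  | none => rfl
  | some i =>
    simp only
    split_ifs with hb
    · rw [← h i hi hb]
      exact update_eq_self _ _
    · rfl

theorem exec_congr {j : Fin P.L} {Z Z' : P.R → Bool} (h : ∀ r, ¬ Free P j Z r → Z' r = Z r) :
    P.exec j Z' = P.exec j Z := by
  classical
  cases hi : P.ins j with
  | none =>
    have : Z' = Z := funext fun r => h r (by
      rintro ⟨i, hi', _⟩
      rw [hi] at hi'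
      exact absurd hi' (by simp))
    rw [this]
  | some i =>
    have hbd := P.hne _ _ hi
    have hb : Z' i.b = Z i.b := h _ (by
      rintro ⟨i', hi', hd, _⟩
      rw [hi] at hi'
      obtain rfl := Option.some_inj.mp hi'
      exact hbd hd.symm)
    unfold exec
    rw [hi]
    simp only [hb]
    split_ifs with h1
    · funext r
      by_cases hr : r = i.d
      · subst hr
        rw [update_self, update_self]
      · rw [update_of_ne hr, update_of_ne hr]
        refine h r ?_
        rintro ⟨i', hi', hd, _⟩
        rw [hi] at hi'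
        obtain rfl := Option.some_inj.mp hi'
        exact hr hd.symm
    · funext r
      refine h r ?_
      rintro ⟨i', hi', hd, hb'⟩
      rw [hi] at hi'
      obtain rfl := Option.some_inj.mp hi'
      exact h1 hb'

theorem Bad.step {m m' : P.PV → Fin 3} (hm : MS P m) (hm' : MS P m') {v : P.PV}
    (hv : ∀ w, w ≠ v → m w = m' w) (h : Bad P m) : Bad P m' := by
  classical
  obtain ⟨j, Z, hn, h1 | h2⟩ := h
  · -- in the window
    have hp : m' (.x (P.pe j)) = 2 := by
      by_cases h2 : PV.x (P.pe j) = v
      · obtain ⟨p, hp⟩ := hm'.ptr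
        by_cases h3 : p = P.pe j
        · rw [← h3]
          exact hp
        · have h4 : (PV.x p : P.PV) ≠ v := by
            rw [← h2]
            simpa using h3
          rw [← hv _ h4] at hp
          exact absurd hp (h1.oth p h3)
      · rw [← hv _ h2]
        exact h1.ptr
    by_cases hsg : ∀ q, q ≠ P.pe j → m' (.x q) ≠ 2
    · refine ⟨j, Z, hn, Or.inl ⟨hp, hsg, ?_⟩⟩
      intro r hr
      obtain ⟨h3, h4⟩ := h1.val r hr
      refine keep hm' hv h3 h4 ?_
      intro h5
      obtain ⟨j', i, hj', hi, hd⟩ := hm'.win r _ h5 hp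
      have := pe_inj hj'
      subst this
      subst hd
      apply hr
      refine ⟨i, hi, rfl, ?_⟩
      have h6 := hm'.cond' hi h5 hp
      have hbd := P.hne _ _ hi
      have h7 : ¬ Free P j Z i.b := by
        rintro ⟨i', hi', hd, _⟩
        rw [hi] at hi'
        obtain rfl := Option.some_inj.mp hi'
        exact hbd hd.symm
      have h8 : (PV.lk i.d : P.PV) = v := by
        by_contra h9
        rw [← hv _ h9, h4] at h5
        exact bv_ne2 _ h5
      have h9 : (PV.z i.b : P.PV) ≠ v := by
        rw [← h8]
        simp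
      rw [← hv _ h9, (h1.val _ h7).1] at h6
      exact bv_inj h6
    · push Not at hsg
      obtain ⟨q, hqp, hq⟩ := hsg
      have hvq : v = PV.x q := by
        by_contra h3
        rw [← hv _ (Ne.symm h3)] at hq
        exact h1.oth q hqp hq
      have hz : ∀ r, m' (.z r) = m (.z r) := fun r => (hv _ (by rw [hvq]; simp)).symm
      have hlk : ∀ r, m' (.lk r) = m (.lk r) := fun r => (hv _ (by rw [hvq]; simp)).symm
      rcases hm'.far _ _ hqp.symm hp hq with h3 | h3
      · -- forward
        have hq' : q = P.po j := nx_right h3 (nx_pe j)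
        subst hq'
        have hl2 := hm'.not_both hp hq h3
        refine ⟨j, Z, hn, Or.inr ⟨hq, ?_⟩⟩
        intro r
        by_cases hr : Free P j Z r
        · obtain ⟨i, hi, hd, hb⟩ := hr
          have hbd := P.hne _ _ hi
          have h7 : ¬ Free P j Z i.b := by
            rintro ⟨i', hi', hd, _⟩
            rw [hi] at hi'
            obtain rfl := Option.some_inj.mp hi'
            exact hbd hd.symm
          have h8 : m' (.z i.b) = bv i.β := by
            rw [hz, (h1.val _ h7).1, hb]
          have h9 := hm'.enf' hi hq h8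
          subst hd
          rw [exec_of_free hi hb]
          exact ⟨h9, by rw [← hm'.lk_eq (hl2 _)]; exact h9⟩
        · rw [exec_of_not_free hr, hz, hlk]
          exact h1.val r hr
      · -- backward
        obtain ⟨j', hj'⟩ : ∃ j' : Fin P.L, q = P.po j' := by
          have hq2 := q.2
          have hj2 := j.2
          rcases h3 with h4 | ⟨h4, h5⟩
          · simp only [pe] at h4
            exact ⟨⟨q.val / 2, by omega⟩, Fin.ext (by simp only [po]; omega)⟩
          · exact ⟨⟨q.val / 2, by omega⟩, Fin.ext (by simp only [po]; omega)⟩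
        subst hj'
        have hjj : njF j' = j := pe_inj (nx_right (nx_po j') h3)
        have hl2 := hm'.not_both hq hp h3
        set Z' : P.R → Bool := fun r => decide (m' (.z r) = 0) with hZ'
        have hzZ : ∀ r, m' (.z r) = bv (Z' r) := by
          intro r
          have key : ∀ x : Fin 3, x ≠ 2 → x = bv (decide (x = 0)) := by decide
          exact key _ (hm'.z2 r)
        have hZZ : ∀ r, ¬ Free P j Z r → Z' r = Z r := by
          intro r hr
          have := (h1.val r hr).1
          rw [← hz, hzZ] at this
          exact bv_inj this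
        have hidem : P.exec j' Z' = Z' := exec_idem (by
          intro i hi hb
          apply bv_inj
          rw [← hzZ]
          exact hm'.enf' hi hq (by rw [hzZ, hb]))
        have hnZ' : Never P j Z' := by
          refine Never.of_next ?_ ?_
          · rw [hZZ _ (not_free_A hn)]
            exact hn.zero
          · rw [exec_congr hZZ]
            exact hn.next
        refine ⟨j', Z', ?_, Or.inr ⟨hq, ?_⟩⟩
        · refine Never.of_next hnZ'.zero ?_
          rw [hidem]
          have : P.nj j' = j.val := congrArg Fin.val hjj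
          rw [this]
          exact hnZ'
        · intro r
          rw [hidem]
          exact ⟨hzZ r, by rw [← hm'.lk_eq (hl2 r)]; exact hzZ r⟩
  · -- after the window
    have hp : m (.x (P.po j)) = 2 := h2.ptr
    have hnr : ¬ Free P j Z P.A := not_free_A hn
    by_cases hp' : m' (.x (P.po j)) = 2
    · refine ⟨j, Z, hn, Or.inr ⟨hp', ?_⟩⟩
      intro r
      refine keep hm' hv (h2.val r).1 (h2.val r).2 ?_
      intro h5
      have h6 := (hm'.win r _ h5 hp').even
      simp only [po] at h6
      omega
    · have hvq : v = PV.x (P.po j) := by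
        by_contra h3
        rw [← hv _ (Ne.symm h3)] at hp'
        exact hp' hp
      have hz : ∀ r, m' (.z r) = m (.z r) := fun r => (hv _ (by rw [hvq]; simp)).symm
      have hlk : ∀ r, m' (.lk r) = m (.lk r) := fun r => (hv _ (by rw [hvq]; simp)).symm
      have hx : ∀ q, q ≠ P.po j → m' (.x q) = m (.x q) :=
        fun q hq => (hv _ (by rw [hvq]; simpa using hq)).symm
      obtain ⟨q, hq⟩ := hm'.ptr
      have hqp : q ≠ P.po j := by
        rintro rfl
        exact hp' hq
      have hq0 : m (.x q) = 2 := by
        rw [← hx q hqp]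
        exact hq
      have hoth : ∀ s, s ≠ q → m' (.x s) ≠ 2 := by
        intro s hs h5
        have hsp : s ≠ P.po j := by
          rintro rfl
          exact hp' h5
        have hs0 : m (.x s) = 2 := by
          rw [← hx s hsp]
          exact h5
        have h6 := hm.far _ _ hqp hq0 hp
        have h7 := hm.far _ _ hsp hs0 hp
        have h8 := hm'.far _ _ hs h5 hq
        rcases h6 with h6 | h6 <;> rcases h7 with h7 | h7
        · exact hs (nx_left h7 h6)
        · have h9 := nx_two h6 h7
          rcases h8 with h8 | h8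
          · exact h9.2.2 h8
          · exact h9.2.1 h8
        · have h9 := nx_two h7 h6
          rcases h8 with h8 | h8
          · exact h9.2.1 h8
          · exact h9.2.2 h8
        · exact hs (nx_right h7 h6)
      rcases hm.far _ _ hqp hq0 hp with h6 | h6
      · -- back to the window of `j`
        have hqj : q = P.pe j := nx_left h6 (nx_pe j)
        subst hqj
        refine ⟨j, Z, hn, Or.inl ⟨hq, hoth, ?_⟩⟩
        intro r hr
        rw [hz, hlk, (h2.val r).1, (h2.val r).2, exec_of_not_free hr]
        exact ⟨rfl, rfl⟩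
      · -- forward to the next window
        have hqj : q = P.pe (njF j) := nx_right h6 (nx_po j)
        subst hqj
        refine ⟨njF j, P.exec j Z, hn.next, Or.inl ⟨hq, hoth, ?_⟩⟩
        intro r _
        rw [hz, hlk]
        exact h2.val r

theorem not_reachAll {Z : P.R → Bool} (hZ : Never P 0 Z) : ¬ P.csp.ReachAll := by
  classical
  have hL := P.hL
  set j0 : Fin P.L := ⟨0, by omega⟩ with hj0
  set m0 : P.PV → Fin 3 := fun v => match v with
    | .x p => if p.val = 0 then 2 else 1
    | .z r => bv (Z r)
    | .lk r => bv (Z r) with hm0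
  have hms : MS P m0 := by
    refine ⟨?_, ?_, ?_, ?_, ?_, ?_, ?_, ?_⟩
    · intro r
      exact bv_ne2 _
    · intro p q c hpq hc h1 h2
      have h3 : ¬ q.val = 0 := by omega
      simp only [hm0, h3, if_false] at h1 h2
      split_ifs at h1
      · exact hc h1.symm
      · rw [← h1] at h2
        exact absurd h2 (by decide)
    · intro p q c hp hq hc h1 h2
      simp only [hm0, hq, if_true] at h2
      exact hc h2.symm
    · intro p q hpq h1 h2
      have key : ∀ p : Fin (2 * P.L), m0 (.x p) = 2 → p.val = 0 := by
        intro p hp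
        by_contra h3
        simp only [hm0, h3, if_false] at hp
        exact absurd hp (by decide)
      exact absurd (Fin.ext ((key p h1).trans (key q h2).symm)) hpq
    · intro r c hc h1 h2
      simp only [hm0] at h1 h2
      rw [h1] at h2
      exact ot_ne c hc h2.symm
    · intro r p h1
      exact absurd h1 (bv_ne2 _)
    · intro j i hi h1
      exact absurd h1 (bv_ne2 _)
    · intro j i hi h1
      have h3 : ¬ (P.po j).val = 0 := by simp [po]
      simp only [hm0, h3, if_false] at h1
      exact absurd h1 (by decide)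
  have hbad : Bad P m0 := by
    refine ⟨j0, Z, hZ, Or.inl ⟨?_, ?_, fun r _ => ⟨rfl, rfl⟩⟩⟩
    · simp [hm0, pe, hj0]
    · intro q hq
      have h3 : ¬ q.val = 0 := by
        intro h
        apply hq
        exact Fin.ext (by simp [pe, hj0, h])
      simp only [hm0, h3, if_false]
      decide
  intro h
  obtain ⟨y, hy, hyt⟩ := h m0 (sol_iff.mpr hms)
  have key : ∀ y : P.PV → Fin 3, P.csp.Rc m0 y → Bad P y := by
    intro y hy
    induction hy with
    | refl => exact hbad
    | tail _ hf ih =>
      obtain ⟨h1, h2, v, hv⟩ := hf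
      exact ih.step (sol_iff.mp h1) (sol_iff.mp h2) hv
  exact (key y hy).t_ne hyt

theorem csp_iff : P.csp.ReachAll ↔ ∀ Z, P.Halts 0 Z := by
  constructor
  · intro h Z
    by_contra hno
    refine not_reachAll (Z := Z) ?_ h
    intro n
    rw [← Bool.not_eq_true]
    intro h1
    exact hno ⟨n, h1⟩
  · exact reachAll_of_halts

end Prg

end Pool.Agent.Helper69.Mix
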