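import Mathlib
import Pool.Agent.Helper69.Mix.PrgEq

/-!
# The constraints of a program in terms of numbers
-/

namespace Pool.Agent.Helper69.Mix

open Function

namespace Prg

/-- Number of a variable of the constraint system. -/
def cW (P : Prg) (cR : P.R → ℕ) : P.PV ⊕ (Fin P.L × Bool) → ℕ
  | .inl (.x p) => 5 * p.1
  | .inl (.z r) => 5 * cR r + 1
  | .inl (.lk r) => 5 * cR r + 2
  | .inr (j, false) => 5 * j.1 + 3
  | .inr (j, true) => 5 * j.1 + 4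

theorem cW_inj {P : Prg} {cR : P.R → ℕ} (h : Injective cR) : Injective (P.cW cR) := by
  intro x y hxy
  rcases x with (x | x | x) | ⟨x, _ | _⟩ <;> rcases y with (y | y | y) | ⟨y, _ | _⟩ <;>
    simp only [cW] at hxy <;> first
      | omega
      | (have h1 := Fin.ext (show x.1 = y.1 by omega); rw [h1])
      | (have h1 := h (show cR x = cR y by omega); rw [h1])

/-- Data describing a program by numbers. -/
structure Num (P : Prg) (cR : P.R → ℕ) (vr : ℕ → Prop)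
    (ins : ℕ → ℕ → Bool → ℕ → Bool → Prop) : Prop where
  inj : Injective cR
  vr : ∀ r, vr r ↔ ∃ x, cR x = r
  lt : ∀ j J, P.ins j = some J → j < P.L
  ins : ∀ j b β d γ, ins j b β d γ ↔ ∃ J, P.ins j = some J ∧ cR J.b = b ∧ J.β = β ∧ cR J.d = d ∧
    J.γ = γ

/-- Consecutive positions. -/
def nx (L p q : ℕ) : Prop := q = p + 1 ∨ (p + 1 = 2 * L ∧ q = 0)

/-- The constraints, in terms of numbers. -/
def fbN (L : ℕ) (vr : ℕ → Prop) (ins : ℕ → ℕ → Bool → ℕ → Bool → Prop) (a b : Fin 3)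
    (u v : ℕ) : Prop :=
  ((a ≠ 2 ∧ b = ot a) ∧ ∃ p < 2 * L, p + 1 < 2 * L ∧ u = 5 * p ∧ v = 5 * (p + 1)) ∨
  ((a ≠ 2 ∧ b = a) ∧ u + 5 = 10 * L ∧ v = 0) ∨
  ((a = 2 ∧ b = 2) ∧ ∃ p < 2 * L, ∃ q < 2 * L, ¬ p = q ∧ ¬ nx L p q ∧ ¬ nx L q p ∧ u = 5 * p ∧
    v = 5 * q) ∨
  ((a ≠ 2 ∧ b = ot a) ∧ ∃ r, vr r ∧ u = 5 * r + 2 ∧ v = 5 * r + 1) ∨
  ((a = 2 ∧ b = 2) ∧ ∃ r, vr r ∧ ∃ p < 2 * L, ¬ (∃ j x β γ, ins j x β r γ ∧ p = 2 * j) ∧
    u = 5 * r + 2 ∧ v = 5 * p) ∨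
  ∃ j x β y γ, ins j x β y γ ∧
    ((u = 5 * j + 4 ∧ (((a = 0 ∧ b = 2) ∧ v = 5 * (2 * j + 1)) ∨
      ((a = 1 ∧ b = bv β) ∧ v = 5 * x + 1) ∨ ((a = 2 ∧ b = bv (!γ)) ∧ v = 5 * y + 1))) ∨
    (u = 5 * j + 3 ∧ (((a = 0 ∧ b = 2) ∧ v = 5 * y + 2) ∨
      ((a = 1 ∧ b = 2) ∧ v = 5 * (2 * j)) ∨ ((a = 2 ∧ b = bv (!β)) ∧ v = 5 * x + 1))))

theorem fbN_iff {P : Prg} {cR : P.R → ℕ} {vr : ℕ → Prop}
    {ins : ℕ → ℕ → Bool → ℕ → Bool → Prop} (H : Num P cR vr ins) (a b : Fin 3) (u v : ℕ) :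
    fbN P.L vr ins a b u v ↔
      ∃ x y, P.csp.toCsp.forb x a y b ∧ P.cW cR x = u ∧ P.cW cR y = v := by
  have hL := P.hL
  constructor
  · rintro (⟨⟨h1, rfl⟩, p, hp, hp1, rfl, rfl⟩ | ⟨⟨h1, rfl⟩, h2, rfl⟩ |
      ⟨⟨rfl, rfl⟩, p, hp, q, hq, h1, h2, h3, rfl, rfl⟩ | ⟨⟨h1, rfl⟩, r, hr, rfl, rfl⟩ |
      ⟨⟨rfl, rfl⟩, r, hr, p, hp, h1, rfl, rfl⟩ | ⟨j, x, β, y, γ, h1, h2⟩)
    · exact ⟨.inl (.x ⟨p, hp⟩), .inl (.x ⟨p + 1, hp1⟩),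
        Csp3.Fb.two _ _ _ _ (Fb.adj _ _ _ rfl h1), rfl, rfl⟩
    · refine ⟨.inl (.x ⟨2 * P.L - 1, by omega⟩), .inl (.x ⟨0, by omega⟩),
        Csp3.Fb.two _ _ _ _ (Fb.seam _ _ _ (by simp; omega) rfl h1), ?_, ?_⟩
      · simp only [cW]
        omega
      · simp [cW]
    · refine ⟨.inl (.x ⟨p, hp⟩), .inl (.x ⟨q, hq⟩),
        Csp3.Fb.two _ _ _ _ (Fb.far _ _ ?_ ?_ ?_), rfl, rfl⟩
      · intro h
        exact h1 (congrArg Fin.val h)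
      · exact h2
      · exact h3
    · obtain ⟨r, rfl⟩ := (H.vr _).mp hr
      exact ⟨.inl (.lk r), .inl (.z r), Csp3.Fb.two _ _ _ _ (Fb.lock _ _ h1), rfl, rfl⟩
    · obtain ⟨r, rfl⟩ := (H.vr _).mp hr
      refine ⟨.inl (.lk r), .inl (.x ⟨p, hp⟩), Csp3.Fb.two _ _ _ _ (Fb.win _ _ ?_), rfl, rfl⟩
      rintro ⟨j, J, hpj, hJ, hd⟩
      refine h1 ⟨j, cR J.b, J.β, J.γ, (H.ins _ _ _ _ _).mpr ⟨J, hJ, rfl, rfl, ?_, rfl⟩, ?_⟩
      · rw [hd]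
      · exact congrArg Fin.val hpj
    · obtain ⟨J, hJ, rfl, rfl, rfl, rfl⟩ := (H.ins _ _ _ _ _).mp h1
      have hj := H.lt _ _ hJ
      have hact : ∀ e, P.csp.act ((⟨j, hj⟩, e) : Fin P.L × Bool) := by
        intro e
        change (P.ins j).isSome = true
        rw [hJ]
        rfl
      rcases h2 with ⟨rfl, h2⟩ | ⟨rfl, h2⟩
      · refine ⟨.inr (⟨j, hj⟩, true), ?_⟩
        have hs := fun i => Csp3.Fb.sel (C := P.csp) (⟨j, hj⟩, true) i (hact true)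
        rcases h2 with ⟨⟨rfl, rfl⟩, rfl⟩ | ⟨⟨rfl, rfl⟩, rfl⟩ | ⟨⟨rfl, rfl⟩, rfl⟩
        · refine ⟨.inl (.x (P.po ⟨j, hj⟩)), ?_, rfl, rfl⟩
          have h3 := hs 0
          simp only [csp, hJ, if_true] at h3
          exact h3
        · refine ⟨.inl (.z J.b), ?_, rfl, rfl⟩
          have h3 := hs 1
          simp only [csp, hJ, if_true] at h3
          exact h3
        · refine ⟨.inl (.z J.d), ?_, rfl, rfl⟩
          have h3 := hs 2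
          simp only [csp, hJ, if_true] at h3
          exact h3
      · refine ⟨.inr (⟨j, hj⟩, false), ?_⟩
        have hs := fun i => Csp3.Fb.sel (C := P.csp) (⟨j, hj⟩, false) i (hact false)
        rcases h2 with ⟨⟨rfl, rfl⟩, rfl⟩ | ⟨⟨rfl, rfl⟩, rfl⟩ | ⟨⟨rfl, rfl⟩, rfl⟩
        · refine ⟨.inl (.lk J.d), ?_, rfl, rfl⟩
          have h3 := hs 0
          simp only [csp, hJ, Bool.false_eq_true, if_false] at h3
          exact h3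
        · refine ⟨.inl (.x (P.pe ⟨j, hj⟩)), ?_, rfl, rfl⟩
          have h3 := hs 1
          simp only [csp, hJ, Bool.false_eq_true, if_false] at h3
          exact h3
        · refine ⟨.inl (.z J.b), ?_, rfl, rfl⟩
          have h3 := hs 2
          simp only [csp, hJ, Bool.false_eq_true, if_false] at h3
          exact h3
  · rintro ⟨x, y, h, rfl, rfl⟩
    cases h with
    | two x a y b h =>
      cases h with
      | adj p q c h1 h2 =>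
        refine Or.inl ⟨⟨h2, rfl⟩, p.1, p.2, ?_, rfl, ?_⟩
        · rw [← h1]
          exact q.2
        · simp only [cW, h1]
      | seam p q c h1 h2 h3 =>
        refine Or.inr (Or.inl ⟨⟨h3, rfl⟩, ?_, ?_⟩)
        · simp only [cW]
          omega
        · simp only [cW, h2]
      | far p q h1 h2 h3 =>
        exact Or.inr (Or.inr (Or.inl ⟨⟨rfl, rfl⟩, p.1, p.2, q.1, q.2,
          fun h => h1 (Fin.ext h), h2, h3, rfl, rfl⟩))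
      | lock r c h1 =>
        exact Or.inr (Or.inr (Or.inr (Or.inl ⟨⟨h1, rfl⟩, cR r, (H.vr _).mpr ⟨r, rfl⟩, rfl, rfl⟩)))
      | win r p h1 =>
        refine Or.inr (Or.inr (Or.inr (Or.inr (Or.inl ⟨⟨rfl, rfl⟩, cR r, (H.vr _).mpr ⟨r, rfl⟩,
          p.1, p.2, ?_, rfl, rfl⟩))))
        rintro ⟨j, x, β, γ, h2, h3⟩
        obtain ⟨J, hJ, _, _, h5, _⟩ := (H.ins _ _ _ _ _).mp h2
        exact h1 ⟨⟨j, H.lt _ _ hJ⟩, J, Fin.ext h3, hJ, H.inj h5⟩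
    | sel k i hk =>
      obtain ⟨j, e⟩ := k
      obtain ⟨J, hJ⟩ := Option.isSome_iff_exists.mp hk
      refine Or.inr (Or.inr (Or.inr (Or.inr (Or.inr ⟨j.1, cR J.b, J.β, cR J.d, J.γ,
        (H.ins _ _ _ _ _).mpr ⟨J, hJ, rfl, rfl, rfl, rfl⟩, ?_⟩))))
      cases e with
      | true =>
        left
        refine ⟨rfl, ?_⟩
        simp only [csp, hJ, if_true]
        fin_cases a
        · exact Or.inl ⟨⟨rfl, rfl⟩, rfl⟩
        · exact Or.inr (Or.inl ⟨⟨rfl, rfl⟩, rfl⟩)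
        · exact Or.inr (Or.inr ⟨⟨rfl, rfl⟩, rfl⟩)
      | false =>
        right
        refine ⟨rfl, ?_⟩
        simp only [csp, hJ, Bool.false_eq_true, if_false]
        fin_cases a
        · exact Or.inl ⟨⟨rfl, rfl⟩, rfl⟩
        · exact Or.inr (Or.inl ⟨⟨rfl, rfl⟩, rfl⟩)
        · exact Or.inr (Or.inr ⟨⟨rfl, rfl⟩, rfl⟩)

/-- Valid numbers of variables. -/
def vV (L : ℕ) (vr : ℕ → Prop) (u : ℕ) : Prop :=
  (∃ p < 2 * L, u = 5 * p) ∨ (∃ r, vr r ∧ (u = 5 * r + 1 ∨ u = 5 * r + 2)) ∨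
    ∃ j < L, u = 5 * j + 3 ∨ u = 5 * j + 4

theorem vV_iff {P : Prg} {cR : P.R → ℕ} {vr : ℕ → Prop}
    {ins : ℕ → ℕ → Bool → ℕ → Bool → Prop} (H : Num P cR vr ins) (u : ℕ) :
    vV P.L vr u ↔ ∃ x, P.cW cR x = u := by
  constructor
  · rintro (⟨p, hp, rfl⟩ | ⟨r, hr, h⟩ | ⟨j, hj, h⟩)
    · exact ⟨.inl (.x ⟨p, hp⟩), rfl⟩
    · obtain ⟨x, rfl⟩ := (H.vr _).mp hr
      rcases h with rfl | rfl
      · exact ⟨.inl (.z x), rfl⟩
      · exact ⟨.inl (.lk x), rfl⟩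
    · rcases h with rfl | rfl
      · exact ⟨.inr (⟨j, hj⟩, false), rfl⟩
      · exact ⟨.inr (⟨j, hj⟩, true), rfl⟩
  · rintro ⟨x, rfl⟩
    rcases x with (x | x | x) | ⟨x, _ | _⟩
    · exact Or.inl ⟨x.1, x.2, rfl⟩
    · exact Or.inr (Or.inl ⟨cR x, (H.vr _).mpr ⟨x, rfl⟩, Or.inl rfl⟩)
    · exact Or.inr (Or.inl ⟨cR x, (H.vr _).mpr ⟨x, rfl⟩, Or.inr rfl⟩)
    · exact Or.inr (Or.inr ⟨x.1, x.2, Or.inl rfl⟩)
    · exact Or.inr (Or.inr ⟨x.1, x.2, Or.inr rfl⟩)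

/-- Numbers of Boolean variables. -/
theorem vb_iff {P : Prg} {cR : P.R → ℕ} {vr : ℕ → Prop}
    {ins : ℕ → ℕ → Bool → ℕ → Bool → Prop} (H : Num P cR vr ins) (u : ℕ) :
    (∃ r, vr r ∧ u = 5 * r + 1) ↔ ∃ x, P.csp.toCsp.bool x ∧ P.cW cR x = u := by
  constructor
  · rintro ⟨r, hr, rfl⟩
    obtain ⟨x, rfl⟩ := (H.vr _).mp hr
    exact ⟨.inl (.z x), trivial, rfl⟩
  · rintro ⟨x, hx, rfl⟩
    rcases x with (x | x | x) | ⟨x, _ | _⟩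
    · exact hx.elim
    · exact ⟨cR x, (H.vr _).mpr ⟨x, rfl⟩, rfl⟩
    · exact hx.elim
    · exact hx.elim
    · exact hx.elim

end Prg

end Pool.Agent.Helper69.Mix
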