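import Mathlib
import Pool.Agent.Helper69.Mix.Fin
import Pool.Agent.Helper69.Mix.Code
import Pool.Agent.Helper69.Mix.PrgNum
import Pool.Agent.Helper69.Mix.GrNum

/-!
# The adjacency formula
-/

namespace Pool.Agent.Helper69.Mix

open Function Helper69

/-- variable -/
abbrev vv (i : ℕ) : Tm := .var i
/-- constant -/
abbrev kk (k : ℕ) : Tm := .cst k
/-- sum -/
abbrev ad (a b : Tm) : Tm := .add a b
/-- product -/
abbrev ml (a b : Tm) : Tm := .mul a b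
/-- both equal -/
def eq2 (x a y b : Tm) : Tm := andT (eqT x a) (eqT y b)

@[simp] theorem tr_eq2 {w : List Sym} {n : ℕ} {e : ℕ → ℕ} {x a y b : Tm} :
    tr w n e (eq2 x a y b) ↔ x.eval w n e = a.eval w n e ∧ y.eval w n e = b.eval w n e := by
  simp [eq2]

/-- term for `pN` -/
def pNT (u v : Tm) (m : ℕ) : Tm := ad (ml (kk 6) (pairT u (pairT v (kk m)))) (kk 2)
/-- term for `bN` -/
def bNT (u v : Tm) (m : ℕ) : Tm := ad (ml (kk 6) (pairT u (pairT v (kk m)))) (kk 3)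

@[simp] theorem eval_pNT {w : List Sym} {n : ℕ} {e : ℕ → ℕ} {u v : Tm} {m : ℕ} :
    (pNT u v m).eval w n e = pN (u.eval w n e) (v.eval w n e) m := by
  simp [pNT, pN, Tm.eval]

@[simp] theorem eval_bNT {w : List Sym} {n : ℕ} {e : ℕ → ℕ} {u v : Tm} {m : ℕ} :
    (bNT u v m).eval w n e = bN (u.eval w n e) (v.eval w n e) m := by
  simp [bNT, bN, Tm.eval]

namespace Sweep

variable (X : Sweep) (C c : ℕ)

/-- number of cells -/
def sz (w : List Sym) : ℕ := C * (w.length + 1) ^ c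
/-- number of cells -/
def ST : Tm := ml (kk C) (pwT (ad .len (kk 1)) c)

@[simp] theorem eval_ST {w : List Sym} {n : ℕ} {e : ℕ → ℕ} : (ST C c).eval w n e = sz C c w := by
  simp [ST, sz, Tm.eval]

/-- formula for `cond`, at level `n + 1`, for the position in the variable `n` -/
noncomputable def condT (n : ℕ) (e : Ent) : Tm :=
  andT (orT (gT (e.f = true) (eqT (vv n) (kk 0))) (gT (e.f = false) (notT (eqT (vv n) (kk 0)))))
    (andT (orT (gT (e.l = true) (eqT (ad (vv n) (kk 1)) (ST C c)))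
      (gT (e.l = false) (notT (eqT (ad (vv n) (kk 1)) (ST C c)))))
      (match e.s with
        | none => notT (ltT (vv n) .len)
        | some x => .sym x (vv n)))

@[simp] theorem tr_condT {w : List Sym} {n m : ℕ} {en : ℕ → ℕ} {e : Ent} :
    tr w m en (condT C c n e) ↔ cond (sz C c w) w e (en n) := by
  obtain ⟨f, l, s, cc, pb, qb, β, pd, qd, γ⟩ := e
  unfold condT cond
  simp only [tr_and, tr_or, tr_gT, tr_eq, tr_not, Tm.eval, eval_ST]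
  have h1 : ((f = true ∧ en n = 0) ∨ (f = false ∧ ¬ en n = 0)) ↔ (f = true ↔ en n = 0) := by
    cases f <;> simp
  have h2 : ((l = true ∧ en n + 1 = sz C c w) ∨ (l = false ∧ ¬ en n + 1 = sz C c w)) ↔
      (l = true ↔ en n + 1 = sz C c w) := by
    cases l <;> simp
  rw [h1, h2]
  refine and_congr_right fun _ => and_congr_right fun _ => ?_
  cases s with
  | none => simp [Tm.eval]
  | some x => simp [tr_sym, Tm.eval]

/-- valid register numbers, for the variable `r` -/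
noncomputable def vRT (n r : ℕ) : Tm :=
  orT (exT (kk X.cA) (eqT (vv r) (ml (kk 4) (vv n))))
    (orT (exT (kk X.cV) (eqT (vv r) (ad (ml (kk 4) (vv n)) (kk 1))))
      (orT (eqT (vv r) (kk 2))
        (exT (ml (ad (ST C c) (kk 1)) (kk X.cB)) (eqT (vv r) (ad (ml (kk 4) (vv n)) (kk 3))))))

@[simp] theorem tr_vRT {w : List Sym} {n : ℕ} {en : ℕ → ℕ} {r : ℕ} (hr : r ≠ n) :
    tr w n en (vRT X C c n r) ↔ vR X (sz C c w) (en r) := by
  simp [vRT, vR, Tm.eval, hr]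

/-- bound for register numbers -/
noncomputable def rT : Tm :=
  ml (kk 4) (ad (ad (kk (X.cA + X.cV)) (ml (ad (ST C c) (kk 1)) (kk X.cB))) (kk 1))

@[simp] theorem eval_rT {w : List Sym} {n : ℕ} {en : ℕ → ℕ} :
    (rT X C c).eval w n en = rB X (sz C c w) := by
  simp [rT, rB, Tm.eval]

variable [Nonempty X.A] [Nonempty X.B]

/-- number of instructions -/
noncomputable def LT : Tm := ml (ST C c) (kk X.cc)

@[simp] theorem eval_LT {w : List Sym} {n : ℕ} {en : ℕ → ℕ} :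
    (LT X C c).eval w n en = sz C c w * X.cc := by
  simp [LT, Tm.eval]

/-- The instructions in terms of numbers. -/
def insN (S : ℕ) (w : List Sym) (j x : ℕ) (β : Bool) (y : ℕ) (γ : Bool) : Prop :=
  ∃ e ∈ X.tab, ∃ i < S, cond S w e i ∧ j = i * X.cc + e.c ∧
      x = e.pb * i + e.qb ∧ β = e.β ∧ y = e.pd * i + e.qd ∧ γ = e.γ

theorem num_prg {S : ℕ} (hS : 1 ≤ S) (w : List Sym) :
    Prg.Num (X.prg S hS w) (cR : Rg X S → ℕ) (vR X S) (X.insN S w) where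
  inj := cR_inj
  vr := fun r => vR_iff
  lt := by
    intro j J h
    change X.pins S w j = some J at h
    change j < S * X.cc
    by_contra hj
    unfold pins at h
    rw [if_neg hj] at h
    simp at h
  ins := by
    intro j b β d γ
    constructor
    · rintro ⟨e, he, i, hi, hc, rfl, rfl, rfl, rfl, rfl⟩
      obtain ⟨J, hJ, h1, h2, h3, h4⟩ := X.ex_pins he hi hc
      exact ⟨J, hJ, h1, h2, h3, h4⟩
    · rintro ⟨J, hJ, rfl, rfl, rfl, rfl⟩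
      change X.pins S w j = some J at hJ
      exact (X.pins_iff w j J).mp hJ

/-- formula for the sixth part of `fbN`, at level 4 -/
noncomputable def fb6T (a b : Fin 3) : Tm :=
  exL X.tab fun e => exT (ST C c) (andT (condT C c 4 e) (
    orT (andT (eqT (vv 2) (ad (ml (kk 5) (ad (ml (vv 4) (kk X.cc)) (kk e.c))) (kk 4)))
      (orT (gT (a = 0 ∧ b = 2) (eqT (vv 3) (ml (kk 5) (ad (ml (kk 2)
        (ad (ml (vv 4) (kk X.cc)) (kk e.c))) (kk 1)))))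
      (orT (gT (a = 1 ∧ b = bv e.β) (eqT (vv 3) (ad (ml (kk 5)
        (ad (ml (kk e.pb) (vv 4)) (kk e.qb))) (kk 1))))
        (gT (a = 2 ∧ b = bv (!e.γ)) (eqT (vv 3) (ad (ml (kk 5)
        (ad (ml (kk e.pd) (vv 4)) (kk e.qd))) (kk 1)))))))
    (andT (eqT (vv 2) (ad (ml (kk 5) (ad (ml (vv 4) (kk X.cc)) (kk e.c))) (kk 3)))
      (orT (gT (a = 0 ∧ b = 2) (eqT (vv 3) (ad (ml (kk 5)
        (ad (ml (kk e.pd) (vv 4)) (kk e.qd))) (kk 2))))
      (orT (gT (a = 1 ∧ b = 2) (eqT (vv 3) (ml (kk 5) (ml (kk 2)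
        (ad (ml (vv 4) (kk X.cc)) (kk e.c))))))
        (gT (a = 2 ∧ b = bv (!e.β)) (eqT (vv 3) (ad (ml (kk 5)
        (ad (ml (kk e.pb) (vv 4)) (kk e.qb))) (kk 1)))))))))

theorem tr_fb6T {w : List Sym} {en : ℕ → ℕ} {a b : Fin 3} :
    tr w 4 en (fb6T X C c a b) ↔ ∃ j x β y γ, X.insN (sz C c w) w j x β y γ ∧
    ((en 2 = 5 * j + 4 ∧ (((a = 0 ∧ b = 2) ∧ en 3 = 5 * (2 * j + 1)) ∨
      ((a = 1 ∧ b = bv β) ∧ en 3 = 5 * x + 1) ∨ ((a = 2 ∧ b = bv (!γ)) ∧ en 3 = 5 * y + 1))) ∨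
    (en 2 = 5 * j + 3 ∧ (((a = 0 ∧ b = 2) ∧ en 3 = 5 * y + 2) ∨
      ((a = 1 ∧ b = 2) ∧ en 3 = 5 * (2 * j)) ∨
      ((a = 2 ∧ b = bv (!β)) ∧ en 3 = 5 * x + 1)))) := by
  simp only [fb6T, tr_exL, tr_ex, tr_and, tr_or, tr_eq, tr_gT, tr_condT, Tm.eval, eval_ST,
    update_self, update_of_ne (show (2 : ℕ) ≠ 4 by decide),
    update_of_ne (show (3 : ℕ) ≠ 4 by decide)]
  constructor
  · rintro ⟨e, he, i, hi, hc, h⟩
    exact ⟨_, _, _, _, _, ⟨e, he, i, hi, hc, rfl, rfl, rfl, rfl, rfl⟩, h⟩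
  · rintro ⟨_, _, _, _, _, ⟨e, he, i, hi, hc, rfl, rfl, rfl, rfl, rfl⟩, h⟩
    exact ⟨e, he, i, hi, hc, h⟩

/-- formula for `fbN`, at level 4 -/
noncomputable def fbT (a b : Fin 3) : Tm :=
  orT (gT (a ≠ 2 ∧ b = ot a) (exT (ml (kk 2) (LT X C c))
    (andT (ltT (ad (vv 4) (kk 1)) (ml (kk 2) (LT X C c)))
      (eq2 (vv 2) (ml (kk 5) (vv 4)) (vv 3) (ml (kk 5) (ad (vv 4) (kk 1))))))) <|
  orT (gT (a ≠ 2 ∧ b = a) (eq2 (ad (vv 2) (kk 5)) (ml (kk 10) (LT X C c)) (vv 3) (kk 0))) <|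
  orT (gT (a = 2 ∧ b = 2) (exT (ml (kk 2) (LT X C c)) (exT (ml (kk 2) (LT X C c))
    (andT (notT (eqT (vv 4) (vv 5)))
    (andT (notT (orT (eqT (vv 5) (ad (vv 4) (kk 1)))
      (eq2 (ad (vv 4) (kk 1)) (ml (kk 2) (LT X C c)) (vv 5) (kk 0))))
    (andT (notT (orT (eqT (vv 4) (ad (vv 5) (kk 1)))
      (eq2 (ad (vv 5) (kk 1)) (ml (kk 2) (LT X C c)) (vv 4) (kk 0))))
    (eq2 (vv 2) (ml (kk 5) (vv 4)) (vv 3) (ml (kk 5) (vv 5))))))))) <|
  orT (gT (a ≠ 2 ∧ b = ot a) (exT (rT X C c) (andT (vRT X C c 5 4)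
    (eq2 (vv 2) (ad (ml (kk 5) (vv 4)) (kk 2)) (vv 3) (ad (ml (kk 5) (vv 4)) (kk 1)))))) <|
  orT (gT (a = 2 ∧ b = 2) (exT (rT X C c) (andT (vRT X C c 5 4) (exT (ml (kk 2) (LT X C c))
    (andT (notT (exL X.tab fun e => exT (ST C c) (andT (condT C c 6 e)
      (andT (eqT (vv 4) (ad (ml (kk e.pd) (vv 6)) (kk e.qd)))
        (eqT (vv 5) (ml (kk 2) (ad (ml (vv 6) (kk X.cc)) (kk e.c))))))))
      (eq2 (vv 2) (ad (ml (kk 5) (vv 4)) (kk 2)) (vv 3) (ml (kk 5) (vv 5)))))))) <|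
  fb6T X C c a b

omit [Nonempty X.A] [Nonempty X.B] in
theorem ex_vR {S : ℕ} {Q : ℕ → Prop} : (∃ r < rB X S, vR X S r ∧ Q r) ↔ ∃ r, vR X S r ∧ Q r := by
  constructor
  · rintro ⟨r, _, h⟩
    exact ⟨r, h⟩
  · rintro ⟨r, h, h'⟩
    obtain ⟨x, rfl⟩ := vR_iff.mp h
    exact ⟨_, cR_lt x, h, h'⟩

theorem tr_fbT {w : List Sym} {en : ℕ → ℕ} {a b : Fin 3} :
    tr w 4 en (fbT X C c a b) ↔
      Prg.fbN (sz C c w * X.cc) (vR X (sz C c w)) (X.insN (sz C c w) w) a b (en 2) (en 3) := by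
  have h5 : ∀ r p : ℕ, (∃ e ∈ X.tab, ∃ i < sz C c w, cond (sz C c w) w e i ∧
      r = e.pd * i + e.qd ∧ p = 2 * (i * X.cc + e.c)) ↔
      ∃ j x β γ, X.insN (sz C c w) w j x β r γ ∧ p = 2 * j := by
    intro r p
    constructor
    · rintro ⟨e, he, i, hi, hc, rfl, rfl⟩
      exact ⟨_, _, _, _, ⟨e, he, i, hi, hc, rfl, rfl, rfl, rfl, rfl⟩, rfl⟩
    · rintro ⟨_, _, _, _, ⟨e, he, i, hi, hc, rfl, rfl, rfl, rfl, rfl⟩, rfl⟩
      exact ⟨e, he, i, hi, hc, rfl, rfl⟩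
  unfold fbT Prg.fbN
  rw [tr_or, tr_or, tr_or, tr_or, tr_or, tr_fb6T, ← X.ex_vR, ← X.ex_vR]
  refine or_congr ?_ (or_congr ?_ (or_congr ?_ (or_congr ?_ (or_congr ?_ Iff.rfl))))
  · simp [Tm.eval]
  · simp [Tm.eval]
  · simp [Tm.eval, Prg.nx]
  · simp [Tm.eval]
  · rw [tr_gT, tr_ex]
    refine and_congr_right fun _ => ?_
    simp only [eval_rT]
    refine exists_congr fun r => and_congr_right fun _ => ?_
    rw [tr_and, tr_vRT _ _ _ (by decide), tr_ex]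
    refine and_congr (by simp) ?_
    refine exists_congr fun p => and_congr (by simp [Tm.eval]) ?_
    rw [tr_and, tr_not]
    refine and_congr (not_congr ?_) (by simp [Tm.eval])
    rw [← h5]
    simp [Tm.eval]

/-- formula for `vV`, at level `n` -/
noncomputable def vVT (n u : ℕ) : Tm :=
  orT (exT (ml (kk 2) (LT X C c)) (eqT (vv u) (ml (kk 5) (vv n))))
  (orT (exT (rT X C c) (andT (vRT X C c (n + 1) n) (orT (eqT (vv u) (ad (ml (kk 5) (vv n)) (kk 1)))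
    (eqT (vv u) (ad (ml (kk 5) (vv n)) (kk 2))))))
    (exT (LT X C c) (orT (eqT (vv u) (ad (ml (kk 5) (vv n)) (kk 3)))
      (eqT (vv u) (ad (ml (kk 5) (vv n)) (kk 4))))))

theorem tr_vVT {w : List Sym} {n u : ℕ} {en : ℕ → ℕ} (hu : u ≠ n) :
    tr w n en (vVT X C c n u) ↔ Prg.vV (sz C c w * X.cc) (vR X (sz C c w)) (en u) := by
  unfold vVT Prg.vV
  rw [tr_or, tr_or, ← X.ex_vR]
  refine or_congr ?_ (or_congr ?_ ?_)
  · simp [Tm.eval, hu]
  · simp [Tm.eval, hu]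
  · simp [Tm.eval, hu]

/-- formula for the Boolean variables, at level `n` -/
noncomputable def vbT (n u : ℕ) : Tm :=
  exT (rT X C c) (andT (vRT X C c (n + 1) n) (eqT (vv u) (ad (ml (kk 5) (vv n)) (kk 1))))

omit [Nonempty X.A] [Nonempty X.B] in
theorem tr_vbT {w : List Sym} {n u : ℕ} {en : ℕ → ℕ} (hu : u ≠ n) :
    tr w n en (vbT X C c n u) ↔ ∃ r, vR X (sz C c w) r ∧ en u = 5 * r + 1 := by
  rw [← X.ex_vR]
  simp [vbT, Tm.eval, hu]

/-- A bound for the numbers of the variables. -/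
noncomputable def bB (S : ℕ) : ℕ := 5 * (rB X S + 2 * (S * X.cc)) + 5

/-- term for `bB` -/
noncomputable def bBT : Tm := ad (ml (kk 5) (ad (rT X C c) (ml (kk 2) (LT X C c)))) (kk 5)

@[simp] theorem eval_bBT {w : List Sym} {n : ℕ} {en : ℕ → ℕ} :
    (bBT X C c).eval w n en = X.bB (sz C c w) := by
  simp [bBT, bB, Tm.eval]

/-- formula for the edges, at level 2; `x`, `y` are the variables holding the ends -/
noncomputable def edT (x y : ℕ) : Tm :=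
  orT (exF fun j : Fin 4 => exF fun d : Fin 3 => gT (j ≠ d.castSucc)
    (eq2 (vv x) (kk (6 * (4 + d.1))) (vv y) (kk (6 * j.1)))) <|
  orT (exF fun j : Fin 4 => gT (j = 1) (eq2 (vv x) (kk 42) (vv y) (kk (6 * j.1)))) <|
  orT (eq2 (vv x) (kk 42) (vv y) (kk 54)) <|
  orT (eq2 (vv x) (kk 42) (vv y) (kk 60)) <|
  orT (exF fun j : Fin 4 => gT (j = 0 ∨ j = 1) (eq2 (vv x) (kk 48) (vv y) (kk (6 * j.1)))) <|
  orT (eq2 (vv x) (kk 48) (vv y) (kk 60)) <|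
  orT (exF fun j : Fin 4 => gT (j = 1 ∨ j = 2) (eq2 (vv x) (kk 54) (vv y) (kk (6 * j.1)))) <|
  orT (eq2 (vv x) (kk 60) (vv y) (kk (6 * 11 + 1))) <|
  orT (exT (bBT X C c) (andT (orT (andT (vVT X C c 3 2) (eqT (vv y) (kk 18)))
    (andT (vbT X C c 3 2) (eqT (vv y) (kk 12)))) (eqT (vv x) (ad (ml (kk 6) (vv 2)) (kk 1))))) <|
  orT (exT (bBT X C c) (exT (bBT X C c) (exF fun a : Fin 3 => exF fun b : Fin 3 =>
    andT (fbT X C c a b)
      (orT (eq2 (vv x) (pNT (vv 2) (vv 3) (k5 a b 0)) (vv y) (ad (ml (kk 6) (vv 2)) (kk 1)))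
      (orT (eq2 (vv x) (pNT (vv 2) (vv 3) (k5 a b 4)) (vv y) (ad (ml (kk 6) (vv 3)) (kk 1)))
      (orT (exF fun i : Fin 5 => exF fun j : Fin 5 => gT (j.1 = i.1 + 1)
        (eq2 (vv x) (pNT (vv 2) (vv 3) (k5 a b i)) (vv y) (pNT (vv 2) (vv 3) (k5 a b j))))
      (orT (exF fun j : Fin 4 => gT (j ≠ Lc a b 2 ∧ j ≠ Rc a b 2)
        (eq2 (vv x) (pNT (vv 2) (vv 3) (k5 a b 2)) (vv y) (kk (6 * j.1))))
      (exF fun i : Fin 5 => exF fun d : Fin 3 => gT (i ≠ 2 ∧ d.castSucc ≠ Lc a b i ∧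
        d.castSucc ≠ Rc a b i) (eq2 (vv x) (bNT (vv 2) (vv 3) (k5 a b i * 3 + d.1)) (vv y)
        (pNT (vv 2) (vv 3) (k5 a b i)))))))))))  <|
  exT (bBT X C c) (exT (bBT X C c) (andT (andT (vVT X C c 4 2) (vVT X C c 4 3))
    (exF fun a : Fin 3 => exF fun b : Fin 3 => exF fun i : Fin 5 => exF fun d : Fin 3 =>
      exF fun j : Fin 4 => gT (j ≠ d.castSucc) (eq2 (vv x)
        (bNT (vv 2) (vv 3) (k5 a b i * 3 + d.1)) (vv y) (kk (6 * j.1))))))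

theorem tr_edT {w : List Sym} {en : ℕ → ℕ} {x y : ℕ} (hx : x < 2) (hy : y < 2) :
    tr w 2 en (edT X C c x y) ↔
      edN (X.bB (sz C c w)) (Prg.vV (sz C c w * X.cc) (vR X (sz C c w)))
        (fun u => ∃ r, vR X (sz C c w) r ∧ u = 5 * r + 1)
        (Prg.fbN (sz C c w * X.cc) (vR X (sz C c w)) (X.insN (sz C c w) w)) 11 (en x) (en y) := by
  have hx2 : x ≠ 2 := by omega
  have hx3 : x ≠ 3 := by omega
  have hy2 : y ≠ 2 := by omega
  have hy3 : y ≠ 3 := by omega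
  unfold edT edN
  simp only [tr_or, tr_exF, tr_gT, tr_eq2, tr_ex, tr_and, tr_eq, Tm.eval, eval_pNT, eval_bNT,
    eval_bBT, update_self, update_of_ne hx2, update_of_ne hx3, update_of_ne hy2, update_of_ne hy3,
    update_of_ne (show (2 : ℕ) ≠ 3 by decide), Nat.reduceAdd, tr_fbT,
    tr_vVT X C c (show (2 : ℕ) ≠ 3 by decide), tr_vVT X C c (show (2 : ℕ) ≠ 4 by decide),
    tr_vVT X C c (show (3 : ℕ) ≠ 4 by decide), tr_vbT X C c (show (2 : ℕ) ≠ 3 by decide)]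

end Sweep

end Pool.Agent.Helper69.Mix
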