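import Mathlib
import Pool.Agent.Helper69.Mix.DecA
import Pool.Agent.Helper69.Mix.MixTm
import Pool.Agent.Helper69.Mix.MixDefs

/-!
# The programs deciding colour mixing
-/

namespace Pool.Agent.Helper69.Mix.Dec

open Function Helper69 Pool.Agent.Helper73.Mix

/-- Number of bits. -/
def mm (k n : ℕ) : ℕ := (n * k + 1) * (n * k + 2)

/-- The bits stored in a word. -/
def vb (v : Word) (n : ℕ) (i : ℕ) : Bool := decide (v[1 + n * n + i]? = some (some true))
/-- The slots stored in a word. -/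
def vs (k : ℕ) (v : Word) (n : ℕ) (i : ℕ) : Bool :=
  decide (v[1 + n * n + mm k n + i]? = some (some true))

variable (k : ℕ)

/-- number of bits -/
def MT : Tm := ml (ad (ml (vv 0) (kk k)) (kk 1)) (ad (ml (vv 0) (kk k)) (kk 2))
/-- a bit -/
def bT (i : Tm) : Tm := .sym (some true) (ad (ad (kk 1) (ml (vv 0) (vv 0))) i)
/-- a slot -/
def sT (i : Tm) : Tm := .sym (some true) (ad (ad (ad (kk 1) (ml (vv 0) (vv 0))) (MT k)) i)
/-- a quantifier -/
def QT (m : ℕ) (i : Tm) : Tm :=
  orT (ltT i (ml (kk 2) (ad (ml (vv 0) (kk k)) (kk 1))))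
    (exT (ad i (kk 1)) (eqT i (ad (ml (vv m) (ad (ml (vv 0) (kk k)) (kk 1))) (ml (vv 0) (kk k)))))
/-- equivalence -/
def iffT (a b : Tm) : Tm := orT (andT a b) (andT (notT a) (notT b))

section
variable {k} {v : Word} {m : ℕ} {e : ℕ → ℕ}

@[simp] theorem eval_MT : (MT k).eval v m e = mm k (e 0) := rfl

@[simp] theorem tr_bT {i : Tm} : tr v m e (bT i) ↔ vb v (e 0) (i.eval v m e) = true := by
  rw [bT, tr_sym, vb, decide_eq_true_iff]
  rfl

@[simp] theorem tr_sT {i : Tm} : tr v m e (sT k i) ↔ vs k v (e 0) (i.eval v m e) = true := by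
  rw [sT, tr_sym, vs, decide_eq_true_iff]
  rfl

@[simp] theorem tr_iffT {a b : Tm} : tr v m e (iffT a b) ↔ (tr v m e a ↔ tr v m e b) := by
  rw [iffT, tr_or, tr_and, tr_and, tr_not, tr_not]
  tauto

theorem tr_QT {i : ℕ} (hm : 1 ≤ m) (hi : i < m) :
    tr v m e (QT k m (vv i)) ↔ QM (e 0) k (e i) = true := by
  have h1 : i ≠ m := by omega
  have h2 : (0 : ℕ) ≠ m := by omega
  rw [QM_iff, QT, tr_or, tr_lt, tr_ex]
  simp [Tm.eval, h1, h2]

end

/-- all higher bits are true -/
def abT (m : ℕ) (i : ℕ) : Tm :=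
  notT (exT (MT k) (andT (ltT (vv i) (vv m)) (notT (bT (vv m)))))

/-- no mismatch between `lo` and `hi` -/
def okT (m : ℕ) (lo hi : Tm) : Tm :=
  notT (exT (MT k) (andT (notT (ltT (vv m) lo)) (andT (ltT (vv m) hi)
    (notT (iffT (sT k (vv m)) (QT k (m + 1) (vv m)))))))

/-- the value of level `lo`; `lf` is the value of the leaf -/
def valT (lf : Tm) (m : ℕ) (lo : Tm) : Tm :=
  orT (exT (MT k) (andT (notT (ltT (vv m) lo)) (andT (sT k (vv m))
    (andT (notT (QT k (m + 1) (vv m))) (okT k (m + 1) lo (vv m))))))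
    (andT (okT k m lo (MT k)) lf)

section
variable {k} {v : Word} {m : ℕ} {e : ℕ → ℕ}

theorem tr_abT {i : ℕ} (hm : 1 ≤ m) (hi : i < m) :
    tr v m e (abT k m i) ↔ Abv (mm k (e 0)) (vb v (e 0)) (e i) := by
  have h1 : i ≠ m := by omega
  have h2 : (0 : ℕ) ≠ m := by omega
  simp [abT, Abv, Tm.eval, h1, h2]

theorem tr_okT {lo hi : Tm} {l h : ℕ} (hm : 1 ≤ m)
    (hlo : ∀ m' e', (∀ i < m, e' i = e i) → lo.eval v m' e' = l)
    (hhi : ∀ m' e', (∀ i < m, e' i = e i) → hi.eval v m' e' = h) :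
    tr v m e (okT k m lo hi) ↔ ¬ ∃ i' < mm k (e 0), ¬ i' < l ∧ i' < h ∧
      ¬ (vs k v (e 0) i' = true ↔ QM (e 0) k i' = true) := by
  have h2 : (0 : ℕ) ≠ m := by omega
  rw [okT, tr_not, tr_ex]
  refine not_congr (exists_congr fun i' => and_congr (by simp) ?_)
  have hu : ∀ i < m, update e m i' i = e i := fun i hi => update_of_ne (by omega) _ _
  rw [tr_and, tr_not, tr_lt, tr_and, tr_lt, tr_not, tr_iffT, tr_sT,
    tr_QT (by omega) (by omega), hlo _ _ hu, hhi _ _ hu]
  simp [Tm.eval, h2]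

theorem tr_valT {lf : Tm} {lo : Tm} {l : ℕ} {leaf : (ℕ → Bool) → Bool} (hm : 1 ≤ m)
    (hlo : ∀ m' e', (∀ i < m, e' i = e i) → lo.eval v m' e' = l)
    (hlf : tr v m e lf ↔ leaf (vb v (e 0)) = true) :
    tr v m e (valT k lf m lo) ↔
      val (mm k (e 0)) (QM (e 0) k) leaf (vb v (e 0)) (vs k v (e 0)) l = true := by
  have h2 : (0 : ℕ) ≠ m := by omega
  rw [val_iff, valT, tr_or, tr_ex, tr_and, hlf]
  refine or_congr ?_ (and_congr ?_ Iff.rfl)
  · refine exists_congr fun i => and_congr (by simp) ?_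
    have hu : ∀ j < m, update e m i j = e j := fun j hj => update_of_ne (by omega) _ _
    rw [tr_and, tr_not, tr_lt, hlo _ _ hu, tr_and, tr_sT, tr_and, tr_not,
      tr_QT (by omega) (by omega)]
    rw [tr_okT (l := l) (h := i) (by omega)
      (fun m' e' he' => hlo m' e' (fun j hj => by rw [he' j (by omega), hu j hj]))
      (fun m' e' he' => by rw [Tm.eval, he' m (by omega), update_self])]
    simp [Tm.eval, h2]
  · rw [tr_okT (l := l) (h := mm k (e 0)) hm hlo
      (fun m' e' he' => by rw [eval_MT, he' 0 (by omega)])]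

end

/-- emit a truth value -/
def emB (t : Tm) : Em := .ite t (.emit (some true)) (.emit (some false))

open Classical in
theorem run_emB {v : Word} {m : ℕ} {e : ℕ → ℕ} {t : Tm} :
    (emB t).run v m e = [some (decide (tr v m e t))] := by
  rw [emB, Em.run]
  by_cases h : t.eval v m e = 0
  · simp [h, tr, Em.run]
  · simp [h, tr, Em.run]

/-- the condition that the bit in variable 1 is changed to true; level 2 -/
def cT : Tm := andT (notT (bT (vv 1))) (abT k 2 1)

/-- new bit, level 2 -/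
def nbT : Tm := orT (cT k) (andT (bT (vv 1)) (notT (abT k 2 1)))

/-- new slot, level 2 -/
def nsT (lf : Tm) : Tm :=
  orT (andT (cT k) (valT k lf 2 (ad (vv 1) (kk 1)))) (andT (notT (cT k)) (sT k (vv 1)))

/-- body of the step program, at level 1 -/
def body (lf : Tm) : Em :=
  .ite (exT (MT k) (notT (bT (vv 1))))
    (.seq (.emit none) (.seq (.loop (ml (vv 0) (vv 0)) (emB (.sym (some true) (ad (kk 1) (vv 1)))))
      (.seq (.loop (MT k) (emB (nbT k))) (.loop (MT k) (emB (nsT k lf))))))
    (emB (valT k lf 1 (kk 0)))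

/-- Length of a state. -/
def ln (n : ℕ) : ℕ := 1 + n * n + 2 * mm k n

/-- number of vertices, for a state -/
def nT : ℕ → Tm := fun m => .sum .len (.sub (kk 1) (.sub
  (ad (ad (kk 1) (ml (ad (vv m) (kk 1)) (ad (vv m) (kk 1)))) (ml (kk 2)
    (ml (ad (ml (ad (vv m) (kk 1)) (kk k)) (kk 1)) (ad (ml (ad (vv m) (kk 1)) (kk k)) (kk 2)))))
  .len))

/-- number of vertices, for an input -/
def n0T : ℕ → Tm := fun m => .sum .len (.sub (kk 1) (.sub
  (ml (ad (vv m) (kk 1)) (ad (vv m) (kk 1))) .len))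

/-- Counting. -/
theorem cnt (f : ℕ → ℕ) (hf : StrictMono f) (L : ℕ) (hL : ∀ x, x < f x) :
    ∃ m ≤ L, (∀ x, f x ≤ L ↔ x < m) ∧ ∑ x ∈ Finset.range L, (1 - (f x - L)) = m := by
  classical
  have hex : ∃ x, L < f x := ⟨L, hL L⟩
  have hm : ∀ x, f x ≤ L ↔ x < Nat.find hex := by
    intro x
    constructor
    · intro h
      by_contra hx
      have h1 := hf.monotone (not_lt.mp hx)
      have h2 := Nat.find_spec hex
      omega
    · intro h
      have := Nat.find_min hex h
      omega
  have hle : Nat.find hex ≤ L := Nat.find_min' hex (hL L)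
  refine ⟨Nat.find hex, hle, hm, ?_⟩
  have h1 : ∀ x, 1 - (f x - L) = if x < Nat.find hex then 1 else 0 := by
    intro x
    by_cases h : f x ≤ L
    · rw [if_pos ((hm x).mp h)]
      omega
    · rw [if_neg (fun h' => h ((hm x).mpr h'))]
      omega
  simp only [h1]
  rw [← Finset.sum_filter]
  have h2 : Finset.filter (fun x => x < Nat.find hex) (Finset.range L) =
      Finset.range (Nat.find hex) := by
    ext x
    simp only [Finset.mem_filter, Finset.mem_range]
    omega
  rw [h2]
  simp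

theorem ln_mono : StrictMono fun x => ln k (x + 1) := by
  apply strictMono_nat_of_lt_succ
  intro n
  simp only [ln, mm]
  have h1 : (n + 1) * k ≤ (n + 1 + 1) * k := Nat.mul_le_mul_right k (by omega)
  have h2 : ((n + 1) * k + 1) * ((n + 1) * k + 2) ≤
      ((n + 1 + 1) * k + 1) * ((n + 1 + 1) * k + 2) :=
    Nat.mul_le_mul (by omega) (by omega)
  nlinarith

theorem ln_gt (x : ℕ) : x < ln k (x + 1) := by
  simp only [ln]
  nlinarith

/-- The number of vertices read off a word. -/
theorem nT_val (v : Word) : ∃ n ≤ v.length, (∀ x, ln k (x + 1) ≤ v.length ↔ x < n) ∧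
    ∀ m e, Val v m e (nT k) n := by
  obtain ⟨n, h1, h2, h3⟩ := cnt _ (ln_mono k) v.length (ln_gt k)
  refine ⟨n, h1, h2, ?_⟩
  intro m e m' _ e' _
  rw [nT, Tm.eval]
  simp only [Tm.eval, update_self]
  exact h3

theorem n0T_val (v : Word) : ∃ n ≤ v.length, (∀ x, (x + 1) * (x + 1) ≤ v.length ↔ x < n) ∧
    ∀ m e, Val v m e n0T n := by
  obtain ⟨n, h1, h2, h3⟩ := cnt (fun x => (x + 1) * (x + 1)) (by
    apply strictMono_nat_of_lt_succ
    intro n
    nlinarith) v.length (by intro x; nlinarith)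
  refine ⟨n, h1, h2, ?_⟩
  intro m e m' _ e' _
  rw [n0T, Tm.eval]
  simp only [Tm.eval, update_self]
  exact h3

/-- A state. -/
def enc (n : ℕ) (A b sl : ℕ → Bool) : Word :=
  none :: ((List.range (n * n)).map (fun i => some (A i)) ++
    ((List.range (mm k n)).map (fun i => some (b i)) ++
      (List.range (mm k n)).map (fun i => some (sl i))))

section
variable {k} {n : ℕ} {A b sl : ℕ → Bool}

theorem enc_length : (enc k n A b sl).length = ln k n := by
  simp only [enc, ln, List.length_cons, List.length_append, List.length_map, List.length_range]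
  ring

theorem enc_A {i : ℕ} (hi : i < n * n) : (enc k n A b sl)[1 + i]? = some (some (A i)) := by
  rw [enc, Nat.add_comm, List.getElem?_cons_succ, List.getElem?_append_left (by simpa using hi)]
  simp [hi]

theorem enc_b {i : ℕ} (hi : i < mm k n) :
    (enc k n A b sl)[1 + n * n + i]? = some (some (b i)) := by
  have e : 1 + n * n + i = (n * n + i) + 1 := by ring
  rw [enc, e, List.getElem?_cons_succ, List.getElem?_append_right (by simp),
    List.getElem?_append_left (by simp; omega)]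
  simp [hi]

theorem enc_s {i : ℕ} (hi : i < mm k n) :
    (enc k n A b sl)[1 + n * n + mm k n + i]? = some (some (sl i)) := by
  have e : 1 + n * n + mm k n + i = (n * n + (mm k n + i)) + 1 := by ring
  rw [enc, e, List.getElem?_cons_succ, List.getElem?_append_right (by simp),
    List.getElem?_append_right (by simp)]
  simp [hi]

theorem vb_enc {i : ℕ} (hi : i < mm k n) : vb (enc k n A b sl) n i = b i := by
  rw [vb, enc_b hi]
  simp

theorem vs_enc {i : ℕ} (hi : i < mm k n) : vs k (enc k n A b sl) n i = sl i := by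
  rw [vs, enc_s hi]
  simp

theorem enc_n (n' : ℕ) (h : ∀ x, ln k (x + 1) ≤ (enc k n A b sl).length ↔ x < n') : n' = n := by
  rw [enc_length] at h
  have hm := ln_mono k
  rcases lt_trichotomy n' n with h1 | h1 | h1
  · exfalso
    obtain ⟨m, rfl⟩ : ∃ m, n = m + 1 := ⟨n - 1, by omega⟩
    have := (h m).mp le_rfl
    omega
  · exact h1
  · exfalso
    have h2 := (h n).mpr h1
    have h3 : ln k n < ln k (n + 1) := by
      rcases Nat.eq_zero_or_pos n with h0 | h0
      · subst h0
        simp only [ln, mm]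
        nlinarith
      · obtain ⟨m, rfl⟩ : ∃ m, n = m + 1 := ⟨n - 1, by omega⟩
        exact hm (show m < m + 1 by omega)
    omega

end

end Pool.Agent.Helper69.Mix.Dec
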