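import Mathlib
import Pool.Agent.Helper69.Mix.Col3

/-!
# Simulating changes of variables by recolourings
-/

namespace Pool.Agent.Helper69.Mix

open Function

variable {I : Csp}

/-- The hubs have the standard colours. -/
def Std (γ : Vx I.V → Fin 4) : Prop := ∀ j, γ (.h j) = j

/-- Reading a value. -/
def dn : Fin 4 → Fin 3 := ![0, 1, 2, 2]

theorem dn_castSucc (c : Fin 3) : dn c.castSucc = c := by
  revert c
  decide

theorem castSucc_dn {x : Fin 4} (h : x ≠ 3) : (dn x).castSucc = x := by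
  revert x
  decide

/-- The assignment read off a colouring. -/
def asg (γ : Vx I.V → Fin 4) (u : I.V) : Fin 3 := dn (γ (.va u))

theorem va_ne3 {γ : Vx I.V → Fin 4} (hγ : Pr (gr I) γ) (hs : Std γ) (u : I.V) :
    γ (.va u) ≠ 3 := by
  have h := (pr_iff.mp hγ) _ _ (E.vh u 3 (Or.inl rfl))
  rwa [hs] at h

theorem asg_cast {γ : Vx I.V → Fin 4} (hγ : Pr (gr I) γ) (hs : Std γ) (u : I.V) :
    (asg γ u).castSucc = γ (.va u) := castSucc_dn (va_ne3 hγ hs u)

theorem bl_eq {γ : Vx I.V → Fin 4} (hγ : Pr (gr I) γ) (hs : Std γ) (u : I.V) (a : Fin 3)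
    (v : I.V) (b : Fin 3) (i : Fin 5) (c : Fin 3) : γ (.bl u a v b i c) = c.castSucc := by
  by_contra h
  have h1 := (pr_iff.mp hγ) _ _ (E.bh u a v b i c (γ (.bl u a v b i c)) h)
  rw [hs] at h1
  exact h1 rfl

theorem be_eq {γ : Vx I.V → Fin 4} (hγ : Pr (gr I) γ) (hs : Std γ) (c : Fin 3) :
    γ (.be c) = c.castSucc := by
  by_contra h
  have h1 := (pr_iff.mp hγ) _ _ (E.hb (γ (.be c)) c h)
  rw [hs] at h1
  exact h1 rfl

theorem LR_three (a b : Fin 3) : ∀ i : Fin 5, i ≠ 2 → Lc a b i = 3 ∨ Rc a b i = 3 := by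
  revert a b
  decide

theorem pa_mem {γ : Vx I.V → Fin 4} (hγ : Pr (gr I) γ) (hs : Std γ) {u : I.V} {a : Fin 3}
    {v : I.V} {b : Fin 3} (hf : I.forb u a v b) (i : Fin 5) :
    γ (.pa u a v b i) = Lc a b i ∨ γ (.pa u a v b i) = Rc a b i := by
  by_contra h
  push Not at h
  by_cases hi : i = 2
  · have h1 := (pr_iff.mp hγ) _ _ (E.ph u a v b i (γ (.pa u a v b i)) hf hi h.1 h.2)
    rw [hs] at h1
    exact h1 rfl
  · have h3 : γ (.pa u a v b i) ≠ 3 := by
      rcases LR_three a b i hi with h3 | h3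
      · rw [← h3]
        exact h.1
      · rw [← h3]
        exact h.2
    have h4 := castSucc_dn h3
    have h1 := (pr_iff.mp hγ) _ _ (E.bp u a v b i (dn (γ (.pa u a v b i))) hf hi
      (by rw [h4]; exact h.1) (by rw [h4]; exact h.2))
    rw [bl_eq hγ hs, h4] at h1
    exact h1 rfl

theorem L_succ (a b : Fin 3) : ∀ i j : Fin 5, j.val = i.val + 1 → Lc a b j = Rc a b i := by
  revert a b
  decide

theorem R_ne (a b : Fin 3) : ∀ i j : Fin 5, j.val = i.val + 1 →
    Rc a b i ≠ Rc a b j ∧ Lc a b i ≠ Rc a b j ∧ Lc a b i ≠ Lc a b j := by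
  revert a b
  decide

theorem L0 (a b : Fin 3) : Lc a b 0 = a.castSucc := rfl
theorem R0 (a b : Fin 3) : Rc a b 0 = 3 := rfl
theorem L4 (a b : Fin 3) : Lc a b 4 = 3 := rfl
theorem R4 (a b : Fin 3) : Rc a b 4 = b.castSucc := rfl

theorem asg_sol {γ : Vx I.V → Fin 4} (hγ : Pr (gr I) γ) (hs : Std γ) : I.Sol (asg γ) := by
  constructor
  · intro v hv h
    have h1 := (pr_iff.mp hγ) _ _ (E.vh v 2 (Or.inr ⟨rfl, hv⟩))
    rw [hs, ← asg_cast hγ hs, h] at h1
    exact h1 rfl
  · rintro u a v b hf ⟨h1, h2⟩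
    have e1 : γ (.va u) = a.castSucc := by rw [← asg_cast hγ hs, h1]
    have e2 : γ (.va v) = b.castSucc := by rw [← asg_cast hγ hs, h2]
    have p0 : γ (.pa u a v b 0) = Rc a b 0 := by
      rcases pa_mem hγ hs hf 0 with h | h
      · have := (pr_iff.mp hγ) _ _ (E.pu u a v b 0 u hf (Or.inl ⟨rfl, rfl⟩))
        rw [h, e1] at this
        exact absurd rfl this
      · exact h
    have step : ∀ i j : Fin 5, j.val = i.val + 1 → γ (.pa u a v b i) = Rc a b i →
        γ (.pa u a v b j) = Rc a b j := by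
      intro i j hij hi
      rcases pa_mem hγ hs hf j with h | h
      · have := (pr_iff.mp hγ) _ _ (E.pp u a v b i j hf hij)
        rw [h, hi, L_succ a b i j hij] at this
        exact absurd rfl this
      · exact h
    have p4 := step 3 4 rfl (step 2 3 rfl (step 1 2 rfl (step 0 1 rfl p0)))
    have := (pr_iff.mp hγ) _ _ (E.pu u a v b 4 v hf (Or.inr ⟨rfl, rfl⟩))
    rw [p4, e2] at this
    exact this rfl

/-- `γ'` is obtained from `γ` by recolouring and agrees with `γ` outside the path `u a v b`. -/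
def Fr (u : I.V) (a : Fin 3) (v : I.V) (b : Fin 3) (γ γ' : Vx I.V → Fin 4) : Prop :=
  Rch (gr I) γ γ' ∧ ∀ x, (∀ i, x ≠ .pa u a v b i) → γ' x = γ x

theorem Fr.std {u : I.V} {a : Fin 3} {v : I.V} {b : Fin 3} {γ γ' : Vx I.V → Fin 4}
    (h : Fr u a v b γ γ') (hs : Std γ) : Std γ' := by
  intro j
  rw [h.2 _ (by simp), hs j]

theorem toR {γ : Vx I.V → Fin 4} (hγ : Pr (gr I) γ) (hs : Std γ) {u : I.V} {a : Fin 3}
    {v : I.V} {b : Fin 3} (hf : I.forb u a v b) (hv : γ (.va v) ≠ b.castSucc) (m : ℕ)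
    (hm : m ≤ 5) : ∃ γ', Fr u a v b γ γ' ∧
      ∀ i : Fin 5, 5 - m ≤ i.val → γ' (.pa u a v b i) = Rc a b i := by
  classical
  induction m with
  | zero => exact ⟨γ, ⟨Rch.refl _, fun _ _ => rfl⟩, fun i hi => by omega⟩
  | succ m ih =>
    obtain ⟨γ₁, h1, h2⟩ := ih (by omega)
    have hγ₁ := h1.1.pr hγ
    have hs₁ := h1.std hs
    have hi : 5 - (m + 1) < 5 := by omega
    have hu : ∀ w, (gr I).Adj (.pa u a v b ⟨5 - (m + 1), hi⟩) w →
        γ₁ w ≠ Rc a b ⟨5 - (m + 1), hi⟩ := by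
      intro w hw
      rcases adj_pa hw with ⟨h3, rfl⟩ | ⟨h3, rfl⟩ | ⟨j, hj, rfl⟩ | ⟨j, hj, rfl⟩ |
        ⟨h3, j, rfl, h4, h5⟩ | ⟨c, rfl, h3, h4, h5⟩
      · rw [h3, R0]
        exact va_ne3 hγ₁ hs₁ u
      · rw [h3, R4, h1.2 _ (by simp)]
        exact hv
      · rw [h2 j (by simp at hj; omega)]
        exact (R_ne a b _ j hj).1.symm
      · rcases pa_mem hγ₁ hs₁ hf j with h6 | h6
        · rw [h6]
          exact (R_ne a b j _ hj).2.1
        · rw [h6]
          exact (R_ne a b j _ hj).1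
      · rw [h3, hs₁]
        exact h5
      · rw [bl_eq hγ₁ hs₁]
        exact h5
    refine ⟨update γ₁ (.pa u a v b ⟨5 - (m + 1), hi⟩) (Rc a b ⟨5 - (m + 1), hi⟩),
      ⟨h1.1.trans (Rch.upd hγ₁ _ _ hu), ?_⟩, ?_⟩
    · intro x hx
      rw [update_of_ne (hx _), h1.2 x hx]
    · intro i hi'
      by_cases he : i = ⟨5 - (m + 1), hi⟩
      · rw [he, update_self]
      · rw [update_of_ne (by simpa using he)]
        refine h2 i ?_
        have : i.val ≠ 5 - (m + 1) := fun h => he (Fin.ext h)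
        omega

theorem toL {γ : Vx I.V → Fin 4} (hγ : Pr (gr I) γ) (hs : Std γ) {u : I.V} {a : Fin 3}
    {v : I.V} {b : Fin 3} (hf : I.forb u a v b) (hv : γ (.va u) ≠ a.castSucc) (m : ℕ)
    (hm : m ≤ 5) : ∃ γ', Fr u a v b γ γ' ∧
      ∀ i : Fin 5, i.val < m → γ' (.pa u a v b i) = Lc a b i := by
  classical
  induction m with
  | zero => exact ⟨γ, ⟨Rch.refl _, fun _ _ => rfl⟩, fun i hi => by omega⟩
  | succ m ih =>
    obtain ⟨γ₁, h1, h2⟩ := ih (by omega)
    have hγ₁ := h1.1.pr hγ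
    have hs₁ := h1.std hs
    have hi : m < 5 := by omega
    have hu : ∀ w, (gr I).Adj (.pa u a v b ⟨m, hi⟩) w → γ₁ w ≠ Lc a b ⟨m, hi⟩ := by
      intro w hw
      rcases adj_pa hw with ⟨h3, rfl⟩ | ⟨h3, rfl⟩ | ⟨j, hj, rfl⟩ | ⟨j, hj, rfl⟩ |
        ⟨h3, j, rfl, h4, h5⟩ | ⟨c, rfl, h3, h4, h5⟩
      · rw [h3, L0, h1.2 _ (by simp)]
        exact hv
      · rw [h3, L4]
        exact va_ne3 hγ₁ hs₁ v
      · rcases pa_mem hγ₁ hs₁ hf j with h6 | h6
        · rw [h6]
          exact (R_ne a b _ j hj).2.2.symm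
        · rw [h6]
          exact (R_ne a b _ j hj).2.1.symm
      · rw [h2 j (by simp at hj; omega)]
        exact (R_ne a b j _ hj).2.2
      · rw [h3, hs₁]
        exact h4
      · rw [bl_eq hγ₁ hs₁]
        exact h4
    refine ⟨update γ₁ (.pa u a v b ⟨m, hi⟩) (Lc a b ⟨m, hi⟩),
      ⟨h1.1.trans (Rch.upd hγ₁ _ _ hu), ?_⟩, ?_⟩
    · intro x hx
      rw [update_of_ne (hx _), h1.2 x hx]
    · intro i hi'
      by_cases he : i = ⟨m, hi⟩
      · rw [he, update_self]
      · rw [update_of_ne (by simpa using he)]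
        refine h2 i ?_
        have : i.val ≠ m := fun h => he (Fin.ext h)
        omega

/-- Preparing the forbidding paths for the change of the variable `w` to the value `c`. -/
theorem prepare [Finite I.V] {γ : Vx I.V → Fin 4} (hγ : Pr (gr I) γ) (hs : Std γ) {w : I.V}
    {c : Fin 3} {y : I.V → Fin 3} (hy : I.Sol y) (hyw : y w = c)
    (hyγ : ∀ u, u ≠ w → y u = asg γ u) :
    ∃ γ', Rch (gr I) γ γ' ∧ (∀ x, (∀ u a v b i, x ≠ .pa u a v b i) → γ' x = γ x) ∧
      ∀ u a v b, I.forb u a v b → (u = w ∧ a = c → γ' (.pa u a v b 0) = 3) ∧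
        (v = w ∧ b = c → γ' (.pa u a v b 4) = 3) := by
  classical
  have := Fintype.ofFinite I.V
  have key : ∀ S : Finset (I.V × Fin 3 × I.V × Fin 3),
      ∃ γ', Rch (gr I) γ γ' ∧
        (∀ x, (∀ u a v b i, (u, a, v, b) ∈ S → x ≠ .pa u a v b i) → γ' x = γ x) ∧
        ∀ u a v b, (u, a, v, b) ∈ S → I.forb u a v b → (u = w ∧ a = c → γ' (.pa u a v b 0) = 3) ∧
          (v = w ∧ b = c → γ' (.pa u a v b 4) = 3) := by
    intro S
    induction S using Finset.induction_on with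
    | empty => exact ⟨γ, Rch.refl _, fun _ _ => rfl, fun u a v b h => by simp at h⟩
    | insert q S hq ih =>
      obtain ⟨u, a, v, b⟩ := q
      obtain ⟨γ₁, h1, h2, h3⟩ := ih
      have hγ₁ := h1.pr hγ
      have hva : ∀ z, γ₁ (.va z) = γ (.va z) := fun z => h2 _ (by simp)
      have hs₁ : Std γ₁ := fun j => by rw [h2 _ (by simp), hs j]
      -- it suffices to treat the new path
      have fin : ∀ γ₂ : Vx I.V → Fin 4, Fr u a v b γ₁ γ₂ →
          (I.forb u a v b → (u = w ∧ a = c → γ₂ (.pa u a v b 0) = 3) ∧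
            (v = w ∧ b = c → γ₂ (.pa u a v b 4) = 3)) →
          ∃ γ', Rch (gr I) γ γ' ∧
          (∀ x, (∀ u' a' v' b' i, (u', a', v', b') ∈ insert (u, a, v, b) S →
            x ≠ .pa u' a' v' b' i) → γ' x = γ x) ∧
          ∀ u' a' v' b', (u', a', v', b') ∈ insert (u, a, v, b) S → I.forb u' a' v' b' →
            (u' = w ∧ a' = c → γ' (.pa u' a' v' b' 0) = 3) ∧
            (v' = w ∧ b' = c → γ' (.pa u' a' v' b' 4) = 3) := by
        intro γ₂ hF hN
        refine ⟨γ₂, h1.trans hF.1, ?_, ?_⟩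
        · intro x hx
          rw [hF.2 x (fun i => hx u a v b i (Finset.mem_insert_self _ _))]
          exact h2 x (fun u' a' v' b' i hi => hx u' a' v' b' i (Finset.mem_insert_of_mem hi))
        · intro u' a' v' b' hmem hforb
          by_cases he : (u', a', v', b') = (u, a, v, b)
          · simp only [Prod.mk.injEq] at he
            obtain ⟨rfl, rfl, rfl, rfl⟩ := he
            exact hN hforb
          · have hm := (Finset.mem_insert.mp hmem).resolve_left he
            have hne : ∀ i j, (Vx.pa u' a' v' b' i : Vx I.V) ≠ .pa u a v b j := by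
              intro i j h
              simp only [Vx.pa.injEq] at h
              exact he (by simp [h])
            rw [hF.2 _ (hne 0), hF.2 _ (hne 4)]
            exact h3 u' a' v' b' hm hforb
      by_cases hf : I.forb u a v b
      · have huv := I.hne u a v b hf
        by_cases c1 : u = w ∧ a = c
        · have hvw : v ≠ w := fun h => huv (c1.1.trans h.symm)
          have hvb : γ₁ (.va v) ≠ b.castSucc := by
            intro h
            apply hy.2 u a v b hf
            refine ⟨by rw [c1.1, hyw, c1.2], ?_⟩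
            rw [hyγ v hvw, asg, ← hva, h, dn_castSucc]
          obtain ⟨γ₂, hF, hR⟩ := toR hγ₁ hs₁ hf hvb 5 le_rfl
          refine fin γ₂ hF (fun _ => ⟨fun _ => ?_, fun h => absurd h.1 hvw⟩)
          rw [hR 0 (by simp), R0]
        · by_cases c2 : v = w ∧ b = c
          · have huw : u ≠ w := fun h => huv (h.trans c2.1.symm)
            have hua : γ₁ (.va u) ≠ a.castSucc := by
              intro h
              apply hy.2 u a v b hf
              refine ⟨?_, by rw [c2.1, hyw, c2.2]⟩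
              rw [hyγ u huw, asg, ← hva, h, dn_castSucc]
            obtain ⟨γ₂, hF, hL⟩ := toL hγ₁ hs₁ hf hua 5 le_rfl
            refine fin γ₂ hF (fun _ => ⟨fun h => absurd h c1, fun _ => ?_⟩)
            rw [hL 4 (by simp), L4]
          · exact fin γ₁ ⟨Rch.refl _, fun _ _ => rfl⟩ (fun _ =>
              ⟨fun h => absurd h c1, fun h => absurd h c2⟩)
      · exact fin γ₁ ⟨Rch.refl _, fun _ _ => rfl⟩ (fun h => absurd h hf)
  obtain ⟨γ', h1, h2, h3⟩ := key Finset.univ
  exact ⟨γ', h1, fun x hx => h2 x (fun u a v b i _ => hx u a v b i),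
    fun u a v b => h3 u a v b (Finset.mem_univ _)⟩

theorem adj_va {u : I.V} {x : Vx I.V} (h : (gr I).Adj (.va u) x) :
    (∃ j, x = .h j ∧ (j = 3 ∨ (j = 2 ∧ I.bool u))) ∨ (x = .la3 ∧ u = I.t) ∨
    (∃ a v b, x = .pa u a v b 0 ∧ I.forb u a v b) ∨
    (∃ u' a b, x = .pa u' a u b 4 ∧ I.forb u' a u b) := by
  rcases adj_iff.mp h with h | h
  · cases h with
    | vh _ j h1 => exact Or.inl ⟨j, rfl, h1⟩
  · cases h with
    | l3t _ h1 => exact Or.inr (Or.inl ⟨rfl, h1⟩)
    | pu u' a v b i _ h1 h2 =>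
      rcases h2 with ⟨rfl, rfl⟩ | ⟨rfl, rfl⟩
      · exact Or.inr (Or.inr (Or.inl ⟨a, v, b, rfl, h1⟩))
      · exact Or.inr (Or.inr (Or.inr ⟨u', a, b, rfl, h1⟩))

/-- The colours of the hubs and of the lock do not change. -/
def Same (γ γ' : Vx I.V → Fin 4) : Prop :=
  (∀ j, γ' (.h j) = γ (.h j)) ∧ γ' .la0 = γ .la0 ∧ γ' .la1 = γ .la1 ∧ γ' .la2 = γ .la2 ∧
    γ' .la3 = γ .la3

theorem flip_sim [Finite I.V] {γ : Vx I.V → Fin 4} (hγ : Pr (gr I) γ) (hs : Std γ)
    (h3 : γ .la3 = 2) {y : I.V → Fin 3} (hfl : I.Flip (asg γ) y) :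
    ∃ γ', Rch (gr I) γ γ' ∧ Same γ γ' ∧ asg γ' = y := by
  classical
  obtain ⟨_, hy, w, hw⟩ := hfl
  obtain ⟨γ₁, h1, h2, h4⟩ := prepare hγ hs hy rfl (fun u hu => (hw u hu).symm)
  have hγ₁ := h1.pr hγ
  have hs₁ : Std γ₁ := fun j => by rw [h2 _ (by simp), hs j]
  have hu : ∀ x, (gr I).Adj (.va w) x → γ₁ x ≠ (y w).castSucc := by
    intro x hx
    rcases adj_va hx with ⟨j, rfl, hj⟩ | ⟨rfl, rfl⟩ | ⟨a, v, b, rfl, hf⟩ | ⟨u', a, b, rfl, hf⟩
    · rw [hs₁]
      rcases hj with rfl | ⟨rfl, hj⟩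
      · exact castSucc_ne3 _
      · intro h
        exact hy.1 w hj (by
          have := congrArg dn h
          rw [dn_castSucc] at this
          exact this.symm)
    · rw [h2 _ (by simp), h3]
      intro h
      exact hy.1 _ I.ht (by
        have := congrArg dn h
        rw [dn_castSucc] at this
        exact this.symm)
    · intro h
      rcases pa_mem hγ₁ hs₁ hf 0 with h5 | h5
      · rw [h5, L0] at h
        have ha : a = y w := Fin.castSucc_injective _ h
        have := (h4 _ _ _ _ hf).1 ⟨rfl, ha⟩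
        rw [h5, L0] at this
        exact castSucc_ne3 a this.symm
      · rw [h5, R0] at h
        exact castSucc_ne3 _ h
    · intro h
      rcases pa_mem hγ₁ hs₁ hf 4 with h5 | h5
      · rw [h5, L4] at h
        exact castSucc_ne3 _ h
      · rw [h5, R4] at h
        have hb : b = y w := Fin.castSucc_injective _ h
        have := (h4 _ _ _ _ hf).2 ⟨rfl, hb⟩
        rw [h5, R4] at this
        exact castSucc_ne3 b this.symm
  refine ⟨update γ₁ (.va w) (y w).castSucc, h1.trans (Rch.upd hγ₁ _ _ hu), ?_, ?_⟩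
  · refine ⟨fun j => ?_, ?_, ?_, ?_, ?_⟩
    · rw [update_of_ne (by simp), h2 _ (by simp)]
    · rw [update_of_ne (by simp), h2 _ (by simp)]
    · rw [update_of_ne (by simp), h2 _ (by simp)]
    · rw [update_of_ne (by simp), h2 _ (by simp)]
    · rw [update_of_ne (by simp), h2 _ (by simp)]
  · funext u
    by_cases h : u = w
    · subst h
      simp [asg, dn_castSucc]
    · rw [asg, update_of_ne (by simpa using h), h2 _ (by simp)]
      exact hw u h

theorem path_sim [Finite I.V] {x y : I.V → Fin 3} (h : Relation.ReflTransGen I.Flip x y)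
    {γ : Vx I.V → Fin 4} (hγ : Pr (gr I) γ) (hs : Std γ) (h3 : γ .la3 = 2) (hx : asg γ = x) :
    ∃ γ', Rch (gr I) γ γ' ∧ Same γ γ' ∧ asg γ' = y := by
  induction h with
  | refl => exact ⟨γ, Rch.refl _, ⟨fun _ => rfl, rfl, rfl, rfl, rfl⟩, hx⟩
  | tail _ hf ih =>
    obtain ⟨γ₁, h1, h2, h4⟩ := ih
    have hs₁ : Std γ₁ := fun j => by rw [h2.1 j, hs j]
    rw [← h4] at hf
    obtain ⟨γ₂, h5, h6, h7⟩ := flip_sim (h1.pr hγ) hs₁ (by rw [h2.2.2.2.2, h3]) hf
    exact ⟨γ₂, h1.trans h5, ⟨fun j => by rw [h6.1, h2.1], by rw [h6.2.1, h2.2.1],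
      by rw [h6.2.2.1, h2.2.2.1], by rw [h6.2.2.2.1, h2.2.2.2.1],
      by rw [h6.2.2.2.2, h2.2.2.2.2]⟩, h7⟩

/-- Every colouring can be transformed into one with monochromatic hubs. -/
theorem to_hubEq [Finite I.V] (hR : I.ReachAll) {γ : Vx I.V → Fin 4} (hγ : Pr (gr I) γ) :
    ∃ γ', Rch (gr I) γ γ' ∧ HubEq γ' := by
  by_cases hl : Locked γ
  · -- standard colours
    have hinj : Function.Injective (fun j => γ (.h j)) := by
      intro i j hij
      by_contra hne
      exact hl.1 i j hne hij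
    set σ : Equiv.Perm (Fin 4) := (Equiv.ofBijective _ (Finite.injective_iff_bijective.mp hinj)).symm
      with hσ
    have hσh : ∀ j, σ (γ (.h j)) = j := by
      intro j
      rw [hσ]
      exact Equiv.symm_apply_apply (Equiv.ofBijective _ (Finite.injective_iff_bijective.mp hinj)) j
    have hγ' : Pr (gr I) (σ ∘ γ) := hγ.comp σ.injective
    have hs : Std (σ ∘ γ) := hσh
    have h3 : (σ ∘ γ) .la3 = 2 := by
      rw [Function.comp_apply, hl.2.2.2.2.2, hσh]
    obtain ⟨y, hy, hyt⟩ := hR _ (asg_sol hγ' hs)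
    obtain ⟨γ₁, h4, h5, h6⟩ := path_sim hy hγ' hs h3 rfl
    have hnl : ¬ Locked γ₁ := by
      intro h
      have h7 := h.2.1
      rw [h5.1, hs, ← asg_cast (h4.pr hγ') (fun j => by rw [h5.1 j, hs j]), h6, hyt] at h7
      exact absurd h7 (by decide)
    obtain ⟨γ₂, h8, h9⟩ := unlock γ₁ (h4.pr hγ') hnl
    refine ⟨σ.symm ∘ γ₂, ?_, ?_⟩
    · have h10 := (h4.trans h8).comp σ.symm.injective
      rwa [← Function.comp_assoc, Equiv.symm_comp_self, Function.id_comp] at h10
    · intro j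
      simp only [Function.comp_apply]
      rw [h9 j]
  · exact unlock γ hγ hl

theorem mixing_of_reachAll [Finite I.V] (hR : I.ReachAll) : Mixing (Fin 4) (gr I) := by
  intro α β hα hβ
  obtain ⟨α', h1, h2⟩ := to_hubEq hR hα
  obtain ⟨β', h3, h4⟩ := to_hubEq hR hβ
  exact h1.trans ((hubEq_conn (h1.pr hα) (h3.pr hβ) h2 h4).trans h3.symm)

end Pool.Agent.Helper69.Mix
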