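import Mathlib
import Pool.Agent.Helper69.Mix.Sim

/-!
# If some solution cannot reach `t = 0`, the graph is not 4-mixing
-/

namespace Pool.Agent.Helper69.Mix

open Function

variable {I : Csp}

/-- Colourings that encode a solution which can be reached from `x₀`. -/
def Enc (I : Csp) (x₀ : I.V → Fin 3) (γ : Vx I.V → Fin 4) : Prop :=
  Std γ ∧ γ .la0 = 0 ∧ γ .la1 = 3 ∧ γ .la2 = 3 ∧ γ .la3 = 2 ∧
    ∃ y, Relation.ReflTransGen I.Flip x₀ y ∧ ∀ u, γ (.va u) = (y u).castSucc

theorem fin4_cases : ∀ j : Fin 4, j = 0 ∨ j = 1 ∨ j = 2 ∨ j = 3 := by decide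

theorem fin4_0 : ∀ x : Fin 4, x ≠ 1 → x ≠ 2 → x ≠ 3 → x = 0 := by decide
theorem fin4_1 : ∀ x : Fin 4, x ≠ 0 → x ≠ 2 → x ≠ 3 → x = 1 := by decide
theorem fin4_2 : ∀ x : Fin 4, x ≠ 0 → x ≠ 1 → x ≠ 3 → x = 2 := by decide
theorem fin4_3 : ∀ x : Fin 4, x ≠ 0 → x ≠ 1 → x ≠ 2 → x = 3 := by decide

theorem reach_sol {x y : I.V → Fin 3} (hx : I.Sol x) (h : Relation.ReflTransGen I.Flip x y) :
    I.Sol y := by
  induction h with
  | refl => exact hx
  | tail _ hf _ => exact hf.2.1

theorem Enc.step {x₀ : I.V → Fin 3} (hx₀ : I.Sol x₀)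
    (hno : ∀ y, Relation.ReflTransGen I.Flip x₀ y → y I.t ≠ 0) {γ δ : Vx I.V → Fin 4}
    (he : Enc I x₀ γ) (h : St (gr I) γ δ) : Enc I x₀ δ := by
  classical
  obtain ⟨hγ, hδ, v, hv⟩ := h
  obtain ⟨hs, h0, h1, h2, h3, y, hy, hya⟩ := he
  have hbe : ∀ c, γ (.be c) = c.castSucc := be_eq hγ hs
  have hyt : γ (.va I.t) = 1 := by
    have hys := reach_sol hx₀ hy
    have a1 := hys.1 I.t I.ht
    have a2 := hno y hy
    rw [hya]
    have : ∀ z : Fin 3, z ≠ 2 → z ≠ 0 → z.castSucc = 1 := by decide
    exact this _ a1 a2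
  have nb : ∀ {x z : Vx I.V}, E I x z → v = x → δ x ≠ γ z := by
    intro x z hE hvx h
    apply (pr_iff.mp hδ) _ _ hE
    rw [h, hv z (by rw [hvx]; exact hE.ne.symm)]
  have nb' : ∀ {x z : Vx I.V}, E I x z → v = z → δ z ≠ γ x := by
    intro x z hE hvz h
    apply (pr_iff.mp hδ) _ _ hE
    rw [h, hv x (by rw [hvz]; exact hE.ne)]
  have hs' : Std δ := by
    intro j
    by_cases hj : v = .h j
    · rcases fin4_cases j with rfl | rfl | rfl | rfl
      · apply fin4_0
        · have := nb' (E.hb 0 1 (by decide)) hj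
          rwa [hbe] at this
        · have := nb' (E.hb 0 2 (by decide)) hj
          rwa [hbe] at this
        · have := nb' (E.l1h 0 (Or.inl rfl)) hj
          rwa [h1] at this
      · apply fin4_1
        · have := nb' (E.hb 1 0 (by decide)) hj
          rwa [hbe] at this
        · have := nb' (E.hb 1 2 (by decide)) hj
          rwa [hbe] at this
        · have := nb' (E.l1h 1 (Or.inr rfl)) hj
          rwa [h1] at this
      · apply fin4_2
        · have := nb' (E.hb 2 0 (by decide)) hj
          rwa [hbe] at this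
        · have := nb' (E.hb 2 1 (by decide)) hj
          rwa [hbe] at this
        · have := nb' (E.l2h 2 (Or.inr rfl)) hj
          rwa [h2] at this
      · apply fin4_3
        · have := nb' (E.hb 3 0 (by decide)) hj
          rwa [hbe] at this
        · have := nb' (E.hb 3 1 (by decide)) hj
          rwa [hbe] at this
        · have := nb' (E.hb 3 2 (by decide)) hj
          rwa [hbe] at this
    · rw [← hv _ (Ne.symm hj), hs j]
  refine ⟨hs', ?_, ?_, ?_, ?_, asg δ, ?_, fun u => (asg_cast hδ hs' u).symm⟩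
  · by_cases hj : v = .la0
    · apply fin4_0
      · have := nb (E.l0h 1 rfl) hj
        rwa [hs] at this
      · have := nb E.l03 hj
        rwa [h3] at this
      · have := nb E.l02 hj
        rwa [h2] at this
    · rw [← hv _ (Ne.symm hj), h0]
  · by_cases hj : v = .la1
    · apply fin4_3
      · have := nb (E.l1h 0 (Or.inl rfl)) hj
        rwa [hs] at this
      · have := nb (E.l1h 1 (Or.inr rfl)) hj
        rwa [hs] at this
      · have := nb E.l13 hj
        rwa [h3] at this
    · rw [← hv _ (Ne.symm hj), h1]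
  · by_cases hj : v = .la2
    · apply fin4_3
      · have := nb' E.l02 hj
        rwa [h0] at this
      · have := nb (E.l2h 1 (Or.inl rfl)) hj
        rwa [hs] at this
      · have := nb (E.l2h 2 (Or.inr rfl)) hj
        rwa [hs] at this
    · rw [← hv _ (Ne.symm hj), h2]
  · by_cases hj : v = .la3
    · apply fin4_2
      · have := nb' E.l03 hj
        rwa [h0] at this
      · have := nb (E.l3t I.t rfl) hj
        rwa [hyt] at this
      · have := nb' E.l13 hj
        rwa [h1] at this
    · rw [← hv _ (Ne.symm hj), h3]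
  · refine hy.tail ⟨reach_sol hx₀ hy, asg_sol hδ hs', ?_⟩
    have hyu : ∀ u, v ≠ .va u → y u = asg δ u := by
      intro u hu
      rw [asg, ← hv _ (Ne.symm hu), hya, dn_castSucc]
    by_cases hu : ∃ u, v = .va u
    · obtain ⟨u, hu⟩ := hu
      refine ⟨u, fun w hw => hyu w ?_⟩
      rw [hu]
      simpa using hw.symm
    · push Not at hu
      exact ⟨I.t, fun w _ => hyu w (hu w)⟩

open Classical in
/-- A colouring that encodes a solution. -/
noncomputable def ext (I : Csp) (x : I.V → Fin 3) : Vx I.V → Fin 4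
  | .h j => j
  | .be c => c.castSucc
  | .la0 => 0
  | .la1 => 3
  | .la2 => 3
  | .la3 => 2
  | .va u => (x u).castSucc
  | .pa _ a v b i => if x v = b then Lc a b i else Rc a b i
  | .bl _ _ _ _ _ c => c.castSucc

theorem ext_pr {x : I.V → Fin 3} (hx : I.Sol x) : Pr (gr I) (ext I x) := by
  classical
  rw [pr_iff]
  intro z w h
  cases h with
  | hb j c h => exact h.symm
  | l0h j h => subst h; simp [ext]
  | l02 => simp [ext]
  | l03 => simp [ext]
  | l1h j h => rcases h with rfl | rfl <;> simp [ext]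
  | l13 => simp [ext]
  | l2h j h => rcases h with rfl | rfl <;> simp [ext]
  | l3t u h =>
    subst h
    simp only [ext]
    have := hx.1 I.t I.ht
    have key : ∀ z : Fin 3, z ≠ 2 → (2 : Fin 4) ≠ z.castSucc := by decide
    exact key _ this
  | vh u j h =>
    simp only [ext]
    rcases h with rfl | ⟨rfl, h⟩
    · exact (castSucc_ne3 _).symm
    · have key : ∀ z : Fin 3, z ≠ 2 → z.castSucc ≠ (2 : Fin 4) := by decide
      exact key _ (hx.1 u h)
  | pu u a v b i w h1 h2 =>
    simp only [ext]
    rcases h2 with ⟨rfl, rfl⟩ | ⟨rfl, rfl⟩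
    · split_ifs with h3
      · rw [L0]
        intro h
        exact hx.2 _ _ _ _ h1 ⟨(Fin.castSucc_injective _ h).symm, h3⟩
      · rw [R0]
        exact castSucc_ne3 _
    · split_ifs with h3
      · rw [L4]
        exact castSucc_ne3 _
      · rw [R4]
        intro h
        exact h3 (Fin.castSucc_injective _ h).symm
  | pp u a v b i j h1 h2 =>
    simp only [ext]
    split_ifs
    · exact (R_ne a b i j h2).2.2
    · exact (R_ne a b i j h2).1
  | ph u a v b i j h1 h2 h3 h4 =>
    simp only [ext]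
    split_ifs
    · exact h3.symm
    · exact h4.symm
  | bh u a v b i c j h => exact h.symm
  | bp u a v b i c h1 h2 h3 h4 =>
    simp only [ext]
    split_ifs
    · exact h3
    · exact h4

theorem not_mixing (h : ¬ I.ReachAll) : ¬ Mixing (Fin 4) (gr I) := by
  intro hm
  unfold Csp.ReachAll at h
  push Not at h
  obtain ⟨x₀, hx₀, hno⟩ := h
  have hp := ext_pr hx₀
  have he : Enc I x₀ (ext I x₀) :=
    ⟨fun _ => rfl, rfl, rfl, rfl, rfl, x₀, Relation.ReflTransGen.refl, fun _ => rfl⟩
  have hr := hm _ (Equiv.swap (0 : Fin 4) 1 ∘ ext I x₀) hp (hp.comp (Equiv.injective _))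
  have key : ∀ δ, Rch (gr I) (ext I x₀) δ → Enc I x₀ δ := by
    intro δ hδ
    induction hδ with
    | refl => exact he
    | tail _ hs ih => exact ih.step hx₀ hno hs
  have h1 := (key _ hr).1 0
  simp [ext] at h1

theorem mixing_iff [Finite I.V] : Mixing (Fin 4) (gr I) ↔ I.ReachAll :=
  ⟨fun h => by
    by_contra hn
    exact not_mixing hn h, mixing_of_reachAll⟩

end Pool.Agent.Helper69.Mix
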