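import Mathlib
import Pool.Agent.Helper69.Mix.MixDefs
import Pool.Agent.Helper69.Mix.Recol

/-!
# The two descriptions of mixing agree
-/

namespace Pool.Agent.Helper69.Mix

open Function

variable {V : Type} {k : ℕ} {G : SimpleGraph V}

theorem coloring_pr (α : G.Coloring (Fin k)) : Pr G (fun v => α v) := fun _ _ h => α.valid h

/-- A proper colouring as a function. -/
def toCol (α : V → Fin k) (h : Pr G α) : G.Coloring (Fin k) :=
  SimpleGraph.Coloring.mk α (fun {u v} huv => h u v huv)

theorem kMixing_iff : KMixing k G ↔ Mixing (Fin k) G := by
  classical
  constructor
  · intro h α β hα hβ
    obtain ⟨p⟩ := h (toCol α hα) (toCol β hβ)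
    have key : ∀ (x y : G.Coloring (Fin k)) (_ : (colouringGraph k G).Walk x y),
        Rch G (fun v => x v) (fun v => y v) := by
      intro x y p
      induction p with
      | nil => exact Rch.refl _
      | @cons x y z h _ ih =>
        refine Rch.trans (Rch.single ⟨coloring_pr x, coloring_pr y, ?_⟩) ih
        obtain ⟨v, _, hv⟩ := h
        refine ⟨v, fun w hw => ?_⟩
        by_contra hne
        exact hw (hv w hne)
    exact key _ _ p
  · intro h x y
    have h1 := h _ _ (coloring_pr x) (coloring_pr y)
    have key : ∀ (α : V → Fin k), Rch G (fun v => x v) α → ∀ z : G.Coloring (Fin k),
        (fun v => z v) = α → (colouringGraph k G).Reachable x z := by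
      intro α hα
      induction hα with
      | refl =>
        intro z hz
        have : z = x := by
          ext v
          exact congrArg Fin.val (congrFun hz v)
        rw [this]
      | @tail a b hab hs ih =>
        intro z hz
        have h2 := ih (toCol a hs.1) rfl
        by_cases hab' : a = b
        · have : z = toCol a hs.1 := by
            ext v
            exact congrArg Fin.val (congrFun (hz.trans hab'.symm) v)
          rw [this]
          exact h2
        · refine h2.trans (SimpleGraph.Adj.reachable ?_)
          obtain ⟨v, hv⟩ := hs.2.2
          have hne : a v ≠ b v := by
            intro he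
            apply hab'
            funext w
            by_cases hw : w = v
            · rw [hw, he]
            · exact hv w hw
          have hz' : ∀ w, z w = b w := fun w => congrFun hz w
          refine ⟨v, ?_, ?_⟩
          · change a v ≠ z v
            rw [hz']
            exact hne
          · intro w hw
            change a w ≠ z w at hw
            rw [hz'] at hw
            by_contra hwv
            exact hw (hv w hwv)
    exact key _ h1 y rfl

end Pool.Agent.Helper69.Mix
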