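import Mathlib
import Pool.Agent.Helper69.Mix.Recol
import Pool.Agent.Helper73.Mix.Join

/-!
# Numbering the vertices, adding isolated vertices and universal vertices
-/

namespace Pool.Agent.Helper69.Mix

open Function

section iso

variable {U W C : Type} {G : SimpleGraph U} {H : SimpleGraph W} {f : U → W}

/-- Edges of `H` are the images of the edges of `G`. -/
def Im (G : SimpleGraph U) (H : SimpleGraph W) (f : U → W) : Prop :=
  ∀ x y, H.Adj x y ↔ ∃ a b, f a = x ∧ f b = y ∧ G.Adj a b

theorem Im.pr (h : Im G H f) {γ : W → C} (hγ : Pr H γ) : Pr G (γ ∘ f) :=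
  fun a b hab => hγ _ _ ((h _ _).mpr ⟨a, b, rfl, rfl, hab⟩)

theorem Im.pr' (h : Im G H f) {γ : W → C} (hγ : Pr G (γ ∘ f)) : Pr H γ := by
  intro x y hxy
  obtain ⟨a, b, rfl, rfl, hab⟩ := (h _ _).mp hxy
  exact hγ a b hab

theorem Im.rch (h : Im G H f) (hf : Injective f) {γ γ' : W → C} (hr : Rch H γ γ') :
    Rch G (γ ∘ f) (γ' ∘ f) := by
  induction hr with
  | refl => exact Rch.refl _
  | tail _ h1 ih =>
    refine ih.trans ?_
    obtain ⟨h2, h3, v, hv⟩ := h1
    by_cases hvf : ∃ a, f a = v
    · obtain ⟨a, rfl⟩ := hvf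
      refine Rch.single ⟨h.pr h2, h.pr h3, a, fun w hw => hv _ (fun he => hw (hf he))⟩
    · have : (fun u => _) = (fun u => _) := funext fun u => hv (f u) (fun he => hvf ⟨u, he⟩)
      rw [Function.comp_def, Function.comp_def, this]
      exact Rch.refl _

theorem Im.agree [Finite W] (h : Im G H f) {γ δ : W → C} (hγ : Pr H γ)
    (hag : ∀ a, γ (f a) = δ (f a)) : Rch H γ δ := by
  classical
  have := Fintype.ofFinite W
  have hp : ∀ T : Finset W, Pr H (fun w => if w ∈ T then δ w else γ w) := by
    intro T
    apply h.pr'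
    have : (fun w => if w ∈ T then δ w else γ w) ∘ f = γ ∘ f := by
      funext a
      simp only [Function.comp_apply]
      split_ifs
      · exact (hag a).symm
      · rfl
    rw [this]
    exact h.pr hγ
  have key : ∀ T : Finset W, Rch H γ (fun w => if w ∈ T then δ w else γ w) := by
    intro T
    induction T using Finset.induction_on with
    | empty =>
      simp only [Finset.notMem_empty, if_false]
      exact Rch.refl _
    | insert v T hv ih =>
      refine ih.trans (Rch.single ⟨hp T, hp _, v, ?_⟩)
      intro w hw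
      simp [Finset.mem_insert, hw]
  have := key Finset.univ
  simpa using this

theorem Im.mixing_iff [Finite W] [Nonempty C] (h : Im G H f) (hf : Injective f) :
    Mixing C H ↔ Mixing C G := by
  classical
  constructor
  · intro hm α β hα hβ
    have key : ∀ α : U → C, Pr G α → ∃ γ : W → C, Pr H γ ∧ γ ∘ f = α := by
      intro α hα
      obtain ⟨c⟩ := ‹Nonempty C›
      refine ⟨fun w => if hw : ∃ a, f a = w then α hw.choose else c, ?_, ?_⟩
      · apply h.pr'
        have : (fun w => if hw : ∃ a, f a = w then α hw.choose else c) ∘ f = α := by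
          funext a
          have ha : ∃ b, f b = f a := ⟨a, rfl⟩
          simp only [Function.comp_apply, dif_pos ha]
          rw [hf ha.choose_spec]
        rw [this]
        exact hα
      · funext a
        have ha : ∃ b, f b = f a := ⟨a, rfl⟩
        simp only [Function.comp_apply, dif_pos ha]
        rw [hf ha.choose_spec]
    obtain ⟨γ, hγ, rfl⟩ := key α hα
    obtain ⟨δ, hδ, rfl⟩ := key β hβ
    exact h.rch hf (hm γ δ hγ hδ)
  · intro hm γ δ hγ hδ
    have h1 := hm _ _ (h.pr hγ) (h.pr hδ)
    have key : ∀ β : U → C, Rch G (γ ∘ f) β → ∃ γ' : W → C, Rch H γ γ' ∧ γ' ∘ f = β := by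
      intro β hβ
      induction hβ with
      | refl => exact ⟨γ, Rch.refl _, rfl⟩
      | @tail a b _ hs ih =>
        obtain ⟨γ', h2, h3⟩ := ih
        obtain ⟨ha, hb, v, hv⟩ := hs
        have e : update γ' (f v) (b v) ∘ f = b := by
          funext u
          by_cases hu : u = v
          · rw [hu, Function.comp_apply, update_self]
          · rw [Function.comp_apply, update_of_ne (fun he => hu (hf he))]
            rw [← hv u hu, ← h3]
            rfl
        refine ⟨update γ' (f v) (b v), h2.trans (Rch.single ⟨?_, ?_, f v, ?_⟩), e⟩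
        · exact h2.pr hγ
        · apply h.pr'
          rw [e]
          exact hb
        · intro w hw
          rw [update_of_ne hw]
    obtain ⟨γ', h2, h3⟩ := key _ h1
    refine h2.trans (h.agree (h2.pr hγ) ?_)
    intro a
    exact congrFun h3 a

end iso

/-- The graph on `N + r` vertices in which the last `r` vertices are universal and the first `N`
vertices carry the edges `E`, by means of the numbering `code`. -/
def numG {U : Type} (N r : ℕ) (code : U → ℕ) (E : U → U → Prop) : SimpleGraph (Fin (N + r)) where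
  Adj x y := x ≠ y ∧ (N ≤ x.1 ∨ N ≤ y.1 ∨ (∃ a b, E a b ∧ code a = x.1 ∧ code b = y.1) ∨
    ∃ a b, E a b ∧ code a = y.1 ∧ code b = x.1)
  symm := by
    constructor
    rintro x y ⟨h1, h2⟩
    refine ⟨h1.symm, ?_⟩
    rcases h2 with h | h | h | h
    · exact Or.inr (Or.inl h)
    · exact Or.inl h
    · exact Or.inr (Or.inr (Or.inr h))
    · exact Or.inr (Or.inr (Or.inl h))
  loopless := by
    constructor
    rintro x ⟨h, _⟩
    exact h rfl

/-- The part of `numG` without universal vertices. -/
def numG0 {U : Type} (N : ℕ) (code : U → ℕ) (E : U → U → Prop) : SimpleGraph (Fin N) :=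
  SimpleGraph.fromRel fun u v => ∃ a b, E a b ∧ code a = u.1 ∧ code b = v.1

theorem numG0_im {U : Type} {N : ℕ} {code : U → ℕ} (hinj : Injective code)
    (hN : ∀ a, code a < N) {E : U → U → Prop} :
    Im (SimpleGraph.fromRel E) (numG0 N code E) (fun a => ⟨code a, hN a⟩) := by
  intro x y
  rw [numG0, SimpleGraph.fromRel_adj]
  constructor
  · rintro ⟨hne, ⟨a, b, hE, ha, hb⟩ | ⟨a, b, hE, ha, hb⟩⟩
    · refine ⟨a, b, Fin.ext ha, Fin.ext hb, ?_⟩
      rw [SimpleGraph.fromRel_adj]
      refine ⟨?_, Or.inl hE⟩
      rintro rfl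
      exact hne (Fin.ext (ha.symm.trans hb))
    · refine ⟨b, a, Fin.ext hb, Fin.ext ha, ?_⟩
      rw [SimpleGraph.fromRel_adj]
      refine ⟨?_, Or.inr hE⟩
      rintro rfl
      exact hne (Fin.ext (hb.symm.trans ha))
  · rintro ⟨a, b, rfl, rfl, h⟩
    rw [SimpleGraph.fromRel_adj] at h
    refine ⟨?_, ?_⟩
    · intro he
      exact h.1 (hinj (congrArg Fin.val he))
    · rcases h.2 with h | h
      · exact Or.inl ⟨a, b, h, rfl, rfl⟩
      · exact Or.inr ⟨b, a, h, rfl, rfl⟩

/-- `numG` is the join of `numG0` with a complete graph. -/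
def numGIso {U : Type} (N r : ℕ) (code : U → ℕ) (E : U → U → Prop) :
    Pool.Agent.Helper73.Mix.J r (numG0 N code E) ≃g numG N r code E where
  toEquiv := finSumFinEquiv
  map_rel_iff' := by
    rintro (x | x) (y | y)
    · simp only [numG, numG0, Pool.Agent.Helper73.Mix.J, finSumFinEquiv_apply_left,
        SimpleGraph.fromRel_adj, Fin.val_castAdd, ne_eq, Fin.castAdd_inj]
      have hx := x.2
      have hy := y.2
      constructor
      · rintro ⟨h1, h2 | h2 | h2 | h2⟩
        · omega
        · omega
        · exact ⟨h1, Or.inl h2⟩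
        · exact ⟨h1, Or.inr h2⟩
      · rintro ⟨h1, h2 | h2⟩
        · exact ⟨h1, Or.inr (Or.inr (Or.inl h2))⟩
        · exact ⟨h1, Or.inr (Or.inr (Or.inr h2))⟩
    · simp only [numG, Pool.Agent.Helper73.Mix.J, finSumFinEquiv_apply_left,
        finSumFinEquiv_apply_right, Fin.val_castAdd, Fin.val_natAdd, ne_eq]
      have hx := x.2
      refine ⟨fun _ => trivial, fun _ => ⟨?_, Or.inr (Or.inl (by omega))⟩⟩
      intro h
      have := congrArg Fin.val h
      simp at this
      omega
    · simp only [numG, Pool.Agent.Helper73.Mix.J, finSumFinEquiv_apply_left,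
        finSumFinEquiv_apply_right, Fin.val_castAdd, Fin.val_natAdd, ne_eq]
      have hy := y.2
      refine ⟨fun _ => trivial, fun _ => ⟨?_, Or.inl (by omega)⟩⟩
      intro h
      have := congrArg Fin.val h
      simp at this
      omega
    · simp only [numG, Pool.Agent.Helper73.Mix.J, finSumFinEquiv_apply_right, Fin.val_natAdd,
        ne_eq, Fin.natAdd_inj]
      constructor
      · exact fun h => h.1
      · exact fun h => ⟨h, Or.inl (by omega)⟩

theorem mixing_numG {U : Type} {N r : ℕ} {code : U → ℕ} (hinj : Injective code)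
    (hN : ∀ a, code a < N) {E : U → U → Prop} (δ : U → Fin 3) (hδ : Pr (SimpleGraph.fromRel E) δ) :
    Mixing (Fin (4 + r)) (numG N r code E) ↔ Mixing (Fin 4) (SimpleGraph.fromRel E) := by
  classical
  have him := numG0_im hinj hN (E := E)
  have hf : Injective (fun a : U => (⟨code a, hN a⟩ : Fin N)) := by
    intro a b h
    exact hinj (congrArg Fin.val h)
  rw [← him.mixing_iff hf]
  have h3 : ∃ γ : Fin N → Fin 3, Pr (numG0 N code E) γ := by
    refine ⟨fun w => if hw : ∃ a : U, (⟨code a, hN a⟩ : Fin N) = w then δ hw.choose else 0, ?_⟩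
    apply him.pr'
    have : (fun w => if hw : ∃ a : U, (⟨code a, hN a⟩ : Fin N) = w then δ hw.choose else 0) ∘
        (fun a : U => (⟨code a, hN a⟩ : Fin N)) = δ := by
      funext a
      have ha : ∃ b : U, (⟨code b, hN b⟩ : Fin N) = ⟨code a, hN a⟩ := ⟨a, rfl⟩
      simp only [Function.comp_apply]
      rw [dif_pos ha]
      congr 1
      exact hf ha.choose_spec
    rw [this]
    exact hδ
  rw [← Pool.Agent.Helper73.Mix.mixing_J (r := r) h3]
  exact ⟨fun h => h.iso (numGIso N r code E).symm, fun h => h.iso (numGIso N r code E)⟩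

end Pool.Agent.Helper69.Mix
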