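import Mathlib
import Pool.Agent.Helper69.Mix.MixTm
import Pool.Agent.Helper69.Mix.MixEq
import Pool.Agent.Helper69.Mix.NumG
import Pool.Agent.Helper69.Mix.Hard

/-!
# The reduction from sweep systems to colour mixing
-/

namespace Pool.Agent.Helper69.Mix

open Function Helper69

theorem block_get {α : Type} (m : ℕ) (g : ℕ → List α) (hg : ∀ i, (g i).length = m) (n i j : ℕ)
    (hi : i < n) (hj : j < m) : ((List.range n).flatMap g)[i * m + j]? = (g i)[j]? := by
  have hlen : ∀ n, ((List.range n).flatMap g).length = n * m := by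
    intro n
    induction n with
    | zero => simp
    | succ n ih =>
      rw [List.range_succ, List.flatMap_append, List.length_append, ih]
      simp only [List.flatMap_cons, List.flatMap_nil, List.append_nil, hg]
      ring
  induction n with
  | zero => omega
  | succ n ih =>
    rw [List.range_succ, List.flatMap_append]
    rcases Nat.lt_succ_iff_lt_or_eq.mp hi with h | h
    · rw [List.getElem?_append_left]
      · exact ih h
      · rw [hlen]
        nlinarith
    · subst h
      rw [List.getElem?_append_right (by rw [hlen]; omega), hlen]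
      simp

open Classical in
/-- The encoding in terms of numbers. -/
theorem encG_eq {n : ℕ} (G : SimpleGraph (Fin n)) (A : ℕ → ℕ → Prop)
    (hA : ∀ u v : Fin n, A u v ↔ G.Adj u v) :
    encG G = (List.range n).flatMap fun u => (List.range n).map fun v => some (decide (A u v)) := by
  rw [encG, ← List.map_coe_finRange_eq_range, List.flatMap_map]
  apply List.flatMap_congr
  intro u _
  rw [List.map_map]
  apply List.map_congr_left
  intro v _
  simp only [Function.comp_apply]
  congr 1
  apply decide_eq_decide.mpr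
  exact (hA u v).symm

theorem encG_length {n : ℕ} (G : SimpleGraph (Fin n)) : (encG G).length = n * n := by
  simp [encG, List.length_flatMap]

theorem encG_inj {n : ℕ} {G H : SimpleGraph (Fin n)} (h : encG G = encG H) : G = H := by
  classical
  have key : ∀ (G : SimpleGraph (Fin n)) (u v : Fin n),
      (encG G)[u.1 * n + v.1]? = some (some (decide (G.Adj u v))) := by
    intro G u v
    rw [encG_eq G (fun a b => ∃ x y : Fin n, x.1 = a ∧ y.1 = b ∧ G.Adj x y) (by
      intro u v
      constructor
      · rintro ⟨x, y, hx, hy, h⟩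
        rwa [Fin.ext hx, Fin.ext hy] at h
      · intro h
        exact ⟨u, v, rfl, rfl, h⟩)]
    rw [block_get n _ (by simp) n u v u.2 v.2]
    rw [List.getElem?_map, List.getElem?_range v.2]
    simp only [Option.map_some, Option.some.injEq]
    apply decide_eq_decide.mpr
    constructor
    · rintro ⟨x, y, hx, hy, h⟩
      rwa [Fin.ext hx, Fin.ext hy] at h
    · intro h
      exact ⟨u, v, rfl, rfl, h⟩
  ext u v
  have h1 := key G u v
  rw [h, key H u v] at h1
  simp only [Option.some.injEq, decide_eq_decide] at h1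
  exact h1.symm

theorem mem_colourMixing {k n : ℕ} {G : SimpleGraph (Fin n)} :
    encG G ∈ ColourMixing k ↔ KMixing k G := by
  constructor
  · rintro ⟨m, H, h, hH⟩
    have h1 := congrArg List.length h
    rw [encG_length, encG_length] at h1
    have h2 : n = m := by nlinarith
    subst h2
    rw [encG_inj h]
    exact hH
  · intro h
    exact ⟨n, G, rfl, h⟩

instance finPV (P : Prg) [Finite P.R] : Finite P.PV := by
  have h : Injective (fun r : P.PV => match r with
    | .x p => (Sum.inl p : Fin (2 * P.L) ⊕ P.R ⊕ P.R)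
    | .z r => Sum.inr (Sum.inl r)
    | .lk r => Sum.inr (Sum.inr r)) := by
    intro x y hxy
    cases x <;> cases y <;> simp_all
  exact Finite.of_injective _ h

/-- Mixing of the graph of a program. -/
theorem mixing_prg (P : Prg) [Finite P.R] : Mixing (Fin 4) (gr P.csp.toCsp) ↔ ∀ Z, P.Halts 0 Z := by
  have h1 : Finite P.csp.V := inferInstanceAs (Finite P.PV)
  have h2 : Finite P.csp.K := inferInstanceAs (Finite (Fin P.L × Bool))
  have h3 : Finite P.csp.toCsp.V := inferInstanceAs (Finite (P.csp.V ⊕ P.csp.K))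
  rw [mixing_iff, Csp3.reachAll_iff, Prg.csp_iff]

namespace Sweep

variable (X : Sweep) (C c r : ℕ) [Nonempty X.A] [Nonempty X.B]

/-- number of non-universal vertices -/
noncomputable def NT : Tm := ml (kk 6) (pwT (ad (bBT X C c) (kk 200)) 4)

@[simp] theorem eval_NT {w : List Sym} {n : ℕ} {en : ℕ → ℕ} :
    (NT X C c).eval w n en = NX (X.bB (sz C c w)) := by
  simp [NT, NX, Tm.eval]

/-- adjacency formula, at level 2 -/
noncomputable def aT : Tm :=
  andT (notT (eqT (vv 0) (vv 1))) (orT (notT (ltT (vv 0) (NT X C c)))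
    (orT (notT (ltT (vv 1) (NT X C c))) (orT (edT X C c 0 1) (edT X C c 1 0))))

/-- the reduction -/
noncomputable def red : Em :=
  .loop (ad (NT X C c) (kk r)) (.loop (ad (NT X C c) (kk r))
    (.ite (aT X C c) (.emit (some true)) (.emit (some false))))

open Classical in
theorem out_red (w : List Sym) (A : ℕ → ℕ → Prop)
    (hA : ∀ x y, A x y ↔ tr w 2 (update (update (fun _ => 0) 0 x) 1 y) (aT X C c)) :
    (red X C c r).out w = (List.range (NX (X.bB (sz C c w)) + r)).flatMap fun x =>
      (List.range (NX (X.bB (sz C c w)) + r)).map fun y => some (decide (A x y)) := by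
  have hN : ∀ n e, (ad (NT X C c) (kk r)).eval w n e = NX (X.bB (sz C c w)) + r := by
    intro n e
    rw [Tm.eval, eval_NT]
    rfl
  rw [red, Em.out, Em.run, hN]
  apply List.flatMap_congr
  intro x _
  rw [Em.run, hN, ← List.flatMap_pure_eq_map]
  apply List.flatMap_congr
  intro y _
  rw [Em.run]
  by_cases h : A x y
  · have h1 := (hA x y).mp h
    rw [tr] at h1
    rw [if_neg h1]
    simp [Em.run, h]
  · have h1 := (not_congr (hA x y)).mp h
    rw [tr, not_not] at h1
    rw [if_pos h1]
    simp [Em.run, h]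

/-- The graph constructed for the input `w`. -/
noncomputable def graph {S : ℕ} (hS : 1 ≤ S) (w : List Sym) :
    SimpleGraph (Fin (NX (X.bB S) + r)) :=
  numG (NX (X.bB S)) r (cX ((X.prg S hS w).cW (cR : Rg X S → ℕ)))
    (E (X.prg S hS w).csp.toCsp)

theorem cnum {S : ℕ} (hS : 1 ≤ S) (w : List Sym) :
    CNum (X.prg S hS w).csp.toCsp ((X.prg S hS w).cW (cR : Rg X S → ℕ)) (X.bB S)
      (Prg.vV (S * X.cc) (vR X S)) (fun u => ∃ r, vR X S r ∧ u = 5 * r + 1)
      (Prg.fbN (S * X.cc) (vR X S) (X.insN S w)) := by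
  have H := X.num_prg hS w
  refine ⟨Prg.cW_inj H.inj, ?_, fun u => Prg.vV_iff H u, fun u => Prg.vb_iff H u,
    fun a b u v => Prg.fbN_iff H a b u v⟩
  intro x
  have hL : (X.prg S hS w).L = S * X.cc := rfl
  unfold bB
  rcases x with (x | x | x) | ⟨x, _ | _⟩
  · have := x.2
    simp only [Prg.cW]
    omega
  · have : cR (x : Rg X S) < rB X S := cR_lt (x : Rg X S)
    simp only [Prg.cW]
    omega
  · have : cR (x : Rg X S) < rB X S := cR_lt (x : Rg X S)
    simp only [Prg.cW]
    omega
  · have := x.2
    simp only [Prg.cW]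
    omega
  · have := x.2
    simp only [Prg.cW]
    omega

theorem red_graph (w : List Sym) (hS : 1 ≤ sz C c w) :
    (red X C c r).out w = encG (X.graph r hS w) := by
  classical
  have hE := edN_iff (X.cnum hS w)
  have ht : (X.prg (sz C c w) hS w).cW (cR : Rg X (sz C c w) → ℕ)
      (X.prg (sz C c w) hS w).csp.toCsp.t = 11 := rfl
  rw [ht] at hE
  rw [encG_eq (X.graph r hS w) (fun x y => tr w 2 (update (update (fun _ => 0) 0 x) 1 y)
    (aT X C c))]
  · exact X.out_red C c r w _ fun x y => Iff.rfl
  · intro u v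
    unfold aT
    simp only [tr_and, tr_not, tr_eq, tr_or, tr_lt, Tm.eval, eval_NT, update_self,
      update_of_ne (show (0 : ℕ) ≠ 1 by decide), tr_edT X C c (show 0 < 2 by decide)
      (show 1 < 2 by decide), tr_edT X C c (show 1 < 2 by decide) (show 0 < 2 by decide), hE]
    unfold graph numG
    simp only
    refine and_congr ?_ (or_congr ?_ (or_congr ?_ Iff.rfl))
    · rw [ne_eq, Fin.ext_iff]
    · rw [not_lt]
    · rw [not_lt]

theorem mixing_graph (w : List Sym) {S : ℕ} (hS : 1 ≤ S) :
    KMixing (4 + r) (X.graph r hS w) ↔ ∀ z, X.Acc S w z := by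
  have hfin : Finite (X.prg S hS w).R := rg_fin S
  have h1 := mixing_numG (r := r) (cX_inj (X.cnum hS w).inj)
    (fun a => cX_lt (X.cnum hS w).lt a) (E := E (X.prg S hS w).csp.toCsp)
    (col3 : Vx _ → Fin 3) col3_pr
  have h2 := mixing_prg (X.prg S hS w)
  exact kMixing_iff.trans (h1.trans (h2.trans (X.forall_halts_iff hS w)))

end Sweep

/-- Sweep systems reduce to colour mixing. -/
theorem reduces_of_sweep {L : Set Word} {X : Sweep} {C c : ℕ} (hC : 1 ≤ C)
    (hL : ∀ w : Word, w ∈ L ↔ ∀ z : X.A × (ℕ → X.B), X.Acc (C * (w.length + 1) ^ c) w z)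
    (r : ℕ) : PolyReduces L (ColourMixing (4 + r)) := by
  -- we may assume that the types are nonempty
  have key : ∀ (X : Sweep) (_ : Nonempty X.A) (_ : Nonempty X.B),
      (∀ w : Word, w ∈ L ↔ ∀ z : X.A × (ℕ → X.B), X.Acc (C * (w.length + 1) ^ c) w z) →
      PolyReduces L (ColourMixing (4 + r)) := by
    intro X _ _ hL
    refine ⟨(X.red C c r).out, em_poly _, ?_⟩
    intro w
    have hS : 1 ≤ Sweep.sz C c w := Nat.mul_pos hC (Nat.pow_pos (by omega))
    rw [X.red_graph C c r w hS, mem_colourMixing, X.mixing_graph]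
    exact hL w
  by_cases hA : Nonempty X.A
  · by_cases hB : Nonempty X.B
    · exact key X hA hB hL
    · refine key ⟨Unit, Unit, inferInstance, inferInstance, fun _ _ _ _ _ _ => ((), ()),
        fun _ => true⟩ ⟨()⟩ ⟨()⟩ ?_
      intro w
      rw [hL w]
      constructor
      · intro _ z
        exact ⟨0, rfl⟩
      · intro _ z
        exact absurd ⟨z.2 0⟩ hB
  · refine key ⟨Unit, Unit, inferInstance, inferInstance, fun _ _ _ _ _ _ => ((), ()),
      fun _ => true⟩ ⟨()⟩ ⟨()⟩ ?_
    intro w
    rw [hL w]
    constructor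
    · intro _ z
      exact ⟨0, rfl⟩
    · intro _ z
      exact absurd ⟨z.1⟩ hA

end Pool.Agent.Helper69.Mix
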