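import Mathlib
import Pool.Agent.Helper69.Mix.DecB
import Pool.Agent.Helper69.Mix.Reduce

/-!
# Running the programs deciding colour mixing
-/

namespace Pool.Agent.Helper69.Mix.Dec

open Function Helper69 Pool.Agent.Helper73.Mix

open Classical in
theorem run_loop_emB {v : Word} {m : ℕ} {e : ℕ → ℕ} {t f : Tm} :
    (Em.loop t (emB f)).run v m e = (List.range (t.eval v m e)).map
      fun i => some (decide (tr v (m + 1) (update e m i) f)) := by
  rw [Em.run, ← List.flatMap_pure_eq_map]
  apply List.flatMap_congr
  intro i _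
  rw [run_emB]
  rfl

variable (k : ℕ)

/-- the environment with variable 0 equal to `n` -/
def e0 (n : ℕ) : ℕ → ℕ := update (fun _ => 0) 0 n

@[simp] theorem e0_zero (n : ℕ) : e0 n 0 = n := by simp [e0]

section
variable {k} {v : Word} {n : ℕ} {leaf : (ℕ → Bool) → Bool} {lf : Tm}

theorem tr_cT (i : ℕ) : tr v 2 (update (e0 n) 1 i) (cT k) ↔
    ¬ vb v n i = true ∧ Abv (mm k n) (vb v n) i := by
  rw [cT, tr_and, tr_not, tr_bT, tr_abT (by omega) (by omega)]
  simp [Tm.eval, e0]

theorem tr_nbT (i : ℕ) : tr v 2 (update (e0 n) 1 i) (nbT k) ↔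
    (¬ vb v n i = true ∧ Abv (mm k n) (vb v n) i) ∨
      (vb v n i = true ∧ ¬ Abv (mm k n) (vb v n) i) := by
  rw [nbT, tr_or, tr_cT, tr_and, tr_not, tr_bT, tr_abT (by omega) (by omega)]
  simp [Tm.eval, e0]

theorem tr_nsT (hlf : ∀ m e, tr v m e lf ↔ leaf (vb v n) = true) (i : ℕ) :
    tr v 2 (update (e0 n) 1 i) (nsT k lf) ↔
    ((¬ vb v n i = true ∧ Abv (mm k n) (vb v n) i) ∧
      val (mm k n) (QM n k) leaf (vb v n) (vs k v n) (i + 1) = true) ∨
      (¬ (¬ vb v n i = true ∧ Abv (mm k n) (vb v n) i) ∧ vs k v n i = true) := by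
  have he : update (e0 n) 1 i 0 = n := by simp
  rw [nsT, tr_or, tr_and, tr_and, tr_cT, tr_not, tr_cT, tr_sT, tr_valT (l := i + 1)
    (leaf := leaf) (by omega) (by
      intro m' e' he'
      have h1 := he' 1 (by omega)
      rw [update_self] at h1
      simp [Tm.eval, h1]) (by rw [he]; exact hlf _ _), he]
  simp [Tm.eval]

open Classical in
/-- The output of the body. -/
theorem run_body (hlf : ∀ m e, tr v m e lf ↔ leaf (vb v n) = true) :
    (body k lf).run v 1 (e0 n) = if ∃ i < mm k n, ¬ vb v n i = true then
      none :: ((List.range (n * n)).map (fun i => some (decide (v[1 + i]? = some (some true)))) ++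
        ((List.range (mm k n)).map (fun i => some (decide
          ((¬ vb v n i = true ∧ Abv (mm k n) (vb v n) i) ∨
            (vb v n i = true ∧ ¬ Abv (mm k n) (vb v n) i)))) ++
        (List.range (mm k n)).map (fun i => some (decide
          (((¬ vb v n i = true ∧ Abv (mm k n) (vb v n) i) ∧
            val (mm k n) (QM n k) leaf (vb v n) (vs k v n) (i + 1) = true) ∨
          (¬ (¬ vb v n i = true ∧ Abv (mm k n) (vb v n) i) ∧ vs k v n i = true))))))
      else [some (val (mm k n) (QM n k) leaf (vb v n) (vs k v n) 0)] := by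
  have hc : tr v 1 (e0 n) (exT (MT k) (notT (bT (vv 1)))) ↔ ∃ i < mm k n, ¬ vb v n i = true := by
    rw [tr_ex]
    simp [Tm.eval]
  rw [body, Em.run]
  by_cases h : ∃ i < mm k n, ¬ vb v n i = true
  · have h1 := hc.mpr h
    rw [tr] at h1
    rw [if_neg h1, if_pos h, Em.run, Em.run, Em.run, Em.run, run_loop_emB, run_loop_emB,
      run_loop_emB]
    have e1 : (ml (vv 0) (vv 0)).eval v 1 (e0 n) = n * n := by simp [Tm.eval]
    have e2 : (MT k).eval v 1 (e0 n) = mm k n := by simp
    rw [e1, e2]
    simp only [List.cons_append, List.nil_append, Nat.reduceAdd]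
    congr 1
    congr 1
    · apply List.map_congr_left
      intro i _
      congr 1
      apply decide_eq_decide.mpr
      rw [tr_sym]
      simp [Tm.eval]
    · congr 1
      · apply List.map_congr_left
        intro i _
        congr 1
        apply decide_eq_decide.mpr
        exact tr_nbT i
      · apply List.map_congr_left
        intro i _
        congr 1
        apply decide_eq_decide.mpr
        exact tr_nsT hlf i
  · have h1 := (not_congr hc).mpr h
    rw [tr, not_not] at h1
    rw [if_pos h1, if_neg h, run_emB]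
    congr 2
    have h2 := tr_valT (k := k) (v := v) (e := e0 n) (m := 1) (lf := lf) (lo := kk 0) (l := 0)
      (leaf := leaf) le_rfl (fun _ _ _ => rfl) (by rw [e0_zero]; exact hlf _ _)
    rw [e0_zero] at h2
    rw [Bool.eq_iff_iff, decide_eq_true_iff]
    exact h2

end

/-- The step program; `lT` is a formula for the leaf. -/
def stpE (lT : Tm) : Em := letE 0 (nT k) (.ite lT (body k (kk 1)) (body k (kk 0)))

section
variable {k} {v : Word} {n : ℕ}

open Classical in
theorem run_stpE (lT : Tm) (hn : Val v 0 (fun _ => 0) (nT k) n) :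
    (stpE k lT).out v = if tr v 1 (e0 n) lT then (body k (kk 1)).run v 1 (e0 n) else
      (body k (kk 0)).run v 1 (e0 n) := by
  rw [Em.out, stpE, run_letE hn, Em.run]
  change (if Tm.eval v (0 + 1) (e0 n) lT = 0 then _ else _) = _
  by_cases h : lT.eval v 1 (e0 n) = 0
  · rw [if_pos h, if_neg (fun h' => h' h)]
    rfl
  · rw [if_neg h, if_pos (show tr v 1 (e0 n) lT from h)]
    rfl

theorem run_stpE' (lT : Tm) (hn : Val v 0 (fun _ => 0) (nT k) n) (leaf : (ℕ → Bool) → Bool)
    (hl : tr v 1 (e0 n) lT ↔ leaf (vb v n) = true) :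
    ∃ lf : Tm, (∀ m e, tr v m e lf ↔ leaf (vb v n) = true) ∧
      (stpE k lT).out v = (body k lf).run v 1 (e0 n) := by
  rw [run_stpE lT hn]
  by_cases h : tr v 1 (e0 n) lT
  · refine ⟨kk 1, ?_, by rw [if_pos h]⟩
    intro m e
    simp [tr, Tm.eval, hl.mp h]
  · refine ⟨kk 0, ?_, by rw [if_neg h]⟩
    intro m e
    have h1 : leaf (vb v n) = false := by
      rw [hl] at h
      simpa using h
    simp [tr, Tm.eval, h1]

theorem val_congr {M : ℕ} {Q : ℕ → Bool} {leaf : (ℕ → Bool) → Bool} {b b' sl sl' : ℕ → Bool}
    (hleaf : leaf b = leaf b') (hs : ∀ i < M, sl i = sl' i) (j : ℕ) :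
    val M Q leaf b sl j = val M Q leaf b' sl' j := by
  rw [Bool.eq_iff_iff, val_iff, val_iff, hleaf]
  refine or_congr ?_ (and_congr (not_congr ?_) Iff.rfl)
  · refine exists_congr fun i => and_congr_right fun hi => ?_
    rw [hs i hi]
    refine and_congr_right fun _ => and_congr_right fun _ => and_congr_right fun _ =>
      not_congr (exists_congr fun i' => and_congr_right fun hi' => ?_)
    rw [hs i' hi']
  · refine exists_congr fun i => and_congr_right fun hi => ?_
    rw [hs i hi]

theorem abv_congr {M : ℕ} {b b' : ℕ → Bool} (h : ∀ i < M, b i = b' i) (i : ℕ) :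
    Abv M b i ↔ Abv M b' i := by
  refine not_congr (exists_congr fun j => and_congr_right fun hj => ?_)
  rw [h j hj]

/-- The step program on states. -/
theorem stp_enc (lT : Tm) {A b sl : ℕ → Bool} {leaf : (ℕ → Bool) → Bool}
    (hcong : ∀ b b' : ℕ → Bool, (∀ i < mm k n, b i = b' i) → leaf b = leaf b')
    (hl : tr (enc k n A b sl) 1 (e0 n) lT ↔ leaf (vb (enc k n A b sl) n) = true) :
    ((∃ i < mm k n, b i = false) → (stpE k lT).out (enc k n A b sl) =
      enc k n A (stp (mm k n) (QM n k) leaf (b, sl)).1 (stp (mm k n) (QM n k) leaf (b, sl)).2) ∧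
    ((∀ i < mm k n, b i = true) → (stpE k lT).out (enc k n A b sl) =
      [some (val (mm k n) (QM n k) leaf b sl 0)]) := by
  classical
  obtain ⟨n', _, h1, h2⟩ := nT_val k (enc k n A b sl)
  obtain rfl := enc_n n' h1
  have hn := h2 0 (fun _ => 0)
  obtain ⟨lf, hlf, hrun⟩ := run_stpE' lT hn leaf hl
  rw [hrun, run_body hlf]
  have hb : ∀ i < mm k n', vb (enc k n' A b sl) n' i = b i := fun i hi => vb_enc hi
  have hs : ∀ i < mm k n', vs k (enc k n' A b sl) n' i = sl i := fun i hi => vs_enc hi
  have hleaf := hcong _ _ hb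
  have hex : (∃ i < mm k n', ¬ vb (enc k n' A b sl) n' i = true) ↔ ∃ i < mm k n', b i = false := by
    refine exists_congr fun i => and_congr_right fun hi => ?_
    rw [hb i hi]
    simp
  constructor
  · intro hne
    rw [if_pos (hex.mpr hne)]
    conv_rhs => rw [enc]
    congr 1
    congr 1
    · apply List.map_congr_left
      intro i hi
      rw [List.mem_range] at hi
      rw [enc_A hi]
      simp
    · congr 1
      · apply List.map_congr_left
        intro i hi
        rw [List.mem_range] at hi
        have h3 := (stp_iff (Q := QM n' k) (leaf := leaf) (sl := sl) hne i hi).1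
        rw [hb i hi, abv_congr hb]
        congr 1
        rw [Bool.eq_iff_iff, decide_eq_true_iff]
        exact h3.symm
      · apply List.map_congr_left
        intro i hi
        rw [List.mem_range] at hi
        have h3 := (stp_iff (Q := QM n' k) (leaf := leaf) (sl := sl) hne i hi).2
        rw [hb i hi, hs i hi, abv_congr hb, val_congr hleaf hs]
        congr 1
        rw [Bool.eq_iff_iff, decide_eq_true_iff]
        exact h3.symm
  · intro hall
    rw [if_neg (by
      rw [hex]
      rintro ⟨i, hi, h3⟩
      rw [hall i hi] at h3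
      exact absurd h3 (by decide)), val_congr hleaf hs]

/-- Lengths do not increase. -/
theorem stp_len (lT : Tm) (v : Word) : ((stpE k lT).out v).length ≤ max v.length 5 := by
  classical
  obtain ⟨n, _, h1, h2⟩ := nT_val k v
  have hn := h2 0 (fun _ => 0)
  obtain ⟨lf, hlf, hrun⟩ := run_stpE' lT hn (fun _ => decide (tr v 1 (e0 n) lT)) (by simp)
  rw [hrun, run_body (leaf := fun _ => decide (tr v 1 (e0 n) lT)) hlf]
  split_ifs
  · simp only [List.length_cons, List.length_append, List.length_map, List.length_range]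
    rcases Nat.eq_zero_or_pos n with h0 | h0
    · subst h0
      simp only [mm]
      omega
    · obtain ⟨m, rfl⟩ : ∃ m, n = m + 1 := ⟨n - 1, by omega⟩
      have h3 := (h1 m).mpr (by omega)
      unfold ln at h3
      omega
  · simp

end

/-- check whether the input encodes a graph; level 1 -/
def okw : Tm :=
  andT (eqT (ml (vv 0) (vv 0)) .len) (andT (notT (exT .len (.sym none (vv 1))))
    (andT (notT (exT (vv 0) (.sym (some true) (ad (ml (vv 1) (vv 0)) (vv 1)))))
      (notT (exT (vv 0) (exT (vv 0) (andT (.sym (some true) (ad (ml (vv 1) (vv 0)) (vv 2)))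
        (notT (.sym (some true) (ad (ml (vv 2) (vv 0)) (vv 1)))))))))) 

/-- the initial program -/
def iniE : Em :=
  letE 0 n0T (.ite okw (.seq (.emit none) (.seq (.loop (ml (vv 0) (vv 0))
    (emB (.sym (some true) (vv 1)))) (.seq (.loop (MT k) (emB (kk 0))) (.loop (MT k) (emB (kk 0))))))
    (.emit (some false)))

/-- The input encodes a graph on `n` vertices. -/
def Okw (w : Word) (n : ℕ) : Prop :=
  n * n = w.length ∧ (∀ i < w.length, w[i]? ≠ some none) ∧
    (∀ u < n, w[u * n + u]? ≠ some (some true)) ∧
    ∀ u < n, ∀ x < n, w[u * n + x]? = some (some true) → w[x * n + u]? = some (some true)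

theorem tr_okw {w : Word} {n : ℕ} : tr w 1 (e0 n) okw ↔ Okw w n := by
  simp [okw, Okw, tr_sym, Tm.eval]

theorem run_iniE (w : Word) : ∃ n ≤ w.length, (∀ x, (x + 1) * (x + 1) ≤ w.length ↔ x < n) ∧
    (Okw w n → (iniE k).out w = enc k n (fun i => decide (w[i]? = some (some true)))
      (fun _ => false) (fun _ => false)) ∧
    (¬ Okw w n → (iniE k).out w = [some false]) := by
  classical
  obtain ⟨n, h0, h1, h2⟩ := n0T_val w
  refine ⟨n, h0, h1, ?_⟩
  rw [Em.out, iniE, run_letE (h2 0 (fun _ => 0)), Em.run]
  change (_ → (if Tm.eval w 1 (e0 n) okw = 0 then _ else _) = _) ∧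
    (_ → (if Tm.eval w 1 (e0 n) okw = 0 then _ else _) = _)
  constructor
  · intro h
    have h3 := tr_okw.mpr h
    rw [if_neg h3, Em.run, Em.run, Em.run, Em.run, run_loop_emB, run_loop_emB]
    have e1 : (ml (vv 0) (vv 0)).eval w 1 (e0 n) = n * n := by simp [Tm.eval]
    have e2 : (MT k).eval w 1 (e0 n) = mm k n := by simp
    change [none] ++ (List.map _ (List.range ((ml (vv 0) (vv 0)).eval w 1 (e0 n))) ++
      (List.map _ (List.range ((MT k).eval w 1 (e0 n))) ++
      List.map _ (List.range ((MT k).eval w 1 (e0 n))))) = _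
    rw [e1, e2, enc, List.singleton_append]
    congr 1
    congr 1
    · apply List.map_congr_left
      intro i _
      congr 1
      apply decide_eq_decide.mpr
      rw [tr_sym]
      simp [Tm.eval]
    · congr 1 <;>
      · apply List.map_congr_left
        intro i _
        simp [tr, Tm.eval]
  · intro h
    have h3 := (not_congr (tr_okw (w := w) (n := n))).mpr h
    rw [tr, not_not] at h3
    rw [if_pos h3]
    rfl

/-- Words encoding graphs. -/
theorem okw_iff {w : Word} {n : ℕ} (h1 : ∀ x, (x + 1) * (x + 1) ≤ w.length ↔ x < n) :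
    (∀ (m : ℕ) (G : SimpleGraph (Fin m)), w = encG G → m = n ∧ Okw w n) ∧
    (Okw w n → ∃ G : SimpleGraph (Fin n), w = encG G ∧
      ∀ u x : Fin n, G.Adj u x ↔ w[u.1 * n + x.1]? = some (some true)) := by
  classical
  have hget : ∀ {m : ℕ} (G : SimpleGraph (Fin m)) (u v : Fin m),
      (encG G)[u.1 * m + v.1]? = some (some (decide (G.Adj u v))) := by
    intro m G u v
    rw [encG_eq G (fun a b => ∃ x y : Fin m, x.1 = a ∧ y.1 = b ∧ G.Adj x y) (by
      intro u v
      constructor
      · rintro ⟨x, y, hx, hy, h⟩
        rwa [Fin.ext hx, Fin.ext hy] at h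
      · intro h
        exact ⟨u, v, rfl, rfl, h⟩)]
    rw [block_get m _ (by simp) m u v u.2 v.2]
    rw [List.getElem?_map, List.getElem?_range v.2]
    simp only [Option.map_some, Option.some.injEq]
    apply decide_eq_decide.mpr
    constructor
    · rintro ⟨x, y, hx, hy, h⟩
      rwa [Fin.ext hx, Fin.ext hy] at h
    · intro h
      exact ⟨u, v, rfl, rfl, h⟩
  have hidx : ∀ {m i : ℕ}, i < m * m → ∃ u v : Fin m, i = u.1 * m + v.1 := by
    intro m i hi
    have hm : 0 < m := by
      rcases Nat.eq_zero_or_pos m with h | h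
      · subst h
        omega
      · exact h
    refine ⟨⟨i / m, Nat.div_lt_of_lt_mul hi⟩, ⟨i % m, Nat.mod_lt _ hm⟩, ?_⟩
    exact (Nat.div_add_mod' i m).symm
  constructor
  · rintro m G rfl
    have hlen := encG_length G
    rw [hlen] at h1
    have hmn : m = n := by
      rcases lt_trichotomy m n with h | h | h
      · exfalso
        have := (h1 m).mpr h
        nlinarith
      · exact h
      · exfalso
        obtain ⟨m', rfl⟩ : ∃ m', m = m' + 1 := ⟨m - 1, by omega⟩
        have := (h1 m').mp le_rfl
        omega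
    subst hmn
    refine ⟨rfl, hlen.symm, ?_, ?_, ?_⟩
    · intro i hi
      rw [hlen] at hi
      obtain ⟨u, v, rfl⟩ := hidx hi
      rw [hget]
      simp
    · intro u hu
      have := hget G ⟨u, hu⟩ ⟨u, hu⟩
      simp only at this
      rw [this]
      simp
    · intro u hu x hx h
      have h2 := hget G ⟨u, hu⟩ ⟨x, hx⟩
      have h3 := hget G ⟨x, hx⟩ ⟨u, hu⟩
      simp only at h2 h3
      rw [h2] at h
      rw [h3]
      simp only [Option.some.injEq, decide_eq_true_eq] at h ⊢
      exact h.symm
  · rintro ⟨h2, h3, h4, h5⟩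
    set G : SimpleGraph (Fin n) :=
      { Adj := fun u x => w[u.1 * n + x.1]? = some (some true)
        symm := ⟨fun u x h => h5 u.1 u.2 x.1 x.2 h⟩
        loopless := ⟨fun u h => h4 u.1 u.2 h⟩ } with hG
    refine ⟨G, ?_, fun u x => Iff.rfl⟩
    apply List.ext_getElem?
    intro i
    by_cases hi : i < n * n
    · obtain ⟨u, v, rfl⟩ := hidx hi
      rw [hget]
      have hlt : u.1 * n + v.1 < w.length := by rw [← h2]; exact hi
      have h6 : ∃ b : Bool, w[u.1 * n + v.1]? = some (some b) := by
        have h7 := h3 _ hlt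
        rw [List.getElem?_eq_getElem hlt] at h7 ⊢
        cases hx : w[u.1 * n + v.1] with
        | none => rw [hx] at h7; exact absurd rfl h7
        | some b => exact ⟨b, rfl⟩
      obtain ⟨b, hb⟩ := h6
      rw [hb]
      congr 2
      have h8 : G.Adj u v ↔ b = true := by
        change w[u.1 * n + v.1]? = some (some true) ↔ _
        rw [hb]
        simp
      cases b with
      | true => exact (@decide_eq_true _ (Classical.propDecidable _) (h8.mpr rfl)).symm
      | false =>
        exact (@decide_eq_false _ (Classical.propDecidable _)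
          (fun h => absurd (h8.mp h) (by decide))).symm
    · rw [List.getElem?_eq_none (by omega), List.getElem?_eq_none (by rw [encG_length]; omega)]

/-- The programs decide colour mixing. -/
theorem mix_em (lT : Tm) (hlT : ∀ (v : Word) (n : ℕ) (G : SimpleGraph (Fin n)),
      (∀ u < n, ∀ x < n, (adjN n G u x ↔ v[1 + (u * n + x)]? = some (some true))) →
      (tr v 1 (e0 n) lT ↔ Leaf n k G (vb v n))) :
    ∃ (C c : ℕ), (∀ w n, (((stpE k lT).out)^[n] ((iniE k).out w)).length ≤
      C * (w.length + 1) ^ c) ∧ ∀ w : Word, ∃ n,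
      (∀ m < n, (((stpE k lT).out)^[m] ((iniE k).out w)).head? = some none) ∧
      (w ∈ ColourMixing k → ((stpE k lT).out)^[n] ((iniE k).out w) = [some true]) ∧
      (w ∉ ColourMixing k → ((stpE k lT).out)^[n] ((iniE k).out w) = [some false]) := by
  classical
  refine ⟨2 * ((k + 1) * (k + 2)) + 6, 2, ?_, ?_⟩
  · intro w n
    have h1 : ((iniE k).out w).length ≤ (2 * ((k + 1) * (k + 2)) + 6) * (w.length + 1) ^ 2 := by
      obtain ⟨m, hm, h1, h2, h3⟩ := run_iniE k w
      by_cases h : Okw w m
      · rw [h2 h, enc_length]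
        unfold ln mm
        have h4 : m * k + 1 ≤ (w.length + 1) * (k + 1) := by nlinarith
        have h5 : m * k + 2 ≤ (w.length + 1) * (k + 2) := by nlinarith
        have h6 := Nat.mul_le_mul h4 h5
        have h7 : m * m ≤ (w.length + 1) ^ 2 := by nlinarith
        have h8 : 1 ≤ (w.length + 1) ^ 2 := Nat.one_le_pow _ _ (by omega)
        have e : (w.length + 1) * (k + 1) * ((w.length + 1) * (k + 2)) =
            ((k + 1) * (k + 2)) * (w.length + 1) ^ 2 := by ring
        rw [e] at h6
        generalize (w.length + 1) ^ 2 = P at *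
        generalize (k + 1) * (k + 2) = q at *
        nlinarith
      · rw [h3 h]
        have h8 : 1 ≤ (w.length + 1) ^ 2 := Nat.one_le_pow _ _ (by omega)
        simp only [List.length_singleton]
        have := Nat.mul_le_mul (show 1 ≤ 2 * ((k + 1) * (k + 2)) + 6 by omega) h8
        omega
    have h2 : ∀ n, (((stpE k lT).out)^[n] ((iniE k).out w)).length ≤
        max ((iniE k).out w).length 5 := by
      intro n
      induction n with
      | zero => exact le_max_left _ _
      | succ n ih =>
        rw [Function.iterate_succ_apply']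
        have := stp_len (k := k) lT (((stpE k lT).out)^[n] ((iniE k).out w))
        omega
    have h3 : 5 ≤ (2 * ((k + 1) * (k + 2)) + 6) * (w.length + 1) ^ 2 := by
      have h8 : 1 ≤ (w.length + 1) ^ 2 := Nat.one_le_pow _ _ (by omega)
      have := Nat.mul_le_mul (show 5 ≤ 2 * ((k + 1) * (k + 2)) + 6 by omega) h8
      omega
    exact (h2 n).trans (max_le h1 h3)
  · intro w
    obtain ⟨n, _, h1, h2, h3⟩ := run_iniE k w
    obtain ⟨h4, h5⟩ := okw_iff h1
    by_cases hok : Okw w n
    · obtain ⟨G, hG, hadj⟩ := h5 hok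
      set A : ℕ → Bool := fun i => decide (w[i]? = some (some true)) with hA
      set lf : (ℕ → Bool) → Bool := leafB n k G with hlf
      have hcong : ∀ b b' : ℕ → Bool, (∀ i < mm k n, b i = b' i) → lf b = lf b' := by
        intro b b' hb
        rw [hlf, leafB, leafB]
        exact decide_eq_decide.mpr (leaf_congr hb)
      have hl : ∀ b sl : ℕ → Bool, tr (enc k n A b sl) 1 (e0 n) lT ↔
          lf (vb (enc k n A b sl) n) = true := by
        intro b sl
        rw [hlT _ n G, hlf, leafB, decide_eq_true_iff]
        intro u hu x hx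
        rw [enc_A (by nlinarith)]
        simp only [Option.some.injEq, hA, decide_eq_true_eq]
        constructor
        · rintro ⟨_, _, h⟩
          exact (hadj _ _).mp h
        · intro h
          exact ⟨hu, hx, (hadj ⟨u, hu⟩ ⟨x, hx⟩).mpr h⟩
      have hstep := fun b sl => stp_enc (k := k) (n := n) lT (A := A) (b := b) (sl := sl)
        hcong (hl b sl)
      obtain ⟨sl', r1, r2, r3⟩ := run_eval (mm k n) (QM n k) lf (fun _ => false)
      have hstates : ∀ m ≤ 2 ^ mm k n - 1, ((stpE k lT).out)^[m] ((iniE k).out w) =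
          enc k n A ((stp (mm k n) (QM n k) lf)^[m] (fun _ => false, fun _ => false)).1
            ((stp (mm k n) (QM n k) lf)^[m] (fun _ => false, fun _ => false)).2 := by
        intro m
        induction m with
        | zero => exact fun _ => h2 hok
        | succ m ih =>
          intro hm
          rw [Function.iterate_succ_apply', Function.iterate_succ_apply', ih (by omega)]
          exact (hstep _ _).1 (r3 m (by omega)).1
      have hpos : 1 ≤ 2 ^ mm k n := Nat.one_le_two_pow
      have hend : ((stpE k lT).out)^[2 ^ mm k n] ((iniE k).out w) =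
          [some (decide (KMixing k G))] := by
        have e : 2 ^ mm k n = (2 ^ mm k n - 1) + 1 := by omega
        rw [e, Function.iterate_succ_apply', hstates _ le_rfl, r1]
        rw [(hstep _ _).2 (fun i hi => by simp [hi]), r2]
        congr 2
        rw [Bool.eq_iff_iff, decide_eq_true_iff, kMixing_iff]
        exact truth_iff_mixing n k G
      refine ⟨2 ^ mm k n, ?_, ?_, ?_⟩
      · intro m hm
        rw [hstates m (by omega)]
        rfl
      · intro hw
        rw [hend]
        rw [hG, mem_colourMixing] at hw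
        rw [decide_eq_true hw]
      · intro hw
        rw [hend]
        rw [hG, mem_colourMixing] at hw
        rw [decide_eq_false hw]
    · refine ⟨0, fun m hm => absurd hm (by omega), ?_, ?_⟩
      · rintro ⟨m, G, hG, _⟩
        exact absurd (h4 m G hG).2 hok
      · intro _
        exact h3 hok

end Pool.Agent.Helper69.Mix.Dec
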