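import Mathlib
import Pool.Agent.Helper69.Mix.PSpace

/-!
# Micro steps of multi-stack machines
-/

namespace Pool.Agent.Helper69.Mix.Micro

open Turing Function

variable {K : Type} [DecidableEq K] {Γ : K → Type} {Λ σ : Type}

/-- Micro configurations: a statement to be executed, or the end of the computation. -/
inductive Mc (Γ : K → Type) (Λ σ : Type) : Type
  | run (s : TM2.Stmt Γ Λ σ) (v : σ) (S : ∀ k, List (Γ k)) : Mc Γ Λ σ
  | done (v : σ) (S : ∀ k, List (Γ k)) : Mc Γ Λ σ

/-- One micro step. -/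
def next (M : Λ → TM2.Stmt Γ Λ σ) : Mc Γ Λ σ → Mc Γ Λ σ
  | .run (.push k f q) v S => .run q v (update S k (f v :: S k))
  | .run (.peek k f q) v S => .run q (f v (S k).head?) S
  | .run (.pop k f q) v S => .run q (f v (S k).head?) (update S k (S k).tail)
  | .run (.load a q) v S => .run q (a v) S
  | .run (.branch f q₁ q₂) v S => .run (bif f v then q₁ else q₂) v S
  | .run (.goto l) v S => .run (M (l v)) v S
  | .run .halt v S => .done v S
  | .done v S => .done v S

/-- The micro configuration of a configuration. -/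
def toMc (M : Λ → TM2.Stmt Γ Λ σ) : TM2.Cfg Γ Λ σ → Mc Γ Λ σ
  | ⟨some l, v, S⟩ => .run (M l) v S
  | ⟨none, v, S⟩ => .done v S

/-- Depth of a statement. -/
def dp : TM2.Stmt Γ Λ σ → ℕ
  | .push _ _ q => dp q + 1
  | .peek _ _ q => dp q + 1
  | .pop _ _ q => dp q + 1
  | .load _ q => dp q + 1
  | .branch _ q₁ q₂ => max (dp q₁) (dp q₂) + 1
  | .goto _ => 1
  | .halt => 1

/-- A macro step consists of micro steps. -/
theorem next_stepAux (M : Λ → TM2.Stmt Γ Λ σ) (s : TM2.Stmt Γ Λ σ) :
    ∀ (v : σ) (S : ∀ k, List (Γ k)), ∃ n, 1 ≤ n ∧ n ≤ dp s ∧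
      (next M)^[n] (.run s v S) = toMc M (TM2.stepAux s v S) := by
  have key : ∀ (s q : TM2.Stmt Γ Λ σ) (v v' : σ) (S S' : ∀ k, List (Γ k)) (d : ℕ),
      (∃ n, 1 ≤ n ∧ n ≤ d ∧ (next M)^[n] (.run q v' S') = toMc M (TM2.stepAux q v' S')) →
      next M (.run s v S) = .run q v' S' → TM2.stepAux s v S = TM2.stepAux q v' S' →
      ∃ n, 1 ≤ n ∧ n ≤ d + 1 ∧ (next M)^[n] (.run s v S) = toMc M (TM2.stepAux s v S) := by
    rintro s q v v' S S' d ⟨n, h1, h2, h3⟩ h4 h5
    refine ⟨n + 1, by omega, by omega, ?_⟩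
    rw [Function.iterate_succ_apply, h4, h3, h5]
  induction s with
  | push k f q ih => exact fun v S => key _ q v v S _ _ (ih _ _) rfl rfl
  | peek k f q ih => exact fun v S => key _ q v _ S S _ (ih _ _) rfl rfl
  | pop k f q ih => exact fun v S => key _ q v _ S _ _ (ih _ _) rfl rfl
  | load a q ih => exact fun v S => key _ q v _ S S _ (ih _ _) rfl rfl
  | branch f q₁ q₂ ih₁ ih₂ =>
    intro v S
    cases hf : f v with
    | true =>
      refine key _ q₁ v v S S (max (dp q₁) (dp q₂)) ?_ ?_ ?_
      · obtain ⟨n, h1, h2, h3⟩ := ih₁ v S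
        exact ⟨n, h1, h2.trans (le_max_left _ _), h3⟩
      · simp [next, hf]
      · simp [TM2.stepAux, hf]
    | false =>
      refine key _ q₂ v v S S (max (dp q₁) (dp q₂)) ?_ ?_ ?_
      · obtain ⟨n, h1, h2, h3⟩ := ih₂ v S
        exact ⟨n, h1, h2.trans (le_max_right _ _), h3⟩
      · simp [next, hf]
      · simp [TM2.stepAux, hf]
  | goto l => exact fun v S => ⟨1, le_rfl, le_rfl, rfl⟩
  | halt => exact fun v S => ⟨1, le_rfl, le_rfl, rfl⟩

/-- The stacks. -/
def stk : Mc Γ Λ σ → ∀ k, List (Γ k)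
  | .run _ _ S => S
  | .done _ S => S

theorem next_len (M : Λ → TM2.Stmt Γ Λ σ) (x : Mc Γ Λ σ) (k : K) :
    (stk (next M x) k).length ≤ (stk x k).length + 1 := by
  rcases x with ⟨s, v, S⟩ | ⟨v, S⟩
  · cases s with
    | push k' f q =>
      simp only [next, stk]
      by_cases h : k = k'
      · subst h
        simp
      · rw [update_of_ne h]
        omega
    | pop k' f q =>
      simp only [next, stk]
      by_cases h : k = k'
      · subst h
        simp
        omega
      · rw [update_of_ne h]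
        omega
    | peek k f q => exact Nat.le_succ _
    | load a q => exact Nat.le_succ _
    | branch f q₁ q₂ => exact Nat.le_succ _
    | goto l => exact Nat.le_succ _
    | halt => exact Nat.le_succ _
  · exact Nat.le_succ _

theorem iter_len (M : Λ → TM2.Stmt Γ Λ σ) (x : Mc Γ Λ σ) (k : K) (n : ℕ) :
    (stk ((next M)^[n] x) k).length ≤ (stk x k).length + n := by
  induction n with
  | zero => exact le_rfl
  | succ n ih =>
    rw [Function.iterate_succ_apply']
    have := next_len M ((next M)^[n] x) k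
    omega

/-- The orbit of the initial configuration stays close to the reachable configurations. -/
theorem orbit (M : Λ → TM2.Stmt Γ Λ σ) (c₀ : TM2.Cfg Γ Λ σ) (t : ℕ) :
    ∃ (c : TM2.Cfg Γ Λ σ) (m : ℕ), StateTransition.Reaches (TM2.step M) c₀ c ∧
      (next M)^[t] (toMc M c₀) = (next M)^[m] (toMc M c) ∧
      ((c.l = none ∧ m = 0) ∨ ∃ l n, c.l = some l ∧ m < n ∧ n ≤ dp (M l) ∧
        (next M)^[n] (toMc M c) = toMc M (TM2.stepAux (M l) c.var c.stk)) := by
  have start : ∀ c : TM2.Cfg Γ Λ σ, (c.l = none ∧ 0 = 0) ∨ ∃ l n, c.l = some l ∧ 0 < n ∧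
      n ≤ dp (M l) ∧ (next M)^[n] (toMc M c) = toMc M (TM2.stepAux (M l) c.var c.stk) := by
    rintro ⟨l, v, S⟩
    cases l with
    | none => exact Or.inl ⟨rfl, rfl⟩
    | some l =>
      obtain ⟨n, h1, h2, h3⟩ := next_stepAux M (M l) v S
      exact Or.inr ⟨l, n, rfl, h1, h2, h3⟩
  induction t with
  | zero => exact ⟨c₀, 0, Relation.ReflTransGen.refl, rfl, start c₀⟩
  | succ t ih =>
    obtain ⟨c, m, h1, h2, h3⟩ := ih
    rw [Function.iterate_succ_apply', h2, ← Function.iterate_succ_apply' (next M)]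
    rcases h3 with ⟨h3, rfl⟩ | ⟨l, n, h3, h4, h5, h6⟩
    · refine ⟨c, 0, h1, ?_, Or.inl ⟨h3, rfl⟩⟩
      obtain ⟨l, v, S⟩ := c
      simp only at h3
      subst h3
      rfl
    · by_cases h7 : m + 1 < n
      · exact ⟨c, m + 1, h1, rfl, Or.inr ⟨l, n, h3, h7, h5, h6⟩⟩
      · have : m + 1 = n := by omega
        subst this
        refine ⟨TM2.stepAux (M l) c.var c.stk, 0, h1.tail ?_, h6, start _⟩
        obtain ⟨l', v, S⟩ := c
        simp only at h3
        subst h3
        rfl

/-- The orbit reaches the final configuration. -/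
theorem reaches_halt (M : Λ → TM2.Stmt Γ Λ σ) (n : ℕ) :
    ∀ (c : TM2.Cfg Γ Λ σ) (d : TM2.Cfg Γ Λ σ),
      (flip bind (TM2.step M))^[n] (some c) = some d →
      ∃ t, (next M)^[t] (toMc M c) = toMc M d := by
  induction n with
  | zero =>
    intro c d h
    simp only [Function.iterate_zero, id_eq, Option.some.injEq] at h
    exact ⟨0, by rw [h]; rfl⟩
  | succ n ih =>
    intro c d h
    rw [Function.iterate_succ_apply] at h
    obtain ⟨l, v, S⟩ := c
    cases l with
    | none =>
      exfalso
      have e : flip bind (TM2.step M) (some ⟨none, v, S⟩) = none := rfl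
      rw [e] at h
      have : ∀ n, (flip bind (TM2.step M))^[n] none = none := by
        intro n
        induction n with
        | zero => rfl
        | succ n ih =>
          rw [Function.iterate_succ_apply]
          exact ih
      rw [this] at h
      exact absurd h (by simp)
    | some l =>
      have e : flip bind (TM2.step M) (some ⟨some l, v, S⟩) =
        some (TM2.stepAux (M l) v S) := rfl
      rw [e] at h
      obtain ⟨t, ht⟩ := ih _ _ h
      obtain ⟨m, _, _, hm⟩ := next_stepAux M (M l) v S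
      exact ⟨t + m, by rw [Function.iterate_add_apply]; exact (congrArg _ hm).trans ht⟩

/-- Statements contained in a statement. -/
def Subs : TM2.Stmt Γ Λ σ → Set (TM2.Stmt Γ Λ σ)
  | .push k f q => insert (.push k f q) (Subs q)
  | .peek k f q => insert (.peek k f q) (Subs q)
  | .pop k f q => insert (.pop k f q) (Subs q)
  | .load a q => insert (.load a q) (Subs q)
  | .branch f q₁ q₂ => insert (.branch f q₁ q₂) (Subs q₁ ∪ Subs q₂)
  | .goto l => {.goto l}
  | .halt => {.halt}

theorem subs_self (s : TM2.Stmt Γ Λ σ) : s ∈ Subs s := by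
  cases s <;> simp [Subs]

theorem subs_fin (s : TM2.Stmt Γ Λ σ) : (Subs s).Finite := by
  induction s with
  | push k f q ih => exact ih.insert _
  | peek k f q ih => exact ih.insert _
  | pop k f q ih => exact ih.insert _
  | load a q ih => exact ih.insert _
  | branch f q₁ q₂ ih₁ ih₂ => exact (ih₁.union ih₂).insert _
  | goto l => exact Set.finite_singleton _
  | halt => exact Set.finite_singleton _

theorem subs_trans {s r : TM2.Stmt Γ Λ σ} (h : s ∈ Subs r) : Subs s ⊆ Subs r := by
  induction r with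
  | push k f q ih =>
    rcases h with rfl | h
    · exact subset_rfl
    · exact (ih h).trans (Set.subset_insert _ _)
  | peek k f q ih =>
    rcases h with rfl | h
    · exact subset_rfl
    · exact (ih h).trans (Set.subset_insert _ _)
  | pop k f q ih =>
    rcases h with rfl | h
    · exact subset_rfl
    · exact (ih h).trans (Set.subset_insert _ _)
  | load a q ih =>
    rcases h with rfl | h
    · exact subset_rfl
    · exact (ih h).trans (Set.subset_insert _ _)
  | branch f q₁ q₂ ih₁ ih₂ =>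
    rcases h with rfl | h | h
    · exact subset_rfl
    · exact (ih₁ h).trans (Set.subset_union_left.trans (Set.subset_insert _ _))
    · exact (ih₂ h).trans (Set.subset_union_right.trans (Set.subset_insert _ _))
  | goto l =>
    rcases h with rfl
    exact subset_rfl
  | halt =>
    rcases h with rfl
    exact subset_rfl

/-- All statements occurring in a machine. -/
def Al (M : Λ → TM2.Stmt Γ Λ σ) : Set (TM2.Stmt Γ Λ σ) := ⋃ l, Subs (M l)

theorem al_fin [Finite Λ] (M : Λ → TM2.Stmt Γ Λ σ) : (Al M).Finite :=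
  Set.finite_iUnion fun l => subs_fin (M l)

theorem al_M (M : Λ → TM2.Stmt Γ Λ σ) (l : Λ) : M l ∈ Al M :=
  Set.mem_iUnion.mpr ⟨l, subs_self _⟩

theorem al_sub {M : Λ → TM2.Stmt Γ Λ σ} {s r : TM2.Stmt Γ Λ σ} (h : r ∈ Al M) (hs : s ∈ Subs r) :
    s ∈ Al M := by
  obtain ⟨l, hl⟩ := Set.mem_iUnion.mp h
  exact Set.mem_iUnion.mpr ⟨l, subs_trans hl hs⟩

end Pool.Agent.Helper69.Mix.Micro
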