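import Mathlib
import Pool.Agent.Helper69.Mix.Micro
import Pool.Agent.Helper69.Mix.Sweep

/-!
# The sweep system of a multi-stack machine
-/

namespace Pool.Agent.Helper69.Mix.TmSweep

open Turing Function Micro

/-- A clock with digits `0, ..., R`: the value of the first `S` digits. -/
def cval (R : ℕ) (d : ℕ → ℕ) (S : ℕ) : ℕ := ∑ j ∈ Finset.range S, d j * (R + 1) ^ j

/-- The incremented digits. -/
def cinc (R : ℕ) (d : ℕ → ℕ) (j : ℕ) : ℕ :=
  if ∀ i < j, d i = R then (if d j = R then 0 else d j + 1) else d j

theorem cval_inc (R : ℕ) (d : ℕ → ℕ) (S : ℕ) :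
    ((∀ i < S, d i = R) → cval R (cinc R d) S = 0 ∧ cval R d S + 1 = (R + 1) ^ S) ∧
    ((¬ ∀ i < S, d i = R) → cval R (cinc R d) S = cval R d S + 1) := by
  induction S with
  | zero =>
    refine ⟨fun _ => ⟨rfl, rfl⟩, fun h => absurd (by simp) h⟩
  | succ S ih =>
    have e1 : cval R (cinc R d) (S + 1) = cval R (cinc R d) S + cinc R d S * (R + 1) ^ S := by
      rw [cval, Finset.sum_range_succ]
      rfl
    have e2 : cval R d (S + 1) = cval R d S + d S * (R + 1) ^ S := by
      rw [cval, Finset.sum_range_succ]
      rfl
    by_cases hall : ∀ i < S, d i = R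
    · obtain ⟨h1, h2⟩ := ih.1 hall
      by_cases hS : d S = R
      · have hc : cinc R d S = 0 := by
          rw [cinc, if_pos hall, if_pos hS]
        constructor
        · intro _
          refine ⟨by rw [e1, h1, hc]; simp, ?_⟩
          rw [e2, hS, pow_succ]
          nlinarith
        · intro h
          exfalso
          apply h
          intro i hi
          rcases Nat.lt_succ_iff_lt_or_eq.mp hi with hi | rfl
          · exact hall i hi
          · exact hS
      · have hc : cinc R d S = d S + 1 := by
          rw [cinc, if_pos hall, if_neg hS]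
        constructor
        · intro h
          exact absurd (h S (by omega)) hS
        · intro _
          rw [e1, e2, h1, hc]
          nlinarith
    · have hc : cinc R d S = d S := by
        rw [cinc, if_neg hall]
      have h1 := ih.2 hall
      constructor
      · intro h
        exact absurd (fun i hi => h i (by omega)) hall
      · intro _
        rw [e1, e2, h1, hc]
        ring

theorem cval_lt (R : ℕ) (d : ℕ → ℕ) (hd : ∀ j, d j ≤ R) (S : ℕ) : cval R d S < (R + 1) ^ S := by
  induction S with
  | zero => simp [cval]
  | succ S ih =>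
    have e2 : cval R d (S + 1) = cval R d S + d S * (R + 1) ^ S := by
      rw [cval, Finset.sum_range_succ]
      rfl
    have h := hd S
    rw [e2, pow_succ]
    nlinarith [Nat.mul_le_mul_right ((R + 1) ^ S) h]

variable (tm : FinTM2)

/-- Cell contents of the stacks. -/
abbrev Cell : Type := ∀ k, Option (tm.Γ k)

/-- What to do with the stacks in a round. -/
inductive Md : Type
  | stay : Md
  | push (k : tm.K) (x : Option (tm.Γ k)) : Md
  | pop (k : tm.K) : Md
  | ini : Md

/-- Micro states. -/
abbrev Qs : Type := ({s // s ∈ Al tm.m} × tm.σ) ⊕ Bool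

open Classical in
/-- A statement as a member of the finite type of statements. -/
noncomputable def mkQ (s : TM2.Stmt tm.Γ tm.Λ tm.σ) : {s // s ∈ Al tm.m} :=
  if h : s ∈ Al tm.m then ⟨s, h⟩ else ⟨tm.m tm.main, al_M _ _⟩

theorem mkQ_val {s : TM2.Stmt tm.Γ tm.Λ tm.σ} (h : s ∈ Al tm.m) : (mkQ tm s).1 = s := by
  rw [mkQ, dif_pos h]

variable {tm}

open Classical in
/-- The new micro state and the action on the stacks, given the topmost symbols. -/
noncomputable def op (yes : tm.Γ tm.k₁) (q : Qs tm) (b : Cell tm) : Qs tm × Md tm :=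
  match q with
  | .inr x => (.inr x, .stay)
  | .inl (s, v) => match s.1 with
    | .push k f q => (.inl (mkQ tm q, v), .push k (some (f v)))
    | .peek k f q => (.inl (mkQ tm q, f v (b k)), .stay)
    | .pop k f q => (.inl (mkQ tm q, f v (b k)), .pop k)
    | .load a q => (.inl (mkQ tm q, a v), .stay)
    | .branch f q₁ q₂ => (.inl (mkQ tm (bif f v then q₁ else q₂), v), .stay)
    | .goto l => (.inl (mkQ tm (tm.m (l v)), v), .stay)
    | .halt => (.inr (decide (b tm.k₁ = some yes)), .stay)

/-- The action on a cell. -/
def cellF (md : Md tm) (last : Bool) (b b' : Cell tm) : Md tm × Cell tm :=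
  letI := tm.kDecidableEq
  match md with
  | .stay => (.stay, b)
  | .push k x => (.push k (b k), update b k x)
  | .pop k => (.pop k, update b k (if last then none else b' k))
  | .ini => (.ini, b)

/-- The initial content of a cell. -/
def iniC (ein : tm.Γ tm.k₀ ≃ Option Bool) (s : Option (Option Bool)) : Cell tm := fun k =>
  letI := tm.kDecidableEq
  if h : k = tm.k₀ then (by rw [h]; exact s.map ein.symm) else none

/-- The new head state at the first cell. -/
noncomputable def hd (yes : tm.Γ tm.k₁) (first : Bool) (a : Qs tm × Md tm × Bool) (b : Cell tm) :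
    Qs tm × Md tm × Bool :=
  if first then (if a.2.2 then (a.1, .ini, false) else ((op yes a.1 b).1, (op yes a.1 b).2, true))
  else a

/-- The transition function of the sweep system, after `hd`. -/
noncomputable def tr (ein : tm.Γ tm.k₀ ≃ Option Bool) (R : ℕ) (last : Bool)
    (s : Option (Option Bool)) (a : Qs tm × Md tm × Bool) (b b' : Cell tm × Fin (R + 1)) :
    (Qs tm × Md tm × Bool) × (Cell tm × Fin (R + 1)) :=
  match a.2.1 with
  | .ini => (if last then (.inl (mkQ tm (tm.m tm.main), tm.initialState), .stay, false) else a,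
      (iniC ein s, 0))
  | md => ((a.1, (cellF md last b.1 b'.1).1, a.2.2 && decide (b.2.1 = R)),
      ((cellF md last b.1 b'.1).2,
        if a.2.2 then (if b.2.1 = R then 0 else b.2 + 1) else b.2))

theorem md_fin (h : ∀ k, Finite (tm.Γ k)) : Finite (Md tm) := by
  have := @Finite.of_fintype tm.K tm.kFin
  have hi : Injective (fun m : Md tm => match m with
    | .stay => (Sum.inl () : Unit ⊕ (Σ k, Option (tm.Γ k)) ⊕ tm.K ⊕ Unit)
    | .push k x => Sum.inr (Sum.inl ⟨k, x⟩)
    | .pop k => Sum.inr (Sum.inr (Sum.inl k))
    | .ini => Sum.inr (Sum.inr (Sum.inr ()))) := by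
    intro x y hxy
    cases x <;> cases y <;> simp_all
  exact Finite.of_injective _ hi

/-- The sweep system. -/
noncomputable def swp (h : ∀ k, Finite (tm.Γ k)) (ein : tm.Γ tm.k₀ ≃ Option Bool)
    (yes : tm.Γ tm.k₁) (R : ℕ) : Sweep where
  A := Qs tm × Md tm × Bool
  B := Cell tm × Fin (R + 1)
  finA := by
    have := md_fin h
    have := @Finite.of_fintype tm.Λ tm.ΛFin
    have := @Finite.of_fintype tm.σ tm.σFin
    have : Finite {s // s ∈ Al tm.m} := (al_fin tm.m).to_subtype
    infer_instance
  finB := by
    have := @Finite.of_fintype tm.K tm.kFin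
    infer_instance
  F := fun first last s a b b' => tr ein R last s (hd yes first a b.1) b b'
  acc := fun a => match a.1 with
    | .inl _ => false
    | .inr x => x

end Pool.Agent.Helper69.Mix.TmSweep
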