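import Mathlib
import Pool.Agent.Helper69.Mix.TmSweep

/-!
# A round of the sweep system of a machine
-/

namespace Pool.Agent.Helper69.Mix.TmSweep

open Turing Function Micro

variable {tm : FinTM2}

theorem tr_of_ne {ein : tm.Γ tm.k₀ ≃ Option Bool} {R : ℕ} {last : Bool}
    {s : Option (Option Bool)} {a : Qs tm × Md tm × Bool} {b b' : Cell tm × Fin (R + 1)}
    (h : a.2.1 ≠ .ini) : tr ein R last s a b b' =
      ((a.1, (cellF a.2.1 last b.1 b'.1).1, a.2.2 && decide (b.2.1 = R)),
      ((cellF a.2.1 last b.1 b'.1).2,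
        if a.2.2 then (if b.2.1 = R then 0 else b.2 + 1) else b.2)) := by
  unfold tr
  split
  · next h' => exact absurd h' h
  · rfl

theorem op_ne (yes : tm.Γ tm.k₁) (q : Qs tm) (b : Cell tm) : (op yes q b).2 ≠ .ini := by
  unfold op
  split
  · simp
  · split <;> simp

/-- The mode at cell `i`. -/
def mdAt (md : Md tm) (cells : ℕ → Cell tm) (i : ℕ) : Md tm :=
  match md with
  | .push k x => .push k (if i = 0 then x else cells (i - 1) k)
  | m => m

theorem mdAt_zero (md : Md tm) (cells : ℕ → Cell tm) : mdAt md cells 0 = md := by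
  cases md <;> simp [mdAt]

theorem mdAt_ne {md : Md tm} (h : md ≠ .ini) (cells : ℕ → Cell tm) (i : ℕ) :
    mdAt md cells i ≠ .ini := by
  cases md <;> simp_all [mdAt]

theorem mdAt_succ (md : Md tm) (cells : ℕ → Cell tm) (i : ℕ) (last : Bool) (b' : Cell tm) :
    (cellF (mdAt md cells i) last (cells i) b').1 = mdAt md cells (i + 1) := by
  cases md <;> simp [mdAt, cellF]

/-- The new content of a cell. -/
def newB (md : Md tm) (cells : ℕ → Cell tm) (S j : ℕ) : Cell tm :=
  (cellF (mdAt md cells j) (decide (j + 1 = S)) (cells j) (cells (j + 1))).2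

section

variable (h : ∀ k, Finite (tm.Γ k)) (ein : tm.Γ tm.k₀ ≃ Option Bool) (yes : tm.Γ tm.k₁) (R S : ℕ)
  (w : List (Option Bool))

/-- States of the sweep system. -/
abbrev Zt (tm : FinTM2) (R : ℕ) : Type := (Qs tm × Md tm × Bool) × (ℕ → Cell tm × Fin (R + 1))

/-- A round. -/
noncomputable def rnd (z : Zt tm R) : Zt tm R := (swp h ein yes R).round S w z

/-- The first steps of a round. -/
noncomputable def upt (i : ℕ) (z : Zt tm R) : Zt tm R := (swp h ein yes R).upto S w i z

variable {R}

/-- The clock carry at cell `i`. -/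
def cAt (z : Zt tm R) (i : ℕ) : Bool := decide (∀ j < i, (z.2 j).2.1 = R)

/-- The new clock digit. -/
def newD (z : Zt tm R) (j : ℕ) : Fin (R + 1) :=
  if cAt z j then (if (z.2 j).2.1 = R then 0 else (z.2 j).2 + 1) else (z.2 j).2

variable {h ein yes S w}

theorem upt_succ (i : ℕ) (z : Zt tm R) : upt h ein yes R S w (i + 1) z =
    ((tr ein R (decide (i + 1 = S)) w[i]? (hd yes (decide (i = 0)) (upt h ein yes R S w i z).1
      ((upt h ein yes R S w i z).2 i).1) ((upt h ein yes R S w i z).2 i)
      ((upt h ein yes R S w i z).2 (i + 1))).1,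
    update (upt h ein yes R S w i z).2 i (tr ein R (decide (i + 1 = S)) w[i]?
      (hd yes (decide (i = 0)) (upt h ein yes R S w i z).1
      ((upt h ein yes R S w i z).2 i).1) ((upt h ein yes R S w i z).2 i)
      ((upt h ein yes R S w i z).2 (i + 1))).2) := rfl

/-- The state in a round which does not initialise. -/
theorem upt_run (z : Zt tm R) (hc : z.1.2.2 = false) (i : ℕ) (hi : i + 1 ≤ S) :
    upt h ein yes R S w (i + 1) z =
      (((op yes z.1.1 (z.2 0).1).1,
        mdAt (op yes z.1.1 (z.2 0).1).2 (fun j => (z.2 j).1) (i + 1), cAt z (i + 1)),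
      fun j => if j < i + 1 then
        (newB (op yes z.1.1 (z.2 0).1).2 (fun j => (z.2 j).1) S j, newD z j) else z.2 j) := by
  set o := op yes z.1.1 (z.2 0).1 with ho
  have hne : o.2 ≠ .ini := op_ne _ _ _
  -- a uniform description of the state after `hd`
  have key : ∀ i, i + 1 ≤ S →
      hd yes (decide (i = 0)) (upt h ein yes R S w i z).1 ((upt h ein yes R S w i z).2 i).1 =
        (o.1, mdAt o.2 (fun j => (z.2 j).1) i, cAt z i) →
      (∀ j, i ≤ j → (upt h ein yes R S w i z).2 j = z.2 j) →
      (∀ j, j < i → (upt h ein yes R S w i z).2 j =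
        (newB o.2 (fun j => (z.2 j).1) S j, newD z j)) →
      upt h ein yes R S w (i + 1) z =
      ((o.1, mdAt o.2 (fun j => (z.2 j).1) (i + 1), cAt z (i + 1)),
      fun j => if j < i + 1 then (newB o.2 (fun j => (z.2 j).1) S j, newD z j) else z.2 j) := by
    intro i hi h1 h2 h3
    rw [upt_succ, h1, h2 i le_rfl, h2 (i + 1) (by omega),
      tr_of_ne (a := (o.1, mdAt o.2 (fun j => (z.2 j).1) i, cAt z i))
        (mdAt_ne hne (fun j => (z.2 j).1) i)]
    refine Prod.ext (Prod.ext rfl (Prod.ext ?_ ?_)) ?_
    · exact mdAt_succ o.2 (fun j => (z.2 j).1) i _ _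
    · simp only [cAt]
      rw [← Bool.decide_and]
      apply decide_eq_decide.mpr
      constructor
      · rintro ⟨h4, h5⟩ j hj
        rcases Nat.lt_succ_iff_lt_or_eq.mp hj with hj | rfl
        · exact h4 j hj
        · exact h5
      · intro h4
        exact ⟨fun j hj => h4 j (by omega), h4 i (by omega)⟩
    · funext j
      simp only
      by_cases hj : j = i
      · subst hj
        rw [update_self, if_pos (show j < j + 1 by omega)]
        rfl
      · rw [update_of_ne hj]
        by_cases hj' : j < i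
        · rw [if_pos (by omega)]
          exact h3 j hj'
        · rw [if_neg (by omega)]
          exact h2 j (by omega)
  induction i with
  | zero =>
    refine key 0 hi ?_ (fun j _ => rfl) (fun j hj => absurd hj (by omega))
    change hd yes (decide (0 = 0)) z.1 (z.2 0).1 = _
    simp only [hd, decide_true, if_true, hc, Bool.false_eq_true, if_false]
    rw [mdAt_zero]
    refine Prod.ext rfl (Prod.ext rfl ?_)
    simp [cAt]
  | succ i ih =>
    have h0 := ih (by omega)
    refine key (i + 1) hi ?_ ?_ ?_
    · rw [h0]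
      simp [hd]
    · intro j hj
      rw [h0]
      simp only
      rw [if_neg (by omega)]
    · intro j hj
      rw [h0]
      simp only
      rw [if_pos hj]

/-- A round which does not initialise. -/
theorem rnd_run (hS : 1 ≤ S) (z : Zt tm R) (hc : z.1.2.2 = false) :
    (rnd h ein yes R S w z).1.1 = (op yes z.1.1 (z.2 0).1).1 ∧
    (rnd h ein yes R S w z).1.2.2 = cAt z S ∧
    ∀ j < S, (rnd h ein yes R S w z).2 j =
      (newB (op yes z.1.1 (z.2 0).1).2 (fun j => (z.2 j).1) S j, newD z j) := by
  obtain ⟨i, rfl⟩ : ∃ i, S = i + 1 := ⟨S - 1, by omega⟩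
  have h1 := upt_run (h := h) (ein := ein) (yes := yes) (w := w) z hc i le_rfl
  have h2 : rnd h ein yes R (i + 1) w z = upt h ein yes R (i + 1) w (i + 1) z := rfl
  rw [h2, h1]
  refine ⟨rfl, rfl, ?_⟩
  intro j hj
  simp only
  rw [if_pos hj]

/-- The state in a round which initialises. -/
theorem upt_ini (z : Zt tm R) (hc : z.1.2.2 = true) (i : ℕ) (hi : i + 1 ≤ S) :
    (upt h ein yes R S w (i + 1) z).1 =
      (if i + 1 = S then (.inl (mkQ tm (tm.m tm.main), tm.initialState), .stay, false) else
        (z.1.1, .ini, false)) ∧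
    ∀ j, (upt h ein yes R S w (i + 1) z).2 j =
      if j < i + 1 then (iniC ein w[j]?, 0) else z.2 j := by
  have key : ∀ i, i + 1 ≤ S →
      hd yes (decide (i = 0)) (upt h ein yes R S w i z).1 ((upt h ein yes R S w i z).2 i).1 =
        (z.1.1, .ini, false) →
      (∀ j, (upt h ein yes R S w i z).2 j =
        if j < i then (iniC ein w[j]?, 0) else z.2 j) →
      (upt h ein yes R S w (i + 1) z).1 =
      (if i + 1 = S then (.inl (mkQ tm (tm.m tm.main), tm.initialState), .stay, false) else
        (z.1.1, .ini, false)) ∧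
      ∀ j, (upt h ein yes R S w (i + 1) z).2 j =
        if j < i + 1 then (iniC ein w[j]?, 0) else z.2 j := by
    intro i hi h1 h2
    rw [upt_succ, h1]
    constructor
    · simp only [tr]
      by_cases hl : i + 1 = S
      · simp [hl]
      · simp [hl]
    · intro j
      simp only [tr]
      by_cases hj : j = i
      · subst hj
        rw [update_self, if_pos (show j < j + 1 by omega)]
      · rw [update_of_ne hj, h2]
        by_cases hj' : j < i
        · rw [if_pos hj', if_pos (by omega)]
        · rw [if_neg hj', if_neg (by omega)]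
  induction i with
  | zero =>
    refine key 0 hi ?_ (fun j => rfl)
    change hd yes (decide (0 = 0)) z.1 (z.2 0).1 = _
    simp only [hd, decide_true, if_true, hc]
  | succ i ih =>
    obtain ⟨h1, h2⟩ := ih (by omega)
    refine key (i + 1) hi ?_ h2
    rw [h1, if_neg (by omega)]
    simp [hd]

/-- A round which initialises. -/
theorem rnd_ini (hS : 1 ≤ S) (z : Zt tm R) (hc : z.1.2.2 = true) :
    (rnd h ein yes R S w z).1 = (.inl (mkQ tm (tm.m tm.main), tm.initialState), .stay, false) ∧
    ∀ j < S, (rnd h ein yes R S w z).2 j = (iniC ein w[j]?, 0) := by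
  obtain ⟨i, rfl⟩ : ∃ i, S = i + 1 := ⟨S - 1, by omega⟩
  obtain ⟨h1, h2⟩ := upt_ini (h := h) (ein := ein) (yes := yes) (w := w) z hc i le_rfl
  have h3 : rnd h ein yes R (i + 1) w z = upt h ein yes R (i + 1) w (i + 1) z := rfl
  rw [h3, h1]
  refine ⟨by simp, ?_⟩
  intro j hj
  rw [h2, if_pos hj]

/-- Value of the clock. -/
def clk (S : ℕ) (z : Zt tm R) : ℕ := cval R (fun j => (z.2 j).2.1) S

theorem newD_val (z : Zt tm R) (j : ℕ) :
    (newD z j).1 = cinc R (fun j => (z.2 j).2.1) j := by
  unfold newD cAt cinc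
  by_cases h1 : ∀ i < j, (z.2 i).2.1 = R
  · rw [decide_eq_true h1, if_pos h1, if_pos rfl]
    by_cases h2 : (z.2 j).2.1 = R
    · rw [if_pos h2, if_pos h2]
      rfl
    · have h3 := (z.2 j).2.2
      rw [if_neg h2, if_neg h2]
      have h4 : (z.2 j).2 < Fin.last R := by
        rw [Fin.lt_def]
        simp only [Fin.val_last]
        omega
      rw [Fin.val_add_one_of_lt h4]
  · rw [if_neg h1]
    simp [h1]

theorem cval_congr {R S : ℕ} {d d' : ℕ → ℕ} (h : ∀ j < S, d j = d' j) :
    cval R d S = cval R d' S := by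
  unfold cval
  apply Finset.sum_congr rfl
  intro j hj
  rw [h j (Finset.mem_range.mp hj)]

/-- The clock after a round which does not initialise. -/
theorem clk_run (hS : 1 ≤ S) (z : Zt tm R) (hc : z.1.2.2 = false) :
    ((rnd h ein yes R S w z).1.2.2 = true ∧ clk S z + 1 = (R + 1) ^ S) ∨
    ((rnd h ein yes R S w z).1.2.2 = false ∧ clk S (rnd h ein yes R S w z) = clk S z + 1) := by
  obtain ⟨h1, h2, h3⟩ := rnd_run (h := h) (ein := ein) (yes := yes) (w := w) hS z hc
  have h4 := cval_inc R (fun j => (z.2 j).2.1) S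
  have h5 : clk S (rnd h ein yes R S w z) = cval R (cinc R (fun j => (z.2 j).2.1)) S := by
    apply cval_congr
    intro j hj
    rw [h3 j hj, newD_val]
  rw [h2]
  by_cases hall : ∀ j < S, (z.2 j).2.1 = R
  · left
    exact ⟨by simp only [cAt]; exact decide_eq_true hall, (h4.1 hall).2⟩
  · right
    exact ⟨by simp only [cAt]; exact decide_eq_false hall, by rw [h5]; exact h4.2 hall⟩

theorem clk_lt (z : Zt tm R) : clk S z < (R + 1) ^ S :=
  cval_lt R _ (fun j => by have := (z.2 j).2.2; omega) S

theorem clk_ini (hS : 1 ≤ S) (z : Zt tm R) (hc : z.1.2.2 = true) :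
    clk S (rnd h ein yes R S w z) = 0 := by
  obtain ⟨h1, h2⟩ := rnd_ini (h := h) (ein := ein) (yes := yes) (w := w) hS z hc
  unfold clk cval
  apply Finset.sum_eq_zero
  intro j hj
  change ((rnd h ein yes R S w z).2 j).2.1 * _ = 0
  rw [h2 j (Finset.mem_range.mp hj)]
  simp

/-- The clock overflows eventually. -/
theorem overflow (hS : 1 ≤ S) (z : Zt tm R) :
    ∃ n, ((rnd h ein yes R S w)^[n] z).1.2.2 = true := by
  have key : ∀ m (z : Zt tm R), (R + 1) ^ S - clk S z ≤ m →
      ∃ n, ((rnd h ein yes R S w)^[n] z).1.2.2 = true := by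
    intro m
    induction m with
    | zero =>
      intro z hz
      have := clk_lt (S := S) z
      omega
    | succ m ih =>
      intro z hz
      cases hc : z.1.2.2 with
      | true => exact ⟨0, hc⟩
      | false =>
        rcases clk_run (h := h) (ein := ein) (yes := yes) (w := w) hS z hc with h1 | h1
        · exact ⟨1, h1.1⟩
        · have := clk_lt (S := S) z
          obtain ⟨n, hn⟩ := ih (rnd h ein yes R S w z) (by rw [h1.2]; omega)
          exact ⟨n + 1, hn⟩
  exact key _ z le_rfl

/-- The cells represent the stacks. -/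
def Rp (S : ℕ) (cells : ℕ → Cell tm) (st : ∀ k, List (tm.Γ k)) : Prop :=
  ∀ i < S, ∀ k, cells i k = (st k)[i]?

theorem rp_stay {cells : ℕ → Cell tm} {st : ∀ k, List (tm.Γ k)} (h : Rp S cells st) :
    Rp S (newB .stay cells S) st := h

theorem rp_push {cells : ℕ → Cell tm} {st : ∀ k, List (tm.Γ k)} (h : Rp S cells st) (k : tm.K)
    (g : tm.Γ k) : Rp S (newB (.push k (some g)) cells S) (update st k (g :: st k)) := by
  intro i hi k'
  simp only [newB, mdAt, cellF]
  by_cases hk : k' = k
  · subst hk
    rw [update_self, update_self]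
    rcases Nat.eq_zero_or_pos i with h0 | h0
    · subst h0
      simp
    · obtain ⟨m, rfl⟩ : ∃ m, i = m + 1 := ⟨i - 1, by omega⟩
      rw [if_neg (by omega), Nat.add_sub_cancel, List.getElem?_cons_succ]
      exact h m (by omega) k'
  · rw [update_of_ne hk, update_of_ne hk]
    exact h i hi k'

theorem rp_pop {cells : ℕ → Cell tm} {st : ∀ k, List (tm.Γ k)} (h : Rp S cells st) (k : tm.K)
    (hl : (st k).length ≤ S) : Rp S (newB (.pop k) cells S) (update st k (st k).tail) := by
  intro i hi k'
  simp only [newB, mdAt, cellF]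
  by_cases hk : k' = k
  · subst hk
    rw [update_self, update_self, List.getElem?_tail]
    by_cases hl' : i + 1 = S
    · simp only [hl', decide_true, if_true]
      rw [List.getElem?_eq_none hl]
    · simp only [hl', decide_false, Bool.false_eq_true, if_false]
      exact h (i + 1) (by omega) k'
  · rw [update_of_ne hk, update_of_ne hk]
    exact h i hi k'

end

end Pool.Agent.Helper69.Mix.TmSweep
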