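import Mathlib
import Pool.Agent.Helper69.Mix.TmRound
import Pool.Agent.Helper69.Mix.PSpace

/-!
# Every language in PSPACE is described by a sweep system
-/

namespace Pool.Agent.Helper69.Mix.TmSweep

open Turing Function Micro

variable {tm : FinTM2}

section

variable {h : ∀ k, Finite (tm.Γ k)} {ein : tm.Γ tm.k₀ ≃ Option Bool} {yes : tm.Γ tm.k₁} {R S : ℕ}
  {w : List (Option Bool)}

open Classical in
/-- The state of the sweep system represents the micro configuration. -/
def Rep (yes : tm.Γ tm.k₁) (S : ℕ) (z : Zt tm R) : Mc tm.Γ tm.Λ tm.σ → Prop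
  | .run s v st => z.1.1 = .inl (mkQ tm s, v) ∧ s ∈ Al tm.m ∧ Rp S (fun j => (z.2 j).1) st
  | .done _ st => z.1.1 = .inr (decide ((st tm.k₁).head? = some yes))

theorem rp_congr {cells cells' : ℕ → Cell tm} {st : ∀ k, List (tm.Γ k)}
    (h : ∀ j < S, cells j = cells' j) (h' : Rp S cells' st) : Rp S cells st := by
  intro i hi k
  rw [h i hi]
  exact h' i hi k

/-- A round simulates a micro step. -/
theorem Rep.step (hS : 1 ≤ S) {z : Zt tm R} (hc : z.1.2.2 = false) {x : Mc tm.Γ tm.Λ tm.σ}
    (hx : Rep yes S z x) (hl : ∀ k, (stk x k).length ≤ S) :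
    Rep yes S (rnd h ein yes R S w z) (next tm.m x) := by
  classical
  obtain ⟨h1, _, h3⟩ := rnd_run (h := h) (ein := ein) (yes := yes) (w := w) hS z hc
  rcases x with ⟨s, v, st⟩ | ⟨v, st⟩
  · obtain ⟨hq, hs, hr⟩ := hx
    have htop : ∀ k, (z.2 0).1 k = (st k).head? := by
      intro k
      have := hr 0 hS k
      rw [List.head?_eq_getElem?]
      exact this
    rw [hq] at h1 h3
    have hcell : ∀ (st' : ∀ k, List (tm.Γ k)),
        Rp S (newB (op yes (.inl (mkQ tm s, v)) (z.2 0).1).2 (fun j => (z.2 j).1) S) st' →
        Rp S (fun j => ((rnd h ein yes R S w z).2 j).1) st' := by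
      intro st' h'
      refine rp_congr ?_ h'
      intro j hj
      rw [h3 j hj]
    cases s with
    | push k f q =>
      have e : op yes (.inl (mkQ tm (.push k f q), v)) (z.2 0).1 =
          (.inl (mkQ tm q, v), .push k (some (f v))) := by
        simp only [op, mkQ_val tm hs]
      rw [e] at h1 hcell
      exact ⟨h1, al_sub hs (by simp [Subs, subs_self]), hcell _ (rp_push hr k (f v))⟩
    | peek k f q =>
      have e : op yes (.inl (mkQ tm (.peek k f q), v)) (z.2 0).1 =
          (.inl (mkQ tm q, f v ((z.2 0).1 k)), .stay) := by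
        simp only [op, mkQ_val tm hs]
      rw [e, htop] at h1
      rw [e] at hcell
      exact ⟨h1, al_sub hs (by simp [Subs, subs_self]), hcell _ (rp_stay hr)⟩
    | pop k f q =>
      have e : op yes (.inl (mkQ tm (.pop k f q), v)) (z.2 0).1 =
          (.inl (mkQ tm q, f v ((z.2 0).1 k)), .pop k) := by
        simp only [op, mkQ_val tm hs]
      rw [e, htop] at h1
      rw [e] at hcell
      exact ⟨h1, al_sub hs (by simp [Subs, subs_self]), hcell _ (rp_pop hr k (hl k))⟩
    | load a q =>
      have e : op yes (.inl (mkQ tm (.load a q), v)) (z.2 0).1 =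
          (.inl (mkQ tm q, a v), .stay) := by
        simp only [op, mkQ_val tm hs]
      rw [e] at h1 hcell
      exact ⟨h1, al_sub hs (by simp [Subs, subs_self]), hcell _ (rp_stay hr)⟩
    | branch f q₁ q₂ =>
      have e : op yes (.inl (mkQ tm (.branch f q₁ q₂), v)) (z.2 0).1 =
          (.inl (mkQ tm (bif f v then q₁ else q₂), v), .stay) := by
        simp only [op, mkQ_val tm hs]
      rw [e] at h1 hcell
      refine ⟨h1, al_sub hs ?_, hcell _ (rp_stay hr)⟩
      cases f v <;> simp [Subs, subs_self]
    | goto l =>
      have e : op yes (.inl (mkQ tm (.goto l), v)) (z.2 0).1 =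
          (.inl (mkQ tm (tm.m (l v)), v), .stay) := by
        simp only [op, mkQ_val tm hs]
      rw [e] at h1 hcell
      exact ⟨h1, al_M _ _, hcell _ (rp_stay hr)⟩
    | halt =>
      have e : op yes (.inl (mkQ tm .halt, v)) (z.2 0).1 =
          (.inr (decide ((z.2 0).1 tm.k₁ = some yes)), .stay) := by
        simp only [op, mkQ_val tm hs]
      rw [e, htop] at h1
      exact h1
  · have hq : z.1.1 = .inr (decide ((st tm.k₁).head? = some yes)) := hx
    rw [hq] at h1
    exact h1

/-- The initial stacks. -/
theorem rp_init (w : List (Option Bool)) :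
    Rp S (fun j => iniC ein w[j]?) (initList tm (w.map ein.symm)).stk := by
  intro i _ k
  by_cases hk : k = tm.k₀
  · subst hk
    have e1 : iniC ein w[i]? tm.k₀ = w[i]?.map ein.symm := dif_pos rfl
    have e2 : (initList tm (w.map ein.symm)).stk tm.k₀ = w.map ein.symm := dif_pos rfl
    rw [e2]
    simp only
    rw [e1, List.getElem?_map]
  · have e1 : iniC ein w[i]? k = none := dif_neg hk
    have e2 : (initList tm (w.map ein.symm)).stk k = [] := dif_neg hk
    rw [e2]
    simp only
    rw [e1]
    simp

/-- The state after an initialising round. -/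
theorem rep_init (hS : 1 ≤ S) (z : Zt tm R) (hc : z.1.2.2 = true) :
    Rep yes S (rnd h ein yes R S w z) (toMc tm.m (initList tm (w.map ein.symm))) ∧
      (rnd h ein yes R S w z).1.2.2 = false := by
  obtain ⟨h1, h2⟩ := rnd_ini (h := h) (ein := ein) (yes := yes) (w := w) hS z hc
  refine ⟨⟨by rw [h1], al_M _ _, ?_⟩, by rw [h1]⟩
  refine rp_congr ?_ (rp_init w)
  intro j hj
  rw [h2 j hj]

end

/-- Finished computations. -/
def Dn {Γ : tm.K → Type} {Λ σ : Type} : Mc Γ Λ σ → Prop
  | .run _ _ _ => False
  | .done _ _ => True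

theorem dn_next {x : Mc tm.Γ tm.Λ tm.σ} (hx : Dn x) (n : ℕ) : (next tm.m)^[n] x = x := by
  rcases x with ⟨s, v, st⟩ | ⟨v, st⟩
  · exact hx.elim
  · induction n with
    | zero => rfl
    | succ n ih => rw [Function.iterate_succ_apply]; exact ih

/-- The statement belongs to the machine. -/
def InAl : Mc tm.Γ tm.Λ tm.σ → Prop
  | .run s _ _ => s ∈ Al tm.m
  | .done _ _ => True

theorem inAl_next {x : Mc tm.Γ tm.Λ tm.σ} (hx : InAl x) : InAl (next tm.m x) := by
  rcases x with ⟨s, v, st⟩ | ⟨v, st⟩
  · have hs : s ∈ Al tm.m := hx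
    cases s with
    | push k f q => exact al_sub hs (by simp [Subs, subs_self])
    | peek k f q => exact al_sub hs (by simp [Subs, subs_self])
    | pop k f q => exact al_sub hs (by simp [Subs, subs_self])
    | load a q => exact al_sub hs (by simp [Subs, subs_self])
    | branch f q₁ q₂ =>
      have h1 : next tm.m (.run (.branch f q₁ q₂) v st) =
        .run (bif f v then q₁ else q₂) v st := rfl
      rw [h1]
      refine al_sub hs ?_
      cases f v <;> simp [Subs, subs_self]
    | goto l => exact al_M _ _
    | halt => trivial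
  · trivial

theorem two_add_pow (x S : ℕ) (hS : 1 ≤ S) : x ^ S + 2 ≤ (x + 2) ^ S := by
  induction S with
  | zero => omega
  | succ S ih =>
    rcases Nat.eq_zero_or_pos S with h | h
    · subst h
      simp
    · have := ih h
      rw [pow_succ, pow_succ]
      nlinarith [Nat.zero_le (x ^ S)]

/-- Number of micro states. -/
noncomputable def nSt (tm : FinTM2) : ℕ := Nat.card ({s // s ∈ Al tm.m} × tm.σ)

/-- Number of cell contents. -/
noncomputable def nCe (tm : FinTM2) : ℕ := Nat.card (Cell tm)

/-- A halting computation in bounded space is short. -/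
theorem short (hf : ∀ k, Finite (tm.Γ k)) {x₀ : Mc tm.Γ tm.Λ tm.σ} (hx : InAl x₀) {S T : ℕ}
    (hl : ∀ t k, (stk ((next tm.m)^[t] x₀) k).length ≤ S) (hT : Dn ((next tm.m)^[T] x₀))
    (hmin : ∀ t < T, ¬ Dn ((next tm.m)^[t] x₀)) : T ≤ nSt tm * nCe tm ^ S := by
  classical
  have := @Finite.of_fintype tm.K tm.kFin
  have := @Finite.of_fintype tm.σ tm.σFin
  have := @Finite.of_fintype tm.Λ tm.ΛFin
  have : Finite {s // s ∈ Al tm.m} := (al_fin tm.m).to_subtype
  have hal : ∀ t, InAl ((next tm.m)^[t] x₀) := by
    intro t
    induction t with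
    | zero => exact hx
    | succ t ih =>
      rw [Function.iterate_succ_apply']
      exact inAl_next ih
  set g : Mc tm.Γ tm.Λ tm.σ → ({s // s ∈ Al tm.m} × tm.σ) × (Fin S → Cell tm) := fun x =>
    match x with
    | .run s v st => ((mkQ tm s, v), fun i k => (st k)[i.1]?)
    | .done v st => ((mkQ tm (tm.m tm.main), v), fun i k => (st k)[i.1]?) with hg
  have hinj : Injective (fun t : Fin T => g ((next tm.m)^[t.1] x₀)) := by
    have hlt : ∀ t t' : ℕ, t < t' → t' < T → g ((next tm.m)^[t] x₀) ≠ g ((next tm.m)^[t'] x₀) := by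
      intro t t' htt' ht' he
      have h1 := hmin t (by omega)
      have h2 := hmin t' ht'
      have h3 := hl t
      have h4 := hl t'
      have h5 := hal t
      have h6 := hal t'
      have heq : (next tm.m)^[t] x₀ = (next tm.m)^[t'] x₀ := by
        generalize (next tm.m)^[t] x₀ = a at *
        generalize (next tm.m)^[t'] x₀ = b at *
        rcases a with ⟨s, v, st⟩ | ⟨v, st⟩
        · rcases b with ⟨s', v', st'⟩ | ⟨v', st'⟩
          · simp only [hg, Prod.mk.injEq] at he
            obtain ⟨⟨he1, he2⟩, he3⟩ := he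
            have hs : s = s' := by
              rw [← mkQ_val tm (s := s) h5, ← mkQ_val tm (s := s') h6, he1]
            have hst : st = st' := by
              funext k
              apply List.ext_getElem?
              intro i
              by_cases hi : i < S
              · exact congrFun (congrFun he3 ⟨i, hi⟩) k
              · have e1 : (st k)[i]? = none :=
                  List.getElem?_eq_none (le_trans (show (st k).length ≤ S from h3 k) (by omega))
                have e2 : (st' k)[i]? = none :=
                  List.getElem?_eq_none (le_trans (show (st' k).length ≤ S from h4 k) (by omega))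
                rw [e1, e2]
            rw [hs, he2, hst]
          · exact absurd trivial h2
        · exact absurd trivial h1
      have h7 : (next tm.m)^[T] x₀ = (next tm.m)^[(T - t') + t] x₀ := by
        have e : T = (T - t') + t' := by omega
        rw [Function.iterate_add_apply, heq, ← Function.iterate_add_apply, ← e]
      rw [h7] at hT
      exact hmin _ (by omega) hT
    intro t t' he
    rcases lt_trichotomy t.1 t'.1 with h1 | h1 | h1
    · exact absurd he (hlt _ _ h1 t'.2)
    · exact Fin.ext h1
    · exact absurd he.symm (hlt _ _ h1 t.2)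
  have h8 := Nat.card_le_card_of_injective _ hinj
  rw [Nat.card_fin, Nat.card_prod, Nat.card_fun, Nat.card_fin] at h8
  exact h8

/-- Every language in PSPACE is described by a sweep system. -/
theorem sweep_of_pspace {L : Set Word} (hL : InPSPACE L) :
    ∃ (X : Sweep) (C c : ℕ), 1 ≤ C ∧ 1 ≤ c ∧ ∀ w : Word, w ∈ L ↔
      ∀ z : X.A × (ℕ → X.B), X.Acc (C * (w.length + 1) ^ c) w z := by
  classical
  obtain ⟨tm, ein, eout, C, c, hf, hw⟩ := hL
  let _ := tm.ΛFin
  set D : ℕ := Finset.univ.sup fun l => dp (tm.m l) with hD
  have hDl : ∀ l, dp (tm.m l) ≤ D := fun l =>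
    Finset.le_sup (f := fun l => dp (tm.m l)) (Finset.mem_univ l)
  set R : ℕ := nSt tm * nCe tm + 1 with hR
  set yes : tm.Γ tm.k₁ := eout.symm (some true) with hyes
  refine ⟨swp hf ein yes R, C + D + 1, c + 1, by omega, by omega, ?_⟩
  intro w
  obtain ⟨hw1, hw2, hw3⟩ := hw w
  set S : ℕ := (C + D + 1) * (w.length + 1) ^ (c + 1) with hSd
  have hpow : 1 ≤ (w.length + 1) ^ c := Nat.one_le_pow _ _ (by omega)
  have hpow' : (w.length + 1) ^ c ≤ (w.length + 1) ^ (c + 1) :=
    Nat.pow_le_pow_right (by omega) (by omega)
  have hS1 : C * (w.length + 1) ^ c + D ≤ S := by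
    rw [hSd]
    nlinarith [Nat.mul_le_mul_left C hpow', Nat.mul_le_mul_left D (hpow.trans hpow')]
  have hS : 1 ≤ S := Nat.mul_pos (by omega) (by omega)
  set x₀ : Mc tm.Γ tm.Λ tm.σ := toMc tm.m (initList tm (w.map ein.symm)) with hx₀
  -- lengths of the stacks
  have hlen : ∀ t k, (stk ((next tm.m)^[t] x₀) k).length ≤ S := by
    intro t k
    obtain ⟨d, m, h1, h2, h3⟩ := orbit tm.m (initList tm (w.map ein.symm)) t
    rw [hx₀, h2]
    have h4 := iter_len tm.m (toMc tm.m d) k m
    have h5 : m ≤ D := by
      rcases h3 with ⟨_, rfl⟩ | ⟨l, n, _, h6, h7, _⟩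
      · omega
      · have := hDl l
        omega
    have h6 : stk (toMc tm.m d) = d.stk := by
      obtain ⟨l, v, st⟩ := d
      cases l <;> rfl
    have h7 : (d.stk k).length ≤ space tm d := by
      let _ := tm.kFin
      unfold space
      exact Finset.single_le_sum (f := fun k => (d.stk k).length) (fun _ _ => Nat.zero_le _)
        (Finset.mem_univ k)
    have h8 := hw3 d h1
    rw [h6] at h4
    omega
  have hal : InAl x₀ := al_M tm.m tm.main
  -- final configurations
  have hout : ∀ a : tm.Γ tm.k₁, Nonempty (TM2Outputs tm (w.map ein.symm) (some [a])) →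
      ∃ t v st, (next tm.m)^[t] x₀ = .done v st ∧ (st tm.k₁).head? = some a := by
    rintro a ⟨⟨n, hn⟩⟩
    obtain ⟨t, ht⟩ := reaches_halt tm.m n _ _ hn
    refine ⟨t, _, _, ht, ?_⟩
    have e : (haltList tm [a]).stk tm.k₁ = [a] := dif_pos rfl
    exact (congrArg List.head? e).trans rfl
  constructor
  · -- members of the language
    intro hwL z
    obtain ⟨t, v, st, ht, hst⟩ := hout _ (hw1 hwL)
    have hex : ∃ t, Dn ((next tm.m)^[t] x₀) := ⟨t, by rw [ht]; trivial⟩
    set T := Nat.find hex with hT
    have hT1 : Dn ((next tm.m)^[T] x₀) := Nat.find_spec hex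
    have hT2 : ∀ t < T, ¬ Dn ((next tm.m)^[t] x₀) := fun t ht => Nat.find_min hex ht
    have hTt : T ≤ t := Nat.find_min' hex (by rw [ht]; trivial)
    have hTd : (next tm.m)^[T] x₀ = .done v st := by
      have e : t = (t - T) + T := by omega
      rw [e, Function.iterate_add_apply, dn_next hT1] at ht
      exact ht
    have hshort := short hf hal hlen hT1 hT2
    have hclock : T + 1 < (R + 1) ^ S := by
      have h1 := two_add_pow (nSt tm * nCe tm) S hS
      have h2 : nSt tm * nCe tm ^ S ≤ (nSt tm * nCe tm) ^ S := by
        rw [Nat.mul_pow]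
        apply Nat.mul_le_mul_right
        rcases Nat.eq_zero_or_pos (nSt tm) with h0 | h0
        · rw [h0]
          exact Nat.zero_le _
        · exact Nat.le_self_pow (by omega) _
      have e : R + 1 = nSt tm * nCe tm + 2 := rfl
      rw [e]
      omega
    obtain ⟨n, hn⟩ := overflow (h := hf) (ein := ein) (yes := yes) (S := S) (w := w) hS z
    set z₁ := (rnd hf ein yes R S w)^[n] z with hz₁
    obtain ⟨hr, hc⟩ := rep_init (h := hf) (ein := ein) (yes := yes) (w := w) hS z₁ hn
    have hk := clk_ini (h := hf) (ein := ein) (yes := yes) (w := w) hS z₁ hn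
    set z₂ := rnd hf ein yes R S w z₁ with hz₂
    have key : ∀ t ≤ T, ((rnd hf ein yes R S w)^[t] z₂).1.2.2 = false ∧
        clk S ((rnd hf ein yes R S w)^[t] z₂) = t ∧
        Rep yes S ((rnd hf ein yes R S w)^[t] z₂) ((next tm.m)^[t] x₀) := by
      intro t
      induction t with
      | zero => exact fun _ => ⟨hc, hk, hr⟩
      | succ t ih =>
        intro ht
        obtain ⟨h1, h2, h3⟩ := ih (by omega)
        rw [Function.iterate_succ_apply', Function.iterate_succ_apply']
        have h4 := h3.step (h := hf) (ein := ein) (w := w) hS h1 (hlen t)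
        rcases clk_run (h := hf) (ein := ein) (yes := yes) (w := w) hS _ h1 with h5 | h5
        · rw [h2] at h5
          omega
        · exact ⟨h5.1, by rw [h5.2, h2], h4⟩
    obtain ⟨_, _, h3⟩ := key T le_rfl
    rw [hTd] at h3
    have h4 : ((rnd hf ein yes R S w)^[T] z₂).1.1 =
        .inr (decide ((st tm.k₁).head? = some yes)) := h3
    rw [hst, decide_eq_true rfl] at h4
    refine ⟨T + (n + 1), ?_⟩
    have e1 : ((swp hf ein yes R).round S w)^[T + (n + 1)] z =
        (rnd hf ein yes R S w)^[T] z₂ := by
      rw [Function.iterate_add_apply, Function.iterate_succ_apply']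
      rfl
    rw [e1]
    change (match ((rnd hf ein yes R S w)^[T] z₂).1.1 with
      | .inl _ => false
      | .inr x => x) = true
    rw [h4]
  · -- the other words
    intro hall
    by_contra hwL
    obtain ⟨t, v, st, ht, hst⟩ := hout _ (hw2 hwL)
    have hne : (some (eout.symm (some false)) : Option (tm.Γ tm.k₁)) ≠ some yes := by
      intro he
      have := eout.symm.injective (Option.some_inj.mp he)
      simp at this
    -- finished computations do not accept
    have hrej : ∀ s v' st', (next tm.m)^[s] x₀ = .done v' st' →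
        (st' tm.k₁).head? ≠ some yes := by
      intro s v' st' hs
      have h1 : (next tm.m)^[s] x₀ = (next tm.m)^[t] x₀ := by
        have d1 : Dn ((next tm.m)^[s] x₀) := by rw [hs]; trivial
        have d2 : Dn ((next tm.m)^[t] x₀) := by rw [ht]; trivial
        rw [← dn_next d1 t, ← dn_next d2 s, ← Function.iterate_add_apply,
          ← Function.iterate_add_apply, Nat.add_comm]
      rw [hs, ht] at h1
      cases h1
      rw [hst]
      exact hne
    have hinv : ∀ n, (((rnd hf ein yes R S w)^[n]
        (((.inr false, .stay, true), fun _ => (fun _ => none, 0)) : Zt tm R)).1.1 ≠ .inr true) ∧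
        (((rnd hf ein yes R S w)^[n]
        (((.inr false, .stay, true), fun _ => (fun _ => none, 0)) : Zt tm R)).1.2.2 = true ∨
        ∃ s, Rep yes S ((rnd hf ein yes R S w)^[n]
        (((.inr false, .stay, true), fun _ => (fun _ => none, 0)) : Zt tm R))
          ((next tm.m)^[s] x₀)) := by
      intro n
      induction n with
      | zero => exact ⟨by simp, Or.inl rfl⟩
      | succ n ih =>
        rw [Function.iterate_succ_apply']
        set z := (rnd hf ein yes R S w)^[n]
          (((.inr false, .stay, true), fun _ => (fun _ => none, 0)) : Zt tm R) with hz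
        obtain ⟨h1, h2⟩ := ih
        have hfin : ∀ (z : Zt tm R) (s : ℕ), Rep yes S z ((next tm.m)^[s] x₀) →
            z.1.1 ≠ .inr true := by
          intro z s hr
          cases hx : (next tm.m)^[s] x₀ with
          | run s' v' st' =>
            rw [hx] at hr
            rw [hr.1]
            simp
          | done v' st' =>
            rw [hx] at hr
            have h3 : z.1.1 = .inr (decide ((st' tm.k₁).head? = some yes)) := hr
            rw [h3, decide_eq_false (hrej s v' st' hx)]
            simp
        cases hc : z.1.2.2 with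
        | true =>
          obtain ⟨hr, _⟩ := rep_init (h := hf) (ein := ein) (yes := yes) (w := w) hS z hc
          exact ⟨hfin _ 0 hr, Or.inr ⟨0, hr⟩⟩
        | false =>
          rcases h2 with h2 | ⟨s, h2⟩
          · rw [hc] at h2
            exact absurd h2 (by decide)
          · have h4 := h2.step (h := hf) (ein := ein) (w := w) hS hc (hlen s)
            rw [← Function.iterate_succ_apply' (next tm.m)] at h4
            exact ⟨hfin _ _ h4, Or.inr ⟨_, h4⟩⟩
    obtain ⟨n, hn⟩ := hall ((.inr false, .stay, true), fun _ => (fun _ => none, 0))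
    have h5 := (hinv n).1
    apply h5
    have h6 : (match ((rnd hf ein yes R S w)^[n]
        (((.inr false, .stay, true), fun _ => (fun _ => none, 0)) : Zt tm R)).1.1 with
      | .inl _ => false
      | .inr x => x) = true := hn
    revert h6
    cases ((rnd hf ein yes R S w)^[n]
        (((.inr false, .stay, true), fun _ => (fun _ => none, 0)) : Zt tm R)).1.1 with
    | inl x => simp
    | inr x => exact fun h6 => congrArg Sum.inr h6

end Pool.Agent.Helper69.Mix.TmSweep
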