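import Mathlib
import Pool.Agent.Helper69.Mix.Reduce
import Pool.Agent.Helper69.Mix.TmMain

/-!
# Colour mixing is PSPACE-hard
-/

namespace Pool.Agent.Helper69.Mix

/-- k-COLOUR-MIXING is PSPACE-hard for every `k ≥ 4`. -/
theorem colourMixing_hard (k : ℕ) (hk : 4 ≤ k) : PSPACEHard (ColourMixing k) := by
  intro L hL
  obtain ⟨X, C, c, hC, _, hX⟩ := TmSweep.sweep_of_pspace hL
  obtain ⟨r, rfl⟩ : ∃ r, k = 4 + r := ⟨k - 4, by omega⟩
  exact reduces_of_sweep hC hX r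

end Pool.Agent.Helper69.Mix
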