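import Mathlib
import Pool.Agent.Helper69.Mix.DecC

/-!
# The formula for the leaf
-/

namespace Pool.Agent.Helper69.Mix.Dec

open Function Helper69 Pool.Agent.Helper73.Mix

variable (k : ℕ)

/-- colour bit -/
def colT (i v c : Tm) : Tm := bT (ad (ml i (ad (ml (vv 0) (kk k)) (kk 1))) (ad (ml v (kk k)) c))
/-- selector bit -/
def selT (i : Tm) : Tm := bT (ad (ml i (ad (ml (vv 0) (kk k)) (kk 1))) (ml (vv 0) (kk k)))
/-- adjacency -/
def adjT (v w : Tm) : Tm := .sym (some true) (ad (kk 1) (ad (ml v (vv 0)) w))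

section
variable {k} {v : Word} {m n : ℕ} {e : ℕ → ℕ}

theorem tr_colT {i u c : Tm} (he : e 0 = n) : tr v m e (colT k i u c) ↔
    colBit n k (vb v n) (i.eval v m e) (u.eval v m e) (c.eval v m e) = true := by
  rw [colT, tr_bT, he, colBit]
  simp [Tm.eval, he]

theorem tr_selT {i : Tm} (he : e 0 = n) : tr v m e (selT k i) ↔
    selBit n k (vb v n) (i.eval v m e) = true := by
  rw [selT, tr_bT, he, selBit]
  simp [Tm.eval, he]

theorem tr_adjT {a b : Tm} (he : e 0 = n) : tr v m e (adjT a b) ↔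
    v[1 + (a.eval v m e * n + b.eval v m e)]? = some (some true) := by
  rw [adjT, tr_sym]
  simp [Tm.eval, he]

end

/-- proper colouring, level 3 -/
def PBT (i : Tm) : Tm :=
  andT (notT (exT (vv 0) (notT (exT (kk k) (andT (colT k i (vv 3) (vv 4))
    (notT (exT (kk k) (andT (colT k i (vv 3) (vv 5)) (notT (eqT (vv 5) (vv 4)))))))))))
  (notT (exT (vv 0) (exT (vv 0) (andT (adjT (vv 3) (vv 4))
    (exT (kk k) (andT (colT k i (vv 3) (vv 5)) (colT k i (vv 4) (vv 5))))))))

/-- at most one difference, level 3 -/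
def DBT (x y : Tm) : Tm :=
  exT (ad (vv 0) (kk 1)) (notT (exT (vv 0) (andT (notT (eqT (vv 4) (vv 3)))
    (exT (kk k) (notT (iffT (colT k x (vv 4) (vv 5)) (colT k y (vv 4) (vv 5))))))))

/-- number of blocks -/
def blT : Tm := ad (ml (vv 0) (kk k)) (kk 2)

/-- formula for `IsX`, level 3 -/
def isXT (x : Tm) : Tm :=
  orT (andT (eqT x (kk 0)) (notT (exT (blT k) (andT (notT (ltT (vv 3) (kk 2)))
    (selT k (vv 3))))))
  (andT (notT (ltT x (kk 2))) (andT (selT k x) (notT (exT (blT k) (andT (ltT x (vv 3))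
    (selT k (vv 3)))))))

/-- formula for `IsY`, level 3 -/
def isYT (x : Tm) : Tm :=
  orT (andT (eqT x (kk 1)) (notT (exT (blT k) (andT (notT (ltT (vv 3) (kk 2)))
    (notT (selT k (vv 3)))))))
  (andT (notT (ltT x (kk 2))) (andT (notT (selT k x)) (notT (exT (blT k) (andT (ltT x (vv 3))
    (notT (selT k (vv 3))))))))

/-- formula for the leaf, level 1 -/
def leafT : Tm :=
  exT (blT k) (exT (blT k) (orT (notT (PBT k (kk 0))) (orT (notT (PBT k (kk 1)))
    (andT (isXT k (vv 1)) (andT (isYT k (vv 2)) (andT (PBT k (vv 1)) (andT (PBT k (vv 2))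
      (DBT k (vv 1) (vv 2)))))))))

section
variable {k} {v : Word} {n : ℕ} {e : ℕ → ℕ}

theorem tr_PBT {i : Tm} {I : ℕ} (he : e 0 = n) (G : SimpleGraph (Fin n))
    (hG : ∀ u < n, ∀ x < n, (adjN n G u x ↔ v[1 + (u * n + x)]? = some (some true)))
    (hi : ∀ m' e', (∀ j < 3, e' j = e j) → i.eval v m' e' = I) :
    tr v 3 e (PBT k i) ↔ PB n k G (vb v n) I := by
  have h1 : ∀ a b, i.eval v 5 (update (update e 3 a) 4 b) = I := fun a b =>
    hi _ _ fun j hj => by rw [update_of_ne (by omega), update_of_ne (by omega)]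
  have h2 : ∀ a b c, i.eval v 6 (update (update (update e 3 a) 4 b) 5 c) = I := fun a b c =>
    hi _ _ fun j hj => by
      rw [update_of_ne (by omega), update_of_ne (by omega), update_of_ne (by omega)]
  have e1 : ∀ a b, update (update e 3 a) 4 b 0 = n := by
    intro a b
    simp [he]
  have e2 : ∀ a b c, update (update (update e 3 a) 4 b) 5 c 0 = n := by
    intro a b c
    simp [he]
  unfold PBT PB
  rw [tr_and]
  refine and_congr ?_ ?_
  · simp only [tr_not, tr_ex, tr_and, tr_eq, tr_colT (e1 _ _), tr_colT (e2 _ _ _), h1, h2,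
      Nat.reduceAdd, Tm.eval, he]
    simp
  · simp only [tr_not, tr_ex, tr_and, tr_colT (e2 _ _ _), h2,
      Nat.reduceAdd, Tm.eval, he, tr_adjT (e1 _ _)]
    simp only [not_exists, not_and, update_self, update_of_ne (show (0 : ℕ) ≠ 3 by decide),
      update_of_ne (show (3 : ℕ) ≠ 4 by decide), update_of_ne (show (3 : ℕ) ≠ 5 by decide),
      update_of_ne (show (4 : ℕ) ≠ 5 by decide), he]
    refine forall_congr' fun a => forall_congr' fun ha => forall_congr' fun b =>
      forall_congr' fun hb => ?_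
    rw [hG a ha b hb]

theorem tr_DBT {x y : Tm} {X Y : ℕ} (he : e 0 = n)
    (hx : ∀ m' e', (∀ j < 3, e' j = e j) → x.eval v m' e' = X)
    (hy : ∀ m' e', (∀ j < 3, e' j = e j) → y.eval v m' e' = Y) :
    tr v 3 e (DBT k x y) ↔ DB n k (vb v n) X Y := by
  have h1 : ∀ a b c, x.eval v 6 (update (update (update e 3 a) 4 b) 5 c) = X := fun a b c =>
    hx _ _ fun j hj => by
      rw [update_of_ne (by omega), update_of_ne (by omega), update_of_ne (by omega)]
  have h2 : ∀ a b c, y.eval v 6 (update (update (update e 3 a) 4 b) 5 c) = Y := fun a b c =>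
    hy _ _ fun j hj => by
      rw [update_of_ne (by omega), update_of_ne (by omega), update_of_ne (by omega)]
  have e2 : ∀ a b c, update (update (update e 3 a) 4 b) 5 c 0 = n := by
    intro a b c
    simp [he]
  unfold DBT DB
  simp only [tr_not, tr_ex, tr_and, tr_eq, tr_iffT, tr_colT (e2 _ _ _), h1, h2,
      Nat.reduceAdd, Tm.eval, he]
  have hb : ∀ x y : Bool, (x = true ↔ y = true) ↔ x = y := by decide
  simp [hb, he]

theorem tr_isXT {x : Tm} {X : ℕ} (he : e 0 = n)
    (hx : ∀ m' e', (∀ j < 3, e' j = e j) → x.eval v m' e' = X) :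
    tr v 3 e (isXT k x) ↔ IsX n k (vb v n) X := by
  have h0 : x.eval v 3 e = X := hx _ _ fun j hj => rfl
  have h1 : ∀ a, x.eval v 4 (update e 3 a) = X := fun a =>
    hx _ _ fun j hj => by rw [update_of_ne (by omega)]
  have e1 : ∀ a, update e 3 a 0 = n := by
    intro a
    simp [he]
  unfold isXT IsX blT
  simp only [tr_or, tr_not, tr_ex, tr_and, tr_eq, tr_lt, tr_selT he, tr_selT (e1 _), h0, h1,
      Nat.reduceAdd, Tm.eval, he]
  simp
  exact Iff.rfl

theorem tr_isYT {x : Tm} {X : ℕ} (he : e 0 = n)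
    (hx : ∀ m' e', (∀ j < 3, e' j = e j) → x.eval v m' e' = X) :
    tr v 3 e (isYT k x) ↔ IsY n k (vb v n) X := by
  have h0 : x.eval v 3 e = X := hx _ _ fun j hj => rfl
  have h1 : ∀ a, x.eval v 4 (update e 3 a) = X := fun a =>
    hx _ _ fun j hj => by rw [update_of_ne (by omega)]
  have e1 : ∀ a, update e 3 a 0 = n := by
    intro a
    simp [he]
  unfold isYT IsY blT
  simp only [tr_or, tr_not, tr_ex, tr_and, tr_eq, tr_lt, tr_selT he, tr_selT (e1 _), h0, h1,
      Nat.reduceAdd, Tm.eval, he]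
  simp
  exact Iff.rfl

theorem tr_leafT (v : Word) (n : ℕ) (G : SimpleGraph (Fin n))
    (hG : ∀ u < n, ∀ x < n, (adjN n G u x ↔ v[1 + (u * n + x)]? = some (some true))) :
    tr v 1 (e0 n) (leafT k) ↔ Leaf n k G (vb v n) := by
  have key : ∀ x y, tr v 3 (update (update (e0 n) 1 x) 2 y) (orT (notT (PBT k (kk 0)))
      (orT (notT (PBT k (kk 1))) (andT (isXT k (vv 1)) (andT (isYT k (vv 2))
      (andT (PBT k (vv 1)) (andT (PBT k (vv 2)) (DBT k (vv 1) (vv 2)))))))) ↔
      (¬ PB n k G (vb v n) 0 ∨ ¬ PB n k G (vb v n) 1 ∨ (IsX n k (vb v n) x ∧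
      IsY n k (vb v n) y ∧ PB n k G (vb v n) x ∧ PB n k G (vb v n) y ∧
      DB n k (vb v n) x y)) := by
    intro x y
    have he : update (update (e0 n) 1 x) 2 y 0 = n := by simp
    have hc : ∀ c m' e', (∀ j < 3, e' j = update (update (e0 n) 1 x) 2 y j) →
        (kk c).eval v m' e' = c := fun c m' e' _ => rfl
    have h1 : ∀ m' e', (∀ j < 3, e' j = update (update (e0 n) 1 x) 2 y j) →
        (vv 1).eval v m' e' = x := fun m' e' h => by
      rw [Tm.eval, h 1 (by omega)]
      simp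
    have h2 : ∀ m' e', (∀ j < 3, e' j = update (update (e0 n) 1 x) 2 y j) →
        (vv 2).eval v m' e' = y := fun m' e' h => by
      rw [Tm.eval, h 2 (by omega)]
      simp
    rw [tr_or, tr_or, tr_not, tr_not, tr_and, tr_and, tr_and, tr_and,
      tr_PBT he G hG (hc 0), tr_PBT he G hG (hc 1), tr_PBT he G hG h1, tr_PBT he G hG h2,
      tr_isXT he h1, tr_isYT he h2, tr_DBT he h1 h2]
  rw [leafT, tr_ex]
  have hb1 : (blT k).eval v 1 (e0 n) = n * k + 2 := by simp [blT, Tm.eval]
  have hb2 : ∀ x, (blT k).eval v (1 + 1) (update (e0 n) 1 x) = n * k + 2 := by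
    intro x
    simp [blT, Tm.eval]
  simp only [tr_ex, hb1, hb2, Nat.reduceAdd, key]
  unfold Leaf
  constructor
  · rintro ⟨x, hx, y, hy, h⟩ h0 h1
    rcases h with h | h | h
    · exact absurd h0 h
    · exact absurd h1 h
    · exact ⟨x, hx, y, hy, h⟩
  · intro h
    by_cases h0 : PB n k G (vb v n) 0
    · by_cases h1 : PB n k G (vb v n) 1
      · obtain ⟨x, hx, y, hy, h2⟩ := h h0 h1
        exact ⟨x, hx, y, hy, Or.inr (Or.inr h2)⟩
      · exact ⟨0, by omega, 0, by omega, Or.inr (Or.inl h1)⟩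
    · exact ⟨0, by omega, 0, by omega, Or.inl h0⟩

end

end Pool.Agent.Helper69.Mix.Dec
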