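import Mathlib
import Pool.Agent.Helper69.Mix.LeafT
import Pool.Agent.Helper69.Mix.Hardness
import Pool.Agent.Helper50.Mix.Loop

/-!
# Colour mixing is PSPACE-complete
-/

namespace Pool.Agent.Helper69.Mix

/-- k-COLOUR-MIXING is in PSPACE. -/
theorem colourMixing_inPSPACE (k : ℕ) : InPSPACE (ColourMixing k) := by
  obtain ⟨C, c, h1, h2⟩ := Dec.mix_em k (Dec.leafT k) (fun v n G hG => Dec.tr_leafT v n G hG)
  exact Pool.Agent.Helper50.Mix.inPSPACE_of_em _ _ _ C c h1 h2

/-- k-COLOUR-MIXING is PSPACE-complete for every `k ≥ 4`. -/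
theorem colourMixing_complete (k : ℕ) (hk : 4 ≤ k) : PSPACEComplete (ColourMixing k) :=
  ⟨colourMixing_inPSPACE k, colourMixing_hard k hk⟩

end Pool.Agent.Helper69.Mix
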